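import Mathlib

/-! Basic character sums over a finite field of odd characteristic. -/

namespace Pool.Agent.Lib.MP_a460e0_co.Br

open Finset ComplexConjugate

variable {F : Type} [Field F] [Fintype F] [DecidableEq F]

/-- The quadratic character, with complex values. -/
noncomputable def et (F : Type) [Field F] [Fintype F] [DecidableEq F] : MulChar F ℂ :=
  (quadraticChar F).ringHomComp (Int.castRingHom ℂ)

/-- A primitive additive character. -/
noncomputable def ps (F : Type) [Field F] [Fintype F] : AddChar F ℂ :=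
  AddChar.FiniteField.primitiveChar_to_Complex F

/-- The quadratic Gauss sum. -/
noncomputable def gs (F : Type) [Field F] [Fintype F] [DecidableEq F] : ℂ :=
  gaussSum (et F) (ps F)

lemma et_apply (a : F) : et F a = ((quadraticChar F a : ℤ) : ℂ) := rfl

lemma et_zero : et F 0 = 0 := MulChar.map_zero _

lemma et_dich {a : F} (ha : a ≠ 0) : et F a = 1 ∨ et F a = -1 := by
  rcases quadraticChar_dichotomy ha with h | h <;> simp [et_apply, h]

lemma et_mul_self {a : F} (ha : a ≠ 0) : et F a * et F a = 1 := by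
  rcases et_dich ha with h | h <;> simp [h]

lemma et_sq {a : F} (ha : a ≠ 0) : et F (a ^ 2) = 1 := by
  rw [sq, map_mul, et_mul_self ha]

lemma et_inv (a : F) : et F a⁻¹ = et F a := by
  rcases eq_or_ne a 0 with rfl | ha
  · simp
  have h1 : et F a⁻¹ * et F a = 1 := by rw [← map_mul, inv_mul_cancel₀ ha, map_one]
  calc et F a⁻¹ = et F a⁻¹ * (et F a * et F a) := by rw [et_mul_self ha, mul_one]
    _ = et F a := by rw [← mul_assoc, h1, one_mul]

lemma et_norm_le (a : F) : ‖et F a‖ ≤ 1 := by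
  rcases eq_or_ne a 0 with rfl | ha
  · simp [et_zero]
  rcases et_dich ha with h | h <;> simp [h]

lemma et_norm {a : F} (ha : a ≠ 0) : ‖et F a‖ = 1 := by
  rcases et_dich ha with h | h <;> simp [h]

lemma et_conj (a : F) : conj (et F a) = et F a := by simp [et_apply]

lemma et_im (a : F) : (et F a).im = 0 := by simp [et_apply]

lemma et_of_eq {a b c : F} (hc : c ≠ 0) (h : a = b * c ^ 2) : et F a = et F b := by
  rw [h, map_mul, et_sq hc, mul_one]

lemma et_ne_one (hF : ringChar F ≠ 2) : et F ≠ 1 := by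
  obtain ⟨a, ha⟩ := quadraticChar_exists_neg_one' hF
  intro h
  have h1 : et F a = 1 := by rw [h, MulChar.one_apply_coe]
  rw [et_apply, ha] at h1
  norm_num at h1

lemma exists_nonsq (hF : ringChar F ≠ 2) : ∃ e : F, et F e = -1 := by
  obtain ⟨a, ha⟩ := quadraticChar_exists_neg_one hF
  exact ⟨a, by simp [et_apply, ha]⟩

lemma et_sum (hF : ringChar F ≠ 2) : ∑ a : F, et F a = 0 :=
  MulChar.sum_eq_zero_of_ne_one (et_ne_one hF)

lemma card_sqrt (hF : ringChar F ≠ 2) (a : F) :
    ((#(univ.filter fun y : F => y ^ 2 = a) : ℕ) : ℂ) = 1 + et F a := by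
  have h := quadraticChar_card_sqrts hF a
  rw [Set.toFinset_ofPred] at h
  rw [et_apply, add_comm]
  exact_mod_cast congrArg (fun z : ℤ => (z : ℂ)) h

lemma sum_sqrt (hF : ringChar F ≠ 2) (a : F) :
    ∑ y : F, (if y ^ 2 = a then (1 : ℂ) else 0) = 1 + et F a := by
  rw [← card_sqrt hF a, sum_boole]

lemma sum_sq_eq (hF : ringChar F ≠ 2) (f : F → ℂ) :
    ∑ y : F, f (y ^ 2) = ∑ t : F, (1 + et F t) * f t := by
  simp_rw [← sum_sqrt hF, sum_mul]
  rw [sum_comm]
  refine sum_congr rfl fun y _ => ?_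
  simp

lemma card_sqrt_le (a : F) : #(univ.filter fun y : F => y ^ 2 = a) ≤ 2 := by
  by_cases h : ∃ b : F, b ^ 2 = a
  · obtain ⟨b, rfl⟩ := h
    refine (card_le_card (t := {b, -b}) fun y hy => ?_).trans card_le_two
    simpa [sq_eq_sq_iff_eq_or_eq_neg] using (mem_filter.1 hy).2
  · rw [filter_eq_empty_iff.2 fun y _ hy => h ⟨y, hy⟩]; simp

lemma ps_prim : (ps F).IsPrimitive := AddChar.FiniteField.primitiveChar_to_Complex_isPrimitive F

lemma ps_add (a b : F) : ps F (a + b) = ps F a * ps F b := AddChar.map_add_eq_mul _ _ _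

lemma ps_zero : ps F 0 = 1 := AddChar.map_zero_eq_one _

lemma ps_conj (a : F) : conj (ps F a) = ps F (-a) := (AddChar.map_neg_eq_conj _ _).symm

lemma ps_norm (a : F) : ‖ps F a‖ = 1 := AddChar.norm_apply _ _

lemma ps_sum (b : F) : ∑ s : F, ps F (s * b) = if b = 0 then (Fintype.card F : ℂ) else 0 := by
  rw [AddChar.sum_mulShift b ps_prim]
  split_ifs <;> simp

lemma gs_sq (hF : ringChar F ≠ 2) : gs F ^ 2 = et F (-1) * Fintype.card F :=
  gaussSum_sq (et_ne_one hF) ((quadraticChar_isQuadratic F).comp _) ps_prim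

lemma gs_norm_sq (hF : ringChar F ≠ 2) : ‖gs F‖ ^ 2 = Fintype.card F := by
  rw [← norm_pow, gs_sq hF, norm_mul, et_norm (neg_ne_zero.2 one_ne_zero)]
  simp

lemma gs_ne (hF : ringChar F ≠ 2) : gs F ≠ 0 := by
  intro h
  have := gs_norm_sq hF
  rw [h, norm_zero] at this
  have h2 : (0 : ℝ) < Fintype.card F := by exact_mod_cast Fintype.card_pos
  linarith

lemma et_ps_sum (hF : ringChar F ≠ 2) (a : F) :
    ∑ s : F, et F s * ps F (s * a) = et F a * gs F := by
  rcases eq_or_ne a 0 with rfl | ha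
  · simp [ps_zero, et_sum hF, et_zero]
  rw [gs, gaussSum, ← Equiv.sum_comp (Equiv.mulRight₀ a ha) (fun s => et F s * ps F s), mul_sum]
  refine sum_congr rfl fun s _ => ?_
  simp only [Equiv.mulRight₀_apply, map_mul]
  linear_combination (-et F s * ps F (s * a)) * et_mul_self ha

lemma gauss1 (hF : ringChar F ≠ 2) {a : F} (ha : a ≠ 0) (b : F) :
    ∑ y : F, ps F (a * y ^ 2 + b * y) = et F a * gs F * ps F (-(b ^ 2 / (4 * a))) := by
  have h2 : (2 : F) ≠ 0 := Ring.two_ne_zero hF
  have h4 : (4 : F) ≠ 0 := by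
    have : (4 : F) = 2 * 2 := by norm_num
    rw [this]; exact mul_ne_zero h2 h2
  have h1 : ∑ y : F, ps F (y ^ 2 * a) = et F a * gs F := by
    rw [sum_sq_eq hF (fun t => ps F (t * a))]
    simp_rw [add_mul, one_mul]
    rw [sum_add_distrib, ps_sum, et_ps_sum hF, if_neg ha, zero_add]
  rw [← h1, sum_mul, ← Equiv.sum_comp (Equiv.addRight (b / (2 * a)))
    (fun y => ps F (y ^ 2 * a) * ps F (-(b ^ 2 / (4 * a))))]
  refine sum_congr rfl fun y _ => ?_
  rw [← ps_add]
  congr 1
  simp only [Equiv.coe_addRight]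
  field_simp
  ring

lemma quad_sum (hF : ringChar F ≠ 2) {a b c : F} (h : b ^ 2 - 4 * a * c ≠ 0) :
    ∑ r : F, et F (a * r ^ 2 + b * r + c) = -et F a := by
  have h2 : (2 : F) ≠ 0 := Ring.two_ne_zero hF
  have h4 : (4 : F) ≠ 0 := by
    have : (4 : F) = 2 * 2 := by norm_num
    rw [this]; exact mul_ne_zero h2 h2
  rcases eq_or_ne a 0 with rfl | ha
  · have hb : b ≠ 0 := by rintro rfl; simp at h
    rw [et_zero, neg_zero, ← et_sum hF,
      ← ((Equiv.mulLeft₀ b hb).trans (Equiv.addRight c)).sum_comp (fun t => et F t)]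
    refine sum_congr rfl fun r _ => ?_
    simp
  apply mul_right_cancel₀ (gs_ne hF)
  rw [sum_mul]
  simp_rw [← et_ps_sum hF]
  rw [sum_comm]
  have h3 : ∀ s : F, ∑ r : F, et F s * ps F (s * (a * r ^ 2 + b * r + c)) =
      et F a * gs F * (ps F (s * (c - b ^ 2 / (4 * a))) - if s = 0 then 1 else 0) := by
    intro s
    rcases eq_or_ne s 0 with rfl | hs
    · simp [et_zero, ps_zero]
    have h5 := gauss1 hF (mul_ne_zero hs ha) (s * b)
    have h6 : ∀ r : F, ps F (s * (a * r ^ 2 + b * r + c)) =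
        ps F (s * a * r ^ 2 + s * b * r) * ps F (s * c) := fun r => by
      rw [← ps_add]; congr 1; ring
    have h7 : ps F (s * (c - b ^ 2 / (4 * a))) =
        ps F (-((s * b) ^ 2 / (4 * (s * a)))) * ps F (s * c) := by
      rw [← ps_add]; congr 1; field_simp; ring
    simp_rw [h6]
    rw [← mul_sum, ← sum_mul, h5, h7, if_neg hs, map_mul]
    linear_combination (et F a * gs F * ps F (-((s * b) ^ 2 / (4 * (s * a)))) * ps F (s * c)) *
      et_mul_self hs
  rw [sum_congr rfl fun s _ => h3 s, ← mul_sum, sum_sub_distrib, ps_sum, if_neg]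
  · simp
  · intro h8
    apply h
    field_simp at h8
    linear_combination -h8

lemma et_corr (hF : ringChar F ≠ 2) (t t' : F) :
    ∑ c : F, et F (t - c) * et F (t' - c) =
      if t = t' then (Fintype.card F : ℂ) - 1 else -1 := by
  split_ifs with h
  · subst h
    rw [← Equiv.sum_comp (Equiv.subLeft t) (fun c => et F (t - c) * et F (t - c))]
    have : ∀ c : F, et F c * et F c = 1 - if c = 0 then 1 else 0 := fun c => by
      split_ifs with hc
      · simp [hc, et_zero]
      · simp [et_mul_self hc]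
    simp [this]
  · have h1 := quad_sum hF (a := 1) (b := -(t + t')) (c := t * t') (by
      intro h2
      apply h
      have : (t - t') ^ 2 = 0 := by linear_combination h2
      exact sub_eq_zero.1 (pow_eq_zero_iff two_ne_zero |>.1 this))
    rw [map_one] at h1
    rw [← h1]
    refine sum_congr rfl fun c _ => ?_
    rw [← map_mul]; congr 1; ring

end Pool.Agent.Lib.MP_a460e0_co.Br
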