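import Pool.Agent.Lib.MP_a460e0_co.BrA
import Pool.Agent.Lib.MP_3bfe94_nt.Weil

/-! Norm-one tori of quadratic algebras, their characters, and Legendre-type sums. -/

namespace Pool.Agent.Lib.MP_a460e0_co.Br

open Finset ComplexConjugate

variable {F : Type} [Field F] [Fintype F] [DecidableEq F]

abbrev A (D : F) : Type := QuadraticAlgebra F D 0

noncomputable instance (D : F) : Fintype (A D) :=
  Fintype.ofEquiv _ (QuadraticAlgebra.equivProd D 0).symm

noncomputable instance (D : F) : DecidableEq (A D) := Classical.decEq _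

variable {D : F}

attribute [local simp] QuadraticAlgebra.re_one QuadraticAlgebra.im_one

omit [Fintype F] [DecidableEq F] in
lemma eq_one_of_re (hD : D ≠ 0) {u : A D} (hu : u.re ^ 2 - D * u.im ^ 2 = 1) (h4 : u.re = 1) :
    u = 1 := by
  have h5 : D * u.im ^ 2 = 0 := by rw [h4] at hu; linear_combination -hu
  ext
  · simpa using h4
  · simpa [hD] using h5

omit [Fintype F] [DecidableEq F] in
lemma nm (z : A D) : z.norm = z.re ^ 2 - D * z.im ^ 2 := by
  rw [QuadraticAlgebra.norm_def]; ring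

omit [DecidableEq F] in
lemma sum_A (f : A D → ℂ) : ∑ z : A D, f z = ∑ a : F, ∑ b : F, f ⟨a, b⟩ := by
  rw [← Equiv.sum_comp (QuadraticAlgebra.equivProd D 0).symm f, Fintype.sum_prod_type]
  rfl

omit [DecidableEq F] in
lemma card_A : Fintype.card (A D) = Fintype.card F ^ 2 := by
  rw [Fintype.card_congr (QuadraticAlgebra.equivProd D 0), Fintype.card_prod, sq]

/-- The norm-one torus. -/
noncomputable def TT (D : F) : Finset (A D) := univ.filter fun u => u.norm = 1

lemma mem_TT {u : A D} : u ∈ TT D ↔ u.norm = 1 := by simp [TT]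

omit [Fintype F] [DecidableEq F] in
lemma mul_star_eq (z : A D) : z * star z = z.norm • (1 : A D) := by
  rw [← QuadraticAlgebra.algebraMap_norm_eq_mul_star, Algebra.algebraMap_eq_smul_one]

omit [Fintype F] [DecidableEq F] in
lemma mul_star_one {u : A D} (hu : u.norm = 1) : u * star u = 1 := by
  rw [mul_star_eq, hu, one_smul]

omit [Fintype F] [DecidableEq F] in
lemma nm_smul (c : F) (z : A D) : (c • z).norm = c ^ 2 * z.norm := by
  simp only [nm, QuadraticAlgebra.re_smul, QuadraticAlgebra.im_smul, smul_eq_mul]; ring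

/-- A character of the torus, extended arbitrarily to the algebra. -/
structure IsCh (X : A D → ℂ) : Prop where
  mul : ∀ u v : A D, u.norm = 1 → v.norm = 1 → X (u * v) = X u * X v
  nrm : ∀ u : A D, u.norm = 1 → ‖X u‖ = 1
  cj : ∀ u : A D, u.norm = 1 → X (star u) = conj (X u)
  one : X 1 = 1

lemma sum_TT_mul (v : A D) (hv : v.norm = 1) (f : A D → ℂ) :
    ∑ u ∈ TT D, f u = ∑ u ∈ TT D, f (u * v) := by
  symm
  refine sum_nbij' (fun u => u * v) (fun u => u * star v) ?_ ?_ ?_ ?_ fun _ _ => rfl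
  · intro u hu; rw [mem_TT] at hu ⊢; rw [map_mul, hu, hv, mul_one]
  · intro u hu; rw [mem_TT] at hu ⊢; rw [map_mul, hu, QuadraticAlgebra.norm_star, hv, mul_one]
  · intro u _; rw [mul_assoc, mul_star_one hv, mul_one]
  · intro u _; rw [mul_assoc, mul_comm (star v), mul_star_one hv, mul_one]

lemma card_TT (hF : ringChar F ≠ 2) (hD : D ≠ 0) :
    ((#(TT D) : ℕ) : ℂ) = Fintype.card F - et F D := by
  rw [TT, ← sum_boole, sum_A]
  have h1 : ∀ a : F, ∑ b : F, (if (⟨a, b⟩ : A D).norm = 1 then (1 : ℂ) else 0) =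
      1 + et F (D⁻¹ * a ^ 2 + 0 * a + -D⁻¹) := by
    intro a
    rw [← sum_sqrt hF]
    refine sum_congr rfl fun b _ => if_congr ?_ rfl rfl
    rw [nm]
    constructor
    · intro h; field_simp; linear_combination -h
    · intro h; field_simp at h; linear_combination -h
  rw [sum_congr rfl fun a _ => h1 a, sum_add_distrib, quad_sum hF, et_inv]
  · simp [sub_eq_add_neg]
  · have h4 : (4 : F) ≠ 0 := by
      have : (4 : F) = 2 * 2 := by norm_num
      rw [this]; exact mul_ne_zero (Ring.two_ne_zero hF) (Ring.two_ne_zero hF)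
    simp [h4, hD]

lemma card_TT_bd (hF : ringChar F ≠ 2) (hD : D ≠ 0) :
    (Fintype.card F : ℝ) - 1 ≤ #(TT D) ∧ (#(TT D) : ℝ) ≤ Fintype.card F + 1 := by
  have h := card_TT hF hD
  rcases et_dich hD with h1 | h1 <;> rw [h1] at h
  · have : ((#(TT D) : ℕ) : ℝ) = Fintype.card F - 1 := by exact_mod_cast h
    constructor <;> linarith
  · have : ((#(TT D) : ℕ) : ℝ) = Fintype.card F - -1 := by exact_mod_cast h
    constructor <;> linarith

/-- The family of all characters of the torus. -/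
lemma exists_family (D : F) : ∃ (ι : Type) (_ : Fintype ι) (X : ι → A D → ℂ),
    (∀ i, IsCh (X i)) ∧ Fintype.card ι = #(TT D) ∧
    ∀ u : A D, u.norm = 1 → ∑ i, X i u = if u = 1 then (#(TT D) : ℂ) else 0 := by
  classical
  have hc : Fintype.card (Additive (unitary (A D))) = #(TT D) := by
    rw [Fintype.card_additive, TT, Fintype.card_subtype]
    congr 1
    ext u
    simp [QuadraticAlgebra.norm_eq_one_iff_mem_unitary]
  refine ⟨AddChar (Additive (unitary (A D))) ℂ, inferInstance,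
    fun ψ z => if h : z.norm = 1 then
      ψ (Additive.ofMul ⟨z, QuadraticAlgebra.mem_unitary h⟩) else 0, fun ψ => ⟨?_, ?_, ?_, ?_⟩,
    by rw [AddChar.card_eq, hc], ?_⟩
  · intro u v hu hv
    beta_reduce
    rw [dif_pos hu, dif_pos hv, dif_pos (by rw [map_mul, hu, hv, mul_one]),
      ← AddChar.map_add_eq_mul]
    rfl
  · intro u hu
    beta_reduce
    rw [dif_pos hu, AddChar.norm_apply]
  · intro u hu
    beta_reduce
    rw [dif_pos hu, dif_pos (by rw [QuadraticAlgebra.norm_star, hu]), ← AddChar.map_neg_eq_conj]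
    rfl
  · beta_reduce
    rw [dif_pos QuadraticAlgebra.norm_one]
    exact AddChar.map_zero_eq_one _
  · intro u hu
    simp only [dif_pos hu]
    rw [AddChar.sum_apply_eq_ite, hc]
    refine if_congr ?_ rfl rfl
    rw [ofMul_eq_zero, Subtype.ext_iff]
    rfl

/-- The Legendre-type sum. -/
noncomputable def Leg (X : A D → ℂ) (α β : F) : ℂ := ∑ u ∈ TT D, X u * et F (α + β * u.re)

/-- The character `z ↦ X (z / z̄) η (N z)` of the algebra. -/
noncomputable def Om (X : A D → ℂ) (z : A D) : ℂ := X ((z.norm)⁻¹ • (z * z)) * et F z.norm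

omit [Fintype F] [DecidableEq F] in
lemma nm_rho {z : A D} (hz : z.norm ≠ 0) : ((z.norm)⁻¹ • (z * z)).norm = 1 := by
  rw [nm_smul, map_mul]; field_simp

lemma Om_zero (X : A D → ℂ) {z : A D} (hz : z.norm = 0) : Om X z = 0 := by
  rw [Om, hz, et_zero, mul_zero]

lemma Om_mul {X : A D → ℂ} (hX : IsCh X) (z w : A D) : Om X (z * w) = Om X z * Om X w := by
  by_cases hz : z.norm = 0
  · rw [Om_zero X hz, Om_zero X (by rw [map_mul, hz, zero_mul]), zero_mul]
  by_cases hw : w.norm = 0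
  · rw [Om_zero X hw, Om_zero X (by rw [map_mul, hw, mul_zero]), mul_zero]
  have : ((z * w).norm)⁻¹ • (z * w * (z * w)) =
      ((z.norm)⁻¹ • (z * z)) * ((w.norm)⁻¹ • (w * w)) := by
    rw [smul_mul_smul_comm, map_mul, mul_inv]; congr 1; ring
  rw [Om, Om, Om, this, hX.mul _ _ (nm_rho hz) (nm_rho hw), map_mul, map_mul]
  ring

lemma Om_norm {X : A D → ℂ} (hX : IsCh X) (z : A D) : ‖Om X z‖ ≤ 1 := by
  by_cases hz : z.norm = 0
  · rw [Om_zero X hz]; simp
  rw [Om, norm_mul, hX.nrm _ (nm_rho hz), one_mul]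
  exact et_norm_le _

lemma Om_const {X : A D → ℂ} (hX : IsCh X) {c : F} (hc : c ≠ 0) : Om X ⟨c, 0⟩ = 1 := by
  have h1 : (⟨c, 0⟩ : A D).norm = c ^ 2 := by simp [nm]
  have h2 : (c ^ 2)⁻¹ • ((⟨c, 0⟩ : A D) * ⟨c, 0⟩) = 1 := by
    ext <;> simp
    field_simp
  rw [Om, h1, h2, hX.one, et_sq hc, one_mul]

lemma Om_scale {X : A D → ℂ} (hX : IsCh X) {c : F} (hc : c ≠ 0) (a b : F) :
    Om X ⟨c * a, c * b⟩ = Om X ⟨a, b⟩ := by
  have : (⟨c * a, c * b⟩ : A D) = ⟨c, 0⟩ * ⟨a, b⟩ := by ext <;> simp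
  rw [this, Om_mul hX, Om_const hX hc, one_mul]

lemma leg_param (hF : ringChar F ≠ 2) (hD : D ≠ 0) {X : A D → ℂ} (hX : IsCh X) (α β : F) :
    Leg X α β = et F (α + β) +
      ∑ s : F, Om X ⟨s, 1⟩ * et F ((α + β) * s ^ 2 - (α - β) * D) := by
  have h2 : (2 : F) ≠ 0 := Ring.two_ne_zero hF
  have h1 : (1 : A D) ∈ TT D := mem_TT.2 (map_one _)
  rw [Leg, ← add_sum_erase _ _ h1, hX.one, one_mul]
  congr 1
  · simp
  rw [← sum_filter_of_ne (p := fun s => s ^ 2 - D ≠ 0) (s := univ) (fun s _ h h0 => h (by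
    rw [Om_zero X (by simpa [nm] using h0), zero_mul]))]
  symm
  refine sum_nbij' (fun s => ⟨(s ^ 2 + D) / (s ^ 2 - D), 2 * s / (s ^ 2 - D)⟩)
    (fun u => D * u.im / (u.re - 1)) ?_ ?_ ?_ ?_ ?_
  · intro s hs
    have hs' := (mem_filter.1 hs).2
    refine mem_erase.2 ⟨fun h => ?_, mem_TT.2 ?_⟩
    · have := congrArg QuadraticAlgebra.re h
      simp only [QuadraticAlgebra.re_one] at this
      field_simp at this
      exact mul_ne_zero h2 hD (by linear_combination this)
    · rw [nm]; field_simp; ring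
  · intro u hu
    obtain ⟨hu1, hu2⟩ := mem_erase.1 hu
    rw [mem_TT, nm] at hu2
    have h3 : u.re - 1 ≠ 0 := fun h => hu1 (eq_one_of_re hD hu2 (by linear_combination h))
    refine mem_filter.2 ⟨mem_univ _, fun h => ?_⟩
    field_simp at h
    apply mul_ne_zero (mul_ne_zero h2 hD) h3
    linear_combination h + D * hu2
  · intro s hs
    have hs' := (mem_filter.1 hs).2
    have h3 : (s ^ 2 + D) / (s ^ 2 - D) - 1 = 2 * D / (s ^ 2 - D) := by field_simp; ring
    simp only [h3]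
    field_simp
  · intro u hu
    obtain ⟨hu1, hu2⟩ := mem_erase.1 hu
    rw [mem_TT, nm] at hu2
    have h3 : u.re - 1 ≠ 0 := fun h => hu1 (eq_one_of_re hD hu2 (by linear_combination h))
    have h6 : (D * u.im / (u.re - 1)) ^ 2 - D = 2 * D / (u.re - 1) := by
      field_simp; linear_combination -hu2
    ext
    · simp only [h6]; field_simp; linear_combination -hu2
    · simp only [h6]; field_simp
  · intro s hs
    have hs' := (mem_filter.1 hs).2
    have h3 : (⟨s, 1⟩ : A D).norm = s ^ 2 - D := by simp [nm]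
    have h4 : (s ^ 2 - D)⁻¹ • ((⟨s, 1⟩ : A D) * ⟨s, 1⟩) =
        ⟨(s ^ 2 + D) / (s ^ 2 - D), 2 * s / (s ^ 2 - D)⟩ := by
      ext <;> simp <;> field_simp
      ring
    rw [Om, h3, h4, mul_assoc, ← map_mul]
    congr 1
    refine et_of_eq hs' ?_
    field_simp
    ring

/-- The exceptional character. -/
def Exc (X : A D → ℂ) : Prop := ∀ z : A D, z.norm ≠ 0 → Om X z = 1

lemma leg_exc (hF : ringChar F ≠ 2) (hD : D ≠ 0) {X : A D → ℂ} (hX : IsCh X) (he : Exc X)
    {α β : F} (h1 : α + β ≠ 0) (h2 : α - β ≠ 0) : ‖Leg X α β‖ ≤ 2 := by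
  have h4 : (4 : F) ≠ 0 := by
    have : (4 : F) = 2 * 2 := by norm_num
    rw [this]; exact mul_ne_zero (Ring.two_ne_zero hF) (Ring.two_ne_zero hF)
  have h3 := quad_sum hF (a := α + β) (b := 0) (c := -((α - β) * D)) (by simp [h1, h2, hD, h4])
  have h5 : ∀ s : F, Om X ⟨s, 1⟩ * et F ((α + β) * s ^ 2 - (α - β) * D) =
      et F ((α + β) * s ^ 2 + 0 * s + -((α - β) * D)) -
        if s ^ 2 = D then et F ((α + β) * s ^ 2 - (α - β) * D) else 0 := by
    intro s
    have : (α + β) * s ^ 2 + 0 * s + -((α - β) * D) = (α + β) * s ^ 2 - (α - β) * D := by ring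
    rw [this]
    split_ifs with h
    · rw [Om_zero X (by simp [nm, h])]; simp
    · rw [he _ (by simpa [nm, sub_eq_zero] using h)]; simp
  rw [leg_param hF hD hX, sum_congr rfl fun s _ => h5 s, sum_sub_distrib, h3, ← sum_filter]
  simp only [add_sub, add_neg_cancel, zero_sub, norm_neg]
  refine (norm_sum_le _ _).trans ((sum_le_card_nsmul _ _ 1 fun s _ => et_norm_le _).trans ?_)
  rw [nsmul_eq_mul, mul_one]
  exact_mod_cast card_sqrt_le D

lemma Om_line {X : A D → ℂ} (hX : IsCh X) (he : ¬ Exc X) : ∑ s : F, Om X ⟨s, 1⟩ = -1 := by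
  simp only [Exc, not_forall] at he
  obtain ⟨z, hz, hz1⟩ := he
  have h0 : ∑ w : A D, Om X w = 0 := by
    have hu : IsUnit z := QuadraticAlgebra.isUnit_iff_norm_isUnit.2 (Ne.isUnit hz)
    have h1 := Equiv.sum_comp (hu.unit.mulLeft) (Om X)
    simp only [Units.mulLeft_apply, IsUnit.unit_spec, Om_mul hX, ← mul_sum] at h1
    have : (Om X z - 1) * ∑ w : A D, Om X w = 0 := by linear_combination h1
    exact (mul_eq_zero.1 this).resolve_left (sub_ne_zero.2 hz1)
  rw [sum_A, sum_comm] at h0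
  have h2 : ∀ b : F, ∑ a : F, Om X ⟨a, b⟩ =
      ∑ s : F, Om X ⟨s, 1⟩ + if b = 0 then Fintype.card F - 1 - ∑ s : F, Om X ⟨s, 1⟩ else 0 := by
    intro b
    split_ifs with hb
    · subst hb
      have : ∀ a : F, Om X ⟨a, 0⟩ = 1 - if a = 0 then 1 else 0 := fun a => by
        split_ifs with ha
        · rw [Om_zero X (by simp [nm, ha])]; simp
        · simp [Om_const hX ha]
      simp [this]
    · rw [add_zero, ← Equiv.sum_comp (Equiv.mulLeft₀ b hb)]
      refine sum_congr rfl fun s _ => ?_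
      rw [← Om_scale hX hb s 1, mul_one]; rfl
  rw [sum_congr rfl fun b _ => h2 b, sum_add_distrib] at h0
  simp only [sum_const, card_univ, nsmul_eq_mul, sum_ite_eq', mem_univ, if_true] at h0
  have h3 : (Fintype.card F : ℂ) - 1 ≠ 0 := by
    rw [sub_ne_zero]; exact_mod_cast Fintype.one_lt_card.ne'
  apply mul_left_cancel₀ h3
  linear_combination h0

lemma leg_pm (hF : ringChar F ≠ 2) (hD : D ≠ 0) {X : A D → ℂ} (hX : IsCh X) (he : ¬ Exc X)
    {α β : F} (h : α + β = 0 ∨ α - β = 0) : ‖Leg X α β‖ ≤ 1 := by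
  rw [leg_param hF hD hX]
  rcases h with h | h
  · simp only [h, et_zero, zero_mul, zero_add, ← sum_mul, Om_line hX he, norm_mul]
    simpa using et_norm_le _
  · have h5 : ∀ s : F, Om X ⟨s, 1⟩ * et F ((α + β) * s ^ 2 - (α - β) * D) =
        Om X ⟨s, 1⟩ * et F (α + β) - if s = 0 then Om X ⟨0, 1⟩ * et F (α + β) else 0 := by
      intro s
      split_ifs with hs
      · simp [hs, h, et_zero]
      · rw [h, zero_mul, sub_zero, map_mul, et_sq hs]; simp
    rw [sum_congr rfl fun s _ => h5 s, sum_sub_distrib, ← sum_mul, Om_line hX he]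
    simp only [sum_ite_eq', mem_univ, if_true]
    have : et F (α + β) + (-1 * et F (α + β) - Om X ⟨0, 1⟩ * et F (α + β)) =
      -(Om X ⟨0, 1⟩ * et F (α + β)) := by ring
    rw [this, norm_neg, norm_mul]
    exact mul_le_one₀ (Om_norm hX _) (norm_nonneg _) (et_norm_le _)

end Pool.Agent.Lib.MP_a460e0_co.Br
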