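import Pool.Agent.Lib.MP_a460e0_co.BrB

/-! The Weil bound for the Legendre-type sums, by lifting to the quadratic extension. -/

namespace Pool.Agent.Lib.MP_a460e0_co.Br

open Finset ComplexConjugate

variable {F : Type} [Field F] [Fintype F] [DecidableEq F]

attribute [local simp] QuadraticAlgebra.re_one QuadraticAlgebra.im_one

lemma lift2 (hF : ringChar F ≠ 2) {e : F} (he : et F e = -1) (L : F → F → ℂ) :
    ∑ s : F, ∑ t : F, L (s + t) (s * t) + ∑ x : A e, L (2 * x.re) x.norm =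
      2 * ∑ b : F, ∑ c : F, L b c := by
  have h2 : (2 : F) ≠ 0 := Ring.two_ne_zero hF
  have h4 : (4 : F) ≠ 0 := by
    have : (4 : F) = 2 * 2 := by norm_num
    rw [this]; exact mul_ne_zero h2 h2
  have he0 : e ≠ 0 := by rintro rfl; simp [et_zero] at he
  have h1 : ∑ s : F, ∑ t : F, L (s + t) (s * t) =
      ∑ b : F, ∑ t : F, (1 + et F t) * L b ((b ^ 2 - t) / 4) := by
    have : ∀ s : F, ∑ t : F, L (s + t) (s * t) = ∑ b : F, L b (s * (b - s)) := fun s => by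
      rw [← Equiv.sum_comp (Equiv.subRight s)]
      simp
    rw [sum_congr rfl fun s _ => this s, sum_comm]
    refine sum_congr rfl fun b _ => ?_
    rw [← sum_sq_eq hF (fun t => L b ((b ^ 2 - t) / 4)),
      ← Equiv.sum_comp ((Equiv.mulLeft₀ 2 h2).trans (Equiv.subRight b))
        (fun y => L b ((b ^ 2 - y ^ 2) / 4))]
    refine sum_congr rfl fun s _ => ?_
    congr 1
    simp only [Equiv.trans_apply, Equiv.mulLeft₀_apply, Equiv.subRight_apply]
    field_simp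
    ring
  have h3 : ∑ x : A e, L (2 * x.re) x.norm =
      ∑ b : F, ∑ t : F, (1 - et F t) * L b ((b ^ 2 - t) / 4) := by
    rw [sum_A, ← Equiv.sum_comp (Equiv.mulLeft₀ 2 h2)
      (fun b => ∑ t : F, (1 - et F t) * L b ((b ^ 2 - t) / 4))]
    refine sum_congr rfl fun a _ => ?_
    simp only [nm]
    rw [sum_sq_eq hF (fun t => L (2 * a) (a ^ 2 - e * t)),
      ← Equiv.sum_comp (Equiv.mulLeft₀ (4 * e) (mul_ne_zero h4 he0))
        (fun t => (1 - et F t) * L _ ((_ - t) / 4))]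
    refine sum_congr rfl fun t _ => ?_
    simp only [Equiv.mulLeft₀_apply]
    have h5 : et F (4 * e * t) = -et F t := by
      rw [et_of_eq h2 (b := e * t) (by ring), map_mul, he]; ring
    rw [h5, sub_neg_eq_add]
    congr 2
    field_simp
    ring
  rw [h1, h3, ← sum_add_distrib, mul_sum]
  refine sum_congr rfl fun b _ => ?_
  rw [← sum_add_distrib, mul_sum, ← Equiv.sum_comp
    ((Equiv.subLeft (b ^ 2)).trans (Equiv.divRight₀ 4 h4)) (fun c => 2 * L b c)]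
  refine sum_congr rfl fun t _ => ?_
  simp only [Equiv.trans_apply, Equiv.subLeft_apply, Equiv.divRight₀_apply]
  ring

variable {D : F}

lemma c2_bound (hF : ringChar F ≠ 2) {X : A D → ℂ} (hX : IsCh X) {γ κ : F} (hγ : γ ≠ 0)
    (hκ : κ ≠ 0) (hΔ : γ * D - κ ≠ 0) :
    ‖∑ b : F, ∑ c : F, Om X ⟨c + D, b⟩ * et F ((γ * c + κ) ^ 2 - γ * κ * b ^ 2)‖ ≤
      3 * Fintype.card F := by
  have h2 : (2 : F) ≠ 0 := Ring.two_ne_zero hF
  have h4 : (4 : F) ≠ 0 := by
    have : (4 : F) = 2 * 2 := by norm_num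
    rw [this]; exact mul_ne_zero h2 h2
  set g : F → F → ℂ := fun s b => et F ((γ ^ 2 * s ^ 2 - γ * κ) * b ^ 2 +
    -(2 * γ * s * (γ * D - κ)) * b + (γ * D - κ) ^ 2) with hg
  have h1 : ∀ b ∈ univ.erase (0 : F),
      ∑ c : F, Om X ⟨c + D, b⟩ * et F ((γ * c + κ) ^ 2 - γ * κ * b ^ 2) =
        ∑ s : F, Om X ⟨s, 1⟩ * g s b := by
    intro b hb
    have hb0 := ne_of_mem_erase hb
    rw [← Equiv.sum_comp ((Equiv.mulLeft₀ b hb0).trans (Equiv.subRight D))]
    refine sum_congr rfl fun s _ => ?_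
    simp only [Equiv.trans_apply, Equiv.mulLeft₀_apply, Equiv.subRight_apply, sub_add_cancel, hg]
    rw [← Om_scale hX hb0 s 1, mul_one]
    congr 2
    ring
  have h3 : ∀ s : F, ‖∑ b ∈ univ.erase (0 : F), g s b‖ ≤ 2 := by
    intro s
    rw [sum_erase_eq_sub (mem_univ _), quad_sum hF]
    · refine (norm_sub_le _ _).trans ?_
      rw [norm_neg]
      linarith [et_norm_le (γ ^ 2 * s ^ 2 - γ * κ), et_norm_le ((γ ^ 2 * s ^ 2 - γ * κ) * 0 ^ 2 +
        -(2 * γ * s * (γ * D - κ)) * 0 + (γ * D - κ) ^ 2)]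
    · have : (-(2 * γ * s * (γ * D - κ))) ^ 2 - 4 * (γ ^ 2 * s ^ 2 - γ * κ) * (γ * D - κ) ^ 2 =
        4 * γ * κ * (γ * D - κ) ^ 2 := by ring
      rw [this]
      simp [h4, hγ, hκ, hΔ]
  rw [← add_sum_erase _ _ (mem_univ (0 : F)), sum_congr rfl h1, sum_comm]
  refine (norm_add_le _ _).trans ?_
  have h5 : ‖∑ c : F, Om X ⟨c + D, 0⟩ * et F ((γ * c + κ) ^ 2 - γ * κ * 0 ^ 2)‖ ≤
      Fintype.card F := by
    refine (norm_sum_le _ _).trans ((sum_le_card_nsmul _ _ 1 fun s _ => ?_).trans (by simp))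
    rw [norm_mul]
    exact mul_le_one₀ (Om_norm hX _) (norm_nonneg _) (et_norm_le _)
  have h6 : ‖∑ s : F, ∑ b ∈ univ.erase (0 : F), Om X ⟨s, 1⟩ * g s b‖ ≤ 2 * Fintype.card F := by
    refine (norm_sum_le _ _).trans ((sum_le_card_nsmul _ _ 2 fun s _ => ?_).trans
      (by simp [mul_comm]))
    rw [← mul_sum, norm_mul]
    exact (mul_le_of_le_one_left (norm_nonneg _) (Om_norm hX _)).trans (h3 s)
  linarith

lemma fact_nonsq {e : F} (he : et F e = -1) : Fact (∀ r : F, r ^ 2 ≠ e + 0 * r) := by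
  refine ⟨fun r h => ?_⟩
  rw [zero_mul, add_zero] at h
  rcases eq_or_ne r 0 with rfl | hr
  · rw [← h] at he; simp [et_zero] at he
  · rw [← h, et_sq hr] at he; norm_num at he

lemma sq_of_et (hF : ringChar F ≠ 2) {c : F} (h : et F c ≠ -1) : ∃ r : F, r ^ 2 = c := by
  by_contra h1
  have h2 := card_sqrt hF c
  rw [filter_eq_empty_iff.2 fun y _ hy => h1 ⟨y, hy⟩] at h2
  apply h
  simp only [card_empty, Nat.cast_zero] at h2
  linear_combination -h2

lemma sqrtK (hF : ringChar F ≠ 2) {e : F} (he : et F e = -1) (c : F) :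
    ∃ ρ : A e, ρ * ρ = ⟨c, 0⟩ := by
  have he0 : e ≠ 0 := by rintro rfl; simp [et_zero] at he
  by_cases h : et F c = -1
  · obtain ⟨r, hr⟩ := sq_of_et hF (c := c * e⁻¹) (by rw [map_mul, et_inv, h, he]; norm_num)
    refine ⟨⟨0, r⟩, ?_⟩
    ext <;> simp
    field_simp at hr
    linear_combination hr
  · obtain ⟨r, hr⟩ := sq_of_et hF h
    refine ⟨⟨r, 0⟩, ?_⟩
    ext <;> simp
    linear_combination hr

/-- A multiplicative character from a multiplicative function. -/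
def mkCh {K : Type} [Field K] (f : K → ℂ) (h1 : f 1 = 1) (h0 : f 0 = 0)
    (hm : ∀ x y, f (x * y) = f x * f y) : MulChar K ℂ where
  toFun := f
  map_one' := h1
  map_mul' := hm
  map_nonunit' z hz := by
    rw [isUnit_iff_ne_zero, not_not] at hz
    rw [hz, h0]

lemma S2_bound (hF : ringChar F ≠ 2) (hD : D ≠ 0) {X : A D → ℂ} {e : F} (he : et F e = -1)
    {γ κ : F} (hγ : γ ≠ 0) (hκ : κ ≠ 0) (hΔ : γ * D - κ ≠ 0) (f1 f2 : A e → ℂ) (δ : A e)
    (h1 : f1 1 = 1 ∧ f1 0 = 0 ∧ ∀ x y, f1 (x * y) = f1 x * f1 y)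
    (h2 : f2 1 = 1 ∧ f2 0 = 0 ∧ ∀ x y, f2 (x * y) = f2 x * f2 y) (hδ : δ * δ = ⟨D, 0⟩)
    (hf : ∀ x : A e, Om X ⟨x.norm + D, 2 * x.re⟩ = f1 (x + δ) * f2 (x + -δ)) :
    ‖∑ x : A e, Om X ⟨x.norm + D, 2 * x.re⟩ *
      et F ((γ * x.norm + κ) ^ 2 - γ * κ * (2 * x.re) ^ 2)‖ ≤ 3 * Fintype.card F := by
  have := fact_nonsq he
  have he0 : e ≠ 0 := by rintro rfl; simp [et_zero] at he
  have htwo : (2 : F) ≠ 0 := Ring.two_ne_zero hF
  have h4 : (4 : F) ≠ 0 := by
    have : (4 : F) = 2 * 2 := by norm_num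
    rw [this]; exact mul_ne_zero htwo htwo
  obtain ⟨ρ, hρ⟩ := sqrtK hF he (κ / γ)
  set c1 := mkCh f1 h1.1 h1.2.1 h1.2.2 with hc1
  set c2 := mkCh f2 h2.1 h2.2.1 h2.2.2 with hc2
  set c3 : MulChar (A e) ℂ := mkCh (fun x => et F x.norm) (by simp) (by simp [et_zero])
    (fun x y => by rw [map_mul, map_mul]) with hc3
  have hneg : ∀ (z : A e) (c : F), c ≠ 0 → z * z = ⟨c, 0⟩ → z ≠ -z := by
    intro z c hc hz h
    have a1 := congrArg QuadraticAlgebra.re h
    have a2 := congrArg QuadraticAlgebra.im h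
    have a3 := congrArg QuadraticAlgebra.re hz
    simp only [QuadraticAlgebra.re_neg, QuadraticAlgebra.im_neg,
      QuadraticAlgebra.re_mul] at a1 a2 a3
    have b1 : z.re = 0 := mul_left_cancel₀ htwo (by linear_combination a1)
    have b2 : z.im = 0 := mul_left_cancel₀ htwo (by linear_combination a2)
    apply hc
    rw [← a3, b1, b2]; simp
  have hsq : δ * δ ≠ ρ * ρ := by
    rw [hδ, hρ]
    intro h
    have := congrArg QuadraticAlgebra.re h
    simp only at this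
    apply hΔ
    rw [this]; field_simp; ring
  have n1 : δ ≠ -δ := hneg δ D hD hδ
  have n2 : ρ ≠ -ρ := hneg ρ _ (div_ne_zero hκ hγ) hρ
  have n3 : δ ≠ ρ := fun h => hsq (by rw [h])
  have n4 : δ ≠ -ρ := fun h => hsq (by rw [h]; ring)
  have n5 : -δ ≠ ρ := fun h => hsq (by rw [← h]; ring)
  have n6 : -δ ≠ -ρ := fun h => n3 (neg_injective h)
  have hc : c3 ≠ 1 := by
    intro h
    have h5 := quad_sum hF (a := 1) (b := 0) (c := -e) (by simp [h4, he0])
    have h6 : ∀ r : F, et F (1 * r ^ 2 + 0 * r + -e) = 1 := fun r => by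
      have h7 : (⟨r, 1⟩ : A e) ≠ 0 := fun h => by simpa using congrArg QuadraticAlgebra.im h
      have h8 : c3 ⟨r, 1⟩ = 1 := by rw [h, MulChar.one_apply (Ne.isUnit h7)]
      rw [← h8]
      change _ = et F _
      congr 1
      simp [nm, sub_eq_add_neg]
    simp only [h6, sum_const, card_univ, nsmul_eq_mul, mul_one, map_one] at h5
    have : ((Fintype.card F : ℝ)) = -1 := by exact_mod_cast h5
    linarith [Nat.cast_nonneg (α := ℝ) (Fintype.card F)]
  have hw := MP_3bfe94_nt.weil ({δ, -δ, ρ, -ρ} : Finset (A e))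
    (fun β => if β = δ then c1 else if β = -δ then c2 else c3) ρ (by simp)
    (by simp only [if_neg n3.symm, if_neg n5.symm]; exact hc)
  have m1 : δ ∉ ({-δ, ρ, -ρ} : Finset (A e)) := by simp [n1, n3, n4]
  have m2 : -δ ∉ ({ρ, -ρ} : Finset (A e)) := by
    simp only [mem_insert, mem_singleton, not_or]; exact ⟨n5, n6⟩
  have m3 : ρ ∉ ({-ρ} : Finset (A e)) := by simp [n2]
  simp only [prod_insert m1, prod_insert m2, prod_insert m3, prod_singleton, if_true,
    if_neg n1.symm, if_neg n3.symm, if_neg n4.symm, if_neg n5.symm, if_neg n6.symm,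
    card_insert_of_notMem m1, card_insert_of_notMem m2, card_insert_of_notMem m3,
    card_singleton, card_A] at hw
  rw [Nat.cast_pow, Real.sqrt_sq (Nat.cast_nonneg _)] at hw
  refine le_of_eq_of_le (congrArg _ (sum_congr rfl fun x _ => ?_)) (hw.trans (by norm_num))
  rw [hf, mul_assoc]
  change _ = f1 _ * (f2 _ * (et F _ * et F _))
  congr 2
  rw [← map_mul, ← map_mul]
  refine et_of_eq hγ ?_
  have : (x + ρ) * (x + -ρ) = x * x - ⟨κ / γ, 0⟩ := by rw [← hρ]; ring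
  rw [this]
  simp only [nm, QuadraticAlgebra.re_sub, QuadraticAlgebra.im_sub, QuadraticAlgebra.re_mul,
    QuadraticAlgebra.im_mul]
  field_simp
  ring

lemma S2_final (hF : ringChar F ≠ 2) (hD : D = 1 ∨ et F D = -1) {X : A D → ℂ} (hX : IsCh X)
    {γ κ : F} (hγ : γ ≠ 0) (hκ : κ ≠ 0) (hΔ : γ * D - κ ≠ 0) : ∃ e : F, et F e = -1 ∧
    ‖∑ x : A e, Om X ⟨x.norm + D, 2 * x.re⟩ *
      et F ((γ * x.norm + κ) ^ 2 - γ * κ * (2 * x.re) ^ 2)‖ ≤ 3 * Fintype.card F := by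
  have htwo : (2 : F) ≠ 0 := Ring.two_ne_zero hF
  have hO1 : Om X 1 = 1 := Om_const hX one_ne_zero
  rcases hD with rfl | hD
  · obtain ⟨e, he⟩ := exists_nonsq hF
    refine ⟨e, he, S2_bound hF one_ne_zero he hγ hκ hΔ
      (fun y => Om X ⟨(y.norm + 1) / 2, (y.norm - 1) / 2⟩)
      (fun y => Om X ⟨(y.norm + 1) / 2, (1 - y.norm) / 2⟩) 1 ⟨?_, ?_, fun x y => ?_⟩
      ⟨?_, ?_, fun x y => ?_⟩ (by ext <;> simp) fun x => ?_⟩
    · rw [← hO1]; congr 1; ext <;> simp; field_simp; norm_num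
    · apply Om_zero; simp only [nm]; simp; field_simp; ring
    · rw [← Om_mul hX]; congr 1; ext <;> simp <;> field_simp <;> ring
    · rw [← hO1]; congr 1; ext <;> simp; field_simp; norm_num
    · apply Om_zero; simp only [nm]; simp
    · rw [← Om_mul hX]; congr 1; ext <;> simp <;> field_simp <;> ring
    · rw [← Om_mul hX]; congr 1; ext <;> simp [nm] <;> field_simp <;> ring
  · have hD0 : D ≠ 0 := by rintro rfl; simp [et_zero] at hD
    refine ⟨D, hD, S2_bound hF hD0 hD hγ hκ hΔ (Om X) (fun y => Om X (star y)) ⟨0, 1⟩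
      ⟨hO1, Om_zero X (by simp), Om_mul hX⟩
      ⟨by simp [hO1], Om_zero X (by simp), fun x y => by rw [star_mul', Om_mul hX]⟩
      (by ext <;> simp) fun x => ?_⟩
    rw [← Om_mul hX]; congr 1; ext <;> simp [nm] <;> ring

lemma leg_weil (hF : ringChar F ≠ 2) (hD : D = 1 ∨ et F D = -1) {X : A D → ℂ} (hX : IsCh X)
    {α β : F} (h1 : α + β ≠ 0) (h2 : α - β ≠ 0) (hβ : β ≠ 0) :
    ‖Leg X α β‖ ≤ 4 * √(Fintype.card F) := by
  have htwo : (2 : F) ≠ 0 := Ring.two_ne_zero hF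
  have hD0 : D ≠ 0 := by
    rcases hD with rfl | hD
    · exact one_ne_zero
    · rintro rfl; simp [et_zero] at hD
  have hκ : (α - β) * D ≠ 0 := mul_ne_zero h2 hD0
  have hΔ : (α + β) * D - (α - β) * D ≠ 0 := by
    have : (α + β) * D - (α - β) * D = 2 * β * D := by ring
    rw [this]; simp [htwo, hβ, hD0]
  obtain ⟨e, he, h3⟩ := S2_final hF hD hX h1 hκ hΔ
  have h4 := c2_bound hF hX h1 hκ hΔ
  have h5 := lift2 hF he fun b c =>
    Om X ⟨c + D, b⟩ * et F (((α + β) * c + (α - β) * D) ^ 2 - (α + β) * ((α - β) * D) * b ^ 2)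
  set c1 := ∑ s : F, Om X ⟨s, 1⟩ * et F ((α + β) * s ^ 2 - (α - β) * D) with hc1
  have h6 : c1 * c1 = ∑ s : F, ∑ t : F, Om X ⟨s * t + D, s + t⟩ *
      et F (((α + β) * (s * t) + (α - β) * D) ^ 2 - (α + β) * ((α - β) * D) * (s + t) ^ 2) := by
    rw [hc1, sum_mul_sum]
    refine sum_congr rfl fun s _ => sum_congr rfl fun t _ => ?_
    rw [mul_mul_mul_comm, ← Om_mul hX, ← map_mul]
    congr 2
    · ext <;> simp
    · ring
  rw [← h6] at h5
  have h7 : ‖c1‖ ^ 2 ≤ 9 * Fintype.card F := by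
    rw [sq, ← norm_mul, eq_sub_of_add_eq h5]
    refine (norm_sub_le _ _).trans ?_
    rw [norm_mul, Complex.norm_two]
    linarith
  have hq : (1 : ℝ) ≤ √(Fintype.card F) := by
    rw [Real.one_le_sqrt]; exact_mod_cast Fintype.card_pos
  have h8 : ‖c1‖ ≤ 3 * √(Fintype.card F) := by
    refine abs_le_of_sq_le_sq' ?_ (by positivity) |>.2
    rw [mul_pow, Real.sq_sqrt (Nat.cast_nonneg _)]
    linarith
  rw [leg_param hF hD0 hX]
  refine (norm_add_le _ _).trans ?_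
  linarith [et_norm_le (α + β)]

lemma leg_bound (hF : ringChar F ≠ 2) (hD : D = 1 ∨ et F D = -1) {X : A D → ℂ} (hX : IsCh X)
    (he : ¬ Exc X) {α β : F} (hβ : β ≠ 0) : ‖Leg X α β‖ ≤ 4 * √(Fintype.card F) := by
  have hD0 : D ≠ 0 := by
    rcases hD with rfl | hD
    · exact one_ne_zero
    · rintro rfl; simp [et_zero] at hD
  have hq : (1 : ℝ) ≤ √(Fintype.card F) := by
    rw [Real.one_le_sqrt]; exact_mod_cast Fintype.card_pos
  by_cases h : α + β = 0 ∨ α - β = 0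
  · linarith [leg_pm hF hD0 hX he h]
  · rw [not_or] at h
    exact leg_weil hF hD hX h.1 h.2 hβ

end Pool.Agent.Lib.MP_a460e0_co.Br
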