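import Pool.Agent.Lib.MP_a460e0_co.BrC

/-! Fourth moments of Bessel-type sums: closed quadrilaterals with given side lengths. -/

namespace Pool.Agent.Lib.MP_a460e0_co.Br

open Finset ComplexConjugate

variable {F : Type} [Field F] [Fintype F] [DecidableEq F] {D : F}

attribute [local simp] QuadraticAlgebra.re_one QuadraticAlgebra.im_one

/-- The coordinate pairing on the plane. -/
def pr (w u : A D) : F := w.re * u.re + w.im * u.im

/-- The Bessel-type sum. -/
noncomputable def Jb (X : A D → ℂ) (w : A D) : ℂ := ∑ u ∈ TT D, X u * ps F (pr w u)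

/-- The fourth moment of Bessel sums at four dilations. -/
noncomputable def Um (X : A D → ℂ) (l1 l2 l3 l4 : F) : ℂ :=
  ∑ w ∈ univ.erase (0 : A D),
    Jb X (l1 • w) * Jb X (l2 • w) * conj (Jb X (l3 • w)) * conj (Jb X (l4 • w))

lemma four_sum {ι : Type} (s : Finset ι) (a b c d : ι → ℂ) :
    (∑ i ∈ s, a i) * (∑ i ∈ s, b i) * (∑ i ∈ s, c i) * (∑ i ∈ s, d i) =
      ∑ i ∈ s, ∑ j ∈ s, ∑ k ∈ s, ∑ l ∈ s, a i * b j * c k * d l := by
  simp only [sum_mul]
  refine sum_congr rfl fun i _ => ?_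
  simp only [mul_sum _ _ (a i), sum_mul]
  refine sum_congr rfl fun j _ => ?_
  simp only [mul_sum _ _ (a i * b j), sum_mul]
  refine sum_congr rfl fun k _ => ?_
  rw [mul_sum]

lemma pr_sum (z : A D) :
    ∑ w : A D, ps F (pr w z) = if z = 0 then (Fintype.card F : ℂ) ^ 2 else 0 := by
  rw [sum_A]
  simp only [pr, ps_add, ← mul_sum, ← sum_mul, ps_sum]
  by_cases h : z = 0
  · simp [h, sq]
  · rw [if_neg h]
    by_cases h1 : z.re = 0
    · have h2 : z.im ≠ 0 := fun h2 => h (by ext <;> simp [h1, h2])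
      simp [h2]
    · simp [h1]

lemma ch_mul_conj {X : A D → ℂ} (hX : IsCh X) {u : A D} (hu : u.norm = 1) :
    X u * conj (X u) = 1 := by
  rw [Complex.mul_conj, Complex.normSq_eq_norm_sq, hX.nrm u hu]; simp

lemma sum_TT_star (f : A D → ℂ) : ∑ u ∈ TT D, f u = ∑ u ∈ TT D, f (star u) := by
  symm
  refine sum_nbij' star star ?_ ?_ ?_ ?_ fun _ _ => rfl
  · intro u hu; rw [mem_TT] at hu ⊢; rw [QuadraticAlgebra.norm_star, hu]
  · intro u hu; rw [mem_TT] at hu ⊢; rw [QuadraticAlgebra.norm_star, hu]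
  · intro u _; rw [star_star]
  · intro u _; rw [star_star]

lemma Um_eq {X : A D → ℂ} (hX : IsCh X) (l1 l2 l3 l4 : F) :
    Um X l1 l2 l3 l4 = (Fintype.card F : ℂ) ^ 2 * (#(TT D) * ∑ a ∈ TT D, ∑ b ∈ TT D,
      conj (X a) * conj (X b) *
        #((TT D).filter fun m => l1 • 1 - l3 • a = m * (l4 • b - l2 • 1))) -
      (∑ u ∈ TT D, X u) * (∑ u ∈ TT D, X u) * conj (∑ u ∈ TT D, X u) *
        conj (∑ u ∈ TT D, X u) := by
  rw [Um, sum_erase_eq_sub (mem_univ _)]
  congr 1
  swap
  · simp [Jb, pr, ps_zero]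
  have h1 : ∀ w : A D,
      Jb X (l1 • w) * Jb X (l2 • w) * conj (Jb X (l3 • w)) * conj (Jb X (l4 • w)) =
      ∑ u1 ∈ TT D, ∑ u2 ∈ TT D, ∑ u3 ∈ TT D, ∑ u4 ∈ TT D,
        X u1 * X u2 * conj (X u3) * conj (X u4) *
          ps F (pr w (l1 • u1 + l2 • u2 - l3 • u3 - l4 • u4)) := by
    intro w
    simp only [Jb, map_sum, map_mul, ps_conj]
    rw [four_sum]
    refine sum_congr rfl fun u1 _ => sum_congr rfl fun u2 _ => sum_congr rfl fun u3 _ =>
      sum_congr rfl fun u4 _ => ?_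
    have : pr w (l1 • u1 + l2 • u2 - l3 • u3 - l4 • u4) =
        pr (l1 • w) u1 + pr (l2 • w) u2 + -pr (l3 • w) u3 + -pr (l4 • w) u4 := by
      simp [pr]; ring
    rw [this, ps_add, ps_add, ps_add]
    ring
  rw [sum_congr rfl fun w _ => h1 w, sum_comm, ← nsmul_eq_mul, ← sum_const, mul_sum]
  refine sum_congr rfl fun v hv => ?_
  rw [mem_TT] at hv
  rw [sum_comm, sum_TT_mul v hv]
  calc _ = ∑ m ∈ TT D, ∑ a ∈ TT D, ∑ b ∈ TT D, (Fintype.card F : ℂ) ^ 2 * (conj (X a) *
        conj (X b) * if l1 • 1 - l3 • a = m * (l4 • b - l2 • 1) then 1 else 0) := by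
        refine sum_congr rfl fun m hm => ?_
        rw [mem_TT] at hm
        have hmv : (m * v).norm = 1 := by rw [map_mul, hm, hv, mul_one]
        rw [sum_comm, sum_TT_mul v hv]
        refine sum_congr rfl fun a ha => ?_
        rw [sum_comm, sum_TT_mul (m * v) hmv]
        refine sum_congr rfl fun b hb => ?_
        rw [mem_TT] at ha hb
        rw [← mul_sum, pr_sum, hX.mul _ _ hb hmv, hX.mul _ _ hm hv, hX.mul _ _ ha hv]
        have h2 : (l1 • v + l2 • (m * v) - l3 • (a * v) - l4 • (b * (m * v)) = 0) ↔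
            (l1 • 1 - l3 • a = m * (l4 • b - l2 • 1)) := by
          have h3 : l1 • v + l2 • (m * v) - l3 • (a * v) - l4 • (b * (m * v)) =
              (l1 • 1 - l3 • a - m * (l4 • b - l2 • 1)) * v := by
            simp only [Algebra.smul_def]; ring
          rw [h3]
          constructor
          · intro h
            have := congrArg (· * star v) h
            simp only [mul_assoc, mul_star_one hv, mul_one, zero_mul] at this
            exact sub_eq_zero.1 this
          · intro h; rw [h, sub_self, zero_mul]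
        simp only [h2, map_mul]
        have e1 := ch_mul_conj hX hv
        have e2 := ch_mul_conj hX hm
        split_ifs
        · linear_combination (Fintype.card F : ℂ) ^ 2 * conj (X a) * conj (X b) *
            ((X v * conj (X v) + 1) * (X m * conj (X m)) * e1 + e2)
        · simp
    _ = _ := by
        rw [sum_comm, mul_sum]
        refine sum_congr rfl fun a _ => ?_
        rw [sum_comm, mul_sum]
        refine sum_congr rfl fun b _ => ?_
        rw [← mul_sum, ← mul_sum, sum_boole]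

lemma eq_of_mul_eq (hF : ringChar F ≠ 2) (hD : D ≠ 0) {u v w : A D} (hu : u.norm = 1)
    (hv : v.norm = 1) (hw : w ≠ 0) (h : (u - v) * w = 0) : u = v := by
  have h1 : (u - v).norm = 0 := by
    have h2 : (u - v).norm • w = 0 := by
      rw [← one_mul w, ← smul_mul_assoc, ← mul_star_eq, mul_right_comm, h, zero_mul]
    exact (smul_eq_zero.1 h2).resolve_right hw
  have h3 : u * star v = 1 := by
    refine eq_one_of_re hD ?_ ?_
    · rw [← nm, map_mul, QuadraticAlgebra.norm_star, hu, hv, mul_one]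
    · rw [nm] at hu hv h1
      apply mul_left_cancel₀ (Ring.two_ne_zero hF)
      simp only [QuadraticAlgebra.re_sub, QuadraticAlgebra.im_sub] at h1
      simp
      linear_combination hu + hv - h1
  calc u = u * (v * star v) := by rw [mul_star_one hv, mul_one]
    _ = v * (u * star v) := by ring
    _ = v := by rw [h3, mul_one]

lemma card_re_le (hD : D ≠ 0) (a b : F) (hb : b ≠ 0) :
    #((TT D).filter fun u => a + b * u.re = 0) ≤ 2 := by
  refine le_trans (card_le_card_of_injOn (fun u => u.im) ?_ ?_)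
    (card_sqrt_le (((-a / b) ^ 2 - 1) / D))
  · intro u hu
    simp only [coe_filter, mem_TT, Set.mem_ofPred_eq, mem_univ, true_and, nm] at hu ⊢
    have : u.re = -a / b := by field_simp; linear_combination hu.2
    rw [← this]
    field_simp
    linear_combination -hu.1
  · intro u hu v hv h
    simp only [coe_filter, Set.mem_ofPred_eq] at hu hv
    ext
    · exact mul_left_cancel₀ hb (by linear_combination hu.2 - hv.2)
    · exact h

lemma cnt_err (hF : ringChar F ≠ 2) (hD : D ≠ 0) (w w' : A D) {K : ℝ} (hK : 1 ≤ K)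
    (h0 : w = 0 → w' = 0 → (#(TT D) : ℝ) ≤ K) :
    ‖(#((TT D).filter fun m => w = m * w') : ℂ) - (if w.norm = w'.norm then 1 else 0)‖ ≤
      if w.norm = 0 ∧ w'.norm = 0 then K else 0 := by
  by_cases hn : w.norm = w'.norm
  swap
  · rw [if_neg hn, filter_eq_empty_iff.2]
    · simp only [card_empty, Nat.cast_zero, sub_zero, norm_zero]
      split_ifs <;> linarith
    · intro m hm h
      apply hn
      rw [h, map_mul, mem_TT.1 hm, one_mul]
  rw [if_pos hn]
  have hle : w' ≠ 0 → #((TT D).filter fun m => w = m * w') ≤ 1 := fun hw =>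
    card_le_one.2 fun u hu v hv => eq_of_mul_eq hF hD (mem_TT.1 (mem_filter.1 hu).1)
      (mem_TT.1 (mem_filter.1 hv).1) hw (by
        rw [sub_mul, ← (mem_filter.1 hu).2, ← (mem_filter.1 hv).2, sub_self])
  by_cases hz : w'.norm = 0
  · rw [if_pos ⟨hn.trans hz, hz⟩]
    have h2 : (#((TT D).filter fun m => w = m * w') : ℝ) ≤ K := by
      by_cases hw : w' = 0
      · by_cases hw0 : w = 0
        · exact le_trans (by exact_mod_cast card_filter_le _ _) (h0 hw0 hw)
        · rw [filter_eq_empty_iff.2 fun m _ h => hw0 (by rw [h, hw, mul_zero])]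
          simp; linarith
      · exact le_trans (by exact_mod_cast hle hw) hK
    rw [← Complex.ofReal_natCast, ← Complex.ofReal_one, ← Complex.ofReal_sub, Complex.norm_real,
      Real.norm_eq_abs, abs_le]
    constructor <;> linarith [Nat.cast_nonneg (α := ℝ) #((TT D).filter fun m => w = m * w')]
  · rw [if_neg fun h => hz h.2]
    have h3 : 0 < #((TT D).filter fun m => w = m * w') := by
      refine card_pos.2 ⟨(w'.norm)⁻¹ • (w * star w'), mem_filter.2 ⟨mem_TT.2 ?_, ?_⟩⟩
      · rw [nm_smul, map_mul, QuadraticAlgebra.norm_star, hn]; field_simp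
      · rw [smul_mul_assoc, mul_assoc, mul_comm (star w'), mul_star_eq, mul_smul_comm, mul_one,
          smul_smul, inv_mul_cancel₀ hz, one_smul]
    have h4 := hle fun h => hz (by rw [h]; simp)
    have : #((TT D).filter fun m => w = m * w') = 1 := by omega
    simp [this]

lemma line_err (hF : ringChar F ≠ 2) (hD : D ≠ 0) (z : A D) (e : F) {K : ℝ} (hK : 1 ≤ K)
    (h0 : z = 0 → e = 0 → (#(TT D) : ℝ) ≤ K) :
    ‖(#((TT D).filter fun b => 2 * (b * z).re = e) : ℂ) -
      (1 + et F (D * (e ^ 2 - 4 * z.norm)))‖ ≤ if z.norm = 0 then K + 2 else 0 := by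
  have h2 : (2 : F) ≠ 0 := Ring.two_ne_zero hF
  split_ifs with hz
  · have h3 : (#((TT D).filter fun b => 2 * (b * z).re = e) : ℝ) ≤ K := by
      by_cases hw : z = 0
      · by_cases he : e = 0
        · exact le_trans (by exact_mod_cast card_filter_le _ _) (h0 hw he)
        · rw [filter_eq_empty_iff.2 fun m _ h => he (by rw [← h, hw]; simp)]
          simp; linarith
      · refine le_trans ?_ hK
        norm_cast
        refine card_le_one.2 fun u hu v hv => eq_of_mul_eq hF hD (mem_TT.1 (mem_filter.1 hu).1)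
          (mem_TT.1 (mem_filter.1 hv).1) hw ?_
        have h4 : ((u - v) * z).re = 0 := by
          apply mul_left_cancel₀ h2
          rw [sub_mul, QuadraticAlgebra.re_sub]
          linear_combination (mem_filter.1 hu).2 - (mem_filter.1 hv).2
        have h5 : ((u - v) * z).norm = 0 := by rw [map_mul, hz, mul_zero]
        rw [nm, h4] at h5
        ext
        · exact h4
        · simpa [hD] using h5
    refine (norm_sub_le _ _).trans (add_le_add (by simpa using h3) ?_)
    refine (norm_add_le _ _).trans ?_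
    linarith [et_norm_le (D * (e ^ 2 - 4 * z.norm)), norm_one (α := ℂ)]
  · have h3 : et F (D * (e ^ 2 - 4 * z.norm)) = et F (((e / 2) ^ 2 - z.norm) / D) :=
      et_of_eq (mul_ne_zero h2 hD) (by field_simp; ring)
    rw [h3, ← card_sqrt hF, norm_le_zero_iff, sub_eq_zero, Nat.cast_inj]
    refine card_nbij' (fun b => (b * z).im) (fun y => (z.norm)⁻¹ • (⟨e / 2, y⟩ * star z))
      ?_ ?_ ?_ ?_
    · intro b hb
      simp only [coe_filter, mem_TT, Set.mem_ofPred_eq, mem_univ, true_and] at hb ⊢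
      have h4 : (b * z).norm = z.norm := by rw [map_mul, hb.1, one_mul]
      rw [← hb.2, ← h4, nm]
      field_simp
      ring
    · intro y hy
      simp only [coe_filter, mem_TT, Set.mem_ofPred_eq, mem_univ, true_and] at hy ⊢
      constructor
      · rw [nm_smul, map_mul, QuadraticAlgebra.norm_star, nm (⟨e / 2, y⟩ : A D), hy]
        field_simp
        ring
      · rw [smul_mul_assoc, mul_assoc, mul_comm (star z), mul_star_eq, mul_smul_comm, mul_one,
          smul_smul, inv_mul_cancel₀ hz, one_smul]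
        field_simp
    · intro b hb
      simp only [coe_filter, mem_TT, Set.mem_ofPred_eq] at hb
      have h4 : (⟨e / 2, (b * z).im⟩ : A D) = b * z := by
        ext
        · rw [← hb.2]; field_simp
        · rfl
      simp only [h4]
      rw [mul_assoc, mul_star_eq, mul_smul_comm, mul_one, smul_smul, inv_mul_cancel₀ hz, one_smul]
    · intro y _
      simp only
      rw [smul_mul_assoc, mul_assoc, mul_comm (star z), mul_star_eq, mul_smul_comm, mul_one,
          smul_smul, inv_mul_cancel₀ hz, one_smul]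

/-- The special dilations: side lengths agree in pairs. -/
def Sp (l1 l2 l3 l4 : F) : Prop :=
  (l1 ^ 2 = l3 ^ 2 ∧ l2 ^ 2 = l4 ^ 2) ∨ (l1 ^ 2 = l2 ^ 2 ∧ l3 ^ 2 = l4 ^ 2) ∨
    (l1 ^ 2 = l4 ^ 2 ∧ l2 ^ 2 = l3 ^ 2)

omit [Fintype F] [DecidableEq F] in
lemma nm_diff (l l' : F) {a : A D} (ha : a.norm = 1) :
    (l • 1 - l' • a : A D).norm = l ^ 2 + l' ^ 2 + -(2 * l * l') * a.re := by
  rw [nm] at ha ⊢
  simp
  linear_combination l' ^ 2 * ha

lemma sum_ite_le {s : Finset (A D)} (p : A D → Prop) [DecidablePred p] {K : ℝ} (hK : 0 ≤ K)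
    (h : #(s.filter p) ≤ 2) : ∑ a ∈ s, (if p a then K else 0) ≤ 2 * K := by
  rw [← sum_filter, sum_const, nsmul_eq_mul]
  gcongr
  exact_mod_cast h

lemma I_approx (hF : ringChar F ≠ 2) (hD : D ≠ 0) {X : A D → ℂ} (hX : IsCh X) {l1 l2 l3 l4 : F}
    (h1 : l1 ≠ 0) (h2 : l2 ≠ 0) (h3 : l3 ≠ 0) (h4 : l4 ≠ 0) {K : ℝ} (hK : 1 ≤ K)
    (h0 : Sp l1 l2 l3 l4 → (#(TT D) : ℝ) ≤ K) : ∃ α β : F, β ≠ 0 ∧
    ‖∑ a ∈ TT D, ∑ b ∈ TT D, conj (X a) * conj (X b) *
        #((TT D).filter fun m => l1 • 1 - l3 • a = m * (l4 • b - l2 • 1)) -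
      (∑ u ∈ TT D, X u + et F D * Leg X α β)‖ ≤ 6 * K + 4 := by
  have ht : (2 : F) ≠ 0 := Ring.two_ne_zero hF
  set e := l1 ^ 2 + l3 ^ 2 - l2 ^ 2 - l4 ^ 2 with he
  set z : A D → A D := fun t => (l1 * l3) • t - (l2 * l4) • 1 with hz
  have hzn : ∀ t : A D, t.norm = 1 → (z t).norm =
      (l2 * l4) ^ 2 + (l1 * l3) ^ 2 + -(2 * (l2 * l4) * (l1 * l3)) * t.re := fun t h => by
    rw [← nm_diff _ _ h, ← QuadraticAlgebra.norm_neg, neg_sub]
  have hn2 : ∀ b : A D, b.norm = 1 → (l4 • b - l2 • 1 : A D).norm =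
      l2 ^ 2 + l4 ^ 2 + -(2 * l2 * l4) * b.re := fun t h => by
    rw [← nm_diff _ _ h, ← QuadraticAlgebra.norm_neg, neg_sub]
  refine ⟨e ^ 2 - 4 * ((l2 * l4) ^ 2 + (l1 * l3) ^ 2), 4 * (2 * (l2 * l4) * (l1 * l3)), ?_, ?_⟩
  · have : (4 : F) = 2 * 2 := by norm_num
    simp [this, ht, h1, h2, h3, h4]
  have k1 : ‖∑ a ∈ TT D, ∑ b ∈ TT D, conj (X a) * conj (X b) *
        #((TT D).filter fun m => l1 • 1 - l3 • a = m * (l4 • b - l2 • 1)) -
      ∑ a ∈ TT D, ∑ b ∈ TT D, conj (X a) * conj (X b) *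
        (if (l1 • 1 - l3 • a : A D).norm = (l4 • b - l2 • 1 : A D).norm then 1 else 0)‖ ≤
      2 * (2 * K) := by
    rw [← sum_sub_distrib]
    refine (norm_sum_le _ _).trans (le_trans (sum_le_sum fun a ha => ?_) (sum_ite_le _
      (by linarith) (card_re_le hD (l1 ^ 2 + l3 ^ 2) (-(2 * l1 * l3)) (by simp [ht, h1, h3]))))
    rw [← sum_sub_distrib]
    rw [mem_TT] at ha
    refine (norm_sum_le _ _).trans (le_trans (sum_le_sum (g := fun b =>
      if l2 ^ 2 + l4 ^ 2 + -(2 * l2 * l4) * b.re = 0 then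
        (if l1 ^ 2 + l3 ^ 2 + -(2 * l1 * l3) * a.re = 0 then K else 0) else 0) fun b hb => ?_)
      (le_trans (sum_ite_le _ (by split_ifs <;> linarith) (card_re_le hD (l2 ^ 2 + l4 ^ 2)
        (-(2 * l2 * l4)) (by simp [ht, h2, h4]))) (by split_ifs <;> simp)))
    rw [mem_TT] at hb
    rw [← mul_sub, norm_mul, norm_mul, Complex.norm_conj, Complex.norm_conj, hX.nrm a ha,
      hX.nrm b hb, one_mul, one_mul]
    refine (cnt_err hF hD _ _ hK fun e1 e2 => h0 (Or.inl ⟨?_, ?_⟩)).trans (le_of_eq ?_)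
    · have := congrArg QuadraticAlgebra.norm (sub_eq_zero.1 e1)
      simpa [nm_smul, ha] using this
    · have := congrArg QuadraticAlgebra.norm (sub_eq_zero.1 e2)
      simpa [nm_smul, hb] using this.symm
    · rw [nm_diff _ _ ha, hn2 b hb, ← ite_and]
      exact if_congr and_comm rfl rfl
  have k2 : ∑ a ∈ TT D, ∑ b ∈ TT D, conj (X a) * conj (X b) *
        (if (l1 • 1 - l3 • a : A D).norm = (l4 • b - l2 • 1 : A D).norm then 1 else 0) =
      ∑ t ∈ TT D, X t * #((TT D).filter fun b => 2 * (b * z t).re = e) := by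
    simp only [← sum_boole, mul_sum]
    rw [sum_comm]
    conv_rhs => rw [sum_comm]
    refine sum_congr rfl fun b hb => ?_
    rw [mem_TT] at hb
    rw [sum_TT_star, sum_TT_mul b hb]
    refine sum_congr rfl fun t ht' => ?_
    rw [mem_TT] at ht'
    have htb : (t * b).norm = 1 := by rw [map_mul, ht', hb, mul_one]
    rw [hX.cj _ htb, Complex.conj_conj, hX.mul _ _ ht' hb, mul_assoc (X t), ch_mul_conj hX hb,
      mul_one, nm_diff _ _ (by rw [QuadraticAlgebra.norm_star, htb]), hn2 b hb]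
    congr 1
    refine if_congr ?_ rfl rfl
    simp only [hz, he]
    simp
    constructor <;> intro h <;> linear_combination -h
  have k3 : ‖∑ t ∈ TT D, X t * #((TT D).filter fun b => 2 * (b * z t).re = e) -
      (∑ u ∈ TT D, X u + et F D * Leg X (e ^ 2 - 4 * ((l2 * l4) ^ 2 + (l1 * l3) ^ 2))
        (4 * (2 * (l2 * l4) * (l1 * l3))))‖ ≤ 2 * (K + 2) := by
    rw [Leg, mul_sum, ← sum_add_distrib, ← sum_sub_distrib]
    refine (norm_sum_le _ _).trans (le_trans (sum_le_sum fun t ht' => ?_) (sum_ite_le _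
      (by linarith) (card_re_le hD ((l2 * l4) ^ 2 + (l1 * l3) ^ 2) (-(2 * (l2 * l4) * (l1 * l3)))
        (by simp [ht, h1, h2, h3, h4]))))
    rw [mem_TT] at ht'
    have h5 := line_err hF hD (z t) e hK fun e1 e2 => h0 (Or.inr (by
      have e3 := congrArg QuadraticAlgebra.norm (sub_eq_zero.1 e1)
      simp only [nm_smul, ht', map_one, mul_one] at e3
      have e4 : (l1 ^ 2 - l2 ^ 2) * (l1 ^ 2 - l4 ^ 2) = 0 := by
        linear_combination l1 ^ 2 * (he.symm.trans e2) - e3
      rcases mul_eq_zero.1 e4 with e5 | e5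
      · exact Or.inl ⟨by linear_combination e5, by linear_combination he.symm.trans e2 - e5⟩
      · exact Or.inr ⟨by linear_combination e5, by linear_combination e5 - he.symm.trans e2⟩))
    rw [hzn t ht'] at h5
    refine le_of_eq_of_le ?_ h5
    rw [← one_mul ‖(_ : ℂ) - (1 + _)‖, ← hX.nrm t ht', ← norm_mul, map_mul]
    congr 1
    have : e ^ 2 - 4 * ((l2 * l4) ^ 2 + (l1 * l3) ^ 2 + -(2 * (l2 * l4) * (l1 * l3)) * t.re) =
      e ^ 2 - 4 * ((l2 * l4) ^ 2 + (l1 * l3) ^ 2) + 4 * (2 * (l2 * l4) * (l1 * l3)) * t.re := by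
      ring
    rw [this]
    ring
  rw [k2] at k1
  refine (norm_sub_le_norm_sub_add_norm_sub _ _ _).trans ((add_le_add k1 k3).trans ?_)
  linarith

lemma ch_sum {X : A D → ℂ} (hX : IsCh X) :
    ∑ u ∈ TT D, X u = 0 ∨ ∑ u ∈ TT D, X u = #(TT D) := by
  by_cases h : ∀ u ∈ TT D, X u = 1
  · right; rw [sum_congr rfl h]; simp
  · left
    simp only [not_forall] at h
    obtain ⟨v, hv, h1⟩ := h
    have h2 := sum_TT_mul v (mem_TT.1 hv) X
    rw [sum_congr rfl fun u hu => hX.mul u v (mem_TT.1 hu) (mem_TT.1 hv), ← sum_mul] at h2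
    have : (∑ u ∈ TT D, X u) * (X v - 1) = 0 := by linear_combination -h2
    exact (mul_eq_zero.1 this).resolve_right (sub_ne_zero.2 h1)

open Classical in
lemma Um_bound (hF : ringChar F ≠ 2) (hD : D = 1 ∨ et F D = -1) {X : A D → ℂ} (hX : IsCh X)
    (he : ¬ Exc X) {l1 l2 l3 l4 : F} (h1 : l1 ≠ 0) (h2 : l2 ≠ 0) (h3 : l3 ≠ 0) (h4 : l4 ≠ 0) :
    ‖Um X l1 l2 l3 l4‖ ≤ 40 * (Fintype.card F : ℝ) ^ 3 * √(Fintype.card F) +
      if Sp l1 l2 l3 l4 then 24 * (Fintype.card F : ℝ) ^ 4 else 0 := by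
  have hD0 : D ≠ 0 := by
    rcases hD with rfl | hD
    · exact one_ne_zero
    · rintro rfl; simp [et_zero] at hD
  have hq : (1 : ℝ) ≤ Fintype.card F := by exact_mod_cast Fintype.card_pos
  have hs : (1 : ℝ) ≤ √(Fintype.card F) := Real.one_le_sqrt.2 hq
  obtain ⟨t1, t2⟩ := card_TT_bd hF hD0
  set K : ℝ := 1 + if Sp l1 l2 l3 l4 then 2 * (Fintype.card F : ℝ) else 0 with hK
  obtain ⟨α, β, hβ, h5⟩ := I_approx hF hD0 hX h1 h2 h3 h4 (K := K)
    (by rw [hK]; split_ifs <;> linarith) (fun h => by rw [hK, if_pos h]; linarith)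
  have h6 := leg_bound hF hD hX he (α := α) hβ
  rw [Um_eq hX]
  set I := ∑ a ∈ TT D, ∑ b ∈ TT D, conj (X a) * conj (X b) *
    (#((TT D).filter fun m => l1 • 1 - l3 • a = m * (l4 • b - l2 • 1)) : ℂ)
  set S := ∑ u ∈ TT D, X u
  set q : ℝ := ((Fintype.card F : ℕ) : ℝ)
  set t : ℝ := ((#(TT D) : ℕ) : ℝ)
  have ht : 0 ≤ t := Nat.cast_nonneg _
  have h7 : ‖I - S‖ ≤ 4 * √q + 6 * K + 4 := by
    have : I - S = (I - (S + et F D * Leg X α β)) + et F D * Leg X α β := by ring
    rw [this]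
    refine (norm_add_le _ _).trans ?_
    rw [norm_mul, et_norm hD0]
    linarith
  have h8 : ‖(Fintype.card F : ℂ) ^ 2 * (#(TT D) * S) - S * S * conj S * conj S‖ ≤ 12 * q ^ 3 := by
    rcases ch_sum hX with h | h
    · change S = 0 at h
      rw [h]; simp; positivity
    · change S = _ at h
      have : (Fintype.card F : ℂ) ^ 2 * (#(TT D) * S) - S * S * conj S * conj S =
          ((t ^ 2 * ((q - t) * (q + t)) : ℝ) : ℂ) := by
        rw [h]; simp only [t, q, map_natCast]; push_cast; ring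
      rw [this, Complex.norm_real, Real.norm_eq_abs, abs_mul, abs_mul, abs_of_nonneg (sq_nonneg t),
        abs_of_nonneg (by linarith : 0 ≤ q + t)]
      have : |q - t| ≤ 1 := abs_le.2 ⟨by linarith, by linarith⟩
      calc _ ≤ (2 * q) ^ 2 * (1 * (3 * q)) := by gcongr <;> linarith
        _ = _ := by ring
  have h9 : (Fintype.card F : ℂ) ^ 2 * (#(TT D) * I) - S * S * conj S * conj S =
      (Fintype.card F : ℂ) ^ 2 * (#(TT D) * (I - S)) +
        ((Fintype.card F : ℂ) ^ 2 * (#(TT D) * S) - S * S * conj S * conj S) := by ring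
  rw [h9]
  refine (norm_add_le _ _).trans ?_
  rw [norm_mul, norm_mul, norm_pow, Complex.norm_natCast, Complex.norm_natCast]
  have h10 : q ^ 2 * (t * ‖I - S‖) ≤ q ^ 2 * (2 * q * (4 * √q + 6 * K + 4)) := by
    gcongr; linarith
  have h11 : q ^ 3 ≤ q ^ 3 * √q := le_mul_of_one_le_right (by positivity) hs
  change q ^ 2 * (t * _) + _ ≤ _
  rw [hK] at h10
  split_ifs at h10 ⊢ <;> nlinarith

end Pool.Agent.Lib.MP_a460e0_co.Br
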