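import Pool.Agent.Lib.MP_a460e0_co.BrD

/-! Fourier analysis on `F^d` plus the torus plane: the fourth moment and positivity. -/

namespace Pool.Agent.Lib.MP_a460e0_co.Br

open Finset ComplexConjugate Matrix

variable {F : Type} [Field F] [Fintype F] [DecidableEq F] {D : F} {d : ℕ}

attribute [local simp] QuadraticAlgebra.re_one QuadraticAlgebra.im_one

omit [DecidableEq F] in
lemma ps_sum_prod {ι : Type} (s : Finset ι) (f : ι → F) :
    ps F (∑ i ∈ s, f i) = ∏ i ∈ s, ps F (f i) := by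
  classical
  induction s using Finset.induction_on with
  | empty => simp [ps_zero]
  | insert a s ha ih => rw [sum_insert ha, prod_insert ha, ps_add, ih]

lemma dot_sum (m : Fin d → F) :
    ∑ ξ : Fin d → F, ps F (m ⬝ᵥ ξ) = if m = 0 then (Fintype.card F : ℂ) ^ d else 0 := by
  have h1 : ∑ ξ : Fin d → F, ps F (m ⬝ᵥ ξ) = ∏ i, ∑ y : F, ps F (y * m i) := by
    rw [prod_univ_sum, Fintype.piFinset_univ]
    refine sum_congr rfl fun ξ _ => ?_
    rw [dotProduct, ps_sum_prod]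
    simp only [mul_comm]
  rw [h1]
  simp only [ps_sum]
  split_ifs with h
  · simp [h]
  · obtain ⟨i, hi⟩ := Function.ne_iff.1 h
    exact prod_eq_zero (mem_univ i) (if_neg hi)

lemma gaussV (hF : ringChar F ≠ 2) {a : F} (ha : a ≠ 0) (m : Fin d → F) :
    ∑ ξ : Fin d → F, ps F (a * (ξ ⬝ᵥ ξ) + m ⬝ᵥ ξ) =
      (et F a * gs F) ^ d * ps F (-(m ⬝ᵥ m / (4 * a))) := by
  have h1 : ∑ ξ : Fin d → F, ps F (a * (ξ ⬝ᵥ ξ) + m ⬝ᵥ ξ) =
      ∏ i, ∑ y : F, ps F (a * y ^ 2 + m i * y) := by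
    rw [prod_univ_sum, Fintype.piFinset_univ]
    refine sum_congr rfl fun ξ _ => ?_
    rw [dotProduct, dotProduct, mul_sum, ← sum_add_distrib, ps_sum_prod]
    simp only [sq]
  rw [h1]
  simp only [gauss1 hF ha]
  rw [prod_mul_distrib, prod_const, card_univ, Fintype.card_fin, ← ps_sum_prod, dotProduct,
    sum_div, ← sum_neg_distrib]
  simp only [sq]

lemma sum_comp_le {α β : Type} [DecidableEq β] (s : Finset α) (t : Finset β) (g : α → β)
    (f : β → ℝ) (k : ℕ) (hf : ∀ b, 0 ≤ f b) (hm : ∀ a ∈ s, g a ∈ t)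
    (hk : ∀ b ∈ t, #(s.filter fun a => g a = b) ≤ k) :
    ∑ a ∈ s, f (g a) ≤ k * ∑ b ∈ t, f b := by
  rw [← sum_fiberwise_of_maps_to hm, mul_sum]
  refine sum_le_sum fun b hb => ?_
  rw [sum_congr rfl (g := fun _ => f b) fun a ha => by rw [(mem_filter.1 ha).2], sum_const,
    nsmul_eq_mul]
  exact mul_le_mul_of_nonneg_right (by exact_mod_cast hk b hb) (hf b)

/-- Pairs of a point and a nonzero scalar. -/
def PS (E : Finset (Fin d → F)) : Finset ((Fin d → F) × F) := E ×ˢ univ.erase 0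

/-- The extension of the lifted indicator function. -/
noncomputable def hh (X : A D → ℂ) (E : Finset (Fin d → F)) (ξ : Fin d → F) (w : A D) : ℂ :=
  ∑ i ∈ PS E, et F i.2 * ps F ((i.2 • i.1) ⬝ᵥ ξ) * Jb X (i.2 • w)

lemma hh_eq (hF : ringChar F ≠ 2) (X : A D → ℂ) (E : Finset (Fin d → F)) (ξ : Fin d → F)
    (w : A D) : hh X E ξ w = gs F * ∑ x ∈ E, ∑ u ∈ TT D, X u * et F (x ⬝ᵥ ξ + pr w u) := by
  rw [hh, PS, sum_product, mul_sum]
  refine sum_congr rfl fun x _ => ?_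
  rw [sum_erase _ (by simp [et_zero]), mul_sum]
  simp only [Jb, mul_sum]
  rw [sum_comm]
  refine sum_congr rfl fun u _ => ?_
  rw [mul_comm (gs F), mul_assoc, ← et_ps_sum hF, mul_sum]
  refine sum_congr rfl fun l _ => ?_
  have : l * (x ⬝ᵥ ξ + pr w u) = (l • x) ⬝ᵥ ξ + pr (l • w) u := by simp [pr]; ring
  rw [this, ps_add]
  ring

lemma hh_four (X : A D → ℂ) (E : Finset (Fin d → F)) :
    ∑ p ∈ (univ : Finset (Fin d → F)) ×ˢ univ.erase (0 : A D), ‖hh X E p.1 p.2‖ ^ 4 ≤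
      (Fintype.card F : ℝ) ^ d * ∑ i1 ∈ PS E, ∑ i2 ∈ PS E, ∑ i3 ∈ PS E, ∑ i4 ∈ PS E,
        if i1.2 • i1.1 + i2.2 • i2.1 = i3.2 • i3.1 + i4.2 • i4.1 then
          ‖Um X i1.2 i2.2 i3.2 i4.2‖ else 0 := by
  have h1 : ((∑ p ∈ (univ : Finset (Fin d → F)) ×ˢ univ.erase (0 : A D),
      ‖hh X E p.1 p.2‖ ^ 4 : ℝ) : ℂ) = ∑ i1 ∈ PS E, ∑ i2 ∈ PS E, ∑ i3 ∈ PS E, ∑ i4 ∈ PS E,
      et F i1.2 * et F i2.2 * et F i3.2 * et F i4.2 *
      ((∑ ξ : Fin d → F, ps F ((i1.2 • i1.1 + i2.2 • i2.1 - (i3.2 • i3.1 + i4.2 • i4.1)) ⬝ᵥ ξ)) *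
        Um X i1.2 i2.2 i3.2 i4.2) := by
    have h2 : ∀ z : ℂ, ((‖z‖ ^ 4 : ℝ) : ℂ) = z * z * conj z * conj z := fun z => by
      have := Complex.mul_conj' z
      push_cast
      linear_combination (-(‖z‖ : ℂ) ^ 2 - z * conj z) * this
    rw [Complex.ofReal_sum]
    simp only [h2, hh, map_sum, four_sum]
    rw [sum_comm]
    refine sum_congr rfl fun i1 _ => ?_
    rw [sum_comm]
    refine sum_congr rfl fun i2 _ => ?_
    rw [sum_comm]
    refine sum_congr rfl fun i3 _ => ?_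
    rw [sum_comm]
    refine sum_congr rfl fun i4 _ => ?_
    rw [Um, sum_mul_sum, sum_product, mul_sum]
    refine sum_congr rfl fun ξ _ => ?_
    rw [mul_sum]
    refine sum_congr rfl fun w _ => ?_
    simp only [map_mul, et_conj, ps_conj, sub_dotProduct, add_dotProduct, sub_eq_add_neg, neg_add,
      neg_dotProduct, ps_add]
    ring
  rw [← Real.norm_of_nonneg (sum_nonneg fun _ _ => by positivity), ← Complex.norm_real, h1]
  simp only [mul_sum]
  refine norm_sum_le_of_le _ fun i1 _ => norm_sum_le_of_le _ fun i2 _ =>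
    norm_sum_le_of_le _ fun i3 _ => norm_sum_le_of_le _ fun i4 _ => ?_
  rw [dot_sum, norm_mul]
  refine (mul_le_of_le_one_left (norm_nonneg _) ?_).trans (le_of_eq ?_)
  · simp only [norm_mul]
    exact mul_le_one₀ (mul_le_one₀ (mul_le_one₀ (et_norm_le _) (norm_nonneg _) (et_norm_le _))
      (norm_nonneg _) (et_norm_le _)) (norm_nonneg _) (et_norm_le _)
  · simp only [sub_eq_zero]
    split_ifs <;> simp

lemma g_four (hF : ringChar F ≠ 2) (hD : D ≠ 0) {X : A D → ℂ} (hX : IsCh X) {j : F} (hj : j ≠ 0)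
    (E : Finset (Fin d → F)) (hE : ∀ x ∈ E, x ⬝ᵥ x = j) :
    ((Fintype.card F : ℝ) - 1) * #(TT D) * (Fintype.card F : ℝ) ^ 2 *
      ∑ y ∈ E, ‖∑ x ∈ E, Leg X (x ⬝ᵥ y) (-j)‖ ^ 4 ≤
    2 * ∑ p ∈ (univ : Finset (Fin d → F)) ×ˢ univ.erase (0 : A D), ‖hh X E p.1 p.2‖ ^ 4 := by
  have h := sum_comp_le (PS E ×ˢ TT D) ((univ : Finset (Fin d → F)) ×ˢ univ.erase (0 : A D))
    (fun a => (a.1.2 • a.1.1, (⟨-(a.1.2 * j * a.2.re), a.1.2 * j * D * a.2.im⟩ : A D)))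
    (fun p => ‖hh X E p.1 p.2‖ ^ 4) 2 (fun _ => by positivity) ?_ ?_
  · refine le_of_eq_of_le ?_ (h.trans (by norm_num))
    rw [PS, sum_product, sum_product, mul_sum]
    refine sum_congr rfl fun y _ => ?_
    have h1 : ∀ l ∈ univ.erase (0 : F), ∀ v ∈ TT D,
        ‖hh X E (l • y) ⟨-(l * j * v.re), l * j * D * v.im⟩‖ ^ 4 =
        (Fintype.card F : ℝ) ^ 2 * ‖∑ x ∈ E, Leg X (x ⬝ᵥ y) (-j)‖ ^ 4 := by
      intro l hl v hv
      have hl0 := ne_of_mem_erase hl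
      rw [mem_TT] at hv
      have h2 : ∀ x : Fin d → F, ∑ u ∈ TT D, X u * et F (x ⬝ᵥ (l • y) +
          pr ⟨-(l * j * v.re), l * j * D * v.im⟩ u) = et F l * X v * Leg X (x ⬝ᵥ y) (-j) := by
        intro x
        rw [sum_TT_mul v hv, Leg, mul_sum]
        refine sum_congr rfl fun u hu => ?_
        have h3 : x ⬝ᵥ (l • y) + pr ⟨-(l * j * v.re), l * j * D * v.im⟩ (u * v) =
            l * (x ⬝ᵥ y + -j * u.re) := by
          rw [nm] at hv
          simp [pr]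
          linear_combination (-l * j * u.re) * hv
        rw [h3, hX.mul _ _ (mem_TT.1 hu) hv, map_mul]
        ring
      rw [hh_eq hF, sum_congr rfl fun x _ => h2 x, ← mul_sum, norm_mul, norm_mul, norm_mul,
        et_norm hl0, hX.nrm v hv, mul_pow, ← gs_norm_sq hF]
      ring
    rw [sum_congr rfl fun l hl => sum_congr rfl fun v hv => h1 l hl v hv]
    simp only [sum_const, nsmul_eq_mul, card_erase_of_mem (mem_univ _), card_univ]
    rw [Nat.cast_pred Fintype.card_pos]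
    ring
  · rintro ⟨⟨y, l⟩, v⟩ ha
    simp only [PS, mem_product, mem_erase, mem_univ, and_true, true_and, mem_TT, nm] at ha ⊢
    intro h
    have a1 := congrArg QuadraticAlgebra.re h
    have a2 := congrArg QuadraticAlgebra.im h
    simp [ha.1.2, hj, hD] at a1 a2
    simp [a1, a2] at ha
  · rintro ⟨ξ, w⟩ _
    refine le_trans (card_le_card_of_injOn (fun a => a.1.2) ?_ ?_) (card_sqrt_le (ξ ⬝ᵥ ξ / j))
    · rintro ⟨⟨y, l⟩, v⟩ ha
      simp only [PS, coe_filter, mem_product, Set.mem_ofPred_eq, Prod.mk.injEq, mem_univ,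
        true_and] at ha ⊢
      rw [← ha.2.1]
      simp [hE y ha.1.1.1]
      field_simp
    · rintro ⟨⟨y, l⟩, v⟩ ha ⟨⟨y', l'⟩, v'⟩ hb h
      simp only [PS, coe_filter, mem_product, Set.mem_ofPred_eq, Prod.mk.injEq, mem_univ,
        true_and, mem_erase, and_true] at ha hb h ⊢
      subst h
      have a0 := ha.2.2.trans hb.2.2.symm
      have a1 := congrArg QuadraticAlgebra.re a0
      have a2 := congrArg QuadraticAlgebra.im a0
      simp [ha.1.1.2, hj, hD] at a1 a2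
      exact ⟨⟨smul_right_injective _ ha.1.1.2 (ha.2.1.trans hb.2.1.symm), rfl⟩, by ext <;> assumption⟩

lemma cone_ft (hF : ringChar F ≠ 2) (hD : D ≠ 0) {j : F} (hj : j ≠ 0) {k : ℕ}
    (m : Fin (2 * k + 1) → F) (n : A D) :
    (Fintype.card F : ℂ) * ∑ ξ : Fin (2 * k + 1) → F, ∑ w : A D,
      (if j * D * (ξ ⬝ᵥ ξ) - D * w.re ^ 2 + w.im ^ 2 = 0 then ps F (m ⬝ᵥ ξ + pr w n) else 0) =
    (if m = 0 ∧ n = 0 then (Fintype.card F : ℂ) ^ (2 * k + 3) else 0) +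
      (et F (-1) * Fintype.card F) ^ (k + 2) * et F D * et F (m ⬝ᵥ m - j * n.norm) := by
  have h2 : (2 : F) ≠ 0 := Ring.two_ne_zero hF
  have h4 : (4 : F) ≠ 0 := by
    have : (4 : F) = 2 * 2 := by norm_num
    rw [this]; exact mul_ne_zero h2 h2
  have h1 : ∀ s : F, ∑ ξ : Fin (2 * k + 1) → F, ∑ w : A D,
      ps F (s * (j * D * (ξ ⬝ᵥ ξ) - D * w.re ^ 2 + w.im ^ 2)) * ps F (m ⬝ᵥ ξ + pr w n) =
      (∑ ξ : Fin (2 * k + 1) → F, ps F (s * j * D * (ξ ⬝ᵥ ξ) + m ⬝ᵥ ξ)) *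
        ((∑ a : F, ps F (-(s * D) * a ^ 2 + n.re * a)) * ∑ b : F, ps F (s * b ^ 2 + n.im * b)) := by
    intro s
    rw [sum_mul]
    refine sum_congr rfl fun ξ _ => ?_
    rw [sum_A, sum_mul_sum, mul_sum]
    refine sum_congr rfl fun a _ => ?_
    rw [mul_sum]
    refine sum_congr rfl fun b _ => ?_
    simp only [← ps_add, pr]
    congr 1
    ring
  have h3 : ∀ s ∈ univ.erase (0 : F), ∑ ξ : Fin (2 * k + 1) → F, ∑ w : A D,
      ps F (s * (j * D * (ξ ⬝ᵥ ξ) - D * w.re ^ 2 + w.im ^ 2)) * ps F (m ⬝ᵥ ξ + pr w n) =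
      (gs F) ^ (2 * k + 3) * et F (-j) *
        (et F s⁻¹ * ps F (s⁻¹ * (-((m ⬝ᵥ m - j * n.norm) / (4 * j * D))))) := by
    intro s hs
    have hs0 := ne_of_mem_erase hs
    rw [h1, gaussV hF (by simp [hs0, hj, hD]), gauss1 hF (by simp [hs0, hD]), gauss1 hF hs0]
    have e1 : ps F (s⁻¹ * (-((m ⬝ᵥ m - j * n.norm) / (4 * j * D)))) =
        ps F (-(m ⬝ᵥ m / (4 * (s * j * D)))) * ps F (-(n.re ^ 2 / (4 * -(s * D)))) *
          ps F (-(n.im ^ 2 / (4 * s))) := by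
      simp only [← ps_add, nm]
      congr 1
      field_simp
      ring
    have e2 : et F (s * j * D) ^ (2 * k + 1) = et F (s * j * D) := by
      rw [pow_succ, pow_mul, sq, et_mul_self (by simp [hs0, hj, hD]), one_pow, one_mul]
    have e3 : et F (s * j * D) * et F (-(s * D)) = et F (-j) := by
      rw [← map_mul]
      exact et_of_eq (mul_ne_zero hs0 hD) (by ring)
    rw [e1, mul_pow, e2, et_inv, ← e3]
    ring
  have h5 : ∑ ξ : Fin (2 * k + 1) → F, ∑ w : A D, ps F (m ⬝ᵥ ξ + pr w n) =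
      if m = 0 ∧ n = 0 then (Fintype.card F : ℂ) ^ (2 * k + 3) else 0 := by
    simp only [ps_add, ← mul_sum, ← sum_mul, dot_sum, pr_sum]
    by_cases hm : m = 0 <;> by_cases hn : n = 0 <;> simp [hm, hn]
    ring
  have h6 : ∀ (c : F) (z : ℂ), (Fintype.card F : ℂ) * (if c = 0 then z else 0) =
      ∑ s : F, ps F (s * c) * z := fun c z => by
    rw [← sum_mul, ps_sum]; split_ifs <;> simp
  have h7 : ∀ a : F, ∑ s : F, et F s⁻¹ * ps F (s⁻¹ * a) = et F a * gs F := fun a =>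
    (Equiv.sum_comp (Equiv.inv F) (fun s => et F s * ps F (s * a))).trans (et_ps_sum hF a)
  simp only [mul_sum, h6]
  rw [sum_congr rfl fun ξ _ => sum_comm, sum_comm, ← add_sum_erase _ _ (mem_univ (0 : F)),
    sum_congr rfl h3, ← mul_sum, sum_erase _ (by simp [et_zero]), h7]
  congr 1
  · simpa only [zero_mul, ps_zero, one_mul] using h5
  have e4 : et F (-j) * et F (-((m ⬝ᵥ m - j * n.norm) / (4 * j * D))) =
      et F D * et F (m ⬝ᵥ m - j * n.norm) := by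
    rw [← map_mul, ← map_mul]
    exact (et_of_eq (mul_ne_zero h2 hD) (by field_simp; ring)).symm
  rw [← gs_sq hF, mul_assoc _ (et F D), ← e4]
  ring

/-- The quadratic form of the kernel attached to a torus character. -/
noncomputable def WW (X : A D → ℂ) (j : F) (E : Finset (Fin d → F)) : ℂ :=
  ∑ y ∈ E, ∑ x ∈ E, Leg X (x ⬝ᵥ y) (-j)

lemma pos_id (hF : ringChar F ≠ 2) (hD : D ≠ 0) {X : A D → ℂ} (hX : IsCh X) {j : F} (hj : j ≠ 0)
    {k : ℕ} (E : Finset (Fin (2 * k + 1) → F)) (hE : ∀ x ∈ E, x ⬝ᵥ x = j) :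
    ∃ (P : ℝ) (C : ℂ), 0 ≤ P ∧ ‖C‖ ≤ 2 * (#E * ((Fintype.card F : ℝ) - 1) * #(TT D)) ∧
      (P : ℂ) = (Fintype.card F : ℂ) ^ (2 * k + 3) * C +
        (et F (-1) * Fintype.card F) ^ (k + 2) * et F D * et F (-2) *
          (((Fintype.card F : ℂ) - 1) ^ 2 * #(TT D) * WW X j E) := by
  have h2 : (2 : F) ≠ 0 := Ring.two_ne_zero hF
  set s := PS E ×ˢ TT D with hs
  set φ : ((Fin (2 * k + 1) → F) × F) × A D → ℂ := fun a => et F a.1.2 * X a.2 with hφ
  have hmem : ∀ a ∈ s, a.1.1 ∈ E ∧ a.1.2 ≠ 0 ∧ a.2.norm = 1 := fun a ha => by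
    simpa [hs, PS, mem_TT, and_assoc] using ha
  have hh1 : ∀ ξ w, hh X E ξ w =
      ∑ a ∈ s, φ a * ps F ((a.1.2 • a.1.1) ⬝ᵥ ξ + pr w (a.1.2 • a.2)) := fun ξ w => by
    rw [hh, hs, sum_product]
    refine sum_congr rfl fun i _ => ?_
    rw [Jb, mul_sum]
    refine sum_congr rfl fun u _ => ?_
    have : pr w (i.2 • u) = pr (i.2 • w) u := by simp [pr]; ring
    rw [ps_add, this]
    ring
  refine ⟨Fintype.card F * ∑ ξ : Fin (2 * k + 1) → F, ∑ w : A D,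
    (if j * D * (ξ ⬝ᵥ ξ) - D * w.re ^ 2 + w.im ^ 2 = 0 then ‖hh X E ξ w‖ ^ 2 else 0),
    ∑ a ∈ s, ∑ b ∈ s, if a.1.2 • a.1.1 - b.1.2 • b.1.1 = 0 ∧ a.1.2 • a.2 - b.1.2 • b.2 = 0 then
      φ a * conj (φ b) else 0, by positivity, ?_, ?_⟩
  · have hc : (#s : ℝ) = #E * ((Fintype.card F : ℝ) - 1) * #(TT D) := by
      rw [hs, PS, card_product, card_product, card_erase_of_mem (mem_univ _), card_univ]
      push_cast
      rw [Nat.cast_pred Fintype.card_pos]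
    rw [← hc, mul_comm (2 : ℝ), ← nsmul_eq_mul]
    refine (norm_sum_le _ _).trans (sum_le_card_nsmul _ _ _ fun a ha => ?_)
    rw [← sum_filter]
    refine (norm_sum_le _ _).trans ((sum_le_card_nsmul _ _ 1 fun b hb => ?_).trans ?_)
    · have := hmem b (mem_filter.1 hb).1
      simp only [hφ, norm_mul, Complex.norm_conj, et_norm this.2.1, hX.nrm _ this.2.2,
        et_norm (hmem a ha).2.1, hX.nrm _ (hmem a ha).2.2]
      simp
    rw [nsmul_eq_mul, mul_one]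
    norm_cast
    refine le_trans (card_le_card_of_injOn (fun b => b.1.2) ?_ ?_) (card_sqrt_le (a.1.2 ^ 2))
    · intro b hb
      simp only [coe_filter, Set.mem_ofPred_eq, mem_univ, true_and, sub_eq_zero] at hb ⊢
      have := congrArg QuadraticAlgebra.norm hb.2.2
      simpa [nm_smul, (hmem a ha).2.2, (hmem b hb.1).2.2] using this.symm
    · rintro ⟨⟨y, l⟩, v⟩ hb ⟨⟨y', l'⟩, v'⟩ hb' h
      simp only [coe_filter, Set.mem_ofPred_eq, sub_eq_zero] at hb hb' h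
      subst h
      have hl := (hmem _ hb.1).2.1
      rw [smul_right_injective _ hl (hb.2.1.symm.trans hb'.2.1),
        smul_right_injective _ hl (hb.2.2.symm.trans hb'.2.2)]
  have h3 : ∀ ξ w, (((if j * D * (ξ ⬝ᵥ ξ) - D * w.re ^ 2 + w.im ^ 2 = 0 then
      ‖hh X E ξ w‖ ^ 2 else 0 : ℝ)) : ℂ) = ∑ a ∈ s, ∑ b ∈ s, φ a * conj (φ b) *
      if j * D * (ξ ⬝ᵥ ξ) - D * w.re ^ 2 + w.im ^ 2 = 0 then
        ps F ((a.1.2 • a.1.1 - b.1.2 • b.1.1) ⬝ᵥ ξ + pr w (a.1.2 • a.2 - b.1.2 • b.2)) else 0 := by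
    intro ξ w
    split_ifs
    · push_cast
      rw [← Complex.mul_conj', hh1, map_sum, sum_mul_sum]
      refine sum_congr rfl fun a _ => sum_congr rfl fun b _ => ?_
      have : (a.1.2 • a.1.1 - b.1.2 • b.1.1) ⬝ᵥ ξ + pr w (a.1.2 • a.2 - b.1.2 • b.2) =
          ((a.1.2 • a.1.1) ⬝ᵥ ξ + pr w (a.1.2 • a.2)) +
            -((b.1.2 • b.1.1) ⬝ᵥ ξ + pr w (b.1.2 • b.2)) := by simp [pr]; ring
      rw [this, ps_add _ (-_), map_mul, ps_conj]
      ring
    · simp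
  have h4 : ∑ a ∈ s, ∑ b ∈ s, φ a * conj (φ b) *
      et F ((a.1.2 • a.1.1 - b.1.2 • b.1.1) ⬝ᵥ (a.1.2 • a.1.1 - b.1.2 • b.1.1) -
        j * (a.1.2 • a.2 - b.1.2 • b.2).norm) =
      et F (-2) * (((Fintype.card F : ℂ) - 1) ^ 2 * #(TT D) * WW X j E) := by
    have h5 : ∀ i ∈ PS E, ∀ i' ∈ PS E, ∀ v ∈ TT D, ∑ u ∈ TT D, φ (i, u) * conj (φ (i', v)) *
        et F ((i.2 • i.1 - i'.2 • i'.1) ⬝ᵥ (i.2 • i.1 - i'.2 • i'.1) -
          j * (i.2 • u - i'.2 • v).norm) = et F (-2) * Leg X (i.1 ⬝ᵥ i'.1) (-j) := by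
      rintro ⟨x, l⟩ hi ⟨y, l'⟩ hi' v hv
      simp only [PS, mem_product, mem_erase, mem_univ, and_true] at hi hi'
      rw [mem_TT] at hv
      rw [sum_TT_mul v hv, Leg, mul_sum]
      refine sum_congr rfl fun u hu => ?_
      rw [mem_TT] at hu
      have e1 : (l • x - l' • y) ⬝ᵥ (l • x - l' • y) - j * (l • (u * v) - l' • v).norm =
          -2 * l * l' * (x ⬝ᵥ y + -j * u.re) := by
        rw [← smul_mul_assoc, ← one_mul v, ← smul_mul_assoc l', one_mul, ← sub_mul, map_mul, hv,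
          ← QuadraticAlgebra.norm_neg, neg_sub, nm_diff _ _ hu]
        simp [hE x hi.1, hE y hi'.1, dotProduct_comm y x]
        ring
      simp only [hφ, e1, map_mul, et_conj, hX.mul _ _ hu hv]
      linear_combination (et F (-2) * X u * et F (x ⬝ᵥ y + -j * u.re)) *
        ((et F l * et F l) * (et F l' * et F l') * ch_mul_conj hX hv +
          (et F l' * et F l') * et_mul_self hi.2 + et_mul_self hi'.2)
    rw [hs, sum_product]
    simp only [sum_product (PS E) (TT D)]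
    rw [sum_congr rfl fun i hi => (sum_comm.trans (sum_congr rfl fun i' hi' =>
      sum_comm.trans (sum_congr rfl fun v hv => h5 i hi i' hi' v hv)))]
    simp only [PS, sum_product, sum_const, nsmul_eq_mul, card_erase_of_mem (mem_univ _), card_univ,
      WW, mul_sum]
    rw [Nat.cast_pred Fintype.card_pos, sum_comm]
    refine sum_congr rfl fun y _ => sum_congr rfl fun x _ => by ring
  push_cast
  simp only [h3]
  rw [mul_assoc _ (et F (-2)), ← h4, sum_congr rfl fun ξ _ => sum_comm, sum_comm, mul_sum, mul_sum,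
    mul_sum, ← sum_add_distrib]
  refine sum_congr rfl fun a _ => ?_
  rw [sum_congr rfl fun ξ _ => sum_comm, sum_comm, mul_sum, mul_sum, mul_sum, ← sum_add_distrib]
  refine sum_congr rfl fun b _ => ?_
  simp only [← mul_sum]
  rw [mul_left_comm, cone_ft hF hD hj]
  split_ifs <;> ring

lemma card_ge_three (hF : ringChar F ≠ 2) : (3 : ℝ) ≤ Fintype.card F := by
  have h1 := FiniteField.odd_card_of_char_ne_two hF
  have h2 : 1 < Fintype.card F := Fintype.one_lt_card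
  have : 3 ≤ Fintype.card F := by omega
  exact_mod_cast this

lemma W_pos (hF : ringChar F ≠ 2) (hD : D ≠ 0) {X : A D → ℂ} (hX : IsCh X) {j : F} (hj : j ≠ 0)
    {k : ℕ} (E : Finset (Fin (2 * k + 1) → F)) (hE : ∀ x ∈ E, x ⬝ᵥ x = j) :
    ‖WW X j E‖ ≤ (et F (-1) ^ (k + 2) * et F (-2) * et F D * WW X j E).re +
      6 * ((Fintype.card F : ℝ) ^ k * #E) := by
  obtain ⟨P, C, hP, hC, h⟩ := pos_id hF hD hX hj E hE
  have hq := card_ge_three hF
  obtain ⟨t1, -⟩ := card_TT_bd hF hD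
  set σ := et F (-1) ^ (k + 2) * et F (-2) * et F D with hσ
  have hσ1 : ‖σ‖ = 1 := by
    rw [hσ, norm_mul, norm_mul, norm_pow, et_norm hD, et_norm (neg_ne_zero.2 one_ne_zero),
      et_norm (neg_ne_zero.2 (Ring.two_ne_zero hF))]
    simp
  set q : ℝ := ((Fintype.card F : ℕ) : ℝ) with hqd
  set c : ℝ := q ^ (k + 2) * ((q - 1) ^ 2 * #(TT D)) with hc
  have hc0 : 0 < c := by
    have : 0 < q - 1 := by linarith
    have : (0 : ℝ) < #(TT D) := by linarith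
    positivity
  have h1 : σ * WW X j E = ((P / c : ℝ) : ℂ) - ((q ^ (2 * k + 3) / c : ℝ) : ℂ) * C := by
    have : (c : ℂ) ≠ 0 := by exact_mod_cast hc0.ne'
    push_cast
    field_simp
    rw [h, hc, hqd, hσ]
    push_cast
    ring
  have h2 : ‖((q ^ (2 * k + 3) / c : ℝ) : ℂ) * C‖ ≤ 3 * (q ^ k * #E) := by
    rw [norm_mul, Complex.norm_real, Real.norm_of_nonneg (by positivity), div_mul_eq_mul_div,
      div_le_iff₀ hc0]
    refine (mul_le_mul_of_nonneg_left hC (by positivity)).trans ?_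
    have h3 : 0 ≤ q ^ (2 * k + 2) * (#E * (q - 1) * #(TT D)) := by
      have : 0 < q - 1 := by linarith
      positivity
    calc _ = q ^ (2 * k + 2) * (#E * (q - 1) * #(TT D)) * (2 * q) := by ring
      _ ≤ q ^ (2 * k + 2) * (#E * (q - 1) * #(TT D)) * (3 * (q - 1)) :=
        mul_le_mul_of_nonneg_left (by linarith) h3
      _ = _ := by rw [hc]; ring
  have h4 : 0 ≤ P / c := by positivity
  rw [← one_mul ‖WW X j E‖, ← hσ1, ← norm_mul, h1, Complex.sub_re, Complex.ofReal_re]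
  refine (norm_sub_le _ _).trans ?_
  rw [Complex.norm_real, Real.norm_of_nonneg h4]
  linarith [Complex.re_le_norm (((q ^ (2 * k + 3) / c : ℝ) : ℂ) * C)]

lemma W_sum1 (hF : ringChar F ≠ 2) (hD : D ≠ 0) {j : F} (hj : j ≠ 0) {k : ℕ}
    (E : Finset (Fin (2 * k + 1) → F)) (hE : ∀ x ∈ E, x ⬝ᵥ x = j) {ι : Type} [Fintype ι]
    {X : ι → A D → ℂ} (hX : ∀ i, IsCh (X i)) (hc : Fintype.card ι = #(TT D))
    (ho : ∀ u : A D, u.norm = 1 → ∑ i, X i u = if u = 1 then (#(TT D) : ℂ) else 0) :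
    ∑ i, ‖WW (X i) j E‖ ≤ #(TT D) * ((et F D * (et F (-1) ^ (k + 2) * et F (-2) *
      ∑ y ∈ E, ∑ x ∈ E, et F (x ⬝ᵥ y - j))).re + 6 * ((Fintype.card F : ℝ) ^ k * #E)) := by
  refine (sum_le_sum fun i _ => W_pos hF hD (hX i) hj E hE).trans (le_of_eq ?_)
  have h1 : ∑ i, WW (X i) j E = #(TT D) * ∑ y ∈ E, ∑ x ∈ E, et F (x ⬝ᵥ y - j) := by
    simp only [WW, Leg, mul_sum]
    rw [sum_comm]
    refine sum_congr rfl fun y _ => ?_
    rw [sum_comm]
    refine sum_congr rfl fun x _ => ?_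
    rw [sum_comm]
    simp only [← sum_mul]
    rw [sum_congr rfl fun u hu => by rw [ho u (mem_TT.1 hu)]]
    simp [mem_TT, sub_eq_add_neg]
  rw [sum_add_distrib, ← Complex.re_sum, ← mul_sum, h1, sum_const, card_univ, hc, nsmul_eq_mul,
    mul_add, ← Complex.re_ofReal_mul]
  congr 2
  push_cast
  ring

lemma W_sum (hF : ringChar F ≠ 2) (hD : D ≠ 0) {j : F} (hj : j ≠ 0) {k : ℕ}
    (E : Finset (Fin (2 * k + 1) → F)) (hE : ∀ x ∈ E, x ⬝ᵥ x = j) {ι : Type} [Fintype ι]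
    {X : ι → A D → ℂ} (hX : ∀ i, IsCh (X i)) (hc : Fintype.card ι = #(TT D))
    (ho : ∀ u : A D, u.norm = 1 → ∑ i, X i u = if u = 1 then (#(TT D) : ℂ) else 0) :
    ∑ i, ‖WW (X i) j E‖ ≤ #(TT D) * (12 * ((Fintype.card F : ℝ) ^ k * #E)) := by
  obtain ⟨e, he⟩ := exists_nonsq hF
  have he0 : e ≠ 0 := by rintro rfl; simp [et_zero] at he
  have hD' : D * e ≠ 0 := mul_ne_zero hD he0
  obtain ⟨ι', _, X', hX', hc', ho'⟩ := exists_family (D * e)
  have h1 := (sum_nonneg fun _ _ => norm_nonneg _).trans (W_sum1 hF hD' hj E hE hX' hc' ho')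
  have h2 : (0 : ℝ) < #(TT (D * e)) := by linarith [(card_TT_bd hF hD').1, card_ge_three hF]
  rw [mul_nonneg_iff_of_pos_left h2, map_mul, he, mul_neg_one, neg_mul, Complex.neg_re] at h1
  refine (W_sum1 hF hD hj E hE hX hc ho).trans ?_
  gcongr
  linarith

end Pool.Agent.Lib.MP_a460e0_co.Br
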