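import Pool.Agent.Lib.MP_a460e0_co.BrE

/-! Second-moment counts for subsets of a sphere: orthogonality, isotropic pairs, rich lines. -/

namespace Pool.Agent.Lib.MP_a460e0_co.Br

open Finset ComplexConjugate Matrix

variable {F : Type} [Field F] [Fintype F] [DecidableEq F] {d : ℕ} {j : F}

lemma ite_sum_le {α : Type} {s : Finset α} (p : α → Prop) [DecidablePred p] {K n : ℝ} (hK : 0 ≤ K)
    (h : (#(s.filter p) : ℝ) ≤ n) : ∑ a ∈ s, (if p a then K else 0) ≤ n * K := by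
  rw [← sum_filter, sum_const, nsmul_eq_mul]
  gcongr

omit [Fintype F] [DecidableEq F] in
lemma pm_of_smul (hj : j ≠ 0) {x y : Fin d → F} (hx : x ⬝ᵥ x = j) (hy : y ⬝ᵥ y = j) {a : F}
    (h : y = a • x) : y = x ∨ y = -x := by
  have h1 : a ^ 2 = 1 := by
    rw [h] at hy
    simp only [smul_dotProduct, dotProduct_smul, hx, smul_eq_mul] at hy
    apply mul_right_cancel₀ hj
    linear_combination hy
  rcases sq_eq_one_iff.1 h1 with rfl | rfl
  · left; simpa using h
  · right; simpa using h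

omit [Fintype F] [DecidableEq F] in
lemma ind2 (hj : j ≠ 0) {x y : Fin d → F} (hx : x ⬝ᵥ x = j) (hy : y ⬝ᵥ y = j)
    (h : ¬ (y = x ∨ y = -x)) {a b : F} (hab : a • x + b • y = 0) : a = 0 ∧ b = 0 := by
  have hb : b = 0 := by
    by_contra hb
    refine h (pm_of_smul hj hx hy (a := -(a / b)) ?_)
    funext i
    have := congrFun hab i
    simp only [Pi.add_apply, Pi.smul_apply, smul_eq_mul, Pi.zero_apply] at this ⊢
    field_simp
    linear_combination this
  have hx0 : x ≠ 0 := by rintro rfl; simp at hx; exact hj hx.symm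
  simpa [hb, hx0] using hab

lemma card_pm (E : Finset (Fin d → F)) (x : Fin d → F) :
    #(E.filter fun y => y = x ∨ y = -x) ≤ 2 :=
  (card_le_card (t := {x, -x}) fun y hy => by simpa using (mem_filter.1 hy).2).trans card_le_two

/-- The Fourier transform of the indicator function. -/
noncomputable def ft (E : Finset (Fin d → F)) (ξ : Fin d → F) : ℂ := ∑ y ∈ E, ps F (y ⬝ᵥ ξ)

lemma ft_sq (E : Finset (Fin d → F)) (ξ : Fin d → F) :
    ((‖ft E ξ‖ ^ 2 : ℝ) : ℂ) = ∑ y ∈ E, ∑ z ∈ E, ps F ((y - z) ⬝ᵥ ξ) := by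
  push_cast
  rw [← Complex.mul_conj', ft, map_sum, sum_mul_sum]
  refine sum_congr rfl fun y _ => sum_congr rfl fun z _ => ?_
  rw [ps_conj, ← ps_add, sub_dotProduct, sub_eq_add_neg]

lemma parseval (E : Finset (Fin d → F)) :
    ∑ ξ : Fin d → F, ‖ft E ξ‖ ^ 2 = (Fintype.card F : ℝ) ^ d * #E := by
  have : ((∑ ξ : Fin d → F, ‖ft E ξ‖ ^ 2 : ℝ) : ℂ) = (Fintype.card F : ℂ) ^ d * #E := by
    rw [Complex.ofReal_sum]
    simp only [ft_sq]
    rw [sum_comm, sum_congr rfl fun y _ => sum_comm]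
    simp only [dot_sum, sub_eq_zero]
    rw [sum_congr rfl fun y hy => by rw [sum_ite_eq, if_pos hy]]
    simp [mul_comm]
  exact_mod_cast this

lemma ps_ft (hj : j ≠ 0) (E : Finset (Fin d → F)) (hE : ∀ x ∈ E, x ⬝ᵥ x = j) :
    ∑ i ∈ PS E, ‖ft E (i.2 • i.1)‖ ^ 2 ≤ 2 * ((Fintype.card F : ℝ) ^ d * #E) := by
  rw [← parseval]
  refine sum_comp_le (PS E) univ (fun i => i.2 • i.1) (fun ξ => ‖ft E ξ‖ ^ 2) 2
    (fun _ => by positivity) (fun _ _ => mem_univ _) fun ξ _ => ?_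
  refine le_trans (card_le_card_of_injOn (fun a => a.2) ?_ ?_) (card_sqrt_le (ξ ⬝ᵥ ξ / j))
  · rintro ⟨y, l⟩ ha
    simp only [PS, coe_filter, mem_product, Set.mem_ofPred_eq, mem_univ, true_and] at ha ⊢
    rw [← ha.2]
    simp [hE y ha.1.1]
    field_simp
  · rintro ⟨y, l⟩ ha ⟨y', l'⟩ hb h
    simp only [PS, coe_filter, mem_product, Set.mem_ofPred_eq, mem_erase] at ha hb h
    subst h
    rw [smul_right_injective _ ha.1.2.1 (ha.2.trans hb.2.symm)]

lemma card_PS (E : Finset (Fin d → F)) : (#(PS E) : ℝ) ≤ #E * Fintype.card F := by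
  rw [PS, card_product]
  push_cast
  gcongr
  exact card_le_univ _

lemma iso_bound (hj : j ≠ 0) {k : ℕ} (E : Finset (Fin (2 * k + 1) → F))
    (hE : ∀ x ∈ E, x ⬝ᵥ x = j) (t : F) :
    ∑ x ∈ E, ∑ y ∈ E, (if x ⬝ᵥ y = t then (1 : ℝ) else 0) ≤
      (#E : ℝ) ^ 2 / Fintype.card F + 2 * (#E * (Fintype.card F : ℝ) ^ k) := by
  have hq : (0 : ℝ) < Fintype.card F := by exact_mod_cast Fintype.card_pos
  have h1 : ((Fintype.card F * ∑ x ∈ E, ∑ y ∈ E, (if x ⬝ᵥ y = t then (1 : ℝ) else 0) -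
      (#E : ℝ) ^ 2 : ℝ) : ℂ) = ∑ i ∈ PS E, ps F (-(i.2 * t)) * ft E (i.2 • i.1) := by
    rw [PS, sum_product, sq, ← nsmul_eq_mul (#E) (#E : ℝ), ← sum_const]
    push_cast
    rw [mul_sum, ← sum_sub_distrib]
    refine sum_congr rfl fun x _ => ?_
    rw [sum_erase_eq_sub (mem_univ _)]
    congr 1
    · simp only [ft, mul_sum]
      rw [sum_comm]
      refine sum_congr rfl fun y _ => ?_
      have : ∀ s : F, ps F (-(s * t)) * ps F (y ⬝ᵥ s • x) = ps F (s * (x ⬝ᵥ y - t)) := fun s => by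
        rw [← ps_add]; congr 1; simp [dotProduct_comm y x]; ring
      simp only [this, ps_sum, sub_eq_zero]
      split_ifs <;> simp
    · simp [ft, ps_zero]
  have h2 : (∑ i ∈ PS E, ‖ft E (i.2 • i.1)‖) ^ 2 ≤
      (2 * (#E * (Fintype.card F : ℝ) ^ k) * Fintype.card F) ^ 2 := by
    refine sq_sum_le_card_mul_sum_sq.trans ((mul_le_mul (card_PS E) (ps_ft hj E hE)
      (by positivity) (by positivity)).trans ?_)
    have : 0 ≤ (#E * (Fintype.card F : ℝ) ^ k * Fintype.card F) ^ 2 := by positivity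
    calc _ = 2 * (#E * (Fintype.card F : ℝ) ^ k * Fintype.card F) ^ 2 := by ring
      _ ≤ 4 * (#E * (Fintype.card F : ℝ) ^ k * Fintype.card F) ^ 2 := by linarith
      _ = _ := by ring
  have h3 := (abs_le_of_sq_le_sq' h2 (by positivity)).2
  have h4 := congrArg (‖·‖) h1
  simp only [Complex.norm_real, Real.norm_eq_abs] at h4
  have h5 := (le_abs_self _).trans (h4.le.trans (norm_sum_le _ _))
  simp only [norm_mul, ps_norm, one_mul] at h5
  rw [div_add' _ _ _ hq.ne', le_div_iff₀ hq]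
  linarith

lemma perp2 (x y : Fin d → F) (h : ∀ a b : F, a • x + b • y = 0 → a = 0 ∧ b = 0) :
    ∑ ξ : Fin d → F, (if x ⬝ᵥ ξ = 0 ∧ y ⬝ᵥ ξ = 0 then (1 : ℝ) else 0) =
      (Fintype.card F : ℝ) ^ d / (Fintype.card F : ℝ) ^ 2 := by
  have hq : (0 : ℝ) < Fintype.card F := by exact_mod_cast Fintype.card_pos
  rw [eq_div_iff (by positivity)]
  have : (((∑ ξ : Fin d → F, (if x ⬝ᵥ ξ = 0 ∧ y ⬝ᵥ ξ = 0 then (1 : ℝ) else 0)) *
      (Fintype.card F : ℝ) ^ 2 : ℝ) : ℂ) = (Fintype.card F : ℂ) ^ d := by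
    have h1 : ∀ ξ : Fin d → F, ((if x ⬝ᵥ ξ = 0 ∧ y ⬝ᵥ ξ = 0 then (1 : ℝ) else 0 : ℝ) : ℂ) *
        (Fintype.card F : ℂ) ^ 2 = ∑ a : F, ∑ b : F, ps F ((a • x + b • y) ⬝ᵥ ξ) := fun ξ => by
      simp only [add_dotProduct, smul_dotProduct, smul_eq_mul, ps_add, ← mul_sum, ← sum_mul, ps_sum]
      by_cases h1 : x ⬝ᵥ ξ = 0 <;> by_cases h2 : y ⬝ᵥ ξ = 0 <;> simp [h1, h2, sq]
    push_cast
    simp only [sum_mul, h1]
    rw [sum_comm, sum_congr rfl fun a _ => sum_comm]
    simp only [dot_sum]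
    rw [sum_eq_single 0, sum_eq_single 0]
    · simp
    · intro b _ hb; exact if_neg fun h1 => hb (h _ _ h1).2
    · simp
    · intro a _ ha; exact sum_eq_zero fun b _ => if_neg fun h1 => ha (h _ _ h1).1
    · simp
  exact_mod_cast this

lemma perp1 (x : Fin d → F) (h : x ≠ 0) :
    ∑ ξ : Fin d → F, (if x ⬝ᵥ ξ = 0 then (1 : ℝ) else 0) =
      (Fintype.card F : ℝ) ^ d / Fintype.card F := by
  have hq : (0 : ℝ) < Fintype.card F := by exact_mod_cast Fintype.card_pos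
  rw [eq_div_iff (by positivity)]
  have : (((∑ ξ : Fin d → F, (if x ⬝ᵥ ξ = 0 then (1 : ℝ) else 0)) *
      (Fintype.card F : ℝ) : ℝ) : ℂ) = (Fintype.card F : ℂ) ^ d := by
    have h1 : ∀ ξ : Fin d → F, ((if x ⬝ᵥ ξ = 0 then (1 : ℝ) else 0 : ℝ) : ℂ) *
        (Fintype.card F : ℂ) = ∑ a : F, ps F ((a • x) ⬝ᵥ ξ) := fun ξ => by
      simp only [smul_dotProduct, smul_eq_mul, ps_sum]
      split_ifs <;> simp
    push_cast
    simp only [sum_mul, h1]
    rw [sum_comm]
    simp only [dot_sum]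
    rw [sum_eq_single 0]
    · simp
    · intro a _ ha; exact if_neg (smul_ne_zero ha h)
    · simp
  exact_mod_cast this

lemma kill_sum {k : ℕ} (p : (Fin d → F) → Prop) [DecidablePred p] :
    ∑ f : Fin k → Fin d → F, (if ∀ i, p (f i) then (1 : ℝ) else 0) =
      (∑ ξ : Fin d → F, if p ξ then (1 : ℝ) else 0) ^ k := by
  rw [← Fin.prod_const, prod_univ_sum, Fintype.piFinset_univ]
  refine sum_congr rfl fun f _ => ?_
  rw [prod_boole]
  simp

open Classical in
/-- Points of `E` on the line through `x` and `y`. -/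
noncomputable def Lin (E : Finset (Fin d → F)) (x y : Fin d → F) : Finset (Fin d → F) :=
  E.filter fun z => ∃ a b : F, z = a • x + b • y

/-- The pair `x, y` spans a line with more than `L` points. -/
def Rich (E : Finset (Fin d → F)) (L : ℕ) (x y : Fin d → F) : Prop :=
  ¬ (y = x ∨ y = -x) ∧ L < #(Lin E x y)

open Classical in
lemma rich_bound (hj : j ≠ 0) (E : Finset (Fin d → F)) (hE : ∀ x ∈ E, x ⬝ᵥ x = j) (k L : ℕ)
    (hL : 2 * (#E / (Fintype.card F : ℝ) ^ k) ≤ L) :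
    ∑ x ∈ E, ∑ y ∈ E, (if Rich E L x y then (1 : ℝ) else 0) ≤
      8 * (#E * (Fintype.card F : ℝ) ^ k) := by
  have hq : (0 : ℝ) < Fintype.card F := by exact_mod_cast Fintype.card_pos
  set q : ℝ := ((Fintype.card F : ℕ) : ℝ) with hqd
  set P : ℝ := q ^ k with hP
  set O : ℝ := (q ^ d) ^ k with hO
  set M : ℝ := #E / P with hM
  have hP0 : 0 < P := by positivity
  have hO0 : 0 < O := by positivity
  set c : (Fin k → Fin d → F) → (Fin d → F) → ℝ := fun f x => if ∀ i, x ⬝ᵥ f i = 0 then 1 else 0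
    with hc
  have c1 : ∀ x ∈ E, ∑ f, c f x = O / P := fun x hx => by
    have hx0 : x ≠ 0 := by rintro rfl; exact hj (by simpa using (hE _ hx).symm)
    rw [kill_sum (fun ξ => x ⬝ᵥ ξ = 0), perp1 x hx0, div_pow]
  have c2 : ∀ x ∈ E, ∀ y ∈ E, ¬ (y = x ∨ y = -x) → ∑ f, c f x * c f y = O / P ^ 2 :=
    fun x hx y hy h => by
      simp only [hc, ite_zero_mul_ite_zero, mul_one, ← forall_and]
      rw [kill_sum (fun ξ => x ⬝ᵥ ξ = 0 ∧ y ⬝ᵥ ξ = 0),
        perp2 x y fun a b => ind2 hj (hE x hx) (hE y hy) h, div_pow, hP, ← pow_mul q 2,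
        ← pow_mul q k, mul_comm 2]
  have c0 : ∀ f x, 0 ≤ c f x := fun f x => by simp only [hc]; split_ifs <;> simp
  have c3 : ∀ x ∈ E, ∑ y ∈ E, ∑ f, c f x * c f y ≤ #E * (O / P ^ 2) + 2 * (O / P) := by
    intro x hx
    refine (sum_le_sum (g := fun y => O / P ^ 2 + if y = x ∨ y = -x then O / P else 0)
      fun y hy => ?_).trans ?_
    · split_ifs with h
      · rw [← c1 x hx]
        refine le_add_of_nonneg_of_le (by positivity) (sum_le_sum fun f _ => ?_)
        refine mul_le_of_le_one_right (c0 _ _) ?_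
        simp only [hc]; split_ifs <;> simp
      · rw [c2 x hx y hy h, add_zero]
    · rw [sum_add_distrib, sum_const, nsmul_eq_mul]
      gcongr
      exact ite_sum_le _ (by positivity) (by exact_mod_cast card_pm E x)
  have hvar : ∑ f : Fin k → Fin d → F, (∑ x ∈ E, c f x - M) ^ 2 ≤ 2 * M * O := by
    have e1 : ∑ f : Fin k → Fin d → F, ∑ x ∈ E, c f x = M * O := by
      rw [sum_comm, sum_congr rfl c1, sum_const, nsmul_eq_mul, hM]; ring
    have e2 : ∑ f : Fin k → Fin d → F, (∑ x ∈ E, c f x) ^ 2 ≤ M ^ 2 * O + 2 * M * O := by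
      simp only [sq (∑ x ∈ E, c _ x), sum_mul_sum]
      rw [sum_comm]
      refine (sum_le_sum fun x hx => (le_of_eq sum_comm).trans (c3 x hx)).trans (le_of_eq ?_)
      rw [sum_const, nsmul_eq_mul, hM]; ring
    have e3 : ((Fintype.card (Fin k → Fin d → F) : ℕ) : ℝ) = O := by simp [hO, hqd]
    simp only [sub_sq, sum_add_distrib, sum_sub_distrib, sum_const, nsmul_eq_mul, card_univ, e3,
      ← sum_mul, ← mul_sum, e1]
    linarith
  have hkey : ∀ f : Fin k → Fin d → F, ∑ x ∈ E, ∑ y ∈ E,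
      (if Rich E L x y then (1 : ℝ) else 0) * (c f x * c f y) ≤ 4 * (∑ x ∈ E, c f x - M) ^ 2 := by
    intro f
    by_cases h : 2 * M ≤ ∑ x ∈ E, c f x
    · have h1 : ∑ x ∈ E, ∑ y ∈ E, (if Rich E L x y then (1 : ℝ) else 0) * (c f x * c f y) ≤
          (∑ x ∈ E, c f x) ^ 2 := by
        rw [sq, sum_mul_sum]
        refine sum_le_sum fun x _ => sum_le_sum fun y _ =>
          mul_le_of_le_one_left (mul_nonneg (c0 _ _) (c0 _ _)) (by split_ifs <;> simp)
      have hM0 : 0 ≤ M := by positivity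
      nlinarith
    · refine le_of_eq_of_le (sum_eq_zero fun x _ => sum_eq_zero fun y _ => ?_) (by positivity)
      by_contra h1
      simp only [hc, ite_zero_mul_ite_zero, mul_one, ite_eq_right_iff, one_ne_zero, imp_false,
        not_not] at h1
      apply h
      have h2 : (L : ℝ) ≤ #(Lin E x y) := by exact_mod_cast h1.1.2.le
      refine hL.trans (h2.trans ?_)
      simp only [hc, sum_boole]
      norm_cast
      refine card_le_card fun z hz => ?_
      obtain ⟨hz1, a, b, rfl⟩ := mem_filter.1 hz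
      exact mem_filter.2 ⟨hz1, fun i => by simp [h1.2.1 i, h1.2.2 i]⟩
  have h3 := (sum_le_sum fun f (_ : f ∈ univ) => hkey f).trans
    ((le_of_eq (mul_sum _ _ _).symm).trans (mul_le_mul_of_nonneg_left hvar (by norm_num)))
  rw [sum_comm, sum_congr rfl fun x _ => sum_comm] at h3
  have h4 : ∀ x ∈ E, ∀ y ∈ E, ∑ f, (if Rich E L x y then (1 : ℝ) else 0) * (c f x * c f y) =
      (if Rich E L x y then (1 : ℝ) else 0) * (O / P ^ 2) := fun x hx y hy => by
    rw [← mul_sum]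
    split_ifs with h
    · rw [c2 x hx y hy h.1]
    · simp
  rw [sum_congr rfl fun x hx => sum_congr rfl (h4 x hx)] at h3
  simp only [← sum_mul] at h3
  refine le_of_mul_le_mul_right (h3.trans (le_of_eq ?_)) (by positivity : 0 < O / P ^ 2)
  rw [hM]
  field_simp
  ring

end Pool.Agent.Lib.MP_a460e0_co.Br
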