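import Pool.Agent.Lib.MP_a460e0_co.BrF

/-! Degenerate triples and coplanar quadruples. -/

namespace Pool.Agent.Lib.MP_a460e0_co.Br

open Finset ComplexConjugate Matrix

variable {F : Type} [Field F] [Fintype F] [DecidableEq F] {d : ℕ} {j : F}

lemma card_quad_le {a : F} (ha : a ≠ 0) (b c : F) :
    #(univ.filter fun s : F => a * s ^ 2 + 2 * b * s + c = 0) ≤ 2 := by
  refine le_trans (card_le_card_of_injOn (fun s => a * s + b) ?_ ?_) (card_sqrt_le (b ^ 2 - a * c))
  · intro s hs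
    simp only [coe_filter, Set.mem_ofPred_eq, mem_univ, true_and] at hs ⊢
    linear_combination a * hs
  · intro s _ t _ h
    exact mul_left_cancel₀ ha (add_right_cancel h)

lemma card_cover (hj : j ≠ 0) {x : Fin d → F} (hx : x ⬝ᵥ x = j) {ι : Type} [Fintype ι]
    (v : ι → Fin d → F) (S : Finset (Fin d → F))
    (hS : ∀ z ∈ S, z ⬝ᵥ z = j ∧ ∃ (a : F) (i : ι), z = a • x + v i) :
    #S ≤ Fintype.card ι * 2 := by
  refine le_trans (card_le_card (t := univ.biUnion fun i => (univ.filter fun s : F =>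
    j * s ^ 2 + 2 * (x ⬝ᵥ v i) * s + (v i ⬝ᵥ v i - j) = 0).image fun s => s • x + v i)
    fun z hz => ?_) (card_biUnion_le_card_mul _ _ _ fun i _ =>
      card_image_le.trans (card_quad_le hj _ _))
  obtain ⟨h1, a, i, rfl⟩ := hS z hz
  simp only [mem_biUnion, mem_image, mem_filter, mem_univ, true_and]
  refine ⟨i, a, ?_, rfl⟩
  simp [hx, dotProduct_comm (v i) x] at h1
  linear_combination h1

lemma card_Lin (hj : j ≠ 0) {E : Finset (Fin d → F)} (hE : ∀ x ∈ E, x ⬝ᵥ x = j) {x : Fin d → F}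
    (hx : x ∈ E) (y : Fin d → F) : (#(Lin E x y) : ℝ) ≤ 2 * Fintype.card F := by
  have := card_cover hj (hE x hx) (fun b : F => b • y) (Lin E x y) fun z hz => by
    simp only [Lin, mem_filter] at hz
    exact ⟨hE z hz.1, hz.2⟩
  rw [mul_comm]
  exact_mod_cast this

open Classical in
/-- Points of `E` on the plane through `x`, `y` and `z`. -/
noncomputable def Pl (E : Finset (Fin d → F)) (x y z : Fin d → F) : Finset (Fin d → F) :=
  E.filter fun w => ∃ a b c : F, w = a • x + b • y + c • z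

lemma card_Pl (hj : j ≠ 0) {E : Finset (Fin d → F)} (hE : ∀ x ∈ E, x ⬝ᵥ x = j) {x : Fin d → F}
    (hx : x ∈ E) (y z : Fin d → F) : (#(Pl E x y z) : ℝ) ≤ 2 * (Fintype.card F : ℝ) ^ 2 := by
  have := card_cover hj (hE x hx) (fun b : F × F => b.1 • y + b.2 • z) (Pl E x y z) fun w hw => by
    simp only [Pl, mem_filter] at hw
    obtain ⟨h, a, b, c, rfl⟩ := hw
    exact ⟨hE _ h, a, (b, c), add_assoc _ _ _⟩
  rw [Fintype.card_prod, ← sq, mul_comm] at this
  exact_mod_cast this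

/-- The Gram determinant of three points of the sphere. -/
def gd (j : F) (x y z : Fin d → F) : F :=
  j ^ 3 + 2 * (x ⬝ᵥ y) * (x ⬝ᵥ z) * (y ⬝ᵥ z) - j * ((x ⬝ᵥ y) ^ 2 + (x ⬝ᵥ z) ^ 2 + (y ⬝ᵥ z) ^ 2)

/-- The pair `x, y` spans a line with at most `L` points. -/
def Poor (E : Finset (Fin d → F)) (L : ℕ) (x y : Fin d → F) : Prop :=
  ¬ (y = x ∨ y = -x) ∧ #(Lin E x y) ≤ L

lemma cs_fiber {α β : Type} [DecidableEq β] (S : Finset α) (g : α → β) (C : Finset β)
    (h : ∀ a ∈ S, g a ∈ C) :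
    (#S : ℝ) ^ 2 ≤ #C * ∑ a ∈ S, ∑ b ∈ S, if g a = g b then (1 : ℝ) else 0 := by
  have h1 : (#S : ℝ) = ∑ t ∈ C, (#(S.filter fun a => g a = t) : ℝ) := by
    exact_mod_cast card_eq_sum_card_fiberwise h
  rw [h1]
  refine sq_sum_le_card_mul_sum_sq.trans (le_of_eq ?_)
  congr 1
  rw [← sum_fiberwise_of_maps_to h]
  refine sum_congr rfl fun t _ => ?_
  rw [sum_congr rfl (g := fun _ => (#(S.filter fun a => g a = t) : ℝ)) fun a ha => by
    rw [sum_boole, (mem_filter.1 ha).2]; simp only [eq_comm], sum_const, nsmul_eq_mul, sq]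

lemma deg_pair (hj : j ≠ 0) (E : Finset (Fin d → F)) (x y : Fin d → F) :
    (∑ z ∈ E, if gd j x y z = 0 then (1 : ℝ) else 0) ^ 2 ≤
      2 / Fintype.card F * ∑ a : F, ∑ b : F, ‖ft E (a • x + b • y)‖ ^ 2 := by
  have hq : (0 : ℝ) < Fintype.card F := by exact_mod_cast Fintype.card_pos
  have h1 : ∑ a : F, ∑ b : F, ‖ft E (a • x + b • y)‖ ^ 2 = (Fintype.card F : ℝ) ^ 2 *
      ∑ z ∈ E, ∑ w ∈ E, if (x ⬝ᵥ z, y ⬝ᵥ z) = (x ⬝ᵥ w, y ⬝ᵥ w) then (1 : ℝ) else 0 := by
    apply Complex.ofReal_injective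
    simp only [Complex.ofReal_sum, ft_sq, mul_sum]
    rw [sum_congr rfl fun a _ => sum_comm, sum_comm]
    refine sum_congr rfl fun z _ => ?_
    rw [sum_congr rfl fun a _ => sum_comm, sum_comm]
    refine sum_congr rfl fun w _ => ?_
    simp only [dotProduct_add, dotProduct_smul, smul_eq_mul, ps_add, ← mul_sum, ← sum_mul, ps_sum,
      sub_dotProduct, sub_eq_zero, Prod.mk.injEq, dotProduct_comm x, dotProduct_comm y]
    by_cases h1 : z ⬝ᵥ x = w ⬝ᵥ x <;> by_cases h2 : z ⬝ᵥ y = w ⬝ᵥ y <;> simp [h1, h2, sq]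
  set C : Finset (F × F) := univ.biUnion fun s : F => (univ.filter fun t : F =>
    j * t ^ 2 + 2 * (-(x ⬝ᵥ y * s)) * t + (j * ((x ⬝ᵥ y) ^ 2 + s ^ 2) - j ^ 3) = 0).image
      fun t => (s, t) with hC
  have h2 : (#C : ℝ) ≤ Fintype.card F * 2 := by
    exact_mod_cast card_biUnion_le_card_mul _ _ _ fun s _ => card_image_le.trans (card_quad_le hj _ _)
  have h3 := cs_fiber (E.filter fun z => gd j x y z = 0) (fun z => (x ⬝ᵥ z, y ⬝ᵥ z)) C
    fun z hz => by
      simp only [hC, mem_biUnion, mem_image, mem_filter, mem_univ, true_and, gd] at hz ⊢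
      exact ⟨_, _, by linear_combination -hz.2, rfl⟩
  rw [sum_boole, h1]
  refine h3.trans ((mul_le_mul h2 ((sum_le_sum fun z _ => sum_le_sum_of_subset_of_nonneg
    (filter_subset _ E) fun _ _ _ => by positivity).trans
    (sum_le_sum_of_subset_of_nonneg (filter_subset _ E) fun _ _ _ => by positivity))
    (by positivity) (by positivity)).trans (le_of_eq (by field_simp)))

lemma card_le_of_sub {α : Type} (Y : Finset α) (L : ℕ)
    (h : ∀ y ∈ Y, ∃ T : Finset α, Y ⊆ T ∧ #T ≤ L) : #Y ≤ L := by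
  rcases Y.eq_empty_or_nonempty with rfl | ⟨y, hy⟩
  · simp
  · obtain ⟨T, h1, h2⟩ := h y hy
    exact (card_le_card h1).trans h2

open Classical in
lemma deg_poor (hj : j ≠ 0) (E : Finset (Fin d → F)) (hE : ∀ x ∈ E, x ⬝ᵥ x = j) (L : ℕ) :
    (∑ x ∈ E, ∑ y ∈ E, if Poor E L x y then ∑ z ∈ E, (if gd j x y z = 0 then (1 : ℝ) else 0)
      else 0) ^ 2 ≤ 2 / Fintype.card F * (#E ^ 6 + (L + 2) * (Fintype.card F : ℝ) ^ d * #E ^ 4) := by
  have hq : (0 : ℝ) < Fintype.card F := by exact_mod_cast Fintype.card_pos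
  have h1 : ∑ x ∈ E, ∑ a : F, ‖ft E (a • x)‖ ^ 2 ≤
      #E ^ 3 + 2 * ((Fintype.card F : ℝ) ^ d * #E) := by
    have := ps_ft hj E hE
    rw [PS, sum_product] at this
    simp only [← add_sum_erase _ _ (mem_univ (0 : F)), sum_add_distrib]
    simp only [zero_smul, ft, dotProduct_zero, ps_zero, sum_const, nsmul_eq_mul, mul_one,
      Complex.norm_natCast] at this ⊢
    linarith
  have h2 : ∀ x ∈ E, ∑ p ∈ (E.filter fun y => Poor E L x y) ×ˢ
      ((univ : Finset F) ×ˢ univ.erase (0 : F)),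
      ‖ft E (p.2.1 • x + p.2.2 • p.1)‖ ^ 2 ≤ L * ((Fintype.card F : ℝ) ^ d * #E) := by
    intro x hx
    rw [← parseval]
    refine sum_comp_le _ univ (fun p : (Fin d → F) × F × F => p.2.1 • x + p.2.2 • p.1)
      (fun ξ => ‖ft E ξ‖ ^ 2) L (fun _ => by positivity) (fun _ _ => mem_univ _) fun ξ _ => ?_
    rw [← card_image_of_injOn (f := Prod.fst)]
    · refine card_le_of_sub _ _ fun y hy => ?_
      simp only [mem_image, mem_filter, mem_product, mem_erase, mem_univ, and_true, true_and,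
        Prod.exists, exists_and_right, exists_eq_right] at hy
      obtain ⟨a, b, ⟨⟨hy1, hy2⟩, hb⟩, rfl⟩ := hy
      refine ⟨Lin E x y, fun z hz => ?_, hy2.2⟩
      simp only [mem_image, mem_filter, mem_product, mem_erase, mem_univ, and_true, true_and,
        Prod.exists, exists_and_right, exists_eq_right] at hz
      obtain ⟨a', b', ⟨⟨hz1, -⟩, hb'⟩, h⟩ := hz
      refine mem_filter.2 ⟨hz1, (a - a') / b', b / b', funext fun i => ?_⟩
      have := congrFun h i
      simp only [Pi.add_apply, Pi.smul_apply, smul_eq_mul] at this ⊢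
      field_simp
      linear_combination this
    · rintro ⟨y, a, b⟩ hp ⟨y', a', b'⟩ hp' h
      simp only [coe_filter, Set.mem_ofPred_eq, mem_filter, mem_product] at hp hp' h
      subst h
      have := ind2 hj (hE x hx) (hE y hp.1.1.1) hp.1.1.2.1 (a := a - a') (b := b - b') (by
        rw [sub_smul, sub_smul, sub_add_sub_comm, hp.2, hp'.2, sub_self])
      rw [sub_eq_zero.1 this.1, sub_eq_zero.1 this.2]
  have h3 : ∀ x ∈ E, ∑ y ∈ E, (if Poor E L x y then
      ∑ z ∈ E, (if gd j x y z = 0 then (1 : ℝ) else 0) else 0) ^ 2 ≤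
      2 / Fintype.card F * (#E * ∑ a : F, ‖ft E (a • x)‖ ^ 2 +
        L * ((Fintype.card F : ℝ) ^ d * #E)) := by
    intro x hx
    simp only [ite_pow, zero_pow two_ne_zero]
    rw [← sum_filter]
    refine (sum_le_sum fun y _ => deg_pair hj E x y).trans ?_
    rw [← mul_sum]
    gcongr
    have := h2 x hx
    simp only [sum_product] at this
    simp only [← add_sum_erase _ (fun b => ‖ft E (_ + b • _)‖ ^ 2) (mem_univ (0 : F)),
      sum_add_distrib, zero_smul, add_zero, sum_const, nsmul_eq_mul]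
    gcongr
    exact filter_subset _ _
  rw [← sum_product']
  refine sq_sum_le_card_mul_sum_sq.trans ?_
  rw [sum_product, card_product]
  refine (mul_le_mul_of_nonneg_left (sum_le_sum h3) (by positivity)).trans ?_
  rw [← mul_sum, sum_add_distrib, ← mul_sum, sum_const, nsmul_eq_mul, mul_left_comm]
  gcongr
  push_cast
  refine (mul_le_mul_of_nonneg_left (add_le_add_left (mul_le_mul_of_nonneg_left h1
    (by positivity)) _) (by positivity)).trans (le_of_eq (by ring))

open Classical in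
lemma deg_bound (E : Finset (Fin d → F)) (L : ℕ) :
    ∑ x ∈ E, ∑ y ∈ E, ∑ z ∈ E, (if gd j x y z = 0 then (1 : ℝ) else 0) ≤ 2 * (#E : ℝ) ^ 2 +
      (∑ x ∈ E, ∑ y ∈ E, if Rich E L x y then (1 : ℝ) else 0) * #E +
      ∑ x ∈ E, ∑ y ∈ E, if Poor E L x y then ∑ z ∈ E, (if gd j x y z = 0 then (1 : ℝ) else 0)
        else 0 := by
  have h1 : ∑ x ∈ E, ∑ y ∈ E, (if y = x ∨ y = -x then (#E : ℝ) else 0) ≤ 2 * (#E : ℝ) ^ 2 := by
    refine (sum_le_card_nsmul _ _ _ fun x _ => ite_sum_le (n := 2) _ (by positivity)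
      (by exact_mod_cast card_pm E x)).trans (le_of_eq ?_)
    rw [nsmul_eq_mul]; ring
  refine le_trans ?_ (add_le_add_left (add_le_add_left h1 _) _)
  simp only [sum_mul, ← sum_add_distrib]
  refine sum_le_sum fun x _ => sum_le_sum fun y _ => ?_
  have h2 : ∑ z ∈ E, (if gd j x y z = 0 then (1 : ℝ) else 0) ≤ #E := by
    rw [sum_boole]; exact_mod_cast card_filter_le _ _
  have h3 : 0 ≤ ∑ z ∈ E, (if gd j x y z = 0 then (1 : ℝ) else 0) := by positivity
  have h4 : (0 : ℝ) ≤ #E := by positivity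
  by_cases a1 : y = x ∨ y = -x
  · rw [if_pos a1]; split_ifs <;> linarith
  by_cases a2 : L < #(Lin E x y)
  · rw [if_neg a1, if_pos (show Rich E L x y from ⟨a1, a2⟩)]; split_ifs <;> linarith
  · rw [if_neg a1, if_pos (show Poor E L x y from ⟨a1, not_lt.1 a2⟩)]; split_ifs <;> linarith

lemma tri_bound {α : Type} (E : Finset α) (R : α → α → Prop) [DecidableRel R] {e : ℝ}
    (he : ∑ x ∈ E, ∑ y ∈ E, (if R x y then (1 : ℝ) else 0) ≤ e) :
    ∑ x ∈ E, ∑ y ∈ E, ∑ w ∈ E, (if R x y ∧ R x w ∧ R y w then (1 : ℝ) else 0) ≤ e * √e := by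
  have he0 : 0 ≤ e := le_trans (by positivity) he
  refine le_trans (sum_le_sum fun x _ => ?_) ((le_of_eq (sum_mul _ _ _).symm).trans
    (mul_le_mul_of_nonneg_right he (Real.sqrt_nonneg e)))
  set a := ∑ y ∈ E, ∑ w ∈ E, (if R x y ∧ R x w ∧ R y w then (1 : ℝ) else 0) with ha
  have h1 : a ≤ (∑ y ∈ E, if R x y then (1 : ℝ) else 0) ^ 2 := by
    rw [sq, sum_mul_sum]
    refine sum_le_sum fun y _ => sum_le_sum fun w _ => ?_
    split_ifs <;> simp_all
  have h2 : a ≤ e := by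
    refine le_trans (sum_le_sum fun y _ => sum_le_sum fun w _ => ?_) he
    split_ifs <;> simp_all
  have h3 : 0 ≤ a := by positivity
  refine (abs_le_of_sq_le_sq' ?_ (by positivity)).2
  rw [mul_pow, Real.sq_sqrt he0, sq a]
  gcongr

open Classical in
lemma card_PP (hj : j ≠ 0) {E : Finset (Fin d → F)} (hE : ∀ x ∈ E, x ⬝ᵥ x = j) {x : Fin d → F}
    (hx : x ∈ E) (y z : Fin d → F) (L : ℕ) :
    (#(E.filter fun w => w ∈ Pl E x y z ∧ Poor E L x w) : ℝ) ≤ (Fintype.card F + 1) * L := by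
  set p : Option F → Fin d → F := fun t => t.elim y fun t => t • y + z with hp
  have := card_biUnion_le_card_mul (univ : Finset (Option F))
    (fun t => (Lin E x (p t)).filter fun w => Poor E L x w) L fun t _ =>
      card_le_of_sub _ _ fun w hw => by
        simp only [Lin, mem_filter] at hw
        obtain ⟨⟨hw1, a, b, h⟩, hw2⟩ := hw
        have hb : b ≠ 0 := by
          rintro rfl
          exact hw2.1 (pm_of_smul hj (hE x hx) (hE w hw1) (a := a) (by simpa using h))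
        refine ⟨Lin E x w, fun v hv => ?_, hw2.2⟩
        simp only [Lin, mem_filter] at hv ⊢
        obtain ⟨⟨hv1, a', b', h'⟩, -⟩ := hv
        refine ⟨hv1, a' - b' * a / b, b' / b, ?_⟩
        rw [h, h']
        match_scalars <;> field_simp <;> ring
  rw [card_univ, Fintype.card_option] at this
  norm_cast
  refine le_trans (card_le_card fun w hw => ?_) this
  simp only [Pl, Lin, mem_filter, mem_biUnion, mem_univ, true_and] at hw ⊢
  obtain ⟨hw1, ⟨-, a, b, c, h⟩, hw2⟩ := hw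
  by_cases hc : c = 0
  · exact ⟨none, ⟨hw1, a, b, by simp [h, hc, hp]⟩, hw2⟩
  · refine ⟨some (b / c), ⟨hw1, a, c, ?_⟩, hw2⟩
    simp only [h, hp, Option.elim]
    match_scalars <;> field_simp

end Pool.Agent.Lib.MP_a460e0_co.Br
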