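import Pool.Agent.Lib.MP_a460e0_co.BrG

/-! Counting linear relations among four points of the set. -/

namespace Pool.Agent.Lib.MP_a460e0_co.Br

open Finset ComplexConjugate Matrix

variable {F : Type} [Field F] [Fintype F] [DecidableEq F] {d : ℕ} {j : F}

/-- Four coplanar points in general position. -/
def Gen (x y z w : Fin d → F) : Prop :=
  (∀ a b c : F, a • x + b • y + c • z = 0 → a = 0 ∧ b = 0 ∧ c = 0) ∧
    ∃ a b c : F, a ≠ 0 ∧ b ≠ 0 ∧ c ≠ 0 ∧ w = a • x + b • y + c • z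

lemma inner_le {α : Type} (E : Finset α) (p : Prop) [Decidable p] (Q : α → Prop) [DecidablePred Q]
    {n : ℝ} (h : p → (#(E.filter Q) : ℝ) ≤ n) :
    ∑ w ∈ E, (if p ∧ Q w then (1 : ℝ) else 0) ≤ (if p then 1 else 0) * n := by
  by_cases hp : p
  · simpa [hp] using h hp
  · simp [hp]

open Classical in
lemma cop_pt {E : Finset (Fin d → F)} (hE : ∀ x ∈ E, x ⬝ᵥ x = j) (L : ℕ)
    {x y z w : Fin d → F} (hx : x ∈ E) (hy : y ∈ E) (hz : z ∈ E) (hw : w ∈ E) (h : Gen x y z w) :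
    (gd j x y z ≠ 0 ∧ w ∈ Pl E x y z) ∨ (gd j x y z = 0 ∧ w ∈ Pl E x y z ∧ Poor E L x w) ∨
    (gd j y x z = 0 ∧ w ∈ Pl E y x z ∧ Poor E L y w) ∨
    (gd j x z w = 0 ∧ y ∈ Pl E x z w ∧ Poor E L x y) ∨
    ((Rich E L x y ∧ Rich E L x w ∧ Rich E L y w) ∧ z ∈ Pl E x y w) := by
  obtain ⟨hi, a, b, c, ha, hb, hc, hw'⟩ := h
  have p1 : w ∈ Pl E x y z := mem_filter.2 ⟨hw, a, b, c, hw'⟩
  by_cases hg : gd j x y z = 0
  swap
  · exact Or.inl ⟨hg, p1⟩
  right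
  have n1 : ¬ (w = x ∨ w = -x) := by
    rintro (h | h)
    · exact hb (hi (a - 1) b c (by rw [sub_smul, one_smul]; linear_combination (exp := 1) h - hw')).2.1
    · exact hb (hi (a + 1) b c (by rw [add_smul, one_smul]; linear_combination (exp := 1) h - hw')).2.1
  have n2 : ¬ (w = y ∨ w = -y) := by
    rintro (h | h)
    · exact ha (hi a (b - 1) c (by rw [sub_smul, one_smul]; linear_combination (exp := 1) h - hw')).1
    · exact ha (hi a (b + 1) c (by rw [add_smul, one_smul]; linear_combination (exp := 1) h - hw')).1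
  have n3 : ¬ (y = x ∨ y = -x) := by
    rintro (h | h)
    · exact one_ne_zero (hi (-1) 1 0 (by simp [h])).2.1
    · exact one_ne_zero (hi 1 1 0 (by simp [h])).2.1
  by_cases r1 : #(Lin E x w) ≤ L
  · exact Or.inl ⟨hg, p1, n1, r1⟩
  by_cases r2 : #(Lin E y w) ≤ L
  · refine Or.inr (Or.inl ⟨?_, mem_filter.2 ⟨hw, b, a, c, by rw [hw']; abel⟩, n2, r2⟩)
    rw [← hg, gd, gd, dotProduct_comm y x]; ring
  by_cases r3 : #(Lin E x y) ≤ L
  · refine Or.inr (Or.inr (Or.inl ⟨?_, mem_filter.2 ⟨hy, -a / b, -c / b, 1 / b, ?_⟩, n3, r3⟩))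
    · have h4 := hE w hw
      rw [gd] at hg ⊢
      rw [hw'] at h4 ⊢
      simp only [dotProduct_add, add_dotProduct, dotProduct_smul, smul_dotProduct, smul_eq_mul,
        hE x hx, hE y hy, hE z hz, dotProduct_comm y x, dotProduct_comm z x,
        dotProduct_comm z y] at h4 ⊢
      linear_combination b ^ 2 * hg - (j ^ 2 - (x ⬝ᵥ z) ^ 2) * h4
    · rw [hw']; match_scalars <;> field_simp <;> ring
  · refine Or.inr (Or.inr (Or.inr ⟨⟨⟨n3, not_le.1 r3⟩, ⟨n1, not_le.1 r1⟩, ⟨n2, not_le.1 r2⟩⟩,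
      mem_filter.2 ⟨hz, -a / c, -b / c, 1 / c, ?_⟩⟩))
    rw [hw']; match_scalars <;> field_simp <;> ring

lemma ite_or5 (p p1 p2 p3 p4 p5 : Prop) [Decidable p] [Decidable p1] [Decidable p2] [Decidable p3]
    [Decidable p4] [Decidable p5] (h : p → p1 ∨ p2 ∨ p3 ∨ p4 ∨ p5) :
    (if p then (1 : ℝ) else 0) ≤ (if p1 then 1 else 0) + (if p2 then 1 else 0) +
      (if p3 then 1 else 0) + (if p4 then 1 else 0) + (if p5 then 1 else 0) := by
  by_cases hp : p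
  · have := h hp
    split_ifs <;> first | (norm_num; done) | tauto
  · rw [if_neg hp]; positivity

open Classical in
lemma cop_bound (hj : j ≠ 0) {E : Finset (Fin d → F)} (hE : ∀ x ∈ E, x ⬝ᵥ x = j) (L : ℕ)
    {K Dg Tr : ℝ} (hK0 : 0 ≤ K)
    (hK : ∀ x ∈ E, ∀ y ∈ E, ∀ z ∈ E, gd j x y z ≠ 0 → (#(Pl E x y z) : ℝ) ≤ K)
    (hD : ∑ x ∈ E, ∑ y ∈ E, ∑ z ∈ E, (if gd j x y z = 0 then (1 : ℝ) else 0) ≤ Dg)
    (hT : ∑ x ∈ E, ∑ y ∈ E, ∑ w ∈ E,
      (if Rich E L x y ∧ Rich E L x w ∧ Rich E L y w then (1 : ℝ) else 0) ≤ Tr) :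
    ∑ x ∈ E, ∑ y ∈ E, ∑ z ∈ E, ∑ w ∈ E, (if Gen x y z w then (1 : ℝ) else 0) ≤
      #E ^ 3 * K + 3 * (Dg * ((Fintype.card F + 1) * L)) +
        Tr * (2 * (Fintype.card F : ℝ) ^ 2) := by
  have hP : ∀ x y z : Fin d → F, #(E.filter fun w => w ∈ Pl E x y z) ≤ #(Pl E x y z) :=
    fun x y z => card_le_card fun w hw => (mem_filter.1 hw).2
  have t1 : ∑ x ∈ E, ∑ y ∈ E, ∑ z ∈ E, ∑ w ∈ E,
      (if gd j x y z ≠ 0 ∧ w ∈ Pl E x y z then (1 : ℝ) else 0) ≤ #E ^ 3 * K := by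
    refine (sum_le_sum fun x hx => sum_le_sum fun y hy => sum_le_sum (g := fun _ => K)
      fun z hz => (inner_le E _ _ fun h => le_trans (by exact_mod_cast hP x y z)
        (hK x hx y hy z hz h)).trans (by split_ifs <;> simp [hK0])).trans (le_of_eq ?_)
    simp only [sum_const, nsmul_eq_mul]; ring
  have t2 : ∑ x ∈ E, ∑ y ∈ E, ∑ z ∈ E, ∑ w ∈ E,
      (if gd j x y z = 0 ∧ w ∈ Pl E x y z ∧ Poor E L x w then (1 : ℝ) else 0) ≤
      Dg * ((Fintype.card F + 1) * L) := by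
    refine (sum_le_sum fun x hx => sum_le_sum fun y _ => sum_le_sum fun z _ =>
      inner_le E _ _ fun _ => card_PP hj hE hx y z L).trans ?_
    simp only [← sum_mul]
    gcongr
  have t5 : ∑ x ∈ E, ∑ y ∈ E, ∑ w ∈ E, ∑ z ∈ E,
      (if (Rich E L x y ∧ Rich E L x w ∧ Rich E L y w) ∧ z ∈ Pl E x y w then (1 : ℝ) else 0) ≤
      Tr * (2 * (Fintype.card F : ℝ) ^ 2) := by
    refine (sum_le_sum fun x hx => sum_le_sum fun y _ => sum_le_sum fun w _ =>
      inner_le E _ _ fun _ => le_trans (by exact_mod_cast hP x y w) (card_Pl hj hE hx y w)).trans ?_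
    simp only [← sum_mul]
    gcongr
  have t3 := t2
  rw [sum_comm] at t3
  have t4 := t2
  rw [sum_congr rfl fun x _ => (sum_congr rfl fun y _ => sum_comm).trans sum_comm] at t4
  rw [sum_congr rfl fun x _ => sum_congr rfl fun y _ => sum_comm] at t5
  refine (sum_le_sum fun x hx => sum_le_sum fun y hy => sum_le_sum fun z hz =>
    sum_le_sum fun w hw => ite_or5 _ _ _ _ _ _ (cop_pt hE L hx hy hz hw)).trans ?_
  simp only [sum_add_distrib]
  linarith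

open Classical in
lemma rn_bound (hj : j ≠ 0) {E : Finset (Fin d → F)} (hE : ∀ x ∈ E, x ⬝ᵥ x = j)
    {x y z w : Fin d → F} (hx : x ∈ E) (hy : y ∈ E) (hz : z ∈ E) (hw : w ∈ E) :
    ∑ a ∈ univ.erase (0 : F), ∑ b ∈ univ.erase (0 : F), ∑ c ∈ univ.erase (0 : F),
      ∑ e ∈ univ.erase (0 : F), (if a • x + b • y + c • z + e • w = 0 then (1 : ℝ) else 0) ≤
      (if Gen x y z w then 1 else 0) * (Fintype.card F : ℝ) +
      (if z ∈ Lin E x y ∧ w ∈ Lin E x y then 1 else 0) * (Fintype.card F : ℝ) ^ 2 +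
      (if (y = x ∨ y = -x) ∧ w ∈ Lin E x z then 1 else 0) * (Fintype.card F : ℝ) ^ 3 := by
  set S := (univ.erase (0 : F) ×ˢ univ.erase (0 : F) ×ˢ univ.erase (0 : F) ×ˢ
    univ.erase (0 : F)).filter fun l => l.1 • x + l.2.1 • y + l.2.2.1 • z + l.2.2.2 • w = 0 with hS
  have h1 : ∑ a ∈ univ.erase (0 : F), ∑ b ∈ univ.erase (0 : F), ∑ c ∈ univ.erase (0 : F),
      ∑ e ∈ univ.erase (0 : F), (if a • x + b • y + c • z + e • w = 0 then (1 : ℝ) else 0) =
      #S := by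
    rw [hS, ← sum_boole]
    simp only [sum_product]
  rw [h1]
  rcases S.eq_empty_or_nonempty with h | ⟨⟨a, b, c, e⟩, h⟩
  · rw [h, card_empty, Nat.cast_zero]; positivity
  simp only [hS, mem_filter, mem_product, mem_erase, mem_univ, and_true] at h
  obtain ⟨⟨ha, hb, hc, he⟩, h⟩ := h
  have hw' : w = (-a / e) • x + (-b / e) • y + (-c / e) • z := by
    rw [← sub_eq_zero, ← smul_zero (A := Fin d → F) e⁻¹, ← h]
    match_scalars <;> field_simp <;> ring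
  have hdiff : ∀ l ∈ S, ∀ l' ∈ S, l.2.2.2 = l'.2.2.2 →
      (l.1 - l'.1) • x + (l.2.1 - l'.2.1) • y + (l.2.2.1 - l'.2.2.1) • z = 0 := by
    intro l hl l' hl' h4
    have e1 := (mem_filter.1 hl).2
    have e2 := (mem_filter.1 hl').2
    rw [h4] at e1
    simp only [sub_smul]
    linear_combination (exp := 1) e1 - e2
  have q1 : (0 : ℝ) ≤ Fintype.card F := by positivity
  by_cases hi : ∀ a b c : F, a • x + b • y + c • z = 0 → a = 0 ∧ b = 0 ∧ c = 0
  · rw [if_pos ⟨hi, _, _, _, by simp [ha, he], by simp [hb, he], by simp [hc, he], hw'⟩, one_mul,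
      add_assoc]
    refine le_add_of_le_of_nonneg ?_ (by positivity)
    norm_cast
    refine card_le_card_of_injOn (t := univ) (fun l => l.2.2.2) (fun _ _ => by simp) ?_
    rintro ⟨a1, b1, c1, e1⟩ hl ⟨a2, b2, c2, e2⟩ hl' h4
    have := hi _ _ _ (hdiff _ hl _ hl' h4)
    simp only [sub_eq_zero] at this h4
    simp [this, h4]
  by_cases hp : y = x ∨ y = -x
  · rw [if_pos (show (y = x ∨ y = -x) ∧ w ∈ Lin E x z from ⟨hp, mem_filter.2 ⟨hw, by
      rcases hp with rfl | rfl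
      · exact ⟨-a / e + -b / e, -c / e, by rw [hw', add_smul]⟩
      · exact ⟨-a / e - -b / e, -c / e, by rw [hw', sub_smul, smul_neg, sub_eq_add_neg]⟩⟩⟩),
      one_mul]
    refine le_add_of_nonneg_of_le (by positivity) ?_
    norm_cast
    refine (card_le_card_of_injOn (t := univ) (fun l => l.2) (fun _ _ => by simp) ?_).trans
      (le_of_eq (by simp; ring))
    rintro ⟨a1, b1, c1, e1⟩ hl ⟨a2, b2, c2, e2⟩ hl' h4
    simp only [Prod.mk.injEq] at h4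
    have := hdiff _ hl _ hl' h4.2.2
    have hx0 : x ≠ 0 := by rintro rfl; exact hj (by simpa using (hE _ hx).symm)
    simp only [h4, sub_self, zero_smul, add_zero, smul_eq_zero, hx0, or_false, sub_eq_zero] at this
    simp [this, h4]
  · simp only [not_forall] at hi
    obtain ⟨a', b', c', h3, h4⟩ := hi
    have hc' : c' ≠ 0 := by
      rintro rfl
      have := ind2 hj (hE x hx) (hE y hy) hp (by simpa using h3)
      exact h4 ⟨this.1, this.2, rfl⟩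
    have hz' : z = (-a' / c') • x + (-b' / c') • y := by
      rw [← sub_eq_zero, ← smul_zero (A := Fin d → F) c'⁻¹, ← h3]
      match_scalars <;> field_simp <;> ring
    rw [if_pos (show z ∈ Lin E x y ∧ w ∈ Lin E x y from ⟨mem_filter.2 ⟨hz, _, _, hz'⟩,
      mem_filter.2 ⟨hw, -a / e + -c / e * (-a' / c'), -b / e + -c / e * (-b' / c'), by
        rw [hw', hz']; match_scalars <;> ring⟩⟩), one_mul]
    refine le_add_of_le_of_nonneg (le_add_of_nonneg_of_le (by positivity) ?_) (by positivity)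
    norm_cast
    refine (card_le_card_of_injOn (t := univ) (fun l => l.2.2) (fun _ _ => by simp) ?_).trans
      (le_of_eq (by simp; ring))
    rintro ⟨a1, b1, c1, e1⟩ hl ⟨a2, b2, c2, e2⟩ hl' h4
    simp only [Prod.mk.injEq] at h4
    have := ind2 hj (hE x hx) (hE y hy) hp (by simpa [h4] using hdiff _ hl _ hl' h4.2)
    simp only [sub_eq_zero] at this
    simp [this, h4]

open Classical in
lemma rel_bound (hj : j ≠ 0) {E : Finset (Fin d → F)} (hE : ∀ x ∈ E, x ⬝ᵥ x = j) {Cp : ℝ}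
    (hC : ∑ x ∈ E, ∑ y ∈ E, ∑ z ∈ E, ∑ w ∈ E, (if Gen x y z w then (1 : ℝ) else 0) ≤ Cp) :
    ∑ i1 ∈ PS E, ∑ i2 ∈ PS E, ∑ i3 ∈ PS E, ∑ i4 ∈ PS E,
      (if i1.2 • i1.1 + i2.2 • i2.1 + i3.2 • i3.1 + i4.2 • i4.1 = 0 then (1 : ℝ) else 0) ≤
      Cp * Fintype.card F + 8 * (#E ^ 2 * (Fintype.card F : ℝ) ^ 4) := by
  have hL : ∀ x ∈ E, ∀ y : Fin d → F, (#(E.filter fun w => w ∈ Lin E x y) : ℝ) ≤
      2 * Fintype.card F := fun x hx y => le_trans (by
    exact_mod_cast card_le_card fun w hw => (mem_filter.1 hw).2) (card_Lin hj hE hx y)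
  have t2 : ∑ x ∈ E, ∑ y ∈ E, ∑ z ∈ E, ∑ w ∈ E,
      (if z ∈ Lin E x y ∧ w ∈ Lin E x y then (1 : ℝ) else 0) ≤
      4 * (#E ^ 2 * (Fintype.card F : ℝ) ^ 2) := by
    refine (sum_le_sum fun x hx => sum_le_sum (g := fun _ => 2 * (Fintype.card F : ℝ) *
      (2 * Fintype.card F)) fun y _ =>
      (sum_le_sum fun z _ => inner_le E _ _ fun _ => hL x hx y).trans ?_).trans (le_of_eq ?_)
    · rw [← sum_mul, sum_boole]; gcongr; exact hL x hx y
    · simp only [sum_const, nsmul_eq_mul]; ring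
  have t3 : ∑ x ∈ E, ∑ y ∈ E, ∑ z ∈ E, ∑ w ∈ E,
      (if (y = x ∨ y = -x) ∧ w ∈ Lin E x z then (1 : ℝ) else 0) ≤
      4 * (#E ^ 2 * (Fintype.card F : ℝ)) := by
    refine (sum_le_sum (g := fun _ => 2 * (#E * (2 * (Fintype.card F : ℝ)))) fun x hx =>
      (sum_le_sum fun y _ => sum_le_sum fun z _ => inner_le E _ _ fun _ => hL x hx z).trans
      ?_).trans (le_of_eq ?_)
    · simp only [sum_const, nsmul_eq_mul, mul_left_comm (#E : ℝ), ← sum_mul, sum_boole]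
      gcongr
      exact_mod_cast card_pm E x
    · simp only [sum_const, nsmul_eq_mul]; ring
  simp only [PS, sum_product, sum_comm (s := univ.erase (0 : F)) (t := E)]
  refine (sum_le_sum fun x hx => sum_le_sum fun y hy => sum_le_sum fun z hz =>
    sum_le_sum fun w hw => rn_bound hj hE hx hy hz hw).trans ?_
  simp only [sum_add_distrib, ← sum_mul]
  have q1 : (0 : ℝ) ≤ Fintype.card F := by positivity
  calc _ ≤ Cp * Fintype.card F + 4 * (#E ^ 2 * (Fintype.card F : ℝ) ^ 2) * Fintype.card F ^ 2 +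
      4 * (#E ^ 2 * (Fintype.card F : ℝ)) * Fintype.card F ^ 3 := by gcongr
    _ = _ := by ring

lemma sp_bound (hF : ringChar F ≠ 2) (hj : j ≠ 0) {E : Finset (Fin d → F)}
    (hE : ∀ x ∈ E, x ⬝ᵥ x = j) {I : ℝ}
    (hI : ∑ x ∈ E, ∑ y ∈ E, (if x ⬝ᵥ y = j ∨ x ⬝ᵥ y = -j then (1 : ℝ) else 0) ≤ I) :
    ∑ i1 ∈ PS E, ∑ i2 ∈ PS E, ∑ i3 ∈ PS E, ∑ i4 ∈ PS E,
      (if i1.2 • i1.1 + i2.2 • i2.1 + i3.2 • i3.1 + i4.2 • i4.1 = 0 ∧
        i1.2 ^ 2 = i2.2 ^ 2 ∧ i3.2 ^ 2 = i4.2 ^ 2 then (1 : ℝ) else 0) ≤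
      4 * #E * Fintype.card F * (#E ^ 2 + I * Fintype.card F) := by
  have h2 : (2 : F) ≠ 0 := Ring.two_ne_zero hF
  have hm : ∀ i ∈ PS E, i.1 ∈ E ∧ i.2 ≠ 0 := fun i hi => by simpa [PS] using hi
  have s4 : ∀ (v : Fin d → F) (p : Prop) [Decidable p], ∀ i3 ∈ PS E, ∑ i4 ∈ PS E,
      (if v + i3.2 • i3.1 + i4.2 • i4.1 = 0 ∧ p ∧ i3.2 ^ 2 = i4.2 ^ 2 then (1 : ℝ) else 0) ≤
      (if p ∧ v ⬝ᵥ v + 2 * (v ⬝ᵥ i3.1) * i3.2 = 0 then 1 else 0) * 2 := by
    intro v p _ i3 h3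
    rw [sum_boole]
    split_ifs with h
    · rw [one_mul]
      norm_cast
      refine le_trans (card_le_card_of_injOn (fun i => i.2) ?_ ?_) (card_sqrt_le (i3.2 ^ 2))
      · intro i hi
        simpa using (mem_filter.1 hi).2.2.2.symm
      · rintro ⟨y, l⟩ ha ⟨y', l'⟩ hb h4
        simp only [coe_filter, Set.mem_ofPred_eq] at ha hb h4
        subst h4
        rw [smul_right_injective _ (hm _ ha.1).2 (add_left_cancel (ha.2.1.trans hb.2.1.symm))]
    · rw [filter_eq_empty_iff.2]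
      · simp
      rintro i4 h4 ⟨e1, e2, e3⟩
      refine h ⟨e2, ?_⟩
      have e4 := congrArg (fun u => u ⬝ᵥ u) (eq_neg_of_add_eq_zero_left e1)
      simp [hE _ (hm _ h3).1, hE _ (hm _ h4).1, dotProduct_comm i3.1 v] at e4
      linear_combination e4 - j * e3
  have s3 : ∀ i1 ∈ PS E, ∀ i2 ∈ PS E, ∑ i3 ∈ PS E, (if i1.2 ^ 2 = i2.2 ^ 2 ∧
      (i1.2 • i1.1 + i2.2 • i2.1) ⬝ᵥ (i1.2 • i1.1 + i2.2 • i2.1) +
        2 * ((i1.2 • i1.1 + i2.2 • i2.1) ⬝ᵥ i3.1) * i3.2 = 0 then (1 : ℝ) else 0) ≤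
      if i2.2 ^ 2 = i1.2 ^ 2 then #E * (1 + (if i1.1 ⬝ᵥ i2.1 = j ∨ i1.1 ⬝ᵥ i2.1 = -j then 1 else 0)
        * (Fintype.card F : ℝ)) else 0 := by
    rintro ⟨x, a⟩ h1 ⟨y, b⟩ h1'
    by_cases hab : b ^ 2 = a ^ 2
    swap
    · simp [hab, Ne.symm hab]
    simp only [hab, true_and, if_true, PS, sum_product]
    rw [← nsmul_eq_mul]
    refine sum_le_card_nsmul _ _ _ fun z _ => ?_
    rw [sum_boole]
    split_ifs with h
    · rw [one_mul]
      refine le_add_of_nonneg_of_le zero_le_one ?_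
      exact_mod_cast card_le_univ _
    · rw [zero_mul, add_zero]
      norm_cast
      refine card_le_one.2 fun l hl l' hl' => ?_
      have e1 := (mem_filter.1 hl).2
      have e2 := (mem_filter.1 hl').2
      have e3 : 2 * ((a • x + b • y) ⬝ᵥ z) ≠ 0 := by
        intro e4
        rw [e4, zero_mul, add_zero] at e1
        simp [hE _ (hm _ h1).1, hE _ (hm _ h1').1, dotProduct_comm y x] at e1
        have ha : a ≠ 0 := (hm _ h1).2
        apply h
        rcases sq_eq_sq_iff_eq_or_eq_neg.1 hab with rfl | rfl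
        · right
          apply mul_left_cancel₀ (mul_ne_zero h2 (pow_ne_zero 2 ha))
          linear_combination e1
        · left
          apply mul_left_cancel₀ (mul_ne_zero h2 (pow_ne_zero 2 ha))
          linear_combination -e1
      exact mul_left_cancel₀ e3 (by linear_combination e1 - e2)
  have s2 : ∀ (a : F) (K : ℝ), 0 ≤ K →
      ∑ b ∈ univ.erase (0 : F), (if b ^ 2 = a ^ 2 then K else 0) ≤ 2 * K := fun a K hK =>
    ite_sum_le _ hK (by
      exact_mod_cast (card_le_card (filter_subset_filter _ (subset_univ _))).trans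
        (card_sqrt_le (a ^ 2)))
  have h5 : (#(univ.erase (0 : F)) : ℝ) ≤ Fintype.card F := by exact_mod_cast card_le_univ _
  set t : (Fin d → F) → (Fin d → F) → ℝ := fun x y =>
    #E * (1 + (if x ⬝ᵥ y = j ∨ x ⬝ᵥ y = -j then 1 else 0) * (Fintype.card F : ℝ)) with ht
  have ht0 : ∀ x y, 0 ≤ t x y := fun x y => by simp only [ht]; positivity
  calc _ ≤ ∑ i1 ∈ PS E, ∑ i2 ∈ PS E, (if i2.2 ^ 2 = i1.2 ^ 2 then t i1.1 i2.1 else 0) * 2 := by
        refine sum_le_sum fun i1 h1 => sum_le_sum fun i2 h2 => ?_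
        refine (sum_le_sum (s4 (i1.2 • i1.1 + i2.2 • i2.1) (i1.2 ^ 2 = i2.2 ^ 2))).trans ?_
        rw [← sum_mul]
        exact mul_le_mul_of_nonneg_right (s3 i1 h1 i2 h2) zero_le_two
    _ ≤ ∑ x ∈ E, Fintype.card F * ∑ y ∈ E, 2 * t x y * 2 := by
        rw [PS, sum_product]
        refine sum_le_sum fun x _ => (sum_le_card_nsmul _ _ (∑ y ∈ E, 2 * t x y * 2)
          fun a _ => ?_).trans ?_
        · rw [sum_product]
          refine sum_le_sum fun y _ => ?_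
          rw [← sum_mul]
          exact mul_le_mul_of_nonneg_right (s2 a _ (ht0 x y)) zero_le_two
        · rw [nsmul_eq_mul]
          exact mul_le_mul_of_nonneg_right h5 (sum_nonneg fun y _ => by have := ht0 x y; positivity)
    _ = 4 * #E * Fintype.card F * (#E ^ 2 + (∑ x ∈ E, ∑ y ∈ E,
        (if x ⬝ᵥ y = j ∨ x ⬝ᵥ y = -j then (1 : ℝ) else 0)) * Fintype.card F) := by
        simp only [ht, ← mul_sum, sum_add_distrib, ← sum_mul, sum_const, nsmul_eq_mul]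
        ring
    _ ≤ _ := by gcongr

lemma sum_PS_neg (E : Finset (Fin d → F)) (f : (Fin d → F) × F → ℝ) :
    ∑ i ∈ PS E, f i = ∑ i ∈ PS E, f (i.1, -i.2) := by
  refine sum_nbij' (fun i => (i.1, -i.2)) (fun i => (i.1, -i.2)) ?_ ?_ ?_ ?_ ?_ <;> simp [PS]

lemma Z_bound (hF : ringChar F ≠ 2) {D : F} (hD : D = 1 ∨ et F D = -1) {X : A D → ℂ}
    (hX : IsCh X) (he : ¬ Exc X) (E : Finset (Fin d → F)) {R S : ℝ}
    (hR : ∑ i1 ∈ PS E, ∑ i2 ∈ PS E, ∑ i3 ∈ PS E, ∑ i4 ∈ PS E,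
      (if i1.2 • i1.1 + i2.2 • i2.1 + i3.2 • i3.1 + i4.2 • i4.1 = 0 then (1 : ℝ) else 0) ≤ R)
    (hS : ∑ i1 ∈ PS E, ∑ i2 ∈ PS E, ∑ i3 ∈ PS E, ∑ i4 ∈ PS E,
      (if i1.2 • i1.1 + i2.2 • i2.1 + i3.2 • i3.1 + i4.2 • i4.1 = 0 ∧
        i1.2 ^ 2 = i2.2 ^ 2 ∧ i3.2 ^ 2 = i4.2 ^ 2 then (1 : ℝ) else 0) ≤ S) :
    ∑ i1 ∈ PS E, ∑ i2 ∈ PS E, ∑ i3 ∈ PS E, ∑ i4 ∈ PS E,
      (if i1.2 • i1.1 + i2.2 • i2.1 = i3.2 • i3.1 + i4.2 • i4.1 then
        ‖Um X i1.2 i2.2 i3.2 i4.2‖ else 0) ≤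
      40 * (Fintype.card F : ℝ) ^ 3 * √(Fintype.card F) * R +
        24 * (Fintype.card F : ℝ) ^ 4 * (3 * S) := by
  have hm : ∀ i ∈ PS E, i.2 ≠ 0 := fun i hi => by simp [PS] at hi; exact hi.2
  set f : (Fin d → F) × F → (Fin d → F) × F → (Fin d → F) × F → (Fin d → F) × F → ℝ :=
    fun i1 i2 i3 i4 => if i1.2 • i1.1 + i2.2 • i2.1 + i3.2 • i3.1 + i4.2 • i4.1 = 0 ∧
        i1.2 ^ 2 = i2.2 ^ 2 ∧ i3.2 ^ 2 = i4.2 ^ 2 then (1 : ℝ) else 0 with hf
  have hS2 : ∑ i1 ∈ PS E, ∑ i2 ∈ PS E, ∑ i3 ∈ PS E, ∑ i4 ∈ PS E, f i1 i3 i2 i4 ≤ S :=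
    (le_of_eq (sum_congr rfl fun _ _ => sum_comm)).trans hS
  have hS3 : ∑ i1 ∈ PS E, ∑ i2 ∈ PS E, ∑ i3 ∈ PS E, ∑ i4 ∈ PS E, f i1 i4 i2 i3 ≤ S :=
    (le_of_eq (sum_congr rfl fun _ _ => (sum_congr rfl fun _ _ => sum_comm).trans sum_comm)).trans hS
  calc _ ≤ ∑ i1 ∈ PS E, ∑ i2 ∈ PS E, ∑ i3 ∈ PS E, ∑ i4 ∈ PS E,
        (40 * (Fintype.card F : ℝ) ^ 3 * √(Fintype.card F) *
          (if i1.2 • i1.1 + i2.2 • i2.1 + i3.2 • i3.1 + i4.2 • i4.1 = 0 then (1 : ℝ) else 0) +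
        24 * (Fintype.card F : ℝ) ^ 4 * (f i1 i2 i3 i4 + f i1 i3 i2 i4 + f i1 i4 i2 i3)) := by
        refine sum_le_sum fun i1 h1 => sum_le_sum fun i2 h2 => ?_
        rw [sum_PS_neg]
        refine sum_le_sum fun i3 h3 => ?_
        rw [sum_PS_neg]
        refine sum_le_sum fun i4 h4 => ?_
        have f0 : ∀ a b c e, 0 ≤ f a b c e := fun a b c e => by simp only [hf]; positivity
        have := f0 i1 i2 i3 i4
        have := f0 i1 i3 i2 i4
        have := f0 i1 i4 i2 i3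
        split_ifs with a1 a2 a2
        · refine (Um_bound hF hD hX he (hm _ h1) (hm _ h2) (neg_ne_zero.2 (hm _ h3))
            (neg_ne_zero.2 (hm _ h4))).trans ?_
          rw [mul_one]
          gcongr
          split_ifs with a3
          · refine le_mul_of_one_le_right (by positivity) ?_
            simp only [Sp, neg_sq] at a3
            rcases a3 with a3 | a3 | a3
            · have : f i1 i3 i2 i4 = 1 := if_pos ⟨by rw [← a2]; abel, a3⟩
              linarith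
            · have : f i1 i2 i3 i4 = 1 := if_pos ⟨a2, a3⟩
              linarith
            · have : f i1 i4 i2 i3 = 1 := if_pos ⟨by rw [← a2]; abel, a3⟩
              linarith
          · positivity
        · exact absurd (by rw [a1]; simp) a2
        · positivity
        · positivity
    _ ≤ _ := by
        simp only [sum_add_distrib, ← mul_sum]
        gcongr
        linarith

end Pool.Agent.Lib.MP_a460e0_co.Br
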