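import Pool.Agent.Lib.MP_a460e0_co.Energy

/-! Isosceles triangles and pinned distances on spheres of `F^3`. -/

namespace Pool.Agent.Lib.MP_a460e0_co

open Finset

set_option maxHeartbeats 400000

variable {F : Type} [Field F] [Fintype F] [DecidableEq F]

def Gd (j : F) : Finset F := {t | j * j - t ^ 2 ≠ 0}

def Tr (j : F) (E : Finset (V F)) : ℕ := ∑ x ∈ E, ∑ t ∈ Gd j, #{y ∈ E | dt x y = t} ^ 2

def rr (E : Finset (V F)) (n : V F) : ℕ := #{y ∈ E | rf n y ∈ E ∧ rf n y ≠ y}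

theorem card_bad (h2 : (2 : F) ≠ 0) {j : F} (hj : j ≠ 0) (E : Finset (V F))
    (hE : ∀ x ∈ E, dt x x = j) {x : V F} (hx : x ∈ E) :
    #{y ∈ E | dt x y ∉ Gd j} ≤ 4 * Fintype.card F := by
  have a := card_circle_crude h2 ((hE x hx).symm ▸ hj : dt x x ≠ 0) j j
  have b := card_circle_crude h2 ((hE x hx).symm ▸ hj : dt x x ≠ 0) (-j) j
  refine le_trans (card_le_card (t := (univ.filter fun z : V F => dt z x = j ∧ dt z z = j) ∪
    (univ.filter fun z : V F => dt z x = -j ∧ dt z z = j)) ?_)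
    ((card_union_le _ _).trans (by omega))
  intro y hy
  simp only [Gd, mem_filter, mem_univ, true_and, mem_union, not_not] at hy ⊢
  have : dt x y ^ 2 = j ^ 2 := by linear_combination -hy.2
  rw [dt_comm y x]
  rcases sq_eq_sq_iff_eq_or_eq_neg.1 this with h | h
  · exact Or.inl ⟨h, hE y hy.1⟩
  · exact Or.inr ⟨h, hE y hy.1⟩

theorem energy_total (h2 : (2 : F) ≠ 0) {j : F} (hj : j ≠ 0) (E : Finset (V F))
    (hE : ∀ x ∈ E, dt x x = j) :
    ((∑ n ∈ An F, rr E n ^ 2 : ℕ) : ℝ) ≤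
      19 * #E * Tr j E + 5 * (Fintype.card F : ℝ) ^ 2 * (#E : ℝ) ^ 2 := by
  set q := Fintype.card F
  let k : V F × V F → ℕ := fun p => #{n ∈ An F | (rf n p.1 ∈ E ∧ rf n p.1 ≠ p.1) ∧
    (rf n p.2 ∈ E ∧ rf n p.2 ≠ p.2)}
  have e1 : ∑ n ∈ An F, rr E n ^ 2 = ∑ p ∈ E ×ˢ E, k p := by
    rw [sum_product]
    exact sum_card_sq (An F) E (fun n y => rf n y ∈ E ∧ rf n y ≠ y)
  have hk : ∀ p, k p ≤ q * #E := by
    intro p
    refine card_le_mul_card_image_of_maps_to (f := fun n => rf n p.1) (t := E)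
      (fun n hn => (mem_filter.1 hn).2.1.1) q fun y _ => ?_
    refine le_trans (card_le_card ?_) (card_line (p.1 - y))
    intro n hn
    simp only [mem_filter, mem_univ, true_and] at hn ⊢
    obtain ⟨⟨-, ⟨-, h⟩, -⟩, rfl⟩ := hn
    have hc : 2 * dt p.1 n / dt n n ≠ 0 := by
      intro hc; apply h; rw [rf, hc]; simp
    exact ⟨(2 * dt p.1 n / dt n n)⁻¹, by rw [rf, sub_sub_cancel, inv_smul_smul₀ hc]⟩
  have hbad : ∑ p ∈ (E ×ˢ E).filter (fun p => dt p.1 p.2 ∉ Gd j), k p ≤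
      (4 * q * #E) * (q * #E) := by
    refine (sum_le_card_nsmul _ _ _ fun p _ => hk p).trans ?_
    rw [smul_eq_mul]
    refine Nat.mul_le_mul_right _ ?_
    refine card_le_mul_card_image_of_maps_to (f := Prod.fst) (t := E)
      (fun p hp => (mem_product.1 (mem_filter.1 hp).1).1) (4 * q) fun x hx => ?_
    refine le_trans ?_ (card_bad h2 hj E hE hx)
    refine card_le_card_of_injOn Prod.snd ?_ ?_
    · intro p hp
      simp only [coe_filter, mem_filter, mem_product, Set.mem_ofPred_eq] at hp ⊢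
      exact ⟨hp.1.1.2, hp.2 ▸ hp.1.2⟩
    · intro p hp p' hp' h
      simp only [coe_filter, Set.mem_ofPred_eq] at hp hp'
      exact Prod.ext (hp.2.trans hp'.2.symm) h
  let P : F → Finset (V F × V F) := fun t => (E ×ˢ E).filter (fun p => dt p.1 p.2 = t)
  have hgood : ∑ p ∈ (E ×ˢ E).filter (fun p => dt p.1 p.2 ∈ Gd j), k p ≤
      ∑ t ∈ Gd j, ∑ p ∈ P t, #{n ∈ An F | rp n p ∈ P t} := by
    rw [← sum_fiberwise_of_maps_to (g := fun p : V F × V F => dt p.1 p.2) (t := Gd j)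
      (fun p hp => (mem_filter.1 hp).2)]
    refine sum_le_sum fun t _ => ?_
    refine (sum_le_sum_of_subset (t := P t) ?_).trans (sum_le_sum fun p hp => card_le_card ?_)
    · intro p hp
      simp only [P, mem_filter] at hp ⊢
      exact ⟨hp.1.1, hp.2⟩
    · intro n hn
      simp only [P, mem_filter, mem_product, rp] at hp hn ⊢
      exact ⟨hn.1, ⟨hn.2.1.1, hn.2.2.1⟩, by rw [rf_dt (mem_An.1 hn.1)]; exact hp.2⟩
  have hPt : ∀ t, #(P t) = ∑ x ∈ E, #{y ∈ E | dt x y = t} := by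
    intro t
    simp only [P, card_filter, sum_product]
  have hsumP : ∑ t ∈ Gd j, (#(P t) : ℝ) ≤ (#E : ℝ) ^ 2 := by
    have := card_eq_sum_card_fiberwise (s := E ×ˢ E) (t := univ)
      (f := fun p : V F × V F => dt p.1 p.2) (fun _ _ => mem_univ _)
    have h : ∑ t ∈ Gd j, #(P t) ≤ #E ^ 2 := by
      rw [sq, ← card_product, this]
      exact sum_le_sum_of_subset (subset_univ _)
    exact_mod_cast h
  have hsq : ∑ t ∈ Gd j, (#(P t) : ℝ) ^ 2 ≤ #E * Tr j E := by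
    have h : ∑ t ∈ Gd j, #(P t) ^ 2 ≤ #E * Tr j E := by
      rw [Tr, sum_comm, mul_sum]
      refine sum_le_sum fun t _ => ?_
      rw [hPt]
      exact sq_sum_le_card_mul_sum_sq
    exact_mod_cast h
  have hg2 : ((∑ t ∈ Gd j, ∑ p ∈ P t, #{n ∈ An F | rp n p ∈ P t} : ℕ) : ℝ) ≤
      19 * (#E * Tr j E) + (q : ℝ) ^ 2 * (#E : ℝ) ^ 2 := by
    rw [Nat.cast_sum]
    refine (sum_le_sum fun t ht => energy_orbit h2 hj (mem_filter.1 ht).2 (P t) ?_).trans ?_
    · intro p hp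
      simp only [P, Xt, mem_filter, mem_product, mem_univ, true_and] at hp ⊢
      exact ⟨hE _ hp.1.1, hE _ hp.1.2, hp.2⟩
    · rw [sum_add_distrib, ← mul_sum, ← mul_sum]
      gcongr
      exacts [hsq, hsumP]
  rw [e1, ← sum_filter_add_sum_filter_not (E ×ˢ E) (fun p => dt p.1 p.2 ∈ Gd j)]
  have hb : ((∑ p ∈ (E ×ˢ E).filter (fun p => dt p.1 p.2 ∉ Gd j), k p : ℕ) : ℝ) ≤
      (4 * q * #E) * (q * #E) := by exact_mod_cast hbad
  have hg : ((∑ p ∈ (E ×ˢ E).filter (fun p => dt p.1 p.2 ∈ Gd j), k p : ℕ) : ℝ) ≤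
      ((∑ t ∈ Gd j, ∑ p ∈ P t, #{n ∈ An F | rp n p ∈ P t} : ℕ) : ℝ) := by exact_mod_cast hgood
  rw [Nat.cast_add]
  nlinarith

theorem Tr_le (h2 : (2 : F) ≠ 0) {j : F} (E : Finset (V F)) (hE : ∀ x ∈ E, dt x x = j) :
    Tr j E ≤ #E ^ 2 + ∑ b ∈ (E ×ˢ E).filter (fun b => dt (b.1 - b.2) (b.1 - b.2) ≠ 0),
      #{x ∈ E | dt (b.1 - b.2) x = 0} := by
  have e : Tr j E = ∑ y ∈ E, ∑ y' ∈ E, ∑ x ∈ E, #{t ∈ Gd j | dt x y = t ∧ dt x y' = t} := by
    rw [Tr, sum_congr rfl fun x _ => sum_card_sq (Gd j) E (fun t y => dt x y = t), sum_comm]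
    exact sum_congr rfl fun y _ => sum_comm
  rw [e, sum_filter, sum_product, sq, ← smul_eq_mul, ← sum_const, ← sum_add_distrib]
  refine sum_le_sum fun y hy => ?_
  have e2 : #E = ∑ y' ∈ E, if y' = y then #E else 0 := by rw [sum_ite_eq', if_pos hy]
  rw [e2, ← sum_add_distrib]
  refine sum_le_sum fun y' hy' => ?_
  have h1 : ∀ x, #{t ∈ Gd j | dt x y = t ∧ dt x y' = t} ≤ 1 := fun x =>
    card_le_one.2 fun a ha b hb => (mem_filter.1 ha).2.1.symm.trans (mem_filter.1 hb).2.1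
  by_cases h : y' = y
  · rw [if_pos h]
    exact le_trans (by simpa using sum_le_card_nsmul E _ 1 fun x _ => h1 x) (Nat.le_add_right _ _)
  · rw [if_neg h, zero_add]
    split_ifs with h'
    · rw [card_filter]
      refine sum_le_sum fun x _ => ?_
      split_ifs with h''
      · exact h1 x
      · rw [Nat.le_zero, card_eq_zero, filter_eq_empty_iff]
        rintro t - ⟨a, b⟩
        apply h''
        rw [dt_sub_left, dt_comm y, dt_comm y', a, b, sub_self]
    · rw [Nat.le_zero]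
      refine sum_eq_zero fun x hx => ?_
      rw [card_eq_zero, filter_eq_empty_iff]
      rintro t ht ⟨a, b⟩
      simp only [not_not] at h'
      have hG : dt x x * dt y y - dt x y ^ 2 ≠ 0 := by
        rw [hE x hx, hE y hy, a]; exact (mem_filter.1 ht).2
      have p1 : dt (y - y') x = 0 := by rw [dt_sub_left, dt_comm y, dt_comm y', a, b, sub_self]
      have p2 : dt (y - y') y = 0 := by
        simp only [dt_sub_left, dt_sub_right, hE y hy, hE y' hy', dt_comm y y'] at h' ⊢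
        apply mul_left_cancel₀ h2
        linear_combination h'
      have p3 : dt (y - y') (cr x y) = 0 := by
        apply pow_eq_zero_iff (two_ne_zero) |>.1
        rw [gram, p1, p2, h']; ring
      exact h (sub_eq_zero.1 (eq_zero_of_perp hG p1 p2 p3)).symm

theorem incid {j : F} (hj : j ≠ 0) (E : Finset (V F)) (hE : ∀ x ∈ E, dt x x = j) :
    (((Fintype.card F : ℝ) - 1) *
      ∑ b ∈ (E ×ˢ E).filter (fun b => dt (b.1 - b.2) (b.1 - b.2) ≠ 0),
        ((#{x ∈ E | dt (b.1 - b.2) x = 0} : ℝ) - #E / Fintype.card F)) ^ 2 ≤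
      ((∑ n ∈ An F, rr E n ^ 2 : ℕ) : ℝ) * (2 * #E * (Fintype.card F : ℝ) ^ 2) := by
  set q := Fintype.card F
  set R := (E ×ˢ E).filter (fun b => dt (b.1 - b.2) (b.1 - b.2) ≠ 0)
  let g : V F → ℝ := fun n => (#{x ∈ E | dt n x = 0} : ℝ) - #E / q
  let φ : (V F × V F) × F → V F := fun a => a.2 • (a.1.1 - a.1.2)
  let S := R ×ˢ (univ.erase (0 : F))
  have e1 : ((q : ℝ) - 1) * ∑ b ∈ R, g (b.1 - b.2) = ∑ a ∈ S, g (φ a) := by
    rw [sum_product, mul_sum]
    refine sum_congr rfl fun b _ => ?_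
    rw [sum_congr rfl (g := fun _ => g (b.1 - b.2)), sum_const, card_erase_of_mem (mem_univ _),
      card_univ, nsmul_eq_mul, Nat.cast_sub Fintype.card_pos, Nat.cast_one]
    intro s hs
    simp only [g, φ, dt_smul_left, mul_eq_zero, (mem_erase.1 hs).1, false_or]
  have hmap : ∀ a ∈ S, φ a ∈ An F := by
    intro a ha
    simp only [S, R, mem_product, mem_filter, mem_erase] at ha
    rw [mem_An, dt_smul_left, dt_smul_right]
    exact mul_ne_zero ha.2.1 (mul_ne_zero ha.2.1 ha.1.2)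
  have e2 : ∑ a ∈ S, g (φ a) = ∑ n ∈ An F, (#{a ∈ S | φ a = n} : ℝ) * g n := by
    rw [← sum_fiberwise_of_maps_to hmap]
    refine sum_congr rfl fun n _ => ?_
    rw [sum_congr rfl (g := fun _ => g n) (fun a ha => by rw [(mem_filter.1 ha).2]), sum_const,
      nsmul_eq_mul]
  have hW : ∀ n, #{a ∈ S | φ a = n} ≤ rr E n := by
    intro n
    have key : ∀ a ∈ {a ∈ S | φ a = n}, rf n a.1.1 = a.1.2 := by
      intro a ha
      simp only [S, R, mem_product, mem_filter, mem_erase] at ha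
      rw [← ha.2, rf_smul ha.1.2.1]
      exact rf_sub ((hE _ ha.1.1.1.1).trans (hE _ ha.1.1.1.2).symm) ha.1.1.2
    refine card_le_card_of_injOn (fun a => a.1.1) ?_ ?_
    · intro a ha
      have k := key a ha
      simp only [S, R, coe_filter, mem_product, mem_filter, mem_erase, Set.mem_ofPred_eq] at ha ⊢
      rw [k]
      exact ⟨ha.1.1.1.1, ha.1.1.1.2, fun h => ne_zero_of_dt ha.1.1.2 (by rw [h, sub_self])⟩
    · intro a ha a' ha' h
      have k := key a ha
      have k' := key a' ha'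
      simp only [S, R, coe_filter, mem_product, mem_filter, mem_erase, Set.mem_ofPred_eq]
        at ha ha' h
      have h1 : a.1 = a'.1 := Prod.ext h (by rw [← k, ← k', h])
      refine Prod.ext h1 (smul_left_injective F (ne_zero_of_dt ha.1.1.2) ?_)
      have := ha.2.trans ha'.2.symm
      simp only [φ, ← h1] at this
      exact this
  change (((q : ℝ) - 1) * ∑ b ∈ R, g (b.1 - b.2)) ^ 2 ≤ _
  rw [e1, e2]
  refine (sum_mul_sq_le_sq_mul_sq _ _ _).trans (mul_le_mul ?_ ?_ (by positivity) (by positivity))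
  · push_cast
    refine sum_le_sum fun n _ => ?_
    have : (#{a ∈ S | φ a = n} : ℝ) ≤ rr E n := by exact_mod_cast hW n
    gcongr
  · exact (sum_le_sum_of_subset_of_nonneg (subset_univ _) fun _ _ _ => sq_nonneg _).trans
      (var_planes hj E hE)

theorem Tr_bound (h2 : (2 : F) ≠ 0) {j : F} (hj : j ≠ 0) (E : Finset (V F))
    (hE : ∀ x ∈ E, dt x x = j) (h1 : (Fintype.card F : ℝ) ≤ #E)
    (h4 : (Fintype.card F : ℝ) ^ 4 ≤ (#E : ℝ) ^ 3) :
    (Tr j E : ℝ) ≤ 200 * ((#E : ℝ) ^ 3 / Fintype.card F) := by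
  have hq2 : (2 : ℝ) ≤ Fintype.card F := by exact_mod_cast Fintype.one_lt_card
  have a := energy_total h2 hj E hE
  have b := incid hj E hE
  have c : (Tr j E : ℝ) ≤ _ := Nat.cast_le.2 (Tr_le h2 E hE)
  push_cast at c
  rw [sum_sub_distrib, sum_const, nsmul_eq_mul] at b
  have hR : (#((E ×ˢ E).filter (fun b => dt (b.1 - b.2) (b.1 - b.2) ≠ 0)) : ℝ) ≤ (#E : ℝ) ^ 2 := by
    have : #((E ×ˢ E).filter (fun b => dt (b.1 - b.2) (b.1 - b.2) ≠ 0)) ≤ #E ^ 2 := by
      rw [sq, ← card_product]; exact card_filter_le _ _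
    exact_mod_cast this
  generalize (#((E ×ˢ E).filter (fun b => dt (b.1 - b.2) (b.1 - b.2) ≠ 0)) : ℝ) = r at b hR
  generalize (∑ b ∈ (E ×ˢ E).filter (fun b => dt (b.1 - b.2) (b.1 - b.2) ≠ 0),
      (#{x ∈ E | dt (b.1 - b.2) x = 0} : ℝ)) = Z at b c
  generalize ((∑ n ∈ An F, rr E n ^ 2 : ℕ) : ℝ) = B at a b
  have hT : (0 : ℝ) ≤ Tr j E := Nat.cast_nonneg _
  generalize (Tr j E : ℝ) = T at a c hT
  generalize (Fintype.card F : ℝ) = q at *
  generalize (#E : ℝ) = N at *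
  have hq : 0 < q := by linarith
  have hN : 0 < N := by linarith
  set M := N ^ 3 / q with hM
  have hM' : N ^ 3 = M * q := by rw [hM]; field_simp
  have hM0 : 0 < M := by positivity
  have m1 : N ^ 2 ≤ M := by
    rw [hM, le_div_iff₀ hq]; nlinarith [mul_le_mul_of_nonneg_left h1 (sq_nonneg N)]
  have m2 : q ^ 2 * N ^ 3 ≤ M ^ 2 := by
    rw [hM, div_pow, le_div_iff₀ (by positivity)]
    nlinarith [mul_le_mul_of_nonneg_left h4 (pow_pos hN 3).le]
  have m3 : r * (N / q) ≤ M := by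
    calc r * (N / q) ≤ N ^ 2 * (N / q) := by gcongr
      _ = M := by rw [hM]; field_simp
  set u := Z - r * (N / q)
  by_contra hc
  push Not at hc
  have hu : 198 * M < u := by simp only [u]; linarith
  have hu0 : 0 < u := by linarith
  have hTu : T ≤ u + 2 * M := by simp only [u]; linarith
  have b1 : q ^ 2 * u ^ 2 ≤ 4 * ((q - 1) * u) ^ 2 := by
    have : q * u ≤ 2 * ((q - 1) * u) := by nlinarith
    nlinarith [mul_pos hq hu0]
  have b2 : u ^ 2 ≤ 8 * N * B := by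
    have : q ^ 2 * u ^ 2 ≤ q ^ 2 * (8 * N * B) := by nlinarith
    exact le_of_mul_le_mul_left this (by positivity)
  have b3 : 8 * N * B ≤ 152 * N ^ 2 * T + 40 * (q ^ 2 * N ^ 3) := by nlinarith
  have b4 : N ^ 2 * T ≤ M * (u + 2 * M) := by gcongr
  nlinarith

theorem pinned (h2 : (2 : F) ≠ 0) {j : F} (hj : j ≠ 0) (E : Finset (V F))
    (hE : ∀ x ∈ E, dt x x = j) (h1 : 8 * (Fintype.card F : ℝ) ≤ #E)
    (h4 : (Fintype.card F : ℝ) ^ 4 ≤ (#E : ℝ) ^ 3) :
    ∃ x ∈ E, (Fintype.card F : ℝ) / 800 ≤ #(E.image fun y => dt x y) := by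
  have hq : (0 : ℝ) < Fintype.card F := by exact_mod_cast Fintype.card_pos
  have hN : (0 : ℝ) < #E := by linarith
  have hne : E.Nonempty := card_pos.1 (by exact_mod_cast hN)
  have hT := Tr_bound h2 hj E hE (by linarith) h4
  obtain ⟨x, hx, hx2⟩ := exists_le_of_sum_le hne
    (f := fun x => ((∑ t ∈ Gd j, #{y ∈ E | dt x y = t} ^ 2 : ℕ) : ℝ))
    (g := fun _ => 200 * ((#E : ℝ) ^ 2 / Fintype.card F)) (by
      rw [← Nat.cast_sum, sum_const, nsmul_eq_mul]
      refine hT.trans (le_of_eq ?_)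
      ring)
  refine ⟨x, hx, ?_⟩
  set D := (E.image fun y => dt x y).filter (· ∈ Gd j)
  have c1 : #{y ∈ E | dt x y ∈ Gd j} = ∑ t ∈ D, #{y ∈ E | dt x y = t} := by
    rw [card_eq_sum_card_fiberwise (f := fun y => dt x y) (t := D)]
    · refine sum_congr rfl fun t ht => congrArg _ ?_
      ext y
      simp only [mem_filter, and_assoc]
      exact and_congr_right fun _ => ⟨fun h => h.2, fun h => ⟨h ▸ (mem_filter.1 ht).2, h⟩⟩
    · intro y hy
      exact mem_filter.2 ⟨mem_image_of_mem _ (mem_filter.1 hy).1, (mem_filter.1 hy).2⟩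
  have c2 : #{y ∈ E | dt x y ∈ Gd j} ^ 2 ≤ #(E.image fun y => dt x y) *
      ∑ t ∈ Gd j, #{y ∈ E | dt x y = t} ^ 2 := by
    rw [c1]
    exact sq_sum_le_card_mul_sum_sq.trans (Nat.mul_le_mul (card_filter_le _ _)
      (sum_le_sum_of_subset fun t ht => (mem_filter.1 ht).2))
  have c3 := card_filter_add_card_filter_not (s := E) (fun y => dt x y ∈ Gd j)
  have c4 := card_bad h2 hj E hE hx
  have c5 : (#E : ℝ) ≤ #{y ∈ E | dt x y ∈ Gd j} + 4 * Fintype.card F := by
    have : #E ≤ #{y ∈ E | dt x y ∈ Gd j} + 4 * Fintype.card F := by omega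
    exact_mod_cast this
  have c6 : (#{y ∈ E | dt x y ∈ Gd j} : ℝ) ^ 2 ≤ #(E.image fun y => dt x y) *
      ((∑ t ∈ Gd j, #{y ∈ E | dt x y = t} ^ 2 : ℕ) : ℝ) := by exact_mod_cast c2
  have c7 := c6.trans (mul_le_mul_of_nonneg_left hx2 (Nat.cast_nonneg _))
  generalize (#{y ∈ E | dt x y ∈ Gd j} : ℝ) = a at *
  generalize (#(E.image fun y => dt x y) : ℝ) = d at *
  generalize (Fintype.card F : ℝ) = q at *
  generalize (#E : ℝ) = N at *
  have c8 : (N / 2) ^ 2 ≤ a ^ 2 := by gcongr; linarith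
  have c9 : N ^ 2 * (q / 800) ≤ N ^ 2 * d := by
    have : d * (200 * (N ^ 2 / q)) * (q / 200) = N ^ 2 * d := by field_simp
    rw [← this]
    nlinarith [mul_le_mul_of_nonneg_right (c8.trans c7) (by positivity : 0 ≤ q / 200)]
  exact le_of_mul_le_mul_left c9 (by positivity)

end Pool.Agent.Lib.MP_a460e0_co
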