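import Pool.Agent.Lib.MP_a460e0_co.BrH
import Pool.Agent.Lib.MP_a460e0_co.Main

/-! A rich nondegenerate plane gives many dot products, by the three-dimensional theorem. -/

namespace Pool.Agent.Lib.MP_a460e0_co.Br

open Finset Matrix

variable {F : Type} [Field F] [Fintype F] [DecidableEq F] {d : ℕ} {j : F}

lemma exists_rep (hF : ringChar F ≠ 2) {a b c : F} (ha : a ≠ 0) (hb : b ≠ 0) (hc : c ≠ 0) :
    ∃ s t : F, a * s ^ 2 + b * t ^ 2 = c := by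
  by_contra h
  have h4 : (4 : F) ≠ 0 := by
    have : (4 : F) = 2 * 2 := by norm_num
    rw [this]; exact mul_ne_zero (Ring.two_ne_zero hF) (Ring.two_ne_zero hF)
  have h1 : ∀ s : F, et F (-a / b * s ^ 2 + 0 * s + c / b) = -1 := fun s => by
    by_contra h2
    obtain ⟨t, ht⟩ := sq_of_et hF h2
    exact h ⟨s, t, by rw [ht]; field_simp; ring⟩
  have h2 := quad_sum hF (a := -a / b) (b := 0) (c := c / b) (by simp [ha, hb, hc, h4])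
  have h3 := et_norm_le (-a / b)
  rw [← norm_neg, ← h2] at h3
  simp only [h1, sum_const, card_univ, nsmul_eq_mul, mul_neg, mul_one, norm_neg,
    Complex.norm_natCast] at h3
  linarith [card_ge_three hF]

lemma rot (hF : ringChar F ≠ 2) {f g : Fin d → F} (h : f ⬝ᵥ g = 0) (hf : f ⬝ᵥ f ≠ 0)
    (hg : g ⬝ᵥ g ≠ 0) {c : F} (hc : c ≠ 0) : ∃ f' g' : Fin d → F, f' ⬝ᵥ g' = 0 ∧ f' ⬝ᵥ f' = c ∧
    g' ⬝ᵥ g' = f ⬝ᵥ f * g ⬝ᵥ g * c ∧ (∀ w, w ⬝ᵥ f = 0 → w ⬝ᵥ g = 0 → w ⬝ᵥ f' = 0 ∧ w ⬝ᵥ g' = 0) ∧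
    (∃ p q : F, f = p • f' + q • g') ∧ ∃ p q : F, g = p • f' + q • g' := by
  obtain ⟨s, t, hst⟩ := exists_rep hF hf hg hc
  set a := f ⬝ᵥ f with ha
  set b := g ⬝ᵥ g with hb
  refine ⟨s • f + t • g, (-(b * t)) • f + (a * s) • g, ?_, ?_, ?_, fun w h1 h2 => ?_,
    ⟨a * s / c, -t / c, ?_⟩, ⟨b * t / c, s / c, ?_⟩⟩
  · simp [← ha, ← hb, h, dotProduct_comm g f]; ring
  · simp [← ha, ← hb, h, dotProduct_comm g f]; linear_combination hst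
  · simp [← ha, ← hb, h, dotProduct_comm g f]; linear_combination a * b * hst
  · simp [h1, h2]
  · match_scalars <;> field_simp
    · linear_combination -hst
    · ring
  · match_scalars <;> field_simp
    · linear_combination -hst
    · ring

omit [Fintype F] [DecidableEq F] in
lemma orth2 (h2 : (2 : F) ≠ 0) {u v : Fin d → F} (h : u ⬝ᵥ u * v ⬝ᵥ v - (u ⬝ᵥ v) ^ 2 ≠ 0) :
    ∃ f g : Fin d → F, f ⬝ᵥ g = 0 ∧ f ⬝ᵥ f ≠ 0 ∧ g ⬝ᵥ g ≠ 0 ∧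
    (∀ w, w ⬝ᵥ u = 0 → w ⬝ᵥ v = 0 → w ⬝ᵥ f = 0 ∧ w ⬝ᵥ g = 0) ∧
    (∃ p q : F, u = p • f + q • g) ∧ ∃ p q : F, v = p • f + q • g := by
  by_cases hu : u ⬝ᵥ u = 0
  · by_cases hv : v ⬝ᵥ v = 0
    · have h3 : u ⬝ᵥ v ≠ 0 := fun h3 => h (by simp [hu, h3])
      refine ⟨u + v, u - v, ?_, ?_, ?_, fun w h1 h2 => by simp [h1, h2], ⟨1 / 2, 1 / 2, ?_⟩,
        ⟨1 / 2, -1 / 2, ?_⟩⟩
      · simp [hu, hv, dotProduct_comm v u]
      · simp [hu, hv, dotProduct_comm v u, ← two_mul, h2, h3]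
      · have : (u - v) ⬝ᵥ (u - v) = -(2 * (u ⬝ᵥ v)) := by
          simp [hu, hv, dotProduct_comm v u]; ring
        simp [this, h2, h3]
      · match_scalars <;> field_simp <;> ring
      · match_scalars <;> field_simp <;> ring
    · refine ⟨v, u - (u ⬝ᵥ v / v ⬝ᵥ v) • v, ?_, hv, fun h3 => h ?_, fun w h1 h2 => by simp [h1, h2],
        ⟨u ⬝ᵥ v / v ⬝ᵥ v, 1, by simp⟩, ⟨1, 0, by simp⟩⟩
      · simp [dotProduct_comm v u, hv]
      · simp [dotProduct_comm v u, hv] at h3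
        field_simp at h3
        linear_combination h3
  · refine ⟨u, v - (u ⬝ᵥ v / u ⬝ᵥ u) • u, ?_, hu, fun h3 => h ?_, fun w h1 h2 => by simp [h1, h2],
      ⟨1, 0, by simp⟩, ⟨u ⬝ᵥ v / u ⬝ᵥ u, 1, by simp⟩⟩
    · simp [hu]
    · simp [dotProduct_comm v u, hu] at h3
      field_simp at h3
      linear_combination h3

lemma frame (hF : ringChar F ≠ 2) (hj : j ≠ 0) {x y z : Fin d → F} (hx : x ⬝ᵥ x = j)
    (hy : y ⬝ᵥ y = j) (hz : z ⬝ᵥ z = j) (hg : gd j x y z ≠ 0) :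
    ∃ (c : F) (e1 e2 e3 : Fin d → F), c ≠ 0 ∧ e1 ⬝ᵥ e1 = c ∧ e2 ⬝ᵥ e2 = c ∧ e3 ⬝ᵥ e3 = c ∧
      e1 ⬝ᵥ e2 = 0 ∧ e1 ⬝ᵥ e3 = 0 ∧ e2 ⬝ᵥ e3 = 0 ∧ ∀ a b e : F, ∃ p q r : F,
        a • x + b • y + e • z = p • e1 + q • e2 + r • e3 := by
  obtain ⟨f, g, h1, hf, hg', h2, ⟨p1, q1, h3⟩, ⟨p2, q2, h4⟩⟩ := orth2 (Ring.two_ne_zero hF)
    (u := y - (x ⬝ᵥ y / j) • x) (v := z - (x ⬝ᵥ z / j) • x) (fun h => hg (by
      simp [hx, hy, hz, dotProduct_comm y x, dotProduct_comm z x, hj] at h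
      rw [gd]
      field_simp at h
      apply mul_left_cancel₀ hj
      linear_combination h))
  obtain ⟨k1, k2⟩ := h2 x (by simp [hx, hj]) (by simp [hx, hj])
  have hc : j * f ⬝ᵥ f * g ⬝ᵥ g ≠ 0 := mul_ne_zero (mul_ne_zero hj hf) hg'
  set c := j * f ⬝ᵥ f * g ⬝ᵥ g with hcd
  obtain ⟨e1, u, a1, a2, a3, a4, ⟨p3, q3, a5⟩, ⟨p4, q4, a6⟩⟩ := rot hF k1 (hx ▸ hj) hf hc
  obtain ⟨a7, a8⟩ := a4 g (by rw [dotProduct_comm, k2]) (by rw [dotProduct_comm, h1])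
  obtain ⟨e2, v, b1, b2, b3, b4, ⟨p5, q5, b5⟩, ⟨p6, q6, b6⟩⟩ := rot hF
    (f := u) (g := g) (by rw [dotProduct_comm, a8])
    (by rw [a3, hx]; exact mul_ne_zero (mul_ne_zero hj hf) hc) hg' hc
  obtain ⟨b7, b8⟩ := b4 e1 a1 (by rw [dotProduct_comm, a7])
  refine ⟨c, e1, e2, c⁻¹ • v, hc, a2, b2, ?_, b7, by simp [b8], by simp [b1], fun a b e => ?_⟩
  · simp only [dotProduct_smul, smul_dotProduct, smul_eq_mul, b3, a3, hx]
    field_simp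
    rw [hcd]
  · rw [sub_eq_iff_eq_add.1 h3, sub_eq_iff_eq_add.1 h4]
    generalize x ⬝ᵥ y / j = s
    generalize x ⬝ᵥ z / j = t
    refine ⟨(a + b * s + e * t) * p3 + (b * p1 + e * p2) * p4,
      ((a + b * s + e * t) * q3 + (b * p1 + e * p2) * q4) * p5 + (b * q1 + e * q2) * p6,
      c * (((a + b * s + e * t) * q3 + (b * p1 + e * p2) * q4) * q5 + (b * q1 + e * q2) * q6), ?_⟩
    clear_value c
    conv_lhs => rw [a5, a6, b5, b6]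
    match_scalars <;> field_simp <;> ring

lemma rich_plane (hF : ringChar F ≠ 2) (hj : j ≠ 0) {E : Finset (Fin d → F)}
    (hE : ∀ x ∈ E, x ⬝ᵥ x = j) {x y z : Fin d → F} (hx : x ∈ E) (hy : y ∈ E) (hz : z ∈ E)
    (hg : gd j x y z ≠ 0) (h1 : 8 * (Fintype.card F : ℝ) ≤ #(Pl E x y z))
    (h4 : (Fintype.card F : ℝ) ^ 4 ≤ (#(Pl E x y z) : ℝ) ^ 3) :
    (Fintype.card F : ℝ) / 800 ≤ #((E ×ˢ E).image fun p => p.1 ⬝ᵥ p.2) := by
  obtain ⟨c, e1, e2, e3, hc, a1, a2, a3, b1, b2, b3, hs⟩ :=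
    frame hF hj (hE x hx) (hE y hy) (hE z hz) hg
  set g : (Fin d → F) → V F := fun w => ![w ⬝ᵥ e1 / c, w ⬝ᵥ e2 / c, w ⬝ᵥ e3 / c] with hgd
  have hw : ∀ w ∈ Pl E x y z, w = g w 0 • e1 + g w 1 • e2 + g w 2 • e3 := fun w hw => by
    simp only [Pl, mem_filter] at hw
    obtain ⟨-, a, b, e, rfl⟩ := hw
    obtain ⟨p, q, r, h⟩ := hs a b e
    rw [h]
    simp [hgd, a1, a2, a3, b1, b2, b3, dotProduct_comm e2 e1, dotProduct_comm e3 e1,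
      dotProduct_comm e3 e2, hc]
  have hd : ∀ w ∈ Pl E x y z, ∀ w' : Fin d → F, dt (g w) (g w') = w ⬝ᵥ w' / c := fun w h w' => by
    conv_rhs => rw [hw w h]
    simp only [dt, add_dotProduct, smul_dotProduct, smul_eq_mul, dotProduct_comm _ w']
    simp [hgd]
    field_simp
  have hsub : ∀ w ∈ Pl E x y z, w ∈ E := fun w h => by
    simp only [Pl, mem_filter] at h; exact h.1
  have hi : #((Pl E x y z).image g) = #(Pl E x y z) := card_image_of_injOn fun w h w' h' e => by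
    rw [hw w h, hw w' h', e]
  obtain ⟨v, hv, h⟩ := pinned (Ring.two_ne_zero hF) (div_ne_zero hj hc) ((Pl E x y z).image g)
    (fun v hv => by
      obtain ⟨w, hw', rfl⟩ := mem_image.1 hv
      rw [hd w hw', hE w (hsub w hw')]) (by rwa [hi]) (by rwa [hi])
  refine h.trans ?_
  norm_cast
  obtain ⟨w, hw', rfl⟩ := mem_image.1 hv
  refine le_trans (card_le_card fun t ht => ?_) (card_image_le (f := fun t => t / c))
  simp only [mem_image, mem_product, Prod.exists] at ht ⊢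
  obtain ⟨_, ⟨w', h', rfl⟩, rfl⟩ := ht
  exact ⟨_, ⟨w, w', ⟨hsub w hw', hsub w' h'⟩, rfl⟩, (hd w hw' w').symm⟩

end Pool.Agent.Lib.MP_a460e0_co.Br
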