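import Pool.Agent.Lib.MP_a460e0_co.BrI

/-! The spectral second-moment argument. -/

namespace Pool.Agent.Lib.MP_a460e0_co.Br

open Finset Matrix ComplexConjugate

variable {F : Type} [Field F] [Fintype F] [DecidableEq F] {d : ℕ} {j D : F}

attribute [local simp] QuadraticAlgebra.re_one QuadraticAlgebra.im_one

lemma parseval_T {ι : Type} [Fintype ι] {X : ι → A D → ℂ} (hX : ∀ i, IsCh (X i))
    (ho : ∀ u : A D, u.norm = 1 → ∑ i, X i u = if u = 1 then (#(TT D) : ℂ) else 0)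
    (f : A D → ℂ) : ∑ i, ‖∑ u ∈ TT D, X i u * f u‖ ^ 2 = #(TT D) * ∑ u ∈ TT D, ‖f u‖ ^ 2 := by
  apply Complex.ofReal_injective
  push_cast
  simp only [← Complex.mul_conj', map_sum, sum_mul_sum]
  rw [sum_comm, mul_sum]
  refine sum_congr rfl fun u hu => ?_
  rw [sum_comm, sum_eq_single u]
  · rw [mem_TT] at hu
    have h1 := ho 1 (map_one _)
    simp only [fun i => (hX i).one, if_true] at h1
    rw [← h1, sum_mul]
    refine sum_congr rfl fun i _ => ?_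
    rw [map_mul]
    linear_combination f u * conj (f u) * ch_mul_conj (hX i) hu
  · intro v hv hvu
    rw [mem_TT] at hu hv
    have h1 := ho (u * star v) (by rw [map_mul, QuadraticAlgebra.norm_star, hu, hv, mul_one])
    rw [if_neg fun h => hvu (by
      rw [← one_mul v, ← h, mul_assoc, mul_comm (star v), mul_star_one hv, mul_one])] at h1
    rw [← mul_zero (f u * conj (f v)), ← h1, mul_sum]
    refine sum_congr rfl fun i _ => ?_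
    rw [(hX i).mul _ _ hu (by rw [QuadraticAlgebra.norm_star, hv]), (hX i).cj _ hv, map_mul]
    ring
  · intro h; exact absurd hu h

lemma torus_sum (hF : ringChar F ≠ 2) (hD : D ≠ 0) (hj : j ≠ 0) {k : ℕ}
    (E : Finset (Fin (2 * k + 1) → F)) (hE : ∀ x ∈ E, x ⬝ᵥ x = j) {M : ℝ} (hM0 : 0 ≤ M)
    (hM : ∀ X : A D → ℂ, IsCh X → ¬ Exc X → ‖WW X j E‖ ≤ M) :
    ∑ u ∈ TT D, ‖∑ p ∈ (E ×ˢ E).filter (fun p => ¬ (p.1 ⬝ᵥ p.2 = j ∨ p.1 ⬝ᵥ p.2 = -j)),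
      et F (p.1 ⬝ᵥ p.2 - j * u.re)‖ ^ 2 ≤
      24 * M * ((Fintype.card F : ℝ) ^ k * #E) + 4 * (#E : ℝ) ^ 4 := by
  obtain ⟨ι, _, X, hX, hc, ho⟩ := exists_family D
  have h2 : (0 : ℝ) < #(TT D) := by linarith [(card_TT_bd hF hD).1, card_ge_three hF]
  refine le_of_mul_le_mul_left ?_ h2
  rw [← parseval_T hX ho]
  have hcard : ∀ p : (Fin (2 * k + 1) → F) × (Fin (2 * k + 1) → F) → Prop, ∀ _ : DecidablePred p,
      (#((E ×ˢ E).filter p) : ℝ) ≤ #E ^ 2 := fun p _ => by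
    rw [sq, ← Nat.cast_mul, ← card_product]; exact_mod_cast card_filter_le _ _
  have h3 : ∀ i, ‖∑ u ∈ TT D, X i u * ∑ p ∈ (E ×ˢ E).filter
      (fun p => ¬ (p.1 ⬝ᵥ p.2 = j ∨ p.1 ⬝ᵥ p.2 = -j)), et F (p.1 ⬝ᵥ p.2 - j * u.re)‖ ^ 2 ≤
      2 * M * ‖WW (X i) j E‖ + 4 * (#E : ℝ) ^ 4 := by
    intro i
    have e1 : ∑ u ∈ TT D, X i u * ∑ p ∈ (E ×ˢ E).filter
        (fun p => ¬ (p.1 ⬝ᵥ p.2 = j ∨ p.1 ⬝ᵥ p.2 = -j)), et F (p.1 ⬝ᵥ p.2 - j * u.re) =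
        ∑ p ∈ (E ×ˢ E).filter (fun p => ¬ (p.1 ⬝ᵥ p.2 = j ∨ p.1 ⬝ᵥ p.2 = -j)),
          Leg (X i) (p.1 ⬝ᵥ p.2) (-j) := by
      simp only [mul_sum, Leg, sub_eq_add_neg, neg_mul]
      rw [sum_comm]
    rw [e1]
    by_cases he : Exc (X i)
    · have : ‖∑ p ∈ (E ×ˢ E).filter (fun p => ¬ (p.1 ⬝ᵥ p.2 = j ∨ p.1 ⬝ᵥ p.2 = -j)),
          Leg (X i) (p.1 ⬝ᵥ p.2) (-j)‖ ≤ #E ^ 2 * 2 := by
        refine (norm_sum_le _ _).trans ((sum_le_card_nsmul _ _ 2 fun p hp => ?_).trans ?_)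
        · have := not_or.1 (mem_filter.1 hp).2
          exact leg_exc hF hD (hX i) he (fun h => this.1 (by linear_combination h))
            (fun h => this.2 (by linear_combination h))
        · rw [nsmul_eq_mul]; gcongr; exact hcard _ _
      refine le_add_of_nonneg_of_le (by positivity) ((pow_le_pow_left₀ (norm_nonneg _) this 2).trans
        (le_of_eq (by ring)))
    · have e2 : WW (X i) j E = ∑ p ∈ E ×ˢ E, Leg (X i) (p.1 ⬝ᵥ p.2) (-j) := by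
        rw [WW, sum_comm, sum_product]
      rw [← sum_filter_add_sum_filter_not _ (fun p => p.1 ⬝ᵥ p.2 = j ∨ p.1 ⬝ᵥ p.2 = -j)] at e2
      have e3 : ‖∑ p ∈ (E ×ˢ E).filter (fun p => p.1 ⬝ᵥ p.2 = j ∨ p.1 ⬝ᵥ p.2 = -j),
          Leg (X i) (p.1 ⬝ᵥ p.2) (-j)‖ ≤ #E ^ 2 := by
        refine (norm_sum_le _ _).trans ((sum_le_card_nsmul _ _ 1 fun p hp => ?_).trans ?_)
        · refine leg_pm hF hD (hX i) he ((mem_filter.1 hp).2.imp (fun h => ?_) fun h => ?_) <;>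
            simp [h]
        · rw [nsmul_eq_mul, mul_one]; exact hcard _ _
      rw [← sub_eq_of_eq_add' e2]
      have e4 := hM _ (hX i) he
      have e5 := norm_nonneg (WW (X i) j E)
      refine (pow_le_pow_left₀ (norm_nonneg _) ((norm_sub_le _ _).trans
        (add_le_add_right e3 _)) 2).trans ?_
      nlinarith [sq_nonneg (‖WW (X i) j E‖ - #E ^ 2), mul_le_mul_of_nonneg_right e4 e5,
        sq_nonneg ((#E : ℝ) ^ 2)]
  refine (sum_le_sum fun i _ => h3 i).trans ?_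
  rw [sum_add_distrib, ← mul_sum, sum_const, card_univ, hc, nsmul_eq_mul]
  refine (add_le_add_left (mul_le_mul_of_nonneg_left (W_sum hF hD hj E hE hX hc ho)
    (by positivity)) _).trans (le_of_eq (by ring))

lemma spectral (hF : ringChar F ≠ 2) (hj : j ≠ 0) {k : ℕ}
    (E : Finset (Fin (2 * k + 1) → F)) (hE : ∀ x ∈ E, x ⬝ᵥ x = j) {M : ℝ} (hM0 : 0 ≤ M)
    (hM : ∀ D : F, D = 1 ∨ et F D = -1 → ∀ X : A D → ℂ, IsCh X → ¬ Exc X → ‖WW X j E‖ ≤ M)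
    (hI : ∑ x ∈ E, ∑ y ∈ E, (if x ⬝ᵥ y = j ∨ x ⬝ᵥ y = -j then (1 : ℝ) else 0) ≤ #E ^ 2 / 2) :
    Fintype.card F * ((#E : ℝ) ^ 2 / 2) ^ 2 ≤ #((E ×ˢ E).image fun p => p.1 ⬝ᵥ p.2) *
      (48 * M * ((Fintype.card F : ℝ) ^ k * #E) + 9 * (#E : ℝ) ^ 4) := by
  obtain ⟨e, he⟩ := exists_nonsq hF
  have he0 : e ≠ 0 := by rintro rfl; simp [et_zero] at he
  set S := (E ×ˢ E).filter (fun p => ¬ (p.1 ⬝ᵥ p.2 = j ∨ p.1 ⬝ᵥ p.2 = -j)) with hS
  set f : F → ℝ := fun c => ‖∑ p ∈ S, et F (p.1 ⬝ᵥ p.2 - c)‖ ^ 2 with hf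
  have s1 : (#E : ℝ) ^ 2 / 2 ≤ #S ∧ (#S : ℝ) ≤ #E ^ 2 := by
    have h1 := card_filter_add_card_filter_not (s := E ×ˢ E)
      (fun p => p.1 ⬝ᵥ p.2 = j ∨ p.1 ⬝ᵥ p.2 = -j)
    rw [← sum_product', sum_boole] at hI
    rw [card_product, ← sq] at h1
    have h2 := congrArg (Nat.cast (R := ℝ)) h1
    push_cast at h2
    constructor
    · linarith
    · rw [← h2]; exact le_add_of_nonneg_left (by positivity)
  have s2 := cs_fiber S (fun p => p.1 ⬝ᵥ p.2) ((E ×ˢ E).image fun p => p.1 ⬝ᵥ p.2)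
    fun p hp => mem_image_of_mem _ (mem_filter.1 hp).1
  have s3 : ∑ c, f c = Fintype.card F * (∑ a ∈ S, ∑ b ∈ S,
      if a.1 ⬝ᵥ a.2 = b.1 ⬝ᵥ b.2 then (1 : ℝ) else 0) - #S ^ 2 := by
    apply Complex.ofReal_injective
    simp only [hf]
    push_cast
    simp only [← Complex.mul_conj', map_sum, sum_mul_sum, et_conj]
    rw [sum_comm, sq, ← nsmul_eq_mul (#S) (#S : ℂ), ← sum_const, mul_sum, ← sum_sub_distrib]
    refine sum_congr rfl fun a _ => ?_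
    rw [sum_comm, card_eq_sum_ones S, mul_sum, Nat.cast_sum, ← sum_sub_distrib]
    refine sum_congr rfl fun b _ => ?_
    rw [et_corr hF]
    split_ifs <;> simp
  have s4 : ∑ c, f c ≤ ∑ u ∈ TT (1 : F), f (j * u.re) + ∑ u ∈ TT e, f (j * u.re) := by
    have h0 : ∀ c, 0 ≤ f c := fun c => by simp only [hf]; positivity
    have h1 : ∀ D : F, ∑ c ∈ (TT D).image fun u => j * u.re, f c ≤ ∑ u ∈ TT D, f (j * u.re) :=
      fun D => sum_image_le_of_nonneg fun _ _ => h0 _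
    refine le_trans ?_ (add_le_add (h1 1) (h1 e))
    rw [← sum_union_inter]
    refine le_add_of_le_of_nonneg (sum_le_sum_of_subset_of_nonneg (fun c _ => ?_)
      fun _ _ _ => h0 _) (sum_nonneg fun _ _ => h0 _)
    obtain ⟨ρ, hρ⟩ := sqrtK hF he ((c / j) ^ 2 - 1)
    have a1 := congrArg QuadraticAlgebra.re hρ
    have a2 := congrArg QuadraticAlgebra.im hρ
    simp at a1 a2
    have a3 : ρ.re * ρ.im = 0 :=
      mul_left_cancel₀ (Ring.two_ne_zero hF) (by linear_combination a2)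
    rcases mul_eq_zero.1 a3 with h | h <;> rw [h] at a1
    · refine mem_union_right _ (mem_image.2 ⟨⟨c / j, ρ.im⟩, mem_TT.2 ?_, by field_simp⟩)
      rw [nm]; linear_combination -a1
    · refine mem_union_left _ (mem_image.2 ⟨⟨c / j, ρ.re⟩, mem_TT.2 ?_, by field_simp⟩)
      rw [nm]; linear_combination -a1
  have s5 := torus_sum hF one_ne_zero hj E hE hM0 (hM 1 (Or.inl rfl))
  have s6 := torus_sum hF he0 hj E hE hM0 (hM e (Or.inr he))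
  have s7 : (#S : ℝ) ^ 2 ≤ #E ^ 4 := by
    calc _ ≤ ((#E : ℝ) ^ 2) ^ 2 := by gcongr; exact s1.2
      _ = _ := by ring
  calc _ ≤ Fintype.card F * (#S : ℝ) ^ 2 := by gcongr; exact s1.1
    _ ≤ _ := (mul_le_mul_of_nonneg_left s2 (by positivity)).trans ?_
  rw [mul_left_comm]
  gcongr
  simp only [hf] at s3 s4
  linarith

lemma W_four (hF : ringChar F ≠ 2) (hD : D ≠ 0) {X : A D → ℂ} (hX : IsCh X) (hj : j ≠ 0)
    (E : Finset (Fin d → F)) (hE : ∀ x ∈ E, x ⬝ᵥ x = j) {Z : ℝ}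
    (hZ : ∑ i1 ∈ PS E, ∑ i2 ∈ PS E, ∑ i3 ∈ PS E, ∑ i4 ∈ PS E,
      (if i1.2 • i1.1 + i2.2 • i2.1 = i3.2 • i3.1 + i4.2 • i4.1 then
        ‖Um X i1.2 i2.2 i3.2 i4.2‖ else 0) ≤ Z) :
    (Fintype.card F : ℝ) ^ 4 * ‖WW X j E‖ ^ 4 ≤ 5 * (#E ^ 3 * ((Fintype.card F : ℝ) ^ d * Z)) := by
  have h1 := (g_four hF hD hX hj E hE).trans (mul_le_mul_of_nonneg_left ((hh_four X E).trans
    (mul_le_mul_of_nonneg_left hZ (by positivity))) zero_le_two)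
  have h2 : ‖WW X j E‖ ^ 4 ≤ #E ^ 3 * ∑ y ∈ E, ‖∑ x ∈ E, Leg X (x ⬝ᵥ y) (-j)‖ ^ 4 :=
    (pow_le_pow_left₀ (norm_nonneg _) (norm_sum_le _ _) 4).trans
      (pow_sum_le_card_mul_sum_pow (fun _ _ => norm_nonneg _) 3)
  have hq := card_ge_three hF
  obtain ⟨t1, -⟩ := card_TT_bd hF hD
  set q : ℝ := ((Fintype.card F : ℕ) : ℝ)
  set G := ∑ y ∈ E, ‖∑ x ∈ E, Leg X (x ⬝ᵥ y) (-j)‖ ^ 4
  have hG : 0 ≤ G := by positivity
  have h3 : 2 * q ^ 2 ≤ 5 * ((q - 1) * #(TT D)) := by nlinarith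
  have h4 : 2 * (q ^ 4 * G) ≤ 2 * (5 * (q ^ d * Z)) := by
    calc _ = 2 * q ^ 2 * (q ^ 2 * G) := by ring
      _ ≤ 5 * ((q - 1) * #(TT D)) * (q ^ 2 * G) := by gcongr
      _ ≤ _ := by linarith
  calc _ ≤ q ^ 4 * (#E ^ 3 * G) := by gcongr
    _ = #E ^ 3 * (q ^ 4 * G) := by ring
    _ ≤ #E ^ 3 * (5 * (q ^ d * Z)) := mul_le_mul_of_nonneg_left (by linarith) (by positivity)
    _ = _ := by ring

end Pool.Agent.Lib.MP_a460e0_co.Br
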