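import Pool.Agent.Lib.MP_a460e0_co.BrJ

/-! Assembly of the estimates. -/

namespace Pool.Agent.Lib.MP_a460e0_co.Br

open Finset Matrix

variable {F : Type} [Field F] [Fintype F] [DecidableEq F] {j : F}

lemma pw {r : ℝ} (hr : 2 ≤ r) {a b : ℕ} (h : a ≤ b) : r ^ a ≤ r ^ b :=
  pow_le_pow_right₀ (by linarith) h

open Classical in
lemma cop_final (hj : j ≠ 0) {k : ℕ} {E : Finset (Fin (2 * k + 1) → F)}
    (hE : ∀ x ∈ E, x ⬝ᵥ x = j) {r : ℝ} (hr : 2 ≤ r) (hq : (Fintype.card F : ℝ) = r ^ 36)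
    (h1 : (Fintype.card F : ℝ) ^ k * r ^ 17 ≤ #E) (h2 : #E ≤ (Fintype.card F : ℝ) ^ k * r ^ 18)
    (hK : ∀ x ∈ E, ∀ y ∈ E, ∀ z ∈ E, gd j x y z ≠ 0 → (#(Pl E x y z) : ℝ) ≤ 8 * r ^ 48) :
    ∑ x ∈ E, ∑ y ∈ E, ∑ z ∈ E, ∑ w ∈ E, (if Gen x y z w then (1 : ℝ) else 0) ≤
      332 * (#E ^ 3 * r ^ 48) := by
  have hr0 : 0 < r := by linarith
  have hq1 : (1 : ℝ) ≤ Fintype.card F := by exact_mod_cast Fintype.card_pos
  set P : ℝ := (Fintype.card F : ℝ) ^ k with hP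
  set N : ℝ := ((#E : ℕ) : ℝ) with hN
  have hP1 : 1 ≤ P := one_le_pow₀ hq1
  have hN0 : 0 ≤ N := by positivity
  set L := ⌈2 * (N / P)⌉₊ with hL
  have hL1 : (L : ℝ) ≤ 2 * (N / P) + 1 := (Nat.ceil_lt_add_one (by positivity)).le
  have n1 : r ^ 17 ≤ N / P := by rw [le_div_iff₀ (by linarith)]; linarith
  have n2 : N / P ≤ r ^ 18 := by rw [div_le_iff₀ (by linarith)]; linarith
  have n3 : 1 ≤ r ^ 17 := one_le_pow₀ (by linarith)
  have n4 : P ≤ N / r ^ 17 := by rw [le_div_iff₀ (by positivity)]; exact h1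
  have n5 : r ^ 8 ≤ N := (pw hr (by norm_num)).trans (le_trans (le_mul_of_one_le_left
    (by positivity) hP1) h1)
  have n6 : N / r ^ 17 ≤ N / r ^ 16 := by gcongr; linarith; norm_num
  have he := (rich_bound hj E hE k L (Nat.le_ceil _)).trans
    (show 8 * (N * P) ≤ (3 * N / r ^ 8) ^ 2 by
      calc 8 * (N * P) ≤ 9 * (N * (N / r ^ 16)) := by gcongr; norm_num; linarith
        _ = _ := by field_simp; ring)
  have hT := tri_bound E (Rich E L) he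
  rw [Real.sqrt_sq (by positivity)] at hT
  have hD1 := (abs_le_of_sq_le_sq' ((deg_poor hj E hE L).trans
    (show _ ≤ (4 * N ^ 3 / r ^ 8) ^ 2 by
      have e1 : (L + 2) * P ^ 2 ≤ 5 * (N ^ 2 / r ^ 16) := by
        calc (L + 2) * P ^ 2 ≤ 5 * (N / P) * P ^ 2 := by gcongr; linarith
          _ = 5 * (N * P) := by field_simp
          _ ≤ 5 * (N * (N / r ^ 16)) := by gcongr; linarith
          _ = _ := by ring
      calc _ = 2 * (N ^ 6 / r ^ 36) + 2 * ((L + 2) * P ^ 2) * N ^ 4 := by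
            rw [pow_succ _ (2 * k), pow_mul', ← hP, ← hN, hq]; field_simp
        _ ≤ 6 * (N ^ 6 / r ^ 16) + 2 * (5 * (N ^ 2 / r ^ 16)) * N ^ 4 := by
            gcongr; norm_num; linarith; norm_num
        _ = _ := by field_simp; ring)) (by positivity)).2
  have hD := (deg_bound (j := j) E L).trans (add_le_add (add_le_add_right
    (mul_le_mul_of_nonneg_right he hN0) _) hD1)
  have hD2 : 2 * N ^ 2 + (3 * N / r ^ 8) ^ 2 * N + 4 * N ^ 3 / r ^ 8 ≤ 15 * (N ^ 3 / r ^ 8) := by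
    have e1 : N ^ 2 ≤ N ^ 3 / r ^ 8 := by
      rw [le_div_iff₀ (by positivity), pow_succ N 2]; gcongr
    have e2 : (3 * N / r ^ 8) ^ 2 * N ≤ 9 * (N ^ 3 / r ^ 8) := by
      calc _ = 9 * (N ^ 3 / r ^ 16) := by field_simp; ring
        _ ≤ _ := by gcongr; linarith; norm_num
    rw [mul_div_assoc 4]
    linarith
  refine (cop_bound hj hE L (by positivity) hK (hD.trans hD2) hT).trans ?_
  have e3 : 15 * (N ^ 3 / r ^ 8) * ((Fintype.card F + 1) * L) ≤ 90 * (N ^ 3 * r ^ 48) := by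
    calc _ ≤ 15 * (N ^ 3 / r ^ 8) * ((2 * r ^ 36) * (3 * r ^ 18)) := by gcongr <;> linarith
      _ = 90 * (N ^ 3 * r ^ 46) := by field_simp; ring
      _ ≤ _ := by gcongr; linarith; norm_num
  have e4 : (3 * N / r ^ 8) ^ 2 * (3 * N / r ^ 8) * (2 * (Fintype.card F : ℝ) ^ 2) ≤
      54 * (N ^ 3 * r ^ 48) := le_of_eq (by rw [hq]; field_simp; ring)
  linarith

lemma iso_pm (hj : j ≠ 0) {k : ℕ} {E : Finset (Fin (2 * k + 1) → F)}
    (hE : ∀ x ∈ E, x ⬝ᵥ x = j) {r : ℝ} (hr : 2 ≤ r) (hq : (Fintype.card F : ℝ) = r ^ 36)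
    (h1 : (Fintype.card F : ℝ) ^ k * r ^ 17 ≤ #E) :
    ∑ x ∈ E, ∑ y ∈ E, (if x ⬝ᵥ y = j ∨ x ⬝ᵥ y = -j then (1 : ℝ) else 0) ≤
      6 * (#E ^ 2 / r ^ 17) := by
  have hr0 : 0 < r := by linarith
  have a1 := iso_bound hj E hE j
  have a2 := iso_bound hj E hE (-j)
  have a3 : (#E : ℝ) ^ 2 / Fintype.card F ≤ #E ^ 2 / r ^ 17 := by
    rw [hq]; gcongr; linarith; norm_num
  have a4 : #E * (Fintype.card F : ℝ) ^ k ≤ #E ^ 2 / r ^ 17 := by
    rw [le_div_iff₀ (by positivity), mul_assoc, sq]; gcongr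
  refine le_trans ?_ ((add_le_add a1 a2).trans (by linarith))
  simp only [← sum_add_distrib]
  refine sum_le_sum fun x _ => sum_le_sum fun y _ => ?_
  split_ifs <;> first | (norm_num; done) | tauto

lemma W_final (hF : ringChar F ≠ 2) (hj : j ≠ 0) {k : ℕ} (hk : 2 ≤ k)
    {E : Finset (Fin (2 * k + 1) → F)} (hE : ∀ x ∈ E, x ⬝ᵥ x = j) {r : ℝ} (hr : 2 ≤ r)
    (hq : (Fintype.card F : ℝ) = r ^ 36) (h1 : (Fintype.card F : ℝ) ^ k * r ^ 17 ≤ #E)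
    (h2 : #E ≤ (Fintype.card F : ℝ) ^ k * r ^ 18)
    (hK : ∀ x ∈ E, ∀ y ∈ E, ∀ z ∈ E, gd j x y z ≠ 0 → (#(Pl E x y z) : ℝ) ≤ 8 * r ^ 48)
    (D : F) (hD : D = 1 ∨ et F D = -1) (X : A D → ℂ) (hX : IsCh X) (he : ¬ Exc X) :
    ‖WW X j E‖ ≤ 17 * (#E ^ 3 / (Fintype.card F : ℝ) ^ k) := by
  have hD0 : D ≠ 0 := by
    rcases hD with rfl | hD
    · exact one_ne_zero
    · rintro rfl; simp [et_zero] at hD
  have hr0 : 0 < r := by linarith
  have hq1 : (1 : ℝ) ≤ Fintype.card F := by exact_mod_cast Fintype.card_pos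
  have h3 := W_four hF hD0 hX hj E hE (Z_bound hF hD hX he E
    (rel_bound hj hE (cop_final hj hE hr hq h1 h2 hK)) (sp_bound hF hj hE (iso_pm hj hE hr hq h1)))
  have hP2 : r ^ 72 ≤ (Fintype.card F : ℝ) ^ k := by
    refine le_trans (le_of_eq ?_) (pow_le_pow_right₀ hq1 hk)
    rw [hq]; ring
  rw [pow_succ _ (2 * k), pow_mul'] at h3
  set P : ℝ := (Fintype.card F : ℝ) ^ k with hP
  set N : ℝ := ((#E : ℕ) : ℝ) with hN
  have hN0 : 0 ≤ N := by positivity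
  have hP0 : 0 < P := by positivity
  have hs : √(r ^ 36) = r ^ 18 := by
    rw [show r ^ 36 = (r ^ 18) ^ 2 by ring, Real.sqrt_sq (by positivity)]
  rw [hq, hs] at h3
  have n1 : r ^ 60 ≤ N := (pw hr (by norm_num : 60 ≤ 72 + 17)).trans
    (le_trans (by rw [pow_add]; gcongr) h1)
  have e1 : N ^ 2 * (r ^ 36) ^ 4 ≤ N ^ 3 * r ^ 84 := by
    calc _ = N ^ 2 * r ^ 60 * r ^ 84 := by ring
      _ ≤ N ^ 2 * N * r ^ 84 := by gcongr
      _ = _ := by ring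
  have e2 : 24 * (r ^ 36) ^ 4 * (3 * (4 * N * r ^ 36 * (N ^ 2 + 6 * (N ^ 2 / r ^ 17) * r ^ 36))) ≤
      2016 * (N ^ 3 * r ^ 210) := by
    calc _ = 288 * (N ^ 3 * r ^ 180) + 1728 * (N ^ 3 * r ^ 199) := by field_simp; ring
      _ ≤ 288 * (N ^ 3 * r ^ 210) + 1728 * (N ^ 3 * r ^ 210) := by
        gcongr <;> first | linarith | norm_num
      _ = _ := by ring
  have e3 : 40 * (r ^ 36) ^ 3 * r ^ 18 * (332 * (N ^ 3 * r ^ 48) * r ^ 36 +
      8 * (N ^ 2 * (r ^ 36) ^ 4)) ≤ 13600 * (N ^ 3 * r ^ 210) := by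
    calc _ ≤ 40 * (r ^ 36) ^ 3 * r ^ 18 * (332 * (N ^ 3 * r ^ 48) * r ^ 36 +
        8 * (N ^ 3 * r ^ 84)) := by gcongr
      _ = _ := by ring
  have h4 := h3.trans (mul_le_mul_of_nonneg_left (mul_le_mul_of_nonneg_left
    (mul_le_mul_of_nonneg_left (add_le_add e3 e2) (by positivity)) (by positivity)) (by norm_num))
  refine le_of_pow_le_pow_left₀ four_ne_zero (by positivity) (le_of_mul_le_mul_left (h4.trans ?_)
    (by positivity))
  have n2 : r ^ 17 ≤ N / P := by rw [le_div_iff₀ hP0]; linarith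
  calc _ = 78080 * (r ^ 144 * (N ^ 6 * P ^ 2 * (r ^ 17) ^ 6)) := by ring
    _ ≤ 83521 * (r ^ 144 * (N ^ 6 * P ^ 2 * (N / P) ^ 6)) := by gcongr; norm_num
    _ = _ := by field_simp; ring

lemma main_mid (hF : ringChar F ≠ 2) (hj : j ≠ 0) {k : ℕ} (hk : 2 ≤ k)
    {E : Finset (Fin (2 * k + 1) → F)} (hE : ∀ x ∈ E, x ⬝ᵥ x = j) {r : ℝ} (hr : 2 ≤ r)
    (hq : (Fintype.card F : ℝ) = r ^ 36) (h1 : (Fintype.card F : ℝ) ^ k * r ^ 17 ≤ #E)
    (h2 : #E ≤ (Fintype.card F : ℝ) ^ k * r ^ 18) :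
    (Fintype.card F : ℝ) / 3300 ≤ #((E ×ˢ E).image fun p => p.1 ⬝ᵥ p.2) := by
  have hr0 : 0 < r := by linarith
  by_cases hK : ∀ x ∈ E, ∀ y ∈ E, ∀ z ∈ E, gd j x y z ≠ 0 → (#(Pl E x y z) : ℝ) ≤ 8 * r ^ 48
  · have hP0 : 0 < (Fintype.card F : ℝ) ^ k := by rw [hq]; positivity
    have hN0 : (0 : ℝ) < #E := lt_of_lt_of_le (by positivity) h1
    have h3 := spectral hF hj E hE (by positivity) (W_final hF hj hk hE hr hq h1 h2 hK)
      ((iso_pm hj hE hr hq h1).trans (by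
        have : (2 : ℝ) ^ 17 ≤ r ^ 17 := by gcongr
        rw [mul_div_assoc', div_le_div_iff₀ (by positivity) two_pos]
        nlinarith [sq_nonneg (#E : ℝ)]))
    rw [div_le_iff₀ (by norm_num)]
    refine le_of_mul_le_mul_right (le_trans (le_of_eq ?_) (h3.trans (le_of_eq ?_)))
      (by positivity : 0 < (#E : ℝ) ^ 4 / 4)
    · ring
    · field_simp; ring
  · simp only [not_forall, not_le] at hK
    obtain ⟨x, hx, y, hy, z, hz, hg, h⟩ := hK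
    have h3 := pw hr (by norm_num : 36 ≤ 48)
    refine le_trans ?_ (rich_plane hF hj hE hx hy hz hg (by rw [hq]; linarith) ?_)
    · gcongr; norm_num
    · rw [hq]
      calc _ = (r ^ 48) ^ 3 := by ring
        _ ≤ _ := by gcongr; linarith [pow_pos hr0 48]

theorem main (hF : ringChar F ≠ 2) (hj : j ≠ 0) {k : ℕ} (hk : 2 ≤ k)
    {E : Finset (Fin (2 * k + 1) → F)} (hE : ∀ x ∈ E, x ⬝ᵥ x = j) {r : ℝ} (hr : 2 ≤ r)
    (hq : (Fintype.card F : ℝ) = r ^ 36) (h1 : (Fintype.card F : ℝ) ^ k * r ^ 17 ≤ #E) :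
    (Fintype.card F : ℝ) / 3300 ≤ #((E ×ˢ E).image fun p => p.1 ⬝ᵥ p.2) := by
  by_cases h2 : #E ≤ (Fintype.card F : ℝ) ^ k * r ^ 18
  · exact main_mid hF hj hk hE hr hq h1 h2
  have hq1 : (1 : ℝ) ≤ Fintype.card F := by exact_mod_cast Fintype.card_pos
  have hP1 : 1 ≤ (Fintype.card F : ℝ) ^ k := one_le_pow₀ hq1
  have hr1 : 1 ≤ r ^ 17 := one_le_pow₀ (by linarith)
  have h0 : 0 ≤ (Fintype.card F : ℝ) ^ k * r ^ 18 := by positivity
  obtain ⟨E', hs, hc⟩ := exists_subset_card_eq (s := E)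
    (n := ⌊(Fintype.card F : ℝ) ^ k * r ^ 18⌋₊) (Nat.floor_le_of_le (not_le.1 h2).le)
  refine (main_mid hF hj hk (fun x hx => hE x (hs hx)) hr hq ?_ (hc ▸ Nat.floor_le h0)).trans ?_
  · have h3 := Nat.lt_floor_add_one ((Fintype.card F : ℝ) ^ k * r ^ 18)
    have h4 : 1 ≤ (Fintype.card F : ℝ) ^ k * r ^ 17 := one_le_mul_of_one_le_of_one_le hP1 hr1
    rw [hc]
    rw [pow_succ r 17, ← mul_assoc] at h3 ⊢
    nlinarith
  · exact_mod_cast card_le_card (image_subset_image (product_subset_product hs hs))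

theorem main_all (hF : ringChar F ≠ 2) (hj : j ≠ 0) (k : ℕ)
    {E : Finset (Fin (2 * k + 1) → F)} (hE : ∀ x ∈ E, x ⬝ᵥ x = j) {r : ℝ} (hr : 2 ≤ r)
    (hq : (Fintype.card F : ℝ) = r ^ 36) (h1 : (Fintype.card F : ℝ) ^ k * r ^ 17 ≤ #E) :
    (Fintype.card F : ℝ) / 3300 ≤ #((E ×ˢ E).image fun p => p.1 ⬝ᵥ p.2) := by
  have h17 : (2 : ℝ) ^ 17 ≤ r ^ 17 := by gcongr
  obtain rfl | rfl | hk : k = 0 ∨ k = 1 ∨ 2 ≤ k := by omega
  · exfalso
    have h2 : #E ≤ 2 := by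
      refine le_trans (card_le_card_of_injOn (fun x => x 0) (fun x hx => ?_) fun x _ y _ h => ?_)
        (card_sqrt_le j)
      · simpa [dotProduct, sq] using hE x hx
      · funext i; fin_cases i; exact h
    have h3 : (#E : ℝ) ≤ 2 := by exact_mod_cast h2
    rw [pow_zero, one_mul] at h1
    linarith
  · have hd : ∀ x y : Fin (2 * 1 + 1) → F, dt x y = x ⬝ᵥ y := fun x y =>
      (Fin.sum_univ_three fun i => x i * y i).symm
    have hq0 : (0 : ℝ) ≤ Fintype.card F := by positivity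
    obtain ⟨x, hx, h⟩ := pinned (Ring.two_ne_zero hF) hj E (fun x hx => (hd x x).trans (hE x hx))
      (by rw [pow_one] at h1; nlinarith) (by
        rw [pow_one, hq] at h1
        rw [hq]
        calc _ = r ^ 144 := by ring
          _ ≤ r ^ 159 := pw hr (by norm_num)
          _ = (r ^ 36 * r ^ 17) ^ 3 := by ring
          _ ≤ _ := by gcongr)
    refine le_trans (by gcongr; norm_num) (h.trans ?_)
    norm_cast
    refine card_le_card fun t ht => ?_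
    obtain ⟨y, hy, rfl⟩ := mem_image.1 ht
    exact mem_image.2 ⟨(x, y), mem_product.2 ⟨hx, hy⟩, (hd x y).symm⟩
  · exact main hF hj hk hE hr hq h1

end Pool.Agent.Lib.MP_a460e0_co.Br
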