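import Pool.Agent.Lib.MP_a460e0_co.Geom

/-! Second moment estimates: point-plane incidences and the reflection energy. -/

namespace Pool.Agent.Lib.MP_a460e0_co

open Finset

set_option maxHeartbeats 400000

theorem sum_card_rel {α β : Type} (X : Finset α) (Y : Finset β) (R : α → β → Prop)
    [∀ a b, Decidable (R a b)] :
    ∑ x ∈ X, #{y ∈ Y | R x y} = ∑ y ∈ Y, #{x ∈ X | R x y} := by
  simp only [card_filter]; exact sum_comm

theorem sum_card_sq {α β : Type} (X : Finset α) (Y : Finset β) (R : α → β → Prop)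
    [∀ a b, Decidable (R a b)] :
    ∑ x ∈ X, #{y ∈ Y | R x y} ^ 2 = ∑ y ∈ Y, ∑ y' ∈ Y, #{x ∈ X | R x y ∧ R x y'} := by
  simp only [card_filter, sq, sum_mul_sum]
  rw [sum_comm]
  refine sum_congr rfl fun y _ => ?_
  rw [sum_comm]
  refine sum_congr rfl fun y' _ => sum_congr rfl fun x _ => ?_
  by_cases h : R x y <;> by_cases h' : R x y' <;> simp [h, h']

theorem sum_var {α : Type} (X : Finset α) (f : α → ℕ) (μ : ℝ) :
    ∑ x ∈ X, ((f x : ℝ) - μ) ^ 2 =
      ((∑ x ∈ X, f x ^ 2 : ℕ) : ℝ) - 2 * μ * ((∑ x ∈ X, f x : ℕ) : ℝ) + #X * μ ^ 2 := by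
  push_cast
  rw [mul_sum, ← nsmul_eq_mul, ← sum_const, ← sum_sub_distrib, ← sum_add_distrib]
  exact sum_congr rfl fun x _ => by ring

variable {F : Type} [Field F] [Fintype F] [DecidableEq F]

/-- Variance bound for the number of points on planes through the origin. -/
theorem var_planes {j : F} (hj : j ≠ 0) (E : Finset (V F)) (hE : ∀ x ∈ E, dt x x = j) :
    ∑ n : V F, ((#{x ∈ E | dt n x = 0} : ℝ) - #E / Fintype.card F) ^ 2 ≤
      2 * #E * (Fintype.card F : ℝ) ^ 2 := by
  set q := Fintype.card F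
  have hq : (0 : ℝ) < q := by exact_mod_cast Fintype.card_pos
  have h1 : ∑ n : V F, #{x ∈ E | dt n x = 0} = #E * q ^ 2 := by
    rw [sum_card_rel, sum_congr rfl fun x hx => card_plane (ne_zero_of_dt ((hE x hx).symm ▸ hj))]
    simp [q]
  have h2 : ∑ n : V F, #{x ∈ E | dt n x = 0} ^ 2 ≤ #E * (#E * q + 2 * q ^ 2) := by
    rw [sum_card_sq]
    refine sum_le_card_nsmul _ _ _ fun x hx => ?_
    have hx0 := ne_zero_of_dt ((hE x hx).symm ▸ hj)
    calc ∑ y ∈ E, #{n : V F | dt n x = 0 ∧ dt n y = 0}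
        ≤ ∑ y ∈ E, (q + if y ∈ ({x, -x} : Finset (V F)) then q ^ 2 else 0) := by
          refine sum_le_sum fun y hy => ?_
          split_ifs with h
          · refine le_trans (card_le_card ?_) ((card_plane hx0).le.trans (Nat.le_add_left _ _))
            intro n hn
            simp only [mem_filter, mem_univ, true_and] at hn ⊢
            exact hn.1
          · have hc : cr x y ≠ 0 := by
              intro hc
              have : cr y x = 0 := by
                have : cr y x = - cr x y := by apply vext <;> simp <;> ring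
                rw [this, hc, neg_zero]
              obtain ⟨s, rfl⟩ := par_of_cr hx0 this
              have e := hE _ hy
              rw [dt_smul_left, dt_smul_right, hE x hx] at e
              have : s ^ 2 = 1 ^ 2 := by
                apply mul_right_cancel₀ hj; linear_combination e
              rcases sq_eq_sq_iff_eq_or_eq_neg.1 this with rfl | rfl <;> simp at h
            refine le_trans (card_le_card ?_) (card_line (cr x y))
            intro n hn
            simp only [mem_filter, mem_univ, true_and] at hn ⊢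
            exact par_of_perp hc hn.1 hn.2
      _ ≤ #E * q + 2 * q ^ 2 := by
          rw [sum_add_distrib, sum_const, smul_eq_mul, ← sum_filter, sum_const, smul_eq_mul]
          gcongr
          exact (card_le_card fun y hy => (mem_filter.1 hy).2).trans card_le_two
  rw [sum_var, h1]
  have h2' : ((∑ n : V F, #{x ∈ E | dt n x = 0} ^ 2 : ℕ) : ℝ) ≤ #E * (#E * q + 2 * q ^ 2) := by
    exact_mod_cast h2
  have hc : (#(univ : Finset (V F)) : ℝ) = q ^ 3 := by simp [q]
  rw [hc]
  push_cast at h2' ⊢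
  have : -(2 * ((#E : ℝ) / q) * (#E * q ^ 2)) + q ^ 3 * (#E / q) ^ 2 = - (#E * #E * q) := by
    field_simp; ring
  linarith

def rp (n : V F) (p : V F × V F) : V F × V F := (rf n p.1, rf n p.2)

def An (F : Type) [Field F] [Fintype F] [DecidableEq F] : Finset (V F) := {n | dt n n ≠ 0}

def Xt (j t : F) : Finset (V F × V F) := {p | dt p.1 p.1 = j ∧ dt p.2 p.2 = j ∧ dt p.1 p.2 = t}

omit [Fintype F] [DecidableEq F] in
theorem rp_rp {n : V F} (hn : dt n n ≠ 0) (p : V F × V F) : rp n (rp n p) = p := by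
  simp [rp, rf_rf hn]

theorem mem_An {n : V F} : n ∈ An F ↔ dt n n ≠ 0 := by simp [An]

theorem rp_mem {j t : F} {n : V F} (hn : dt n n ≠ 0) {p : V F × V F} (hp : p ∈ Xt j t) :
    rp n p ∈ Xt j t := by
  simpa [Xt, rp, rf_dt hn] using hp

theorem card_An : (Fintype.card F : ℝ) ^ 3 - 2 * (Fintype.card F : ℝ) ^ 2 ≤ #(An F) := by
  have h := card_filter_add_card_filter_not (s := (univ : Finset (V F))) (fun n => dt n n = 0)
  have h2 := card_iso (F := F)
  have h3 : #(univ : Finset (V F)) = Fintype.card F ^ 3 := by simp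
  have : Fintype.card F ^ 3 ≤ 2 * Fintype.card F ^ 2 + #(An F) := by
    unfold An; simp only [ne_eq]; omega
  have : ((Fintype.card F ^ 3 : ℕ) : ℝ) ≤ (2 * Fintype.card F ^ 2 + #(An F) : ℕ) := by
    exact_mod_cast this
  push_cast at this
  linarith

theorem card_Xt (h2 : (2 : F) ≠ 0) {j t : F} (hj : j ≠ 0) (ht : j * j - t ^ 2 ≠ 0) :
    (#(Xt j t) : ℝ) ≤ (Fintype.card F : ℝ) ^ 3 + 14 * (Fintype.card F : ℝ) ^ 2 := by
  set q := Fintype.card F
  have hq : 1 ≤ q := Fintype.card_pos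
  have h := card_le_mul_card_image_of_maps_to (s := Xt j t) (f := Prod.fst)
    (t := univ.filter fun y : V F => dt y y = j)
    (fun p hp => by simp only [Xt, mem_filter, mem_univ, true_and] at hp ⊢; exact hp.1) (q + 2)
    (fun y hy => by
      refine le_trans ?_ (card_circle h2 ht (mem_filter.1 hy).2 hj)
      refine card_le_card_of_injOn Prod.snd ?_ ?_
      · intro p hp
        simp only [Xt, coe_filter, mem_filter, mem_univ, true_and, Set.mem_ofPred_eq] at hp ⊢
        rw [← hp.2]; exact hp.1.2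
      · intro p hp p' hp' h
        simp only [coe_filter, Set.mem_ofPred_eq] at hp hp'
        exact Prod.ext (hp.2.trans hp'.2.symm) h)
  have h' := h.trans (Nat.mul_le_mul_left _ (card_sphere h2 hj))
  have : #(Xt j t) ≤ q ^ 3 + 14 * q ^ 2 := by
    refine h'.trans ?_
    change (q + 2) * (q ^ 2 + 3 * q + 1) ≤ _
    nlinarith
  exact_mod_cast this

theorem card_pairs (h2 : (2 : F) ≠ 0) {j t : F} (ht : j * j - t ^ 2 ≠ 0) {p p' : V F × V F}
    (hp : p ∈ Xt j t) (hp' : p' ∈ Xt j t) :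
    #{a ∈ An F ×ˢ An F | rp a.1 p = rp a.2 p'} ≤
      Fintype.card F ^ 3 + if p' = p then Fintype.card F ^ 4 else 0 := by
  set q := Fintype.card F
  simp only [Xt, mem_filter, mem_univ, true_and] at hp hp'
  have hG : dt p.1 p.1 * dt p.2 p.2 - dt p.1 p.2 ^ 2 ≠ 0 := by rw [hp.1, hp.2.1, hp.2.2]; exact ht
  have hG' : dt p'.1 p'.1 * dt p'.2 p'.2 - dt p'.1 p'.2 ^ 2 ≠ 0 := by
    rw [hp'.1, hp'.2.1, hp'.2.2]; exact ht
  have hfib : ∀ n : V F, #{a ∈ {a ∈ An F ×ˢ An F | rp a.1 p = rp a.2 p'} | a.1 = n} ≤ q := by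
    intro n
    rcases ({a ∈ {a ∈ An F ×ˢ An F | rp a.1 p = rp a.2 p'} | a.1 = n}).eq_empty_or_nonempty with
      h | ⟨a0, h0⟩
    · rw [h]; simp
    refine le_trans ?_ (card_line a0.2)
    simp only [mem_filter, mem_product, mem_An] at h0
    refine card_le_card_of_injOn Prod.snd ?_ ?_
    · intro a ha
      simp only [coe_filter, mem_filter, mem_product, mem_An, mem_univ, true_and,
        Set.mem_ofPred_eq] at ha ⊢
      have e : rp a0.2 p' = rp a.2 p' := by rw [← h0.1.2, ← ha.1.2, h0.2, ha.2]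
      exact par_of_rf_eq h2 h0.1.1.2 ha.1.1.2 hG' (congrArg Prod.fst e) (congrArg Prod.snd e)
    · intro a ha a' ha' h
      simp only [coe_filter, Set.mem_ofPred_eq] at ha ha'
      exact Prod.ext (ha.2.trans ha'.2.symm) h
  split_ifs with h
  · have := card_le_mul_card_image_of_maps_to (s := {a ∈ An F ×ˢ An F | rp a.1 p = rp a.2 p'})
      (f := Prod.fst) (t := univ) (fun _ _ => mem_univ _) q (fun n _ => hfib n)
    have h3 : #(univ : Finset (V F)) = q ^ 3 := by simp [q]
    rw [h3] at this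
    refine this.trans ?_
    nlinarith [Nat.zero_le (q ^ 3)]
  · rcases ({a ∈ An F ×ˢ An F | rp a.1 p = rp a.2 p'}).eq_empty_or_nonempty with
      h' | ⟨a0, h0⟩
    · rw [h']; simp
    have hcr : ∀ a ∈ {a ∈ An F ×ˢ An F | rp a.1 p = rp a.2 p'}, cr a.1 a.2 ≠ 0 := by
      intro a ha hc
      simp only [mem_filter, mem_product, mem_An] at ha
      obtain ⟨s, hs⟩ := par_of_cr (ne_zero_of_dt ha.1.2) hc
      have hs0 : s ≠ 0 := by rintro rfl; exact ne_zero_of_dt ha.1.1 (by simpa using hs)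
      apply h
      have e : rp a.1 p = rp a.2 p := by simp only [rp, hs, rf_smul hs0]
      rw [← rp_rp ha.1.2 p', ← ha.2, e, rp_rp ha.1.2]
    have := card_le_mul_card_image_of_maps_to (s := {a ∈ An F ×ˢ An F | rp a.1 p = rp a.2 p'})
      (f := Prod.fst) (t := univ.filter fun n => dt n (cr a0.1 a0.2) = 0) (fun a ha => by
        have hc := hcr a ha
        simp only [mem_filter, mem_product, mem_An, mem_univ, true_and] at ha h0 ⊢
        exact perp_axis h2 ha.1.1 ha.1.2 h0.1.1 h0.1.2 hG hc (congrArg Prod.fst ha.2)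
          (congrArg Prod.snd ha.2) (congrArg Prod.fst h0.2) (congrArg Prod.snd h0.2))
      q (fun n _ => hfib n)
    rw [card_plane (hcr a0 h0)] at this
    refine this.trans (le_of_eq ?_)
    ring

/-- The reflection energy on one orbit of pairs. -/
theorem energy_orbit (h2 : (2 : F) ≠ 0) {j t : F} (hj : j ≠ 0) (ht : j * j - t ^ 2 ≠ 0)
    (P : Finset (V F × V F)) (hP : P ⊆ Xt j t) :
    ((∑ p ∈ P, #{n ∈ An F | rp n p ∈ P} : ℕ) : ℝ) ≤
      19 * (#P : ℝ) ^ 2 + (Fintype.card F : ℝ) ^ 2 * #P := by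
  set q := Fintype.card F
  have h1 : ∑ p ∈ Xt j t, #{n ∈ An F | rp n p ∈ P} = #(An F) * #P := by
    rw [sum_card_rel, ← smul_eq_mul, ← sum_const]
    refine sum_congr rfl fun n hn => ?_
    have hn := mem_An.1 hn
    refine card_nbij' (rp n) (rp n) ?_ ?_ ?_ ?_
    · intro p hp; exact (mem_filter.1 hp).2
    · intro p hp
      exact mem_filter.2 ⟨rp_mem hn (hP hp), by rw [rp_rp hn]; exact hp⟩
    · intro p _; exact rp_rp hn p
    · intro p _; exact rp_rp hn p
  have h2' : ∑ p ∈ Xt j t, #{n ∈ An F | rp n p ∈ P} ^ 2 ≤ #P * (#P * q ^ 3 + q ^ 4) := by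
    rw [sum_card_sq, ← sum_product']
    calc ∑ a ∈ An F ×ˢ An F, #{p ∈ Xt j t | rp a.1 p ∈ P ∧ rp a.2 p ∈ P}
        ≤ ∑ a ∈ An F ×ˢ An F, #{b ∈ P ×ˢ P | rp a.1 b.1 = rp a.2 b.2} := by
          refine sum_le_sum fun a ha => ?_
          simp only [mem_product, mem_An] at ha
          refine card_le_card_of_injOn (fun p => (rp a.1 p, rp a.2 p)) ?_ ?_
          · intro p hp
            simp only [coe_filter, mem_product, Set.mem_ofPred_eq] at hp ⊢
            exact ⟨hp.2, by rw [rp_rp ha.1, rp_rp ha.2]⟩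
          · intro p _ p' _ h
            rw [← rp_rp ha.1 p, ← rp_rp ha.1 p']
            exact congrArg _ (congrArg Prod.fst h)
      _ = ∑ b ∈ P ×ˢ P, #{a ∈ An F ×ˢ An F | rp a.1 b.1 = rp a.2 b.2} :=
          sum_card_rel (An F ×ˢ An F) (P ×ˢ P)
            (fun (a : V F × V F) (b : (V F × V F) × (V F × V F)) => rp a.1 b.1 = rp a.2 b.2)
      _ ≤ ∑ p ∈ P, ∑ p' ∈ P, (q ^ 3 + if p' = p then q ^ 4 else 0) := by
          rw [sum_product]
          exact sum_le_sum fun p hp => sum_le_sum fun p' hp' => card_pairs h2 ht (hP hp) (hP hp')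
      _ ≤ #P * (#P * q ^ 3 + q ^ 4) := by
          refine sum_le_card_nsmul _ _ _ fun p hp => ?_
          rw [sum_add_distrib, sum_const, smul_eq_mul, sum_ite_eq', if_pos hp]
  have hv := sum_var (Xt j t) (fun p => #{n ∈ An F | rp n p ∈ P}) #P
  rw [h1] at hv
  have h2'' : ((∑ p ∈ Xt j t, #{n ∈ An F | rp n p ∈ P} ^ 2 : ℕ) : ℝ) ≤
      #P * (#P * q ^ 3 + q ^ 4) := by exact_mod_cast h2'
  have hA := card_An (F := F)
  have hX := card_Xt h2 hj ht
  set N : ℝ := (#P : ℝ)
  have hN : 0 ≤ N := Nat.cast_nonneg _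
  have hvar : ∑ p ∈ P, ((#{n ∈ An F | rp n p ∈ P} : ℝ) - N) ^ 2 ≤
      q ^ 4 * N + 18 * q ^ 2 * N ^ 2 := by
    refine (sum_le_sum_of_subset_of_nonneg hP fun _ _ _ => sq_nonneg _).trans ?_
    rw [hv]
    push_cast at h2'' ⊢
    nlinarith [mul_le_mul_of_nonneg_right hA (sq_nonneg N),
      mul_le_mul_of_nonneg_right hX (sq_nonneg N)]
  have hcs := sq_sum_le_card_mul_sum_sq (s := P)
    (f := fun p => (#{n ∈ An F | rp n p ∈ P} : ℝ) - N)
  have hY : (∑ p ∈ P, ((#{n ∈ An F | rp n p ∈ P} : ℝ) - N)) ≤ q ^ 2 * N + 18 * N ^ 2 := by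
    refine le_of_sq_le_sq ?_ (by positivity)
    refine hcs.trans ((mul_le_mul_of_nonneg_left hvar hN).trans ?_)
    nlinarith [mul_nonneg (sq_nonneg (q : ℝ)) (pow_nonneg hN 3), pow_nonneg hN 4]
  rw [sum_sub_distrib, sum_const, nsmul_eq_mul] at hY
  push_cast
  nlinarith

end Pool.Agent.Lib.MP_a460e0_co
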