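import Pool.Agent.Lib.MP_a460e0_co.GkEndB

/-! Endgame, part C: incidences between the zeros of a form of small degree and lines. -/

namespace Pool.Agent.Lib.MP_a460e0_co.GkEnd

open MvPolynomial Finset

open scoped Classical

variable {K : Type} [Field K] {ι : Type}

/-- number of incidences with the affine parts of the lines -/
noncomputable def inc (A B : ι → Fin 4 → K) (Q : Finset (Fin 4 → K)) (M : Finset ι) : ℕ :=
  ∑ l ∈ M, (Q.filter fun x => On (A l) (B l) x).card

theorem inc_comm (A B : ι → Fin 4 → K) (Q : Finset (Fin 4 → K)) (M : Finset ι) :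
    inc A B Q M = ∑ x ∈ Q, (M.filter fun l => On (A l) (B l) x).card := by
  simp only [inc, Finset.card_filter]
  exact Finset.sum_comm

theorem inc_split_left (A B : ι → Fin 4 → K) (Q : Finset (Fin 4 → K)) (M : Finset ι)
    (c : (Fin 4 → K) → Prop) [DecidablePred c] :
    inc A B Q M = inc A B (Q.filter c) M + inc A B (Q.filter fun x => ¬ c x) M := by
  simp only [inc_comm]
  exact (Finset.sum_filter_add_sum_filter_not _ _ _).symm

theorem inc_split_right (A B : ι → Fin 4 → K) (Q : Finset (Fin 4 → K)) (M : Finset ι)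
    (c : ι → Prop) [DecidablePred c] :
    inc A B Q M = inc A B Q (M.filter c) + inc A B Q (M.filter fun l => ¬ c l) :=
  (Finset.sum_filter_add_sum_filter_not _ _ _).symm

theorem inc_le_right {A B : ι → Fin 4 → K} {Q : Finset (Fin 4 → K)} {M : Finset ι} {n : ℕ}
    (h : ∀ l ∈ M, (Q.filter fun x => On (A l) (B l) x).card ≤ n) : inc A B Q M ≤ n * M.card := by
  rw [mul_comm]
  exact Finset.sum_le_card_nsmul _ _ _ h

theorem inc_le_left {A B : ι → Fin 4 → K} {Q : Finset (Fin 4 → K)} {M : Finset ι} {n : ℕ}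
    (h : ∀ x ∈ Q, (M.filter fun l => On (A l) (B l) x).card ≤ n) : inc A B Q M ≤ n * Q.card := by
  rw [mul_comm, inc_comm]
  exact Finset.sum_le_card_nsmul _ _ _ h

theorem card_le_natDegree {Q : Finset (Fin 4 → K)}
    (hQ : ∀ x ∈ Q, ∀ y ∈ Q, ∀ c : K, x = c • y → x = y) {A B : Fin 4 → K} {f : Polynomial K}
    (hf : f ≠ 0) (h : ∀ x ∈ Q, ∃ s t : K, s ≠ 0 ∧ x = s • (A + t • B) ∧ f.eval t = 0) :
    Q.card ≤ f.natDegree := by
  choose! s t hs hx hr using h
  calc Q.card ≤ f.roots.toFinset.card := by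
        refine Finset.card_le_card_of_injOn t (fun x hxQ => ?_) (fun x hxQ y hyQ e => ?_)
        · simp only [Finset.mem_coe, Multiset.mem_toFinset, Polynomial.mem_roots hf]
          exact hr x hxQ
        · refine hQ x hxQ y hyQ (s x / s y) ?_
          have e1 := hx x hxQ
          have e2 := hx y hyQ
          rw [← e] at e2
          calc x = s x • (A + t x • B) := e1
            _ = (s x / s y) • (s y • (A + t x • B)) := by
              rw [smul_smul, div_mul_cancel₀ _ (hs y hyQ)]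
            _ = (s x / s y) • y := by rw [← e2]
    _ ≤ _ := (Multiset.toFinset_card_le _).trans (Polynomial.card_roots' f)

theorem card_zero_le {Q : Finset (Fin 4 → K)}
    (hQ : ∀ x ∈ Q, ∀ y ∈ Q, ∀ c : K, x = c • y → x = y) {A B : Fin 4 → K}
    {G : MvPolynomial (Fin 4) K} {d : ℕ} (hG : G.IsHomogeneous d) (hr : res A B G ≠ 0)
    (hv : ∀ x ∈ Q, eval x G = 0) : (Q.filter fun x => On A B x).card ≤ d := by
  refine (card_le_natDegree (fun x hx y hy => hQ x (mem_filter.1 hx).1 y (mem_filter.1 hy).1) hr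
    (A := A) (B := B) fun x hx => ?_).trans (res_natDegree_le A B hG)
  obtain ⟨hxQ, s, t, hs, e⟩ := mem_filter.1 hx
  refine ⟨s, t, hs, e, ?_⟩
  have := hv x hxQ
  rw [e, eval_smul_hom hG] at this
  rw [res_eval]
  exact (mul_eq_zero.1 this).resolve_left (pow_ne_zero _ hs)

/-- the standing assumptions on points and lines -/
structure Good (A B : ι → Fin 4 → K) (B0 : ℕ) (P : Finset (Fin 4 → K)) (L : Finset ι) : Prop where
  pt : ∀ x ∈ P, ∀ y ∈ P, ∀ c : K, x = c • y → x = y
  ind : ∀ l ∈ L, ∀ s t : K, s • A l + t • B l = 0 → s = 0 ∧ t = 0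
  ln : ∀ l ∈ L, ∀ l' ∈ L, Sub (A l) (B l) (A l') (B l') → l = l'
  pl : ∀ ν : Fin 4 → K, ν ≠ 0 →
    (L.filter fun l => ∑ i, A l i * ν i = 0 ∧ ∑ i, B l i * ν i = 0).card ≤ B0

theorem Good.mono {A B : ι → Fin 4 → K} {B0 : ℕ} {P P' : Finset (Fin 4 → K)} {L L' : Finset ι}
    (h : Good A B B0 P L) (hP : P' ⊆ P) (hL : L' ⊆ L) : Good A B B0 P' L' :=
  ⟨fun x hx y hy => h.pt x (hP hx) y (hP hy), fun l hl => h.ind l (hL hl),
    fun l hl l' hl' => h.ln l (hL hl) l' (hL hl'),
    fun ν hν => (card_le_card (filter_subset_filter _ hL)).trans (h.pl ν hν)⟩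

variable {A B : ι → Fin 4 → K} {B0 : ℕ} {P : Finset (Fin 4 → K)} {L : Finset ι}
  {F : MvPolynomial (Fin 4) K} {d : ℕ}

theorem nonflat_lines (h2 : (2 : K) ≠ 0) (g : Good A B B0 P L) (hF : F.IsHomogeneous d)
    (hns : ∀ x ∈ P, ∃ i, eval x (pderiv i F) ≠ 0) (hr : ∀ l ∈ L, res (A l) (B l) F = 0)
    (hm : ∀ l ∈ L, ¬ ∀ i j, minor F (A l) (B l) i j = 0) :
    inc A B P L ≤ 2 * (d - 1) * L.card + 2 * P.card := by
  rw [inc_split_left A B P L (Flat F)]
  refine add_le_add (inc_le_right fun l hl => ?_) ((inc_le_left (n := 2) fun x hx => ?_).trans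
    (Nat.mul_le_mul_left _ (card_filter_le _ _)))
  · obtain ⟨i, j, hij⟩ : ∃ i j, minor F (A l) (B l) i j ≠ 0 := by
      simpa using hm l hl
    refine (card_le_natDegree (fun x hx y hy => g.pt x (mem_filter.1 (mem_filter.1 hx).1).1 y
      (mem_filter.1 (mem_filter.1 hy).1).1) hij (A := A l) (B := B l) fun x hx => ?_).trans
      (minor_natDegree_le hF _ _ i j)
    obtain ⟨hxQ, s, t, hs, e⟩ := mem_filter.1 hx
    exact ⟨s, t, hs, e, minor_eval hF hs (e ▸ (mem_filter.1 hxQ).2) (hr l hl) i j⟩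
  · by_contra hc
    obtain ⟨l1, l2, l3, m1, m2, m3, n12, n13, n23⟩ := Finset.two_lt_card_iff.1 (not_le.1 hc)
    obtain ⟨m1, o1⟩ := mem_filter.1 m1
    obtain ⟨m2, o2⟩ := mem_filter.1 m2
    obtain ⟨m3, o3⟩ := mem_filter.1 m3
    exact (mem_filter.1 hx).2 (flat_of_three h2 hF (hns x (mem_filter.1 hx).1) o1 o2 o3 (hr _ m1)
      (hr _ m2) (hr _ m3) (g.ind _ m1) (fun s => n12 (g.ln _ m1 _ m2 s))
      (fun s => n13 (g.ln _ m1 _ m3 s)) (fun s => n23 (g.ln _ m2 _ m3 s)))

theorem flat_lines {p : ℕ} [CharP K p] (g : Good A B B0 P L) (hF : F.IsHomogeneous d)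
    (hd : d - 1 < p) (hns : ∀ x ∈ P, ∃ i, eval x (pderiv i F) ≠ 0)
    (hr : ∀ l ∈ L, res (A l) (B l) F = 0) (hm : ∀ l ∈ L, ∀ i j, minor F (A l) (B l) i j = 0)
    (lam : ℕ) : lam * inc A B P L ≤ B0 * L.card + (lam + 1) * lam * P.card := by
  set r : (Fin 4 → K) → ℕ := fun x => (L.filter fun l => On (A l) (B l) x).card with hrdef
  have h1 : ∀ l ∈ L, ∑ x ∈ P.filter (fun x => On (A l) (B l) x), (r x - 1) ≤ B0 := by
    intro l hl
    rcases (P.filter fun x => On (A l) (B l) x).eq_empty_or_nonempty with h0 | ⟨x0, hx0⟩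
    · rw [h0]; simp
    obtain ⟨hx0P, ox0⟩ := mem_filter.1 hx0
    have hν : (fun i => eval x0 (pderiv i F)) ≠ 0 := by
      obtain ⟨i, hi⟩ := hns x0 hx0P
      exact fun h => hi (congrFun h i)
    refine le_trans ?_ (g.pl _ hν)
    have e : ∀ x ∈ P.filter (fun x => On (A l) (B l) x),
        r x - 1 = ((L.filter fun l' => On (A l') (B l') x).erase l).card := fun x hx => by
      rw [card_erase_of_mem (mem_filter.2 ⟨hl, (mem_filter.1 hx).2⟩)]
    rw [Finset.sum_congr rfl e, ← Finset.card_biUnion]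
    · refine card_le_card fun l' hl' => ?_
      obtain ⟨x, hx, hl'⟩ := mem_biUnion.1 hl'
      obtain ⟨hxP, ox⟩ := mem_filter.1 hx
      obtain ⟨hl'L, ox'⟩ := mem_filter.1 (mem_of_mem_erase hl')
      exact mem_filter.2 ⟨hl'L,
        flat_line hF hd (hm l hl) ox ox0 (hns x hxP) (ox'.gr_base hF (hr _ hl'L)),
        flat_line hF hd (hm l hl) ox ox0 (hns x hxP) (ox'.gr_dir hF (hr _ hl'L))⟩
    · intro x hx y hy hxy
      refine Finset.disjoint_left.2 fun l' h1 h2 => ?_
      obtain ⟨hxP, ox⟩ := mem_filter.1 (mem_coe.1 hx)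
      obtain ⟨hyP, oy⟩ := mem_filter.1 (mem_coe.1 hy)
      obtain ⟨hne, h1⟩ := mem_erase.1 h1
      obtain ⟨hl'L, ox'⟩ := mem_filter.1 h1
      obtain ⟨-, oy'⟩ := mem_filter.1 (mem_of_mem_erase h2)
      exact hne (g.ln l hl l' hl'L
        (sub_of_two ox ox' oy oy' fun c e => hxy (g.pt x hxP y hyP c e))).symm
  have h2 : ∑ x ∈ P, r x * (r x - 1) ≤ B0 * L.card := by
    calc ∑ x ∈ P, r x * (r x - 1)
        = ∑ x ∈ P, ∑ l ∈ L, if On (A l) (B l) x then r x - 1 else 0 := by
          refine Finset.sum_congr rfl fun x _ => ?_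
          rw [← Finset.sum_filter, Finset.sum_const, smul_eq_mul]
      _ = ∑ l ∈ L, ∑ x ∈ P.filter (fun x => On (A l) (B l) x), (r x - 1) := by
          rw [Finset.sum_comm]
          exact Finset.sum_congr rfl fun l _ => (Finset.sum_filter _ _).symm
      _ ≤ _ := by
          rw [mul_comm]; exact Finset.sum_le_card_nsmul _ _ _ h1
  have h3 : ∀ n : ℕ, lam * n ≤ n * (n - 1) + (lam + 1) * lam := by
    intro n
    rcases le_or_gt n (lam + 1) with h | h
    · nlinarith [Nat.mul_le_mul_left lam h, Nat.zero_le (n * (n - 1))]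
    · have : lam ≤ n - 1 := by omega
      nlinarith [Nat.mul_le_mul_left n this, Nat.zero_le ((lam + 1) * lam)]
  calc lam * inc A B P L = ∑ x ∈ P, lam * r x := by rw [inc_comm, Finset.mul_sum]
    _ ≤ ∑ x ∈ P, (r x * (r x - 1) + (lam + 1) * lam) := Finset.sum_le_sum fun x _ => h3 _
    _ = ∑ x ∈ P, r x * (r x - 1) + (lam + 1) * lam * P.card := by
        rw [Finset.sum_add_distrib, Finset.sum_const, smul_eq_mul, mul_comm P.card]
    _ ≤ _ := Nat.add_le_add_right h2 _

theorem inc_bound {p : ℕ} [CharP K p] (hp : 2 < p) (lam : ℕ) (d : ℕ) :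
    ∀ (P : Finset (Fin 4 → K)) (L : Finset ι) (F : MvPolynomial (Fin 4) K), Good A B B0 P L →
      F ≠ 0 → F.IsHomogeneous d → d < p → (∀ x ∈ P, eval x F = 0) →
      lam * inc A B P L ≤ (3 * d * lam + B0) * L.card + (3 + lam) * lam * P.card := by
  have h2 : (2 : K) ≠ 0 := fun h =>
    absurd (Nat.le_of_dvd two_pos ((CharP.cast_eq_zero_iff K p 2).1 (by exact_mod_cast h)))
      (not_le.2 hp)
  induction d with
  | zero =>
    intro P L F _ hF0 hF _ hv
    rw [← totalDegree_zero_iff_isHomogeneous, totalDegree_eq_zero_iff_eq_C] at hF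
    have : P = ∅ := by
      refine Finset.eq_empty_of_forall_notMem fun x hx => hF0 ?_
      have := hv x hx
      rw [hF, eval_C] at this
      rw [hF, this, C_0]
    simp [this, inc]
  | succ d ih =>
    intro P L F g hF0 hF hd hv
    have hD : ∀ i, (pderiv i F).IsHomogeneous d := fun i => hF.pderiv
    set sg : (Fin 4 → K) → Prop := fun x => ∀ i, eval x (pderiv i F) = 0 with hsg
    set c1 : ι → Prop := fun l => ∀ i, res (A l) (B l) (pderiv i F) = 0 with hc1
    set c2 : ι → Prop := fun l => res (A l) (B l) F = 0 with hc2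
    set c3 : ι → Prop := fun l => ∀ i j, minor F (A l) (B l) i j = 0 with hc3
    set Ps := P.filter sg with hPs
    set Pn := P.filter fun x => ¬ sg x with hPn
    set L1 := L.filter c1 with hL1
    set L2 := L.filter fun l => ¬ c1 l with hL2
    set La := L2.filter fun l => ¬ c2 l with hLa
    set Lz := L2.filter c2 with hLz
    set Lb := Lz.filter fun l => ¬ c3 l with hLb
    set Lc := Lz.filter c3 with hLc
    have cP : Ps.card + Pn.card = P.card := card_filter_add_card_filter_not _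
    have cL : L1.card + L2.card = L.card := card_filter_add_card_filter_not _
    have cL2 : Lz.card + La.card = L2.card := card_filter_add_card_filter_not _
    have cLz : Lc.card + Lb.card = Lz.card := card_filter_add_card_filter_not _
    have sPs : Ps ⊆ P := filter_subset _ _
    have sPn : Pn ⊆ P := filter_subset _ _
    have sL1 : L1 ⊆ L := filter_subset _ _
    have sL2 : L2 ⊆ L := filter_subset _ _
    have sLz : Lz ⊆ L := (filter_subset _ _).trans sL2
    have hns : ∀ x ∈ Pn, ∃ i, eval x (pderiv i F) ≠ 0 := fun x hx =>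
      not_forall.1 (mem_filter.1 hx).2
    have split : inc A B P L = inc A B Ps L1 + inc A B Ps L2 + (inc A B Pn L1 +
        (inc A B Pn Lc + inc A B Pn Lb + inc A B Pn La)) := by
      rw [inc_split_left A B P L sg, inc_split_right A B Ps L c1, inc_split_right A B Pn L c1,
        inc_split_right A B Pn L2 c2, inc_split_right A B Pn Lz c3]
    obtain ⟨i0, hi0⟩ := exists_pderiv_ne_zero hF hF0 (Nat.succ_pos d) hd
    have b1 := ih Ps L1 _ (g.mono sPs sL1) hi0 (hD i0) (by omega)
      fun x hx => (mem_filter.1 hx).2 i0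
    have b2 : inc A B Ps L2 ≤ d * L2.card := inc_le_right fun l hl => by
      obtain ⟨i, hi⟩ := not_forall.1 (mem_filter.1 hl).2
      exact card_zero_le (g.mono sPs sL2).pt (hD i) hi fun x hx => (mem_filter.1 hx).2 i
    have b3 : inc A B Pn L1 ≤ 0 * L1.card := inc_le_right fun l hl => by
      rw [Nat.le_zero, card_eq_zero]
      refine Finset.eq_empty_of_forall_notMem fun x hx => ?_
      obtain ⟨hx, o⟩ := mem_filter.1 hx
      exact (mem_filter.1 hx).2 fun i => o.eval_zero (hD i) ((mem_filter.1 hl).2 i)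
    have b4 := flat_lines (g.mono sPn ((filter_subset c3 _).trans sLz)) hF (by omega) hns
      (fun l hl => (mem_filter.1 (mem_filter.1 hl).1).2) (fun l hl => (mem_filter.1 hl).2) lam
    have b5 := nonflat_lines h2 (g.mono sPn ((filter_subset (fun l => ¬ c3 l) _).trans sLz)) hF hns
      (fun l hl => (mem_filter.1 (mem_filter.1 hl).1).2) (fun l hl => (mem_filter.1 hl).2)
    have b6 : inc A B Pn La ≤ (d + 1) * La.card := inc_le_right fun l hl =>
      card_zero_le (g.mono sPn sL2).pt hF (mem_filter.1 hl).2 fun x hx => hv x (sPn hx)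
    rw [← hLc] at b4
    rw [← hLb, Nat.add_sub_cancel] at b5
    rw [split, ← cP, ← cL, ← cL2, ← cLz]
    rw [← cL2, ← cLz] at b2
    have b2' := Nat.mul_le_mul_left lam b2
    have b3' := Nat.mul_le_mul_left lam b3
    have b5' := Nat.mul_le_mul_left lam b5
    have b6' := Nat.mul_le_mul_left lam b6
    generalize inc A B Ps L1 = u1 at *
    generalize inc A B Ps L2 = u2 at *
    generalize inc A B Pn L1 = u3 at *
    generalize inc A B Pn Lc = u4 at *
    generalize inc A B Pn Lb = u5 at *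
    generalize inc A B Pn La = u6 at *
    generalize L1.card = n1 at *
    generalize Lc.card = n2 at *
    generalize Lb.card = n3 at *
    generalize La.card = n4 at *
    generalize Ps.card = m1 at *
    generalize Pn.card = m2 at *
    nlinarith [Nat.zero_le (lam * n1), Nat.zero_le (lam * n2), Nat.zero_le (lam * d * n2),
      Nat.zero_le (lam * n3), Nat.zero_le (B0 * n3), Nat.zero_le (lam * n4),
      Nat.zero_le (lam * d * n4), Nat.zero_le (B0 * n4)]

/-- T13: incidences between the zeros of a form of degree below `p` and lines, few of which lie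
in a plane -/
theorem endgame {p : ℕ} [CharP K p] (hp : 2 < p) (P : Finset (Fin 4 → K)) (L : Finset ι)
    (A B : ι → Fin 4 → K) (B0 : ℕ)
    (hP : ∀ x ∈ P, ∀ y ∈ P, ∀ c : K, x = c • y → x = y)
    (hind : ∀ l ∈ L, ∀ s t : K, s • A l + t • B l = 0 → s = 0 ∧ t = 0)
    (hL : ∀ l ∈ L, ∀ l' ∈ L, (∃ s t : K, A l' = s • A l + t • B l) →
      (∃ s t : K, B l' = s • A l + t • B l) → l = l')
    (hB : ∀ ν : Fin 4 → K, ν ≠ 0 →
      (L.filter fun l => ∑ i, A l i * ν i = 0 ∧ ∑ i, B l i * ν i = 0).card ≤ B0)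
    (F : MvPolynomial (Fin 4) K) (hF0 : F ≠ 0) (d a : ℕ) (hF : F.IsHomogeneous d) (hda : d ≤ a)
    (ha : a < p) (hv : ∀ x ∈ P, eval x F = 0) (lam : ℕ) :
    lam * ∑ l ∈ L, (P.filter fun x => ∃ s t : K, x = s • A l + t • B l).card ≤
      (4 * a * lam + lam + B0) * L.card + (3 + lam) * lam * P.card := by
  have g : Good A B B0 P L := ⟨hP, hind, fun l hl l' hl' s => hL l hl l' hl' s.1 s.2, hB⟩
  have b := inc_bound hp lam d P L F g hF0 hF (by omega) hv
  have c : ∑ l ∈ L, (P.filter fun x => ∃ s t : K, x = s • A l + t • B l).card ≤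
      inc A B P L + L.card := by
    rw [inc, card_eq_sum_ones L, ← Finset.sum_add_distrib]
    refine Finset.sum_le_sum fun l _ => ?_
    have h1 : (P.filter fun x => ∃ t : K, x = t • B l).card ≤ 1 := by
      refine Finset.card_le_one.2 fun x hx y hy => ?_
      obtain ⟨hx, t, e⟩ := mem_filter.1 hx
      obtain ⟨hy, t', e'⟩ := mem_filter.1 hy
      by_cases ht : t' = 0
      · exact (hP y hy x hx 0 (by rw [e', ht, zero_smul, zero_smul])).symm
      · exact hP x hx y hy (t / t') (by rw [e, e', smul_smul, div_mul_cancel₀ _ ht])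
    refine le_trans (card_le_card fun x hx => ?_)
      ((card_union_le _ _).trans (Nat.add_le_add_left h1 _))
    obtain ⟨hx, s, t, e⟩ := mem_filter.1 hx
    by_cases hs : s = 0
    · exact mem_union_right _ (mem_filter.2 ⟨hx, t, by rw [e, hs, zero_smul, zero_add]⟩)
    · refine mem_union_left _ (mem_filter.2 ⟨hx, s, t / s, hs, ?_⟩)
      rw [e, smul_add, smul_smul, mul_div_cancel₀ _ hs]
  have c' := Nat.mul_le_mul_left lam c
  have e : 3 * d * lam * L.card ≤ 4 * a * lam * L.card := by gcongr; omega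
  nlinarith

end Pool.Agent.Lib.MP_a460e0_co.GkEnd
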