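import Pool.Agent.Lib.MP_a460e0_co.StA

/-! The number of rich lines in a plane of positive characteristic. -/

namespace Pool.Agent.Lib.MP_a460e0_co.St

open Polynomial Finset

theorem exists_prime_pos {R : Type*} [CommRing R] [IsDomain R] [UniqueFactorizationMonoid R]
    (f : R[X]) : 0 < f.natDegree → ∃ H, Prime H ∧ H ∣ f ∧ 0 < H.natDegree := by
  refine UniqueFactorizationMonoid.induction_on_prime f (by simp) (fun x hx h => ?_)
    fun a q ha hq ih h => ?_
  · rw [natDegree_eq_zero_of_isUnit hx] at h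
    exact absurd h (lt_irrefl _)
  · rw [natDegree_mul hq.ne_zero ha] at h
    by_cases h0 : 0 < q.natDegree
    · exact ⟨q, hq, dvd_mul_right _ _, h0⟩
    · obtain ⟨H, h1, h2, h3⟩ := ih (by omega)
      exact ⟨H, h1, h2.mul_left _, h3⟩

theorem exists_sq {R : Type*} [CommRing R] [IsDomain R] [UniqueFactorizationMonoid R] (p : ℕ)
    [CharP R p] {G A B : R[X]} (hG : G ≠ 0) (hp : G.natDegree < p) (hB : B ≠ 0)
    (hlt : B.degree < G.degree) (h : A * G + B * derivative G = 0) :
    ∃ H r : R[X], 0 < H.natDegree ∧ G = H * (H * r) := by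
  obtain ⟨a', b', c, hrel, e1, e2⟩ := UniqueFactorizationMonoid.exists_reduced_factors G hG B
  have hc : c ≠ 0 := fun h0 => hG (by rw [← e1, h0, zero_mul])
  have ha : a' ≠ 0 := fun h0 => hG (by rw [← e1, h0, mul_zero])
  have hb : b' ≠ 0 := fun h0 => hB (by rw [← e2, h0, mul_zero])
  have hpos : 0 < a'.natDegree := by
    have := natDegree_lt_natDegree hB hlt
    rw [← e1, ← e2, natDegree_mul hc ha, natDegree_mul hc hb] at this
    omega
  have hd : a' ∣ derivative G := by
    refine hrel.dvd_of_dvd_mul_left ⟨-A, mul_left_cancel₀ hc ?_⟩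
    rw [← mul_assoc, ← mul_assoc, e1, e2]
    linear_combination h
  obtain ⟨H, hH, h1, h2⟩ := exists_prime_pos a' hpos
  obtain ⟨q, hq⟩ : H ∣ G := h1.trans (Dvd.intro_left c e1)
  have h3 : H ∣ derivative H * q := by
    have h4 := h1.trans hd
    rw [hq, derivative_mul] at h4
    exact (dvd_add_left (dvd_mul_right _ _)).1 h4
  rcases hH.dvd_or_dvd h3 with h5 | ⟨r, hr⟩
  · exfalso
    have hle : H.natDegree ≤ G.natDegree := natDegree_le_of_dvd ⟨q, hq⟩ hG
    have hne : derivative H ≠ 0 := fun h0 => by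
      have h6 := congrArg (fun f => coeff f (H.natDegree - 1)) h0
      simp only [coeff_derivative, coeff_zero, mul_eq_zero] at h6
      rw [← Nat.cast_succ, Nat.succ_eq_add_one, Nat.sub_add_cancel h2] at h6
      rcases h6 with h6 | h6
      · exact hH.ne_zero (leadingCoeff_eq_zero.1 h6)
      · exact absurd (Nat.le_of_dvd h2 ((CharP.cast_eq_zero_iff R p _).1 h6)) (by omega)
    have := natDegree_le_of_dvd h5 hne
    have := natDegree_derivative_lt h2.ne'
    omega
  · exact ⟨H, r, h2, by rw [hq, hr]⟩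

variable {K : Type*} [Field K]

theorem aeval_three {A : Type*} [CommSemiring A] [Algebra K A] (f : Fin 3 → A)
    (F : MvPolynomial (Fin 3) K) : MvPolynomial.aeval f F =
      ∑ m ∈ F.support, F.coeff m • (f 0 ^ m 0 * f 1 ^ m 1 * f 2 ^ m 2) := by
  rw [MvPolynomial.aeval_def, MvPolynomial.eval₂_eq']
  exact sum_congr rfl fun m _ => by rw [Fin.prod_univ_three, Algebra.smul_def]

/-- Coordinates along the lifted lines. -/
noncomputable def lam : MvPolynomial (Fin 3) K →ₐ[K] K[X][X][X] :=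
  MvPolynomial.aeval (![X, C X - C (C X) * X, C (C X)] : Fin 3 → K[X][X][X])

/-- The inverse of `lam`. -/
noncomputable def gam : K[X][X][X] →+* MvPolynomial (Fin 3) K :=
  eval₂RingHom (eval₂RingHom (eval₂RingHom MvPolynomial.C (MvPolynomial.X 2))
    (MvPolynomial.X 1 + MvPolynomial.X 2 * MvPolynomial.X 0)) (MvPolynomial.X 0)

theorem gam_lam (F : MvPolynomial (Fin 3) K) : gam (lam F) = F := by
  induction F using MvPolynomial.induction_on with
  | C a => simp [gam, lam, Polynomial.algebraMap_apply]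
  | add f g hf hg => rw [map_add, map_add, hf, hg]
  | mul_X f i hf =>
    rw [map_mul, map_mul, hf]
    fin_cases i <;> simp [gam, lam]

theorem lam_gam (G : K[X][X][X]) : lam (gam G) = G := by
  have : (lam (K := K)).toRingHom.comp gam = RingHom.id _ := by
    refine Polynomial.ringHom_ext' (Polynomial.ringHom_ext' (Polynomial.ringHom_ext' ?_ ?_) ?_) ?_
    · ext1 a
      simp [gam, lam, Polynomial.algebraMap_apply]
    · simp [gam, lam]
    · simp [gam, lam]
      ring
    · simp [gam, lam]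
  exact RingHom.congr_fun this G

/-- Restriction to the lifted line of a point. -/
noncomputable def ev (z : K × K) : MvPolynomial (Fin 3) K →ₐ[K] K[X] :=
  MvPolynomial.aeval ![X, C z.2 - C z.1 * X, C z.1]

/-- Expansion around a line. -/
noncomputable def eps (l : K × K) : MvPolynomial (Fin 3) K →ₐ[K] K[X][X] :=
  MvPolynomial.aeval ![X + C (C l.1), C (C l.2) - C X * X, C X]

theorem lam_eps (l : K × K) (F : MvPolynomial (Fin 3) K) :
    ((lam F).map (evalRingHom (C l.1 * X + C l.2))).comp (X + C (C l.1)) = eps l F := by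
  induction F using MvPolynomial.induction_on with
  | C a => simp [eps, lam, Polynomial.algebraMap_apply]
  | add f g hf hg => rw [map_add, map_add, Polynomial.map_add, add_comp, hf, hg]
  | mul_X f i hf =>
    rw [map_mul, map_mul, Polynomial.map_mul, mul_comp, hf]
    fin_cases i <;> simp [eps, lam]
    left
    ring

theorem eps_ev (l z : K × K) (h : z.2 = l.1 * z.1 + l.2) (F : MvPolynomial (Fin 3) K) :
    (eps l F).map (evalRingHom z.1) = (ev z F).comp (X + C l.1) := by
  induction F using MvPolynomial.induction_on with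
  | C a => simp [eps, ev, Polynomial.algebraMap_apply]
  | add f g hf hg => rw [map_add, map_add, Polynomial.map_add, add_comp, hf, hg]
  | mul_X f i hf =>
    rw [map_mul, map_mul, Polynomial.map_mul, mul_comp, hf]
    fin_cases i <;> simp [eps, ev, h]
    left
    ring

theorem Bx.pow {S : Type*} [CommRing S] {α ε : ℕ} {H : S[X][X]} (h : Bx (α + 1) (ε + 1) H)
    (n : ℕ) : Bx (n * α + 1) (n * ε + 1) (H ^ n) := by
  induction n with
  | zero => simpa using bx_mono (S := S) 0 0
  | succ n ih => rw [pow_succ]; exact (ih.mul h).mono (by nlinarith) (by nlinarith)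

theorem bx_lam {a : ℕ} {F : MvPolynomial (Fin 3) K} (h0 : F.degreeOf 0 ≤ a)
    (h1 : F.degreeOf 1 ≤ a) : Bx (2 * a + 1) (a + 1) (lam F) := by
  rw [lam, aeval_three]
  refine Bx.sum _ fun m hm => ?_
  have m0 := (MvPolynomial.monomial_le_degreeOf 0 hm).trans h0
  have m1 := (MvPolynomial.monomial_le_degreeOf 1 hm).trans h1
  have bX : Bx (1 + 1) (0 + 1) (X : K[X][X][X]) := by simpa using bx_lin (0 : K[X])
  have bs : Bx (0 + 1) (0 + 1) (C (C X) : K[X][X][X]) := bx_C (by simp)
  have bu : Bx (1 + 1) (1 + 1) (C X - C (C X) * X : K[X][X][X]) := by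
    have h2 : Bx 1 2 (C X : K[X][X][X]) := bx_C (by simp)
    have h3 := ((bs.mul bX).smul (-1 : K[X])).mono le_rfl (show 0 + 1 + 0 ≤ 2 by omega)
    have h4 := (h2.mono (by omega) le_rfl).add h3
    rw [neg_one_smul, ← sub_eq_add_neg] at h4
    exact h4
  have := (((bX.pow (m 0)).mul (bu.pow (m 1))).mul (bs.pow (m 2))).smul (C (F.coeff m))
  rw [← algebraMap_eq, algebraMap_smul] at this
  exact this.mono (by omega) (by omega)

/-- The coefficient of `τ ^ j` has degree at most `b + j`. -/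
def Qd (b : ℕ) (H : K[X][X]) : Prop := ∀ j i, b + j < i → (H.coeff j).coeff i = 0

theorem Qd.mul {b c : ℕ} {H G : K[X][X]} (h : Qd b H) (g : Qd c G) : Qd (b + c) (H * G) :=
  fun i j hij => by
  rw [coeff_mul, finsetSum_coeff]
  refine sum_eq_zero fun p hp => ?_
  rw [coeff_mul]
  refine sum_eq_zero fun q hq => ?_
  have e1 := mem_antidiagonal.1 hp
  have e2 := mem_antidiagonal.1 hq
  by_cases hc : b + p.1 < q.1
  · rw [h _ _ hc, zero_mul]
  · rw [g _ _ (by omega), mul_zero]

theorem Qd.pow {b : ℕ} {H : K[X][X]} (h : Qd b H) (n : ℕ) : Qd (n * b) (H ^ n) := by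
  induction n with
  | zero =>
    intro j i hij
    rw [pow_zero, coeff_one]
    split_ifs
    · rw [coeff_one, if_neg (by omega)]
    · simp
  | succ n ih => rw [pow_succ, Nat.succ_mul]; exact ih.mul h

theorem qd_eps {b : ℕ} (l : K × K) {F : MvPolynomial (Fin 3) K} (h2 : F.degreeOf 2 ≤ b) :
    Qd b (eps l F) := by
  rw [eps, aeval_three]
  intro j i hij
  rw [finsetSum_coeff, finsetSum_coeff]
  refine sum_eq_zero fun m hm => ?_
  have m2 := (MvPolynomial.monomial_le_degreeOf 2 hm).trans h2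
  have q0 : Qd 0 (X + C (C l.1) : K[X][X]) := fun j i hij => by
    rcases j with _ | _ | j
    · simp [coeff_C, show i ≠ 0 by omega]
    · simp [coeff_one, show i ≠ 0 by omega]
    · simp [coeff_X]
  have q1 : Qd 0 (C (C l.2) - C X * X : K[X][X]) := fun j i hij => by
    rcases j with _ | _ | j
    · simp [coeff_C, show i ≠ 0 by omega]
    · simp [coeff_X, show 1 ≠ i by omega]
    · simp
  have q2 : Qd 1 (C X : K[X][X]) := fun j i hij => by
    rcases j with _ | j
    · simp [coeff_X, show 1 ≠ i by omega]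
    · simp
  have := ((q0.pow (m 0)).mul (q1.pow (m 1))).mul (q2.pow (m 2)) j i (by omega)
  simp only [Matrix.cons_val_zero, Matrix.cons_val_one, Matrix.cons_val, coeff_smul]
  rw [this, smul_zero]

theorem natDegree_ev {a : ℕ} (z : K × K) {F : MvPolynomial (Fin 3) K} (h0 : F.degreeOf 0 ≤ a)
    (h1 : F.degreeOf 1 ≤ a) : (ev z F).natDegree ≤ 2 * a := by
  rw [ev, aeval_three]
  refine natDegree_sum_le_of_forall_le _ _ fun m hm => (natDegree_smul_le _ _).trans ?_
  have m0 := (MvPolynomial.monomial_le_degreeOf 0 hm).trans h0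
  have m1 := (MvPolynomial.monomial_le_degreeOf 1 hm).trans h1
  have d1 : (C z.2 - C z.1 * X : K[X]).natDegree ≤ 1 := by compute_degree
  have e0 := natDegree_pow_le_of_le (m 0) (natDegree_X_le (R := K))
  have e1 := natDegree_pow_le_of_le (m 1) d1
  have e2 := natDegree_pow_le_of_le (m 2) (natDegree_C z.1).le
  exact (natDegree_mul_le_of_le (natDegree_mul_le_of_le e0 e1) e2).trans (by omega)

theorem exists_poly (P : Finset (K × K)) (a b : ℕ)
    (h : P.card * (2 * a + 1) < (a + 1) * ((a + 1) * (b + 1))) :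
    ∃ F : MvPolynomial (Fin 3) K, F ≠ 0 ∧ F.degreeOf 0 ≤ a ∧ F.degreeOf 1 ≤ a ∧
      F.degreeOf 2 ≤ b ∧ ∀ z ∈ P, ev z F = 0 := by
  classical
  let ex : Fin (a + 1) × Fin (a + 1) × Fin (b + 1) → (Fin 3 →₀ ℕ) := fun i =>
    Finsupp.equivFunOnFinite.symm ![i.1.1, i.2.1.1, i.2.2.1]
  have hex : Function.Injective ex := fun i j hij => by
    have e := Finsupp.equivFunOnFinite.symm.injective hij
    exact Prod.ext (Fin.ext (congrFun e 0))
      (Prod.ext (Fin.ext (congrFun e 1)) (Fin.ext (congrFun e 2)))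
  let T := Fintype.linearCombination K fun i => MvPolynomial.monomial (ex i) (1 : K)
  have hT : Function.Injective T := by
    have := (MvPolynomial.basisMonomials (Fin 3) K).linearIndependent.comp ex hex
    exact linearIndependent_iff_injective_fintypeLinearCombination.1
      (by simpa [Function.comp_def] using this)
  let Ψ : MvPolynomial (Fin 3) K →ₗ[K] (P × Fin (2 * a + 1) → K) :=
    LinearMap.pi fun zj => (lcoeff K zj.2.1).comp (ev zj.1.1).toLinearMap
  obtain ⟨c, hc, c0⟩ := Submodule.exists_mem_ne_zero_of_ne_bot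
    (LinearMap.ker_ne_bot_of_finrank_lt (f := Ψ.comp T) (by simpa using h))
  have hd : ∀ (n : Fin 3) (e : ℕ), (∀ i, ex i n ≤ e) → (T c).degreeOf n ≤ e := fun n e he => by
    rw [MvPolynomial.degreeOf_le_iff]
    intro m hm
    rw [Fintype.linearCombination_apply] at hm
    obtain ⟨i, -, hi⟩ := mem_biUnion.1 (MvPolynomial.support_sum hm)
    have := MvPolynomial.support_monomial_subset (MvPolynomial.support_smul hi)
    rw [mem_singleton.1 this]
    exact he i
  have d0 := hd 0 a fun i => Nat.lt_succ_iff.1 i.1.2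
  have d1 := hd 1 a fun i => Nat.lt_succ_iff.1 i.2.1.2
  refine ⟨T c, fun h0 => c0 (hT (by rw [h0, map_zero])), d0, d1,
    hd 2 b fun i => Nat.lt_succ_iff.1 i.2.2.2, fun z hz => ?_⟩
  ext j
  by_cases hj : j < 2 * a + 1
  · exact congrFun (LinearMap.mem_ker.1 hc) (⟨z, hz⟩, ⟨j, hj⟩)
  · exact coeff_eq_zero_of_natDegree_lt ((natDegree_ev z d0 d1).trans_lt (by omega))

theorem rich_aux (p : ℕ) [CharP K p] (P L : Finset (K × K)) (a b k : ℕ) (hp : 2 * a < p)
    (h : P.card * (2 * a + 1) < (a + 1) * ((a + 1) * (b + 1)))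
    (hL : ∀ l ∈ L, ∃ Z ⊆ P, k ≤ Z.card ∧ ∀ z ∈ Z, z.2 = l.1 * z.1 + l.2) :
    L.card * (k - b - 1) ≤ (k - b + 4 * a) * a := by
  classical
  have hex : ∃ n, ∃ F : MvPolynomial (Fin 3) K, (F ≠ 0 ∧ F.degreeOf 0 ≤ a ∧ F.degreeOf 1 ≤ a ∧
      F.degreeOf 2 ≤ b ∧ ∀ z ∈ P, ev z F = 0) ∧ (lam F).natDegree = n := by
    obtain ⟨F, hF⟩ := exists_poly P a b h
    exact ⟨_, F, hF, rfl⟩
  obtain ⟨F, ⟨F0, d0, d1, d2, hv⟩, hn⟩ := Nat.find_spec hex
  have hG : lam F ≠ 0 := fun h0 => F0 (by rw [← gam_lam F, h0, map_zero])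
  have hb := bx_lam d0 d1
  have hdeg : (lam F).natDegree ≤ 2 * a := natDegree_le_iff_coeff_eq_zero.2 fun i hi => by
    ext1 j
    exact hb i j (Or.inl hi)
  refine (core L (fun l => C l.1) (fun l => C l.1 * X + C l.2) (fun l _ l' _ e => ?_) (lam F) a
    (k - b) hG (fun i j hj => hb i j (Or.inr hj)) (fun A B hlt e => ?_) fun l hl => ?_).trans
    (Nat.mul_le_mul_right _ (by omega))
  · have e0 := congrArg (fun f => coeff f 0) e
    have e1 := congrArg (fun f => coeff f 1) e
    simp only [coeff_add, mul_coeff_zero, coeff_C_zero, coeff_X_zero, mul_zero, zero_add,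
      coeff_C_mul, coeff_X_one, mul_one, coeff_C_succ, add_zero] at e0 e1
    exact Prod.ext e1 e0
  · by_contra hB
    obtain ⟨H, r, h1, h2⟩ := exists_sq p hG (by omega) hB hlt e
    have e1 : F = gam H * gam (H * r) := by rw [← map_mul, ← h2, gam_lam]
    have n1 : gam H ≠ 0 := fun h0 => F0 (by rw [e1, h0, zero_mul])
    have n2 : gam (H * r) ≠ 0 := fun h0 => F0 (by rw [e1, h0, mul_zero])
    have hle : ∀ i, (gam (H * r)).degreeOf i ≤ F.degreeOf i := fun i => by
      rw [e1, MvPolynomial.degreeOf_mul_eq n1 n2]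
      omega
    refine Nat.find_min hex (m := (H * r).natDegree) ?_ ⟨gam (H * r), ⟨n2, (hle 0).trans d0,
      (hle 1).trans d1, (hle 2).trans d2, fun z hz => ?_⟩, by rw [lam_gam]⟩
    · rw [← hn, h2, natDegree_mul (p := H) (q := H * r) (fun h0 => n1 (by rw [h0, map_zero]))
        (fun h0 => n2 (by rw [h0, map_zero]))]
      omega
    · have h3 := hv z hz
      rw [e1, map_mul, mul_eq_zero] at h3
      rcases h3 with h3 | h3
      · rw [map_mul, map_mul, h3, zero_mul]
      · exact h3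
  · rw [X_sub_C_pow_dvd_iff, lam_eps, X_pow_dvd_iff]
    intro j hj
    obtain ⟨Z, hZ, hk, hz⟩ := hL l hl
    refine eq_zero_of_natDegree_lt_card_of_eval_eq_zero' _ (Z.image Prod.fst) (fun s hs => ?_) ?_
    · obtain ⟨z, h1, rfl⟩ := mem_image.1 hs
      have := congrArg (fun f => coeff f j) (eps_ev l z (hz z h1) F)
      simpa [hv z (hZ h1)] using this
    · rw [card_image_of_injOn fun z h1 z' h2 e => Prod.ext e (by rw [hz z h1, hz z' h2, e])]
      exact (natDegree_le_iff_coeff_eq_zero.2 fun i hi => qd_eps l d2 j i hi).trans_lt (by omega)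

/-- The number of lines with at least `k` points. -/
theorem rich (p : ℕ) [CharP K p] (P L : Finset (K × K)) (k : ℕ) (h4 : 4 ≤ k)
    (hp : 8 * P.card < k * p)
    (hL : ∀ l ∈ L, ∃ Z ⊆ P, k ≤ Z.card ∧ ∀ z ∈ Z, z.2 = l.1 * z.1 + l.2) :
    L.card * k ^ 3 ≤ 256 * P.card ^ 2 + 16 * P.card * k ^ 2 := by
  set n := P.card
  have a1 : 4 * n / k * k ≤ 4 * n := Nat.div_mul_le_self _ _
  have a2 : 4 * n < (4 * n / k + 1) * k := by
    rw [mul_comm _ k]
    exact Nat.lt_mul_div_succ _ (by omega)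
  have := rich_aux p P L (4 * n / k) (k / 2) k (by nlinarith) ?_ hL
  · set a := 4 * n / k
    have h1 : L.card * k ≤ 4 * ((k + 4 * a) * a) :=
      calc L.card * k ≤ L.card * (4 * (k - k / 2 - 1)) := Nat.mul_le_mul_left _ (by omega)
        _ = 4 * (L.card * (k - k / 2 - 1)) := by ring
        _ ≤ _ := Nat.mul_le_mul_left _ (this.trans (Nat.mul_le_mul_right _ (by omega)))
    calc L.card * k ^ 3 = L.card * k * k ^ 2 := by ring
      _ ≤ 4 * ((k + 4 * a) * a) * k ^ 2 := Nat.mul_le_mul_right _ h1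
      _ = 16 * (a * k) ^ 2 + 4 * (a * k) * k ^ 2 := by ring
      _ ≤ 16 * (4 * n) ^ 2 + 4 * (4 * n) * k ^ 2 := by gcongr
      _ = _ := by ring
  · set a := 4 * n / k
    have h2 : k ≤ 2 * (k / 2 + 1) := by omega
    have h3 : 2 * n < (a + 1) * (k / 2 + 1) := by nlinarith
    nlinarith

end Pool.Agent.Lib.MP_a460e0_co.St
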