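import Pool.Agent.Lib.MP_a460e0_co.SlB

/-! The extraction theorem. -/

namespace Pool.Agent.Lib.MP_a460e0_co.Sl

open Finset Polynomial

variable {F : Type} [Field F] [Fintype F] [DecidableEq F]

omit [DecidableEq F] in
theorem exists_rep (hF : ringChar F ≠ 2) {a b : F} (ha : a ≠ 0) (hb : b ≠ 0) (c : F) :
    ∃ s t : F, a * s ^ 2 + b * t ^ 2 = c := by
  obtain ⟨s, t, h⟩ := FiniteField.exists_root_sum_quadratic (f := C a * X ^ 2)
    (g := C b * X ^ 2 + C 0 * X + C (-c)) (degree_C_mul_X_pow 2 ha) (degree_quadratic hb)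
    (FiniteField.odd_card_of_char_ne_two hF)
  refine ⟨s, t, ?_⟩
  simp only [eval_add, eval_mul, eval_C, eval_pow, eval_X] at h
  linear_combination h

variable {V : Type} [AddCommGroup V] [Module F V] [Fintype V] [DecidableEq V]
  {B : V →ₗ[F] V →ₗ[F] F}

omit [DecidableEq V] [DecidableEq F] in
/-- a ternary form is a multiple of the standard one -/
theorem Nd.base (h : Nd B) (hF : ringChar F ≠ 2) (hQ : Fintype.card V = Fintype.card F ^ 3) :
    ∃ (l : F) (φ : (Fin 3 → F) → V), l ≠ 0 ∧ φ.Bijective ∧ ∀ x y, B (φ x) (φ y) = l * dt x y := by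
  have := invertibleOfNonzero (Ring.two_ne_zero hF)
  have r : Module.finrank F V = 3 := Nat.pow_right_injective Fintype.one_lt_card
    ((Module.card_eq_pow_finrank (K := F)).symm.trans hQ)
  obtain ⟨v, hv⟩ : ∃ v : Module.Basis (Fin 3) F V, B.IsOrthoᵢ v :=
    r ▸ LinearMap.BilinForm.exists_orthogonal_basis (B := B) ⟨h.symm⟩
  have n := hv.not_isOrtho_basis_self_of_separatingLeft h.nd
  have o := LinearMap.isOrthoᵢ_def.1 hv
  have l0 : B (v 0) (v 0) * B (v 1) (v 1) * B (v 2) (v 2) ≠ 0 :=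
    mul_ne_zero (mul_ne_zero (n 0) (n 1)) (n 2)
  obtain ⟨s, t, e1⟩ := exists_rep hF (n 0) (n 1) (B (v 0) (v 0) * B (v 1) (v 1) * B (v 2) (v 2))
  obtain ⟨s', t', e2⟩ := exists_rep hF (mul_ne_zero (mul_ne_zero (n 0) (n 1)) l0) (n 2)
    (B (v 0) (v 0) * B (v 1) (v 1) * B (v 2) (v 2))
  set a := B (v 0) (v 0) with ha
  set b := B (v 1) (v 1) with hb
  set c := B (v 2) (v 2) with hc
  set φ : (Fin 3 → F) → V := fun x =>
    (x 0 * s - (x 1 * s' - x 2 * (c * t' / (a * b * c))) * b * t) • v 0 +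
    (x 0 * t + (x 1 * s' - x 2 * (c * t' / (a * b * c))) * a * s) • v 1 +
    (x 1 * t' + x 2 * (a * b * s')) • v 2 with hφ
  have e : ∀ x y, B (φ x) (φ y) = a * b * c * dt x y := fun x y => by
    simp only [hφ, map_add, map_smul, LinearMap.add_apply, LinearMap.smul_apply, smul_eq_mul,
      o 0 1 (by decide), o 0 2 (by decide), o 1 0 (by decide), o 1 2 (by decide), o 2 0 (by decide),
      o 2 1 (by decide), ← ha, ← hb, ← hc, dt]
    have e3 : c * t' / (a * b * c) * (a * b * c) = c * t' := div_mul_cancel₀ _ l0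
    have e4 : c * t' / (a * b * c) * (a * b) = t' :=
      mul_right_cancel₀ (n 2) (by linear_combination e3)
    generalize c * t' / (a * b * c) = g at *
    subst e4
    linear_combination (x 0 * y 0 + (x 1 * s' - x 2 * g) * (y 1 * s' - y 2 * g) * a * b) * e1 +
      (x 1 * y 1 + x 2 * y 2) * e2
  refine ⟨_, φ, l0, (Fintype.bijective_iff_injective_and_card _).2 ⟨fun x y hxy => ?_, by simp [hQ]⟩, e⟩
  have k : ∀ z, dt x z = dt y z := fun z => mul_left_cancel₀ l0 (by rw [← e, ← e, hxy])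
  exact vext (by simpa [dt] using k ![1, 0, 0]) (by simpa [dt] using k ![0, 1, 0])
    (by simpa [dt] using k ![0, 0, 1])

omit [Fintype F] [Fintype V] [DecidableEq V] [DecidableEq F] in
/-- the orthogonal complement of a hyperbolic plane -/
theorem Nd.perp (h : Nd B) {w u : V} (h0 : B w w = 0) (h1 : B w u = 1) :
    Nd (B.domRestrict₁₂ (LinearMap.ker (B w) ⊓ LinearMap.ker (B u))
      (LinearMap.ker (B w) ⊓ LinearMap.ker (B u))) where
  symm x y := h.symm x y
  nd v hv := Subtype.ext <| h.nd _ fun x => by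
    have := hv ⟨x - (B u x - B w x * B u u) • w - B w x • u, by
      simp [h0, h1, h.symm u w]⟩
    rw [LinearMap.domRestrict₁₂_apply] at this
    simpa [h.symm v w, h.symm v u, LinearMap.mem_ker.1 v.2.1, LinearMap.mem_ker.1 v.2.2] using this

theorem grow {k : ℕ} {q : ℝ} (hq : 100 ≤ q) :
    (6 - 5 / 10 ^ k) * (q ^ k + 4) ≤ (6 - 5 / 10 ^ (k + 1)) * q ^ k := by
  rcases k with _ | k
  · norm_num
  have h1 : (10 : ℝ) ≤ 10 ^ (k + 1) := le_self_pow₀ (by norm_num) (by omega)
  have h2 : ((10 : ℝ) ^ (k + 1)) ^ 2 ≤ q ^ (k + 1) := by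
    rw [← pow_mul, mul_comm, pow_mul]
    exact pow_le_pow_left₀ (by norm_num) (by linarith) _
  rw [pow_succ (10 : ℝ) (k + 1)]
  generalize (10 : ℝ) ^ (k + 1) = t at *
  generalize q ^ (k + 1) = K at *
  have t0 : 0 < t := by linarith
  rw [← sub_nonneg, show (6 - 5 / (t * 10)) * K - (6 - 5 / t) * (K + 4) =
    (9 / 2 * K - 24 * t + 20) / t by field_simp; ring]
  exact div_nonneg (by nlinarith) t0.le

theorem extract (hF : ringChar F ≠ 2) (hq : 100 ≤ Fintype.card F) {n : ℝ} (n0 : 0 < n)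
    (hn : 6 * n ≤ Fintype.card F ^ 2) {j : F} (hj : j ≠ 0) (k : ℕ) :
    ∀ (V : Type) [AddCommGroup V] [Module F V] [Fintype V] [DecidableEq V] (B : V →ₗ[F] V →ₗ[F] F),
      Nd B → Fintype.card V = Fintype.card F ^ (2 * k + 3) → ∀ E : Finset V, (∀ x ∈ E, B x x = j) →
      (6 - 5 / 10 ^ k) * Fintype.card F ^ k * n ≤ #E →
      ∃ (l : F) (E' : Finset (Fin 3 → F)) (φ : (Fin 3 → F) → V), l ≠ 0 ∧ n ≤ #E' ∧
        (∀ x ∈ E', φ x ∈ E) ∧ ∀ x ∈ E', ∀ y ∈ E', B (φ x) (φ y) = l * dt x y := by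
  classical
  have q1 : (100 : ℝ) ≤ Fintype.card F := by exact_mod_cast hq
  induction k with
  | zero =>
    intro V _ _ _ _ B h hQ E _ hE
    obtain ⟨l, φ, l0, b, e⟩ := h.base hF hQ
    refine ⟨l, E.preimage φ b.1.injOn, φ, l0, ?_, fun x hx => mem_preimage.1 hx, fun x _ y _ => e x y⟩
    rw [card_preimage, filter_true_of_mem (p := (· ∈ Set.range φ)) fun x _ => b.2 x]
    norm_num at hE
    exact hE
  | succ k ih =>
    intro V _ _ _ _ B h hQ E hE hN
    have a0 : (0 : ℝ) < 5 / 10 ^ (k + 1) := by positivity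
    have a1 : (5 : ℝ) / 10 ^ (k + 1) ≤ 5 := div_le_self (by norm_num) (one_le_pow₀ (by norm_num))
    obtain ⟨E1, s1, hN1, hN2⟩ : ∃ E1 ⊆ E, (6 - 5 / 10 ^ (k + 1)) * Fintype.card F ^ (k + 1) * n ≤
        #E1 ∧ #E1 ≤ Fintype.card F ^ (k + 3) := by
      rcases le_total (#E) (Fintype.card F ^ (k + 3)) with c | c
      · exact ⟨E, Subset.rfl, hN, c⟩
      obtain ⟨E1, s1, c1⟩ := exists_subset_card_eq c
      refine ⟨E1, s1, ?_, c1.le⟩
      rw [c1]
      push_cast
      rw [show k + 3 = k + 1 + 2 from rfl, pow_add _ (k + 1) 2, mul_right_comm, mul_comm]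
      exact mul_le_mul_of_nonneg_left (by nlinarith) (by positivity)
    obtain ⟨w, u, h0, h1, hm⟩ := h.step (Ring.two_ne_zero hF) hQ hq hj (fun x hx => hE x (s1 hx))
      (card_pos.1 (by
        exact_mod_cast lt_of_lt_of_le (mul_pos (mul_pos (by linarith) (by positivity)) n0) hN1)) hN2
    set U := LinearMap.ker (B w) ⊓ LinearMap.ker (B u) with hU
    set I := {x ∈ E1 | B x w = 0}.image fun x => x - B x u • w with hI
    have pre : ∀ y ∈ I, ∃ x, x ∈ E ∧ B x w = 0 ∧ x - B x u • w = y := fun y hy => by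
      obtain ⟨x, hx, e⟩ := mem_image.1 hy
      exact ⟨x, s1 (mem_filter.1 hx).1, (mem_filter.1 hx).2, e⟩
    choose! σ σ1 σ2 σ3 using pre
    have iso : ∀ x ∈ I, ∀ y ∈ I, B (σ x) (σ y) = B x y := fun x hx y hy => by
      conv_rhs => rw [← σ3 x hx, ← σ3 y hy]
      simp [h0, σ2 x hx, h.symm w (σ y), σ2 y hy]
    have mem : ∀ y ∈ I, y ∈ U := fun y hy => by
      rw [← σ3 y hy]
      simp [hU, h0, h.symm w (σ y), σ2 y hy, h.symm u, h1]
    have cU : Fintype.card U = Fintype.card F ^ (2 * k + 3) := by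
      have := h.lin2 (x := w) (x' := u) (fun s t c => by
        have c1 := congrArg (B w) c
        simp only [map_add, map_smul, h0, h1, smul_eq_mul, mul_zero, mul_one, zero_add,
          map_zero] at c1
        have c2 := congrArg (B · u) c
        simp only [c1, zero_smul, add_zero, map_smul, LinearMap.smul_apply, h1, smul_eq_mul, mul_one,
          map_zero, LinearMap.zero_apply] at c2
        exact ⟨c2, c1⟩) 0 0
      rw [hQ, show 2 * (k + 1) + 3 = 2 + (2 * k + 3) by ring, pow_add] at this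
      rw [← Nat.eq_of_mul_eq_mul_left (by positivity) this]
      exact Fintype.card_of_subtype _ fun x => by simp [hU]
    obtain ⟨l, E', φ, l0, c, m1, m2⟩ := ih U _ (h.perp h0 h1) cU (I.subtype (· ∈ U))
      (fun x hx => by
        have hx' := mem_subtype.1 hx
        rw [LinearMap.domRestrict₁₂_apply, ← iso _ hx' _ hx', hE _ (σ1 _ hx')]) (by
        rw [card_subtype, filter_true_of_mem mem]
        have g := grow (k := k) q1
        generalize (Fintype.card F : ℝ) = q at *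
        have K0 : 0 < q ^ k := by positivity
        refine le_of_mul_le_mul_left (le_trans ?_ ((mul_le_mul_of_nonneg_right hN1 K0.le).trans hm))
          (show 0 < q * (q ^ k + 4) by positivity)
        have := mul_le_mul_of_nonneg_right g (show 0 ≤ q * q ^ k * n by positivity)
        rw [pow_succ q]
        linarith)
    refine ⟨l, E', fun x => σ (φ x), l0, c, fun x hx => σ1 _ (mem_subtype.1 (m1 x hx)),
      fun x hx y hy => ?_⟩
    rw [iso _ (mem_subtype.1 (m1 x hx)) _ (mem_subtype.1 (m1 y hy)), ← m2 x hx y hy]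
    rfl

/-- The extraction theorem for the standard form: `6 q^k n` points on a sphere in dimension `2k+3`
contain a similar copy of `n` points on a sphere in dimension three. -/
theorem extract_std (hF : ringChar F ≠ 2) (hq : 100 ≤ Fintype.card F) {n : ℝ} (n0 : 0 < n)
    (hn : 6 * n ≤ Fintype.card F ^ 2) {j : F} (hj : j ≠ 0) {k : ℕ}
    (E : Finset (Fin (2 * k + 3) → F)) (hE : ∀ x ∈ E, ∑ i, x i ^ 2 = j)
    (hN : 6 * Fintype.card F ^ k * n ≤ #E) :
    ∃ (l j' : F) (E' : Finset (Fin 3 → F)) (φ : (Fin 3 → F) → Fin (2 * k + 3) → F), l ≠ 0 ∧ j' ≠ 0 ∧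
      n ≤ #E' ∧ (∀ x ∈ E', φ x ∈ E) ∧ (∀ x ∈ E', ∑ i, x i ^ 2 = j') ∧
      ∀ x ∈ E', ∀ y ∈ E', ∑ i, (φ x i - φ y i) ^ 2 = l * ∑ i, (x i - y i) ^ 2 := by
  have b : ∀ x y : Fin (2 * k + 3) → F, dotProductBilin F F x y = ∑ i, x i * y i := fun _ _ => rfl
  obtain ⟨l, E', φ, l0, c, m1, m2⟩ := extract hF hq n0 hn hj k _ (dotProductBilin F F)
    ⟨dotProduct_comm, fun v hv => dotProduct_eq_zero v hv⟩ (by simp) E
    (fun x hx => by simp only [b, ← sq, hE x hx]) (le_trans (by
      gcongr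
      exact sub_le_self _ (by positivity)) hN)
  simp only [b, dt] at m2
  refine ⟨l, j / l, E', φ, l0, div_ne_zero hj l0, c, m1, fun x hx => ?_, fun x hx y hy => ?_⟩
  · rw [eq_div_iff l0, ← hE _ (m1 x hx), Fin.sum_univ_three]
    simp only [sq, m2 x hx x hx]
    ring
  · have e : ∀ a b : F, (a - b) ^ 2 = a * a - 2 * (a * b) + b * b := fun a b => by ring
    simp only [e, sum_add_distrib, sum_sub_distrib, ← mul_sum, m2 x hx x hx, m2 x hx y hy,
      m2 y hy y hy, Fin.sum_univ_three]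
    ring

end Pool.Agent.Lib.MP_a460e0_co.Sl
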