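import Pool.Agent.Lib.MP_a460e0_co.SlC

/-! The exponent `d/2 - 1/6`. -/

namespace Pool.Agent.Lib.MP_a460e0_co.Sl

theorem card_one {F : Type} [Field F] [Fintype F] [DecidableEq F] {j : F} (E : Finset (Fin 1 → F))
    (hE : ∀ x ∈ E, ∑ i, x i ^ 2 = j) : (E.card : ℝ) ≤ 2 := by
  exact_mod_cast (Finset.card_le_card_of_injOn (fun x : Fin 1 → F => x 0)
    (fun x hx => by simpa using hE x hx)
    fun x _ y _ h => funext fun i => by rwa [Subsingleton.elim i 0]).trans (card_sq_le j)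

theorem sixth (d : ℕ) (hd : Odd d) (F : Type) [Field F] [Fintype F] [DecidableEq F]
    (hF : ringChar F ≠ 2) (j : F) (hj : j ≠ 0) (E : Finset (Fin d → F))
    (hE : ∀ x ∈ E, ∑ i, x i ^ 2 = j)
    (hN : 6 * (Fintype.card F : ℝ) ^ ((d : ℝ) / 2 - 1 / 6) ≤ (E.card : ℝ)) :
    ∃ x ∈ E, (Fintype.card F : ℝ) / 800 ≤
      ((E.image fun y => ∑ i, (x i - y i) ^ 2).card : ℝ) := by
  have q1 : (1 : ℝ) ≤ Fintype.card F := by exact_mod_cast Fintype.card_pos
  have q0 : (0 : ℝ) < Fintype.card F := by linarith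
  by_cases hq : Fintype.card F ≤ 800
  · obtain ⟨x, hx⟩ : E.Nonempty := Finset.card_pos.1
      (Nat.cast_pos.1 (lt_of_lt_of_le (by positivity) hN))
    refine ⟨x, hx, ((div_le_one (by norm_num)).2 (by exact_mod_cast hq)).trans ?_⟩
    exact_mod_cast Finset.card_pos.2 (Finset.Nonempty.image ⟨x, hx⟩ _)
  obtain ⟨k, rfl⟩ := hd
  rcases k with _ | k
  · have h1 := card_one E hE
    linarith [Real.one_le_rpow q1 (z := ((2 * 0 + 1 : ℕ) : ℝ) / 2 - 1 / 6) (by norm_num)]
  set r : ℝ := (Fintype.card F : ℝ) ^ ((1 : ℝ) / 3) with hr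
  have r0 : 0 < r := by positivity
  have r3 : (Fintype.card F : ℝ) = r ^ 3 := by
    rw [hr, ← Real.rpow_natCast, ← Real.rpow_mul q0.le]; norm_num
  have q8 : (800 : ℝ) ≤ Fintype.card F := by exact_mod_cast (not_le.1 hq).le
  have r8 : 8 ≤ r := le_of_pow_le_pow_left₀ (n := 3) (by norm_num) r0.le (by linarith)
  obtain ⟨l, j', E', φ, l0, j0, c, m1, m2, m3⟩ := extract_std hF (by omega) (n := r ^ 4)
    (by positivity) (by
      rw [r3]
      nlinarith [mul_le_mul_of_nonneg_left (pow_le_pow_left₀ (by norm_num) r8 2) (pow_pos r0 4).le])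
    hj (k := k) E hE (le_of_eq_of_le (by
      rw [mul_assoc, hr, ← Real.rpow_natCast, ← Real.rpow_natCast, ← Real.rpow_mul q0.le,
        ← Real.rpow_add q0]
      congr 2
      push_cast
      ring) hN)
  have h2 : (2 : F) ≠ 0 := Ring.two_ne_zero hF
  have hE' : ∀ x ∈ E', dt x x = j' := fun x hx => by
    rw [← m2 x hx, Fin.sum_univ_three, dt]; ring
  obtain ⟨x, hx, h⟩ := pinned h2 j0 E' hE' (by
    rw [r3]
    nlinarith [mul_le_mul_of_nonneg_left r8 (pow_pos r0 3).le]) (by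
    rw [r3, ← pow_mul, show 3 * 4 = 4 * 3 from rfl, pow_mul]
    exact pow_le_pow_left₀ (by positivity) c 3)
  refine ⟨φ x, m1 x hx, h.trans (Nat.cast_le.2 (Finset.card_le_card_of_injOn
    (fun t => l * (2 * j' - 2 * t)) (fun t ht => ?_) fun a _ b _ hab => ?_))⟩
  · obtain ⟨y, hy, rfl⟩ := Finset.mem_image.1 ht
    refine Finset.mem_image.2 ⟨φ y, m1 y hy, (m3 x hx y hy).trans ?_⟩
    have a := hE' x hx
    have b := hE' y hy
    simp only [Fin.sum_univ_three, dt] at a b ⊢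
    linear_combination l * a + l * b
  · exact mul_left_cancel₀ h2 (sub_right_injective (mul_left_cancel₀ l0 hab))

end Pool.Agent.Lib.MP_a460e0_co.Sl
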