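import Mathlib

/-! Elementary geometry of `F^3`: dot and cross products, reflections, counting lemmas. -/

namespace Pool.Agent.Lib.MP_a460e0_co

open Finset

variable {F : Type} [Field F]

abbrev V (F : Type) := Fin 3 → F

def dt (x y : V F) : F := x 0 * y 0 + x 1 * y 1 + x 2 * y 2

def cr (x y : V F) : V F :=
  ![x 1 * y 2 - x 2 * y 1, x 2 * y 0 - x 0 * y 2, x 0 * y 1 - x 1 * y 0]

def rf (n x : V F) : V F := x - (2 * dt x n / dt n n) • n

@[simp] theorem cr0 (x y : V F) : cr x y 0 = x 1 * y 2 - x 2 * y 1 := rfl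
@[simp] theorem cr1 (x y : V F) : cr x y 1 = x 2 * y 0 - x 0 * y 2 := rfl
@[simp] theorem cr2 (x y : V F) : cr x y 2 = x 0 * y 1 - x 1 * y 0 := rfl

omit [Field F] in
theorem vext {x y : V F} (h0 : x 0 = y 0) (h1 : x 1 = y 1) (h2 : x 2 = y 2) : x = y := by
  funext i; fin_cases i <;> assumption

theorem dt_comm (x y : V F) : dt x y = dt y x := by unfold dt; ring
theorem dt_sub_left (x y z : V F) : dt (x - y) z = dt x z - dt y z := by simp [dt]; ring
theorem dt_sub_right (x y z : V F) : dt x (y - z) = dt x y - dt x z := by simp [dt]; ring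
theorem dt_smul_left (s : F) (x y : V F) : dt (s • x) y = s * dt x y := by simp [dt]; ring
theorem dt_smul_right (s : F) (x y : V F) : dt x (s • y) = s * dt x y := by simp [dt]; ring
theorem dt_zero_left (x : V F) : dt 0 x = 0 := by simp [dt]

theorem cr_cr (x y : V F) : dt (cr x y) (cr x y) = dt x x * dt y y - dt x y ^ 2 := by
  simp [dt, cr]; ring

theorem gram (u v n : V F) : dt n (cr u v) ^ 2 = (dt u u * dt v v - dt u v ^ 2) * dt n n
    - dt v v * dt n u ^ 2 - dt u u * dt n v ^ 2 + 2 * dt u v * dt n u * dt n v := by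
  simp [dt, cr]; ring

theorem dual (u v d : V F) : (dt u u * dt v v - dt u v ^ 2) • d =
    dt d u • cr v (cr u v) + dt d v • cr (cr u v) u + dt d (cr u v) • cr u v := by
  apply vext <;> simp [dt, cr] <;> ring

theorem eq_zero_of_perp {u v d : V F} (hG : dt u u * dt v v - dt u v ^ 2 ≠ 0) (h1 : dt d u = 0)
    (h2 : dt d v = 0) (h3 : dt d (cr u v) = 0) : d = 0 := by
  have := dual u v d
  rw [h1, h2, h3] at this
  simpa [hG] using this

theorem par_of_cr {n w : V F} (hw : w ≠ 0) (h : cr n w = 0) : ∃ s : F, n = s • w := by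
  have h0 := congrFun h 0
  have h1 := congrFun h 1
  have h2 := congrFun h 2
  simp [cr] at h0 h1 h2
  by_cases a : w 0 = 0
  · by_cases b : w 1 = 0
    · have c : w 2 ≠ 0 := fun c => hw (vext a b c)
      refine ⟨n 2 / w 2, vext ?_ ?_ ?_⟩ <;> simp <;> field_simp
      · linear_combination -h1
      · linear_combination h0
    · refine ⟨n 1 / w 1, vext ?_ ?_ ?_⟩ <;> simp <;> field_simp
      · linear_combination h2
      · linear_combination -h0
  · refine ⟨n 0 / w 0, vext ?_ ?_ ?_⟩ <;> simp <;> field_simp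
    · linear_combination -h2
    · linear_combination h1

theorem par_of_perp {n x y : V F} (hw : cr x y ≠ 0) (h1 : dt n x = 0) (h2 : dt n y = 0) :
    ∃ s : F, n = s • cr x y := by
  apply par_of_cr hw
  unfold dt at h1 h2
  apply vext <;> simp [cr]
  · linear_combination x 0 * h2 - y 0 * h1
  · linear_combination x 1 * h2 - y 1 * h1
  · linear_combination x 2 * h2 - y 2 * h1

theorem rf_dt {n : V F} (hn : dt n n ≠ 0) (x y : V F) : dt (rf n x) (rf n y) = dt x y := by
  simp only [rf, dt_sub_left, dt_sub_right, dt_smul_left, dt_smul_right, dt_comm n y]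
  field_simp; ring

theorem rf_rf {n : V F} (hn : dt n n ≠ 0) (x : V F) : rf n (rf n x) = x := by
  have : dt (rf n x) n = - dt x n := by
    simp only [rf, dt_sub_left, dt_smul_left]; field_simp; ring
  rw [rf, this, rf, sub_sub, ← add_smul]
  simp [neg_div]

theorem rf_smul {n : V F} {s : F} (hs : s ≠ 0) (x : V F) : rf (s • n) x = rf n x := by
  simp only [rf, dt_smul_left, dt_smul_right, smul_smul]
  by_cases hn : dt n n = 0
  · simp [hn]
  · congr 2; field_simp

theorem rf_sub {y y' : V F} (h : dt y y = dt y' y') (hn : dt (y - y') (y - y') ≠ 0) :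
    rf (y - y') y = y' := by
  have : 2 * dt y (y - y') = dt (y - y') (y - y') := by
    simp only [dt_sub_left, dt_sub_right, dt_comm y' y]; linear_combination h
  rw [rf, this, div_self hn]; simp

theorem rf_cr {n : V F} (hn : dt n n ≠ 0) (x y : V F) :
    cr (rf n x) (rf n y) = - rf n (cr x y) := by
  simp only [rf]
  generalize hN : dt n n = N at hn
  apply vext <;>
    simp only [cr0, cr1, cr2, Pi.sub_apply, Pi.smul_apply, Pi.neg_apply, smul_eq_mul] <;>
    field_simp <;> rw [← hN] <;> simp only [dt, cr0, cr1, cr2] <;> ring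

theorem rf_add (n x y : V F) : rf n (x + y) = rf n x + rf n y := by
  apply vext <;> simp [rf, dt] <;> ring

theorem rf_smul' (n x : V F) (s : F) : rf n (s • x) = s • rf n x := by
  apply vext <;> simp [rf, dt] <;> ring

theorem rf_neg (n x : V F) : rf n (-x) = - rf n x := by
  apply vext <;> simp [rf, dt] <;> ring

theorem rf_of_perp {n x : V F} (h : dt x n = 0) : rf n x = x := by simp [rf, h]

theorem perp_of_rf_eq (h2 : (2 : F) ≠ 0) {n n' x : V F} (hn : dt n n ≠ 0) (hn' : dt n' n' ≠ 0)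
    (hc : cr n n' ≠ 0) (h : rf n x = rf n' x) : dt x n = 0 ∧ dt x n' = 0 := by
  have e : (2 * dt x n / dt n n) • n = (2 * dt x n' / dt n' n') • n' := sub_right_injective h
  have e1 : (2 * dt x n / dt n n) • cr n n' = 0 := by
    have : cr ((2 * dt x n / dt n n) • n) n' = 0 := by
      rw [e]; apply vext <;> simp [cr] <;> ring
    rw [← this]; apply vext <;> simp [cr] <;> ring
  have e2 : (2 * dt x n' / dt n' n') • cr n n' = 0 := by
    have : cr n ((2 * dt x n' / dt n' n') • n') = 0 := by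
      rw [← e]; apply vext <;> simp [cr] <;> ring
    rw [← this]; apply vext <;> simp [cr] <;> ring
  simpa [hc, h2, hn, hn'] using And.intro e1 e2

theorem ne_zero_of_dt {n : V F} (hn : dt n n ≠ 0) : n ≠ 0 := by
  rintro rfl; exact hn (dt_zero_left _)

/-- Two reflections agreeing on a nondegenerate pair have parallel normals. -/
theorem par_of_rf_eq (h2 : (2 : F) ≠ 0) {n n' y z : V F} (hn : dt n n ≠ 0) (hn' : dt n' n' ≠ 0)
    (hG : dt y y * dt z z - dt y z ^ 2 ≠ 0) (hy : rf n y = rf n' y) (hz : rf n z = rf n' z) :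
    ∃ s : F, n' = s • n := by
  by_cases hc : cr n n' = 0
  · apply par_of_cr (ne_zero_of_dt hn)
    have : cr n' n = - cr n n' := by apply vext <;> simp <;> ring
    rw [this, hc, neg_zero]
  · exfalso
    have hw : cr y z ≠ 0 := ne_zero_of_dt (by rw [cr_cr]; exact hG)
    obtain ⟨a1, a2⟩ := perp_of_rf_eq h2 hn hn' hc hy
    obtain ⟨b1, b2⟩ := perp_of_rf_eq h2 hn hn' hc hz
    obtain ⟨s, rfl⟩ := par_of_perp hw (dt_comm y n ▸ a1) (dt_comm z n ▸ b1)
    obtain ⟨s', rfl⟩ := par_of_perp hw (dt_comm y n' ▸ a2) (dt_comm z n' ▸ b2)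
    apply hc
    apply vext <;> simp [cr] <;> ring

/-- All pairs of reflections relating two distinct frames have normals in a common plane. -/
theorem perp_axis (h2 : (2 : F) ≠ 0) {n n' m m' y z y' z' : V F} (hn : dt n n ≠ 0)
    (hn' : dt n' n' ≠ 0) (hm : dt m m ≠ 0) (hm' : dt m' m' ≠ 0)
    (hG : dt y y * dt z z - dt y z ^ 2 ≠ 0) (hc : cr n n' ≠ 0)
    (a1 : rf n y = rf n' y') (a2 : rf n z = rf n' z')
    (b1 : rf m y = rf m' y') (b2 : rf m z = rf m' z') : dt n (cr m m') = 0 := by
  have ey : rf n' (rf n y) = rf m' (rf m y) := by rw [a1, b1, rf_rf hn', rf_rf hm']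
  have ez : rf n' (rf n z) = rf m' (rf m z) := by rw [a2, b2, rf_rf hn', rf_rf hm']
  have ew : rf n' (rf n (cr y z)) = rf m' (rf m (cr y z)) := by
    have k : ∀ {n n' : V F}, dt n n ≠ 0 → dt n' n' ≠ 0 → rf n' (rf n (cr y z)) =
        cr (rf n' (rf n y)) (rf n' (rf n z)) := by
      intro n n' hn hn'
      rw [rf_cr hn', rf_cr hn, rf_neg, neg_neg]
    rw [k hn hn', k hm hm', ey, ez]
  have hall : ∀ x, rf n' (rf n x) = rf m' (rf m x) := by
    intro x
    obtain ⟨a, b, c, rfl⟩ : ∃ a b c : F, x = a • y + b • z + c • cr y z := by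
      refine ⟨dt x (cr z (cr y z)) / (dt y y * dt z z - dt y z ^ 2),
        dt x (cr (cr y z) y) / (dt y y * dt z z - dt y z ^ 2),
        dt x (cr y z) / (dt y y * dt z z - dt y z ^ 2), ?_⟩
      generalize hN : dt y y * dt z z - dt y z ^ 2 = N at hG
      apply vext <;> simp <;> field_simp <;> rw [← hN] <;> simp [dt, cr] <;> ring
    simp only [rf_add, rf_smul', ey, ez, ew]
  have p1 : dt (cr m m') m = 0 := by simp [dt, cr]; ring
  have p2 : dt (cr m m') m' = 0 := by simp [dt, cr]; ring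
  have := hall (cr m m')
  rw [rf_of_perp p1, rf_of_perp p2] at this
  have e : rf n (cr m m') = rf n' (cr m m') := by
    conv_rhs => rw [← this, rf_rf hn']
  rw [dt_comm]
  exact (perp_of_rf_eq h2 hn hn' hc e).1

variable [Fintype F] [DecidableEq F]

theorem card_sq_le (c : F) : #{a : F | a ^ 2 = c} ≤ 2 := by
  by_cases h : ∃ b, b ^ 2 = c
  · obtain ⟨b, rfl⟩ := h
    refine (card_le_card (t := {b, -b}) ?_).trans card_le_two
    intro a ha
    simpa using sq_eq_sq_iff_eq_or_eq_neg.1 (mem_filter.1 ha).2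
  · rw [card_eq_zero.2]
    · norm_num
    · exact filter_eq_empty_iff.2 fun a _ ha => h ⟨a, ha⟩

theorem card_plane {y : V F} (hy : y ≠ 0) : #{n : V F | dt n y = 0} = Fintype.card F ^ 2 := by
  classical
  let L : V F →ₗ[F] F :=
    { toFun := fun n => dt n y
      map_add' := fun a b => by simp [dt]; ring
      map_smul' := fun s a => by simp [dt]; ring }
  have hs : LinearMap.range L = ⊤ := by
    rw [LinearMap.range_eq_top]
    intro c
    obtain ⟨i, hi⟩ := Function.ne_iff.1 hy
    refine ⟨Pi.single i (c / y i), ?_⟩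
    have hi' : y i ≠ 0 := hi
    fin_cases i <;> simp [L, dt] <;> simp at hi' <;> field_simp
  have hk : Module.finrank F (LinearMap.ker L) = 2 := by
    have := LinearMap.finrank_range_add_finrank_ker L
    rw [hs] at this
    simp at this
    omega
  have := Module.card_eq_pow_finrank (K := F) (V := LinearMap.ker L)
  rw [hk] at this
  rw [← this, Fintype.card_subtype]
  congr 1
  ext n
  simp [L]

theorem card_line (w : V F) : #{n : V F | ∃ s : F, n = s • w} ≤ Fintype.card F := by
  refine (card_le_card (t := univ.image fun s : F => s • w) ?_).trans card_image_le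
  intro n hn
  obtain ⟨s, rfl⟩ := (mem_filter.1 hn).2
  exact mem_image.2 ⟨s, mem_univ _, rfl⟩

theorem card_fib2 {u v : V F} (hG : dt u u * dt v v - dt u v ^ 2 ≠ 0) (a b c : F) :
    #{n : V F | dt n u = a ∧ dt n v = b ∧ dt n n = c} ≤ 2 := by
  refine le_trans ?_ (card_sq_le ((dt u u * dt v v - dt u v ^ 2) * c
    - dt v v * a ^ 2 - dt u u * b ^ 2 + 2 * dt u v * a * b))
  refine card_le_card_of_injOn (fun n => dt n (cr u v)) ?_ ?_
  · intro n hn
    simp only [coe_filter, mem_univ, true_and, Set.mem_ofPred_eq] at hn ⊢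
    rw [gram, hn.1, hn.2.1, hn.2.2]
  · intro n hn m hm h
    simp only [coe_filter, mem_univ, true_and, Set.mem_ofPred_eq] at hn hm h
    rw [← sub_eq_zero]
    apply eq_zero_of_perp hG <;> rw [dt_sub_left, sub_eq_zero]
    · rw [hn.1, hm.1]
    · rw [hn.2.1, hm.2.1]
    · exact h

theorem card_circle_crude (h2 : (2 : F) ≠ 0) {y : V F} (hy : dt y y ≠ 0) (t c : F) :
    #{z : V F | dt z y = t ∧ dt z z = c} ≤ 2 * Fintype.card F := by
  obtain ⟨e, he, he2⟩ : ∃ e : V F, dt y e = 0 ∧ dt e e ≠ 0 := by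
    by_contra hc
    push Not at hc
    have a := hc ![y 1, -y 0, 0] (by simp [dt]; ring)
    have b := hc ![0, y 2, -y 1] (by simp [dt]; ring)
    have c := hc ![y 2, 0, -y 0] (by simp [dt]; ring)
    simp [dt] at a b c
    apply mul_ne_zero h2 hy
    unfold dt
    linear_combination a + b + c
  have hG : dt y y * dt e e - dt y e ^ 2 ≠ 0 := by rw [he]; simpa using ⟨hy, he2⟩
  rw [mul_comm, ← card_univ]
  refine card_le_mul_card_image_of_maps_to (f := fun z => dt z e) (fun _ _ => mem_univ _) 2 ?_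
    |>.trans (le_of_eq (mul_comm _ _))
  intro b _
  refine le_trans (card_le_card ?_) (card_fib2 hG t b c)
  intro z hz
  simp only [mem_filter, mem_univ, true_and] at hz ⊢
  exact ⟨hz.1.1, hz.2, hz.1.2⟩

theorem card_iso : #{n : V F | dt n n = 0} ≤ 2 * Fintype.card F ^ 2 := by
  have : Fintype.card F ^ 2 = #(univ : Finset (F × F)) := by simp [sq]
  rw [this]
  refine card_le_mul_card_image_of_maps_to (f := fun n : V F => (n 0, n 1))
    (fun _ _ => mem_univ _) 2 ?_
  intro b _
  refine le_trans ?_ (card_sq_le (-(b.1 ^ 2 + b.2 ^ 2)))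
  refine card_le_card_of_injOn (fun n => n 2) ?_ ?_
  · intro n hn
    simp only [coe_filter, mem_filter, mem_univ, true_and, Set.mem_ofPred_eq] at hn ⊢
    rw [← hn.2]
    have := hn.1
    unfold dt at this
    linear_combination this
  · intro n hn m hm h
    simp only [coe_filter, mem_filter, mem_univ, true_and, Set.mem_ofPred_eq] at hn hm h
    have := hn.2.trans hm.2.symm
    exact vext (congrArg Prod.fst this) (congrArg Prod.snd this) h

/-- Stereographic projection bound. -/
theorem stereo (y0 : V F) (Y T : Finset (V F))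
    (hY : ∀ y ∈ Y, dt y y = dt y0 y0 ∧ dt (y0 - y) (y0 - y) ≠ 0)
    (hT : ∀ y ∈ Y, ∀ s : F, s • (y0 - y) ∈ T) (h0 : 0 ∈ T) :
    #Y * (Fintype.card F - 1) ≤ #T - 1 := by
  have e : #Y * (Fintype.card F - 1) = #(Y ×ˢ (univ.erase (0 : F))) := by
    rw [card_product, card_erase_of_mem (mem_univ _), card_univ]
  rw [e, ← card_erase_of_mem h0]
  refine card_le_card_of_injOn (fun p => p.2 • (y0 - p.1)) ?_ ?_
  · rintro ⟨y, s⟩ hp
    simp only [coe_product, Set.mem_prod, mem_coe, mem_erase, mem_univ, and_true] at hp ⊢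
    exact ⟨smul_ne_zero hp.2 (ne_zero_of_dt (hY y hp.1).2), hT y hp.1 s⟩
  · rintro ⟨y, s⟩ hp ⟨y', s'⟩ hp' h
    simp only [coe_product, Set.mem_prod, mem_coe, mem_erase, mem_univ, and_true] at hp hp' h
    have e1 := rf_sub (hY y hp.1).1.symm (hY y hp.1).2
    have e2 := rf_sub (hY y' hp'.1).1.symm (hY y' hp'.1).2
    rw [← rf_smul hp.2, h, rf_smul hp'.2, e2] at e1
    subst e1
    rw [smul_left_injective F (ne_zero_of_dt (hY y' hp'.1).2) h]

theorem le_of_mul_pred {a q b : ℕ} (hq : 2 ≤ q) (h : a * (q - 1) ≤ b * (q - 1)) : a ≤ b :=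
  Nat.le_of_mul_le_mul_right h (by omega)

theorem card_sphere (h2 : (2 : F) ≠ 0) {j : F} (hj : j ≠ 0) :
    #{y : V F | dt y y = j} ≤ Fintype.card F ^ 2 + 3 * Fintype.card F + 1 := by
  set q := Fintype.card F
  have hq : 2 ≤ q := Fintype.one_lt_card
  rcases (univ.filter fun y : V F => dt y y = j).eq_empty_or_nonempty with h | ⟨y0, hy0⟩
  · rw [h]; simp
  have hy0 : dt y0 y0 = j := (mem_filter.1 hy0).2
  have a := stereo y0 (univ.filter fun y : V F => dt y y = j ∧ dt (y0 - y) (y0 - y) ≠ 0) univ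
    (fun y hy => ⟨(mem_filter.1 hy).2.1.trans hy0.symm, (mem_filter.1 hy).2.2⟩)
    (fun _ _ _ => mem_univ _) (mem_univ _)
  have hc : #(univ : Finset (V F)) - 1 = (q ^ 2 + q + 1) * (q - 1) := by
    have : #(univ : Finset (V F)) = q ^ 3 := by simp [q]
    rw [this]
    obtain ⟨r, hr⟩ : ∃ r, q = r + 1 := ⟨q - 1, by omega⟩
    rw [hr, Nat.add_sub_cancel]
    apply Nat.sub_eq_of_eq_add; ring
  rw [hc] at a
  have a' := le_of_mul_pred hq a
  have b := card_circle_crude h2 (hy0 ▸ hj) j j
  refine le_trans (card_le_card (t := (univ.filter fun y : V F =>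
    dt y y = j ∧ dt (y0 - y) (y0 - y) ≠ 0) ∪ (univ.filter fun z : V F => dt z y0 = j ∧ dt z z = j)) ?_)
    ((card_union_le _ _).trans (by omega))
  intro y hy
  simp only [mem_filter, mem_univ, true_and, mem_union] at hy ⊢
  by_cases h : dt (y0 - y) (y0 - y) = 0
  · right
    refine ⟨?_, hy⟩
    simp only [dt_sub_left, dt_sub_right, hy, hy0, dt_comm y0 y] at h
    apply mul_left_cancel₀ h2
    linear_combination -h
  · exact Or.inl ⟨hy, h⟩

theorem card_circle (h2 : (2 : F) ≠ 0) {j t : F} (ht : j * j - t ^ 2 ≠ 0) {y : V F}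
    (hy : dt y y = j) (hj : j ≠ 0) :
    #{z : V F | dt z z = j ∧ dt y z = t} ≤ Fintype.card F + 2 := by
  set q := Fintype.card F
  have hq : 2 ≤ q := Fintype.one_lt_card
  rcases (univ.filter fun z : V F => dt z z = j ∧ dt y z = t).eq_empty_or_nonempty with
    h | ⟨z0, hz0⟩
  · rw [h]; simp
  have hz := (mem_filter.1 hz0).2
  have a := stereo z0 ((univ.filter fun z : V F => dt z z = j ∧ dt y z = t).erase z0)
    (univ.filter fun n : V F => dt n y = 0) ?_ ?_ (by simp [dt])
  · rw [card_plane (ne_zero_of_dt (hy ▸ hj)), card_erase_of_mem hz0] at a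
    have hc : q ^ 2 - 1 = (q + 1) * (q - 1) := by
      obtain ⟨r, hr⟩ : ∃ r, q = r + 1 := ⟨q - 1, by omega⟩
      rw [hr, Nat.add_sub_cancel]
      apply Nat.sub_eq_of_eq_add; ring
    rw [hc] at a
    have := le_of_mul_pred hq a
    omega
  · intro z hz'
    simp only [mem_erase, mem_filter, mem_univ, true_and] at hz'
    refine ⟨hz'.2.1.trans hz.1.symm, fun h => hz'.1 ?_⟩
    have p1 : dt (z0 - z) y = 0 := by
      rw [dt_sub_left, dt_comm z0, dt_comm z, hz.2, hz'.2.2, sub_self]
    have p2 : dt (z0 - z) z0 = 0 := by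
      simp only [dt_sub_left, dt_sub_right, hz.1, hz'.2.1, dt_comm z0 z] at h ⊢
      apply mul_left_cancel₀ h2
      linear_combination h
    have hG : dt y y * dt z0 z0 - dt y z0 ^ 2 ≠ 0 := by rw [hy, hz.1, hz.2]; exact ht
    have p3 : dt (z0 - z) (cr y z0) = 0 := by
      apply pow_eq_zero_iff (two_ne_zero) |>.1
      rw [gram, p1, p2, h]; ring
    exact (sub_eq_zero.1 (eq_zero_of_perp hG p1 p2 p3)).symm
  · intro z hz' s
    simp only [mem_erase, mem_filter, mem_univ, true_and] at hz' ⊢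
    rw [dt_smul_left, dt_sub_left, dt_comm z0, dt_comm z, hz.2, hz'.2.2, sub_self, mul_zero]

end Pool.Agent.Lib.MP_a460e0_co
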