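import Pool.Agent.Lib.MP_a460e0_co.GkRotA

/-! Rotations of the sphere as Moebius maps: a count of the rational ones. -/

namespace Pool.Agent.Lib.MP_a460e0_co.Gk.Rot

open Finset

variable {F K : Type*} [Field F] [Field K] [Algebra F K]

theorem Sys.map {x y : Fin 3 → F} {a : Fin 4 → K} (lam : K →ₗ[F] F)
    (s : Sys (fun k => algebraMap F K (x k)) (fun k => algebraMap F K (y k)) a) :
    Sys (fun k => algebraMap F K (x k)) (fun k => algebraMap F K (y k))
      (fun k => algebraMap F K (lam (a k))) := by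
  obtain ⟨s0, s1, s2, s3⟩ := s
  have e : ∀ (z : K) (c : F), lam (z * algebraMap F K c) = lam z * c := fun z c => by
    rw [mul_comm, ← Algebra.smul_def, map_smul, smul_eq_mul, mul_comm]
  simp only [← map_sub, ← map_add] at s0 s1 s2 s3
  have t0 := congrArg lam s0
  have t1 := congrArg lam s1
  have t2 := congrArg lam s2
  have t3 := congrArg lam s3
  simp only [map_add lam, map_sub lam, e, map_zero] at t0 t1 t2 t3
  refine ⟨?_, ?_, ?_, ?_⟩ <;> simp only [← map_sub, ← map_add, ← map_mul]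
  · rw [t0, map_zero]
  · rw [t1]
  · rw [t2]
  · rw [t3]

/-- Vectors whose first nonzero coordinate is one. -/
def Nrm {L : Type*} [Field L] (a : Fin 4 → L) : Prop := ∃ k, a k = 1 ∧ ∀ l < k, a l = 0

theorem Nrm.eq {a b : Fin 4 → K} (ha : Nrm a) (hb : Nrm b) {c : K} (h : a = c • b) : a = b := by
  obtain ⟨k, k1, k0⟩ := ha
  obtain ⟨l, l1, l0⟩ := hb
  have e : ∀ m, a m = c * b m := fun m => by rw [h]; rfl
  rcases lt_trichotomy k l with hkl | rfl | hkl
  · have := e k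
    rw [k1, l0 k hkl, mul_zero] at this
    exact absurd this one_ne_zero
  · have := e k
    rw [k1, l1, mul_one] at this
    rw [h, ← this, one_smul]
  · have h1 := e l
    have h2 := e k
    rw [k0 l hkl, l1, mul_one] at h1
    rw [k1, ← h1, zero_mul] at h2
    exact absurd h2 one_ne_zero

theorem exists_nrm {a : Fin 4 → K} (ha : a ≠ 0) : ∃ c : K, c ≠ 0 ∧ Nrm (c • a) := by
  classical
  have hne : (univ.filter fun k => a k ≠ 0).Nonempty := by
    obtain ⟨k, hk⟩ := Function.ne_iff.1 ha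
    exact ⟨k, mem_filter.2 ⟨mem_univ _, hk⟩⟩
  have h1 : a (min' _ hne) ≠ 0 := (mem_filter.1 (min'_mem _ hne)).2
  refine ⟨(a (min' _ hne))⁻¹, inv_ne_zero h1, min' _ hne, by simp [h1], fun l hl => ?_⟩
  have : a l = 0 := by
    by_contra h
    exact absurd (min'_le _ l (mem_filter.2 ⟨mem_univ _, h⟩)) (not_le.2 hl)
  simp [this]

open Classical in
theorem card_nrm [Fintype F] :
    #(univ.filter fun a : Fin 4 → F => Nrm a) ≤ 4 * Fintype.card F ^ 3 := by
  have h : ∀ k : Fin 4, #(univ.filter fun a : Fin 4 → F => a k = 1) ≤ Fintype.card F ^ 3 :=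
    fun k => by
    have : Fintype.card F ^ 3 = #(univ : Finset (Fin 3 → F)) := by simp
    rw [this]
    refine card_le_card_of_injOn (fun a => k.removeNth a) (fun _ _ => mem_coe.2 (mem_univ _))
      fun a ha b hb hab => ?_
    have ha := (mem_filter.1 (mem_coe.1 ha)).2
    have hb := (mem_filter.1 (mem_coe.1 hb)).2
    rw [← Fin.insertNth_self_removeNth k a, ← Fin.insertNth_self_removeNth k b, ha, hb]
    exact congrArg _ hab
  calc _ ≤ #((univ : Finset (Fin 4)).biUnion fun k => univ.filter fun a : Fin 4 → F => a k = 1) :=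
        card_le_card fun a ha => by
          obtain ⟨k, k1, -⟩ := (mem_filter.1 ha).2
          exact mem_biUnion.2 ⟨k, mem_univ _, mem_filter.2 ⟨mem_univ _, k1⟩⟩
    _ ≤ ∑ _k : Fin 4, Fintype.card F ^ 3 := card_biUnion_le.trans (sum_le_sum fun k _ => h k)
    _ = _ := by simp

/-- A set of at most `4 q^3` Moebius maps that realises every congruence of nondegenerate pairs. -/
theorem exists_GG_pt [Fintype F] (h2 : (2 : K) ≠ 0) {i r : K} (hi : i ^ 2 = -1) (hr : r ≠ 0) :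
    ∃ GG : Finset (Fin 4 → K), (∀ g ∈ GG, g 0 * g 3 - g 1 * g 2 ≠ 0) ∧
      (∀ g ∈ GG, ∀ g' ∈ GG, ∀ c : K, g = c • g' → g = g') ∧ #GG ≤ 4 * Fintype.card F ^ 3 ∧
      ∀ (x z y w : Fin 3 → F) (a b c d a' b' c' d' : K),
        Pt i r (fun k => algebraMap F K (x k)) a b → Pt i r (fun k => algebraMap F K (z k)) c d →
        Pt i r (fun k => algebraMap F K (y k)) a' b' →
        Pt i r (fun k => algebraMap F K (w k)) c' d' →
        a ≠ c → a ≠ d → b ≠ c → b ≠ d → ∑ k, (x k - z k) ^ 2 = ∑ k, (y k - w k) ^ 2 →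
        ∃ g ∈ GG, Mo g a a' ∧ Mo g b b' ∧ Mo g c c' ∧ Mo g d d' := by
  classical
  refine ⟨((univ.filter fun a : Fin 4 → F => Nrm a).image
    fun a => quat i fun k => algebraMap F K (a k)).filter fun g => g 0 * g 3 - g 1 * g 2 ≠ 0,
    fun g hg => (mem_filter.1 hg).2, fun g hg g' hg' c hc => ?_,
    (card_filter_le _ _).trans (card_image_le.trans (by convert card_nrm (F := F))),
    fun x z y w a b c d a' b' c' d' hx hz hy hw hac had hbc hbd hd => ?_⟩
  · obtain ⟨a, ha, rfl⟩ := mem_image.1 (mem_filter.1 hg).1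
    obtain ⟨b, hb, rfl⟩ := mem_image.1 (mem_filter.1 hg').1
    have n : ∀ a : Fin 4 → F, Nrm a → Nrm fun k => algebraMap F K (a k) :=
      fun a ⟨k, k1, k0⟩ => ⟨k, by simp [k1], fun l hl => by simp [k0 l hl]⟩
    rw [← quat_smul] at hc
    rw [(n a (mem_filter.1 ha).2).eq (n b (mem_filter.1 hb).2) (quat_inj hi h2 hc)]
  have hab := hx.ne h2 hr
  have hab' := hy.ne h2 hr
  have e1 := hx.dist hi hz
  have e2 := hy.dist hi hw
  have e3 := congrArg (algebraMap F K) hd
  simp only [Fin.sum_univ_three, map_add, map_pow, map_sub] at e3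
  have r4 : 4 * r ^ 2 ≠ 0 := mul_ne_zero (by
    rw [show (4 : K) = 2 * 2 by norm_num]; exact mul_ne_zero h2 h2) (pow_ne_zero 2 hr)
  obtain ⟨g, g0, m1, m2, m3, m4⟩ := moebius hab hac had hbc hbd hab' (hw.ne h2 hr)
    (mul_left_cancel₀ r4 (by
      linear_combination -((a' - b') * (c' - d')) * e1 + ((a - b) * (c - d)) * e2 +
        ((a - b) * (c - d) * ((a' - b') * (c' - d'))) * e3))
  obtain ⟨α, rfl⟩ := quat_surj hi h2 g
  have α0 : α ≠ 0 := by
    rintro rfl
    simp [quat] at g0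
  obtain ⟨κ, κ0, k, k1, k0⟩ := exists_nrm α0
  have n1 := m1.smul κ
  have n2 := m2.smul κ
  have n3 := m3.smul κ
  have n4 := m4.smul κ
  have d0 : (κ • quat i α) 0 * (κ • quat i α) 3 - (κ • quat i α) 1 * (κ • quat i α) 2 ≠ 0 := by
    simp only [Pi.smul_apply, smul_eq_mul]
    rw [show κ * quat i α 0 * (κ * quat i α 3) - κ * quat i α 1 * (κ * quat i α 2) =
      κ * κ * (quat i α 0 * quat i α 3 - quat i α 1 * quat i α 2) by ring]
    exact mul_ne_zero (mul_ne_zero κ0 κ0) g0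
  rw [← quat_smul] at n1 n2 n3 n4 d0
  generalize κ • α = β at k1 k0 n1 n2 n3 n4 d0
  obtain ⟨lam, l1⟩ : ∃ lam : K →ₗ[F] F, lam 1 = 1 := by
    obtain ⟨f, hf⟩ := Module.Projective.exists_dual_eq_one F (one_ne_zero (α := K))
    exact ⟨f, hf⟩
  obtain ⟨u1, u2⟩ := mo_of_sys hi hx hy ((sys_of_mo hi h2 hr hx hy n1 n2).map lam)
  obtain ⟨u3, -⟩ := mo_of_sys hi hz hw ((sys_of_mo hi h2 hr hz hw n3 n4).map lam)
  obtain ⟨μ, hμ⟩ := unique d0 hab hac hbc hab' n1 n2 n3 u1 u2 u3
  rw [← quat_smul] at hμ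
  have e4 := quat_inj hi h2 hμ
  have μ1 : μ = 1 := by
    have := congrFun e4 k
    simpa [k1, l1] using this.symm
  rw [μ1, one_smul] at e4
  refine ⟨quat i β, mem_filter.2 ⟨mem_image.2 ⟨fun m => lam (β m), mem_filter.2 ⟨mem_univ _, k,
    by simp [k1, l1], fun l hl => by simp [k0 l hl]⟩, by rw [e4]⟩, d0⟩, n1, n2, n3, n4⟩

/-- First coordinate of a point of the sphere. -/
noncomputable def al (i r : K) (x : Fin 3 → F) : K :=
  (algebraMap F K (x 2) + r) / (algebraMap F K (x 0) + i * algebraMap F K (x 1))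

/-- Second coordinate of a point of the sphere. -/
noncomputable def be (i r : K) (x : Fin 3 → F) : K :=
  (algebraMap F K (x 2) - r) / (algebraMap F K (x 0) + i * algebraMap F K (x 1))

theorem pt_al_be {i r : K} {j : F} (hr : r ^ 2 = algebraMap F K j) {x : Fin 3 → F}
    (hx : ∑ k, x k ^ 2 = j) (hd : algebraMap F K (x 0) + i * algebraMap F K (x 1) ≠ 0) :
    Pt i r (fun k => algebraMap F K (x k)) (al i r x) (be i r x) :=
  ⟨by rw [hr, ← hx, Fin.sum_univ_three]; simp, hd, div_mul_cancel₀ _ hd, div_mul_cancel₀ _ hd⟩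

theorem two_ne (hF : ringChar F ≠ 2) : (2 : K) ≠ 0 := by
  have : algebraMap F K 2 ≠ 0 := (map_ne_zero _).2 (Ring.two_ne_zero hF)
  rwa [map_ofNat] at this

/-- M1 and M2 in the coordinates `al`, `be`. -/
theorem exists_GG [Fintype F] (hF : ringChar F ≠ 2) {i r : K} (hi : i ^ 2 = -1) {j : F}
    (hj : j ≠ 0) (hr : r ^ 2 = algebraMap F K j) :
    ∃ GG : Finset (Fin 4 → K), (∀ g ∈ GG, g 0 * g 3 - g 1 * g 2 ≠ 0) ∧
      (∀ g ∈ GG, ∀ g' ∈ GG, ∀ c : K, g = c • g' → g = g') ∧ #GG ≤ 4 * Fintype.card F ^ 3 ∧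
      ∀ x z y w : Fin 3 → F,
        (∀ v ∈ [x, z, y, w], ∑ k, v k ^ 2 = j ∧
          algebraMap F K (v 0) + i * algebraMap F K (v 1) ≠ 0) →
        al i r x ≠ al i r z → al i r x ≠ be i r z → be i r x ≠ al i r z → be i r x ≠ be i r z →
        ∑ k, (x k - z k) ^ 2 = ∑ k, (y k - w k) ^ 2 →
        ∃ g ∈ GG, g 0 * al i r x + g 1 = al i r y * (g 2 * al i r x + g 3) ∧
          g 0 * be i r x + g 1 = be i r y * (g 2 * be i r x + g 3) ∧
          g 0 * al i r z + g 1 = al i r w * (g 2 * al i r z + g 3) ∧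
          g 0 * be i r z + g 1 = be i r w * (g 2 * be i r z + g 3) := by
  have r0 : r ≠ 0 := by
    rintro rfl
    exact (map_ne_zero (algebraMap F K)).2 hj (by rw [← hr]; simp)
  obtain ⟨GG, h1, h2, h3, h4⟩ := exists_GG_pt (F := F) (two_ne hF) hi r0
  refine ⟨GG, h1, h2, h3, fun x z y w hv => ?_⟩
  have p := fun v h => pt_al_be hr (hv v h).1 (hv v h).2
  exact h4 x z y w _ _ _ _ _ _ _ _ (p x (by simp)) (p z (by simp)) (p y (by simp)) (p w (by simp))

end Pool.Agent.Lib.MP_a460e0_co.Gk.Rot
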