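import Mathlib

set_option autoImplicit false

namespace Pool.Agent.MP_a460e0_co.GkCut

open MvPolynomial

/-- a prime of a polynomial ring with no prime strictly between it and zero misses the non zero
polynomials that avoid one suitable variable -/
theorem exists_var {K : Type*} [Field K] {s : ℕ} (p : Ideal (MvPolynomial (Fin (s + 1)) K))
    [p.IsPrime] (h : ∀ q : Ideal (MvPolynomial (Fin (s + 1)) K), q.IsPrime → q < p → q = ⊥) :
    ∃ i : Fin (s + 1), ∀ ψ ∈ p, degreeOf i ψ = 0 → ψ = 0 := by
  by_cases hp : p = ⊥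
  · exact ⟨0, fun ψ hψ _ => by simpa [hp] using hψ⟩
  obtain ⟨f, hfp, hf⟩ := Ideal.IsPrime.exists_mem_prime_of_ne_bot ‹p.IsPrime› hp
  have hspan : Ideal.span {f} = p := by
    by_contra hne
    have hle : Ideal.span {f} ≤ p := by simpa [Ideal.span_le] using hfp
    have := h _ ((Ideal.span_singleton_prime hf.ne_zero).mpr hf) (lt_of_le_of_ne hle hne)
    exact hf.ne_zero (Ideal.span_singleton_eq_bot.mp this)
  have hex : ∃ i, degreeOf i f ≠ 0 := by
    by_contra hall
    push Not at hall
    have h0 : f.totalDegree = 0 := by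
      rw [totalDegree_eq_zero_iff]
      intro m hm x
      have := monomial_le_degreeOf x hm
      rw [hall x] at this
      omega
    rw [totalDegree_eq_zero_iff_eq_C] at h0
    apply hf.not_unit
    rw [h0]
    have hc : coeff 0 f ≠ 0 := by
      intro hc
      apply hf.ne_zero
      rw [h0, hc, map_zero]
    exact (isUnit_iff_ne_zero.mpr hc).map C
  obtain ⟨i, hi⟩ := hex
  refine ⟨i, fun ψ hψ hd => ?_⟩
  rw [← hspan, Ideal.mem_span_singleton] at hψ
  obtain ⟨g, rfl⟩ := hψ
  by_contra hne
  have hg : g ≠ 0 := by rintro rfl; simp at hne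
  rw [degreeOf_mul_eq hf.ne_zero hg] at hd
  omega

/-- T4 for a domain -/
theorem dom_cut {K B : Type*} [Field K] [CommRing B] [IsDomain B] [Algebra K B]
    [Algebra.FiniteType K B] (S : Ideal B) [S.IsPrime] (hS : S.height ≤ 1) (r : ℕ)
    (u : Fin (r + 1) → B) (hu : AlgebraicIndependent K u) :
    ∃ v : Fin r → B, AlgebraicIndependent K (fun i => Ideal.Quotient.mk S (v i)) := by
  classical
  obtain ⟨s, g, hinj, hint⟩ := exists_integral_inj_algHom_of_fg K B
  letI : Algebra (MvPolynomial (Fin s) K) B := g.toRingHom.toAlgebra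
  haveI : IsScalarTower K (MvPolynomial (Fin s) K) B :=
    IsScalarTower.of_algebraMap_eq fun x => (g.commutes x).symm
  haveI : Algebra.IsIntegral (MvPolynomial (Fin s) K) B := ⟨hint⟩
  haveI : FaithfulSMul (MvPolynomial (Fin s) K) B :=
    (faithfulSMul_iff_algebraMap_injective _ _).mpr hinj
  have hb : IsTranscendenceBasis K (algebraMap (MvPolynomial (Fin s) K) B ∘ X) :=
    (IsTranscendenceBasis.mvPolynomial (Fin s) K).algebraMap_comp
  have hrs : r + 1 ≤ s := by
    have h1 := hu.lift_cardinalMk_le_trdeg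
    rw [← hb.lift_cardinalMk_eq_trdeg] at h1
    simpa using h1
  obtain ⟨s, rfl⟩ : ∃ s', s = s' + 1 := ⟨s - 1, by omega⟩
  have hrs' : r ≤ s := by omega
  obtain ⟨i, hi⟩ := exists_var (S.under (MvPolynomial (Fin (s + 1)) K)) (by
    intro q hq hlt
    by_contra hne
    obtain ⟨P, hPS, hP, hPo⟩ := S.exists_ideal_lt_liesOver_of_lt (p := q)
      (q := S.under (MvPolynomial (Fin (s + 1)) K)) hlt
    have hP0 : (⊥ : Ideal B) < P := by
      rw [bot_lt_iff_ne_bot]
      rintro rfl
      apply hne
      rw [hPo.over]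
      exact Ideal.under_bot _ _
    have h1 := Ideal.height_add_one_le_of_lt_of_isPrime hP0
    have h2 := Ideal.height_add_one_le_of_lt_of_isPrime hPS
    have h3 : (2 : ℕ∞) ≤ S.height := by
      calc (2 : ℕ∞) = 0 + 1 + 1 := by norm_num
        _ ≤ (⊥ : Ideal B).height + 1 + 1 := by gcongr; exact bot_le
        _ ≤ P.height + 1 := by gcongr
        _ ≤ S.height := h2
    exact absurd (h3.trans hS) (by norm_num))
  let ι : Fin r → Fin (s + 1) := fun j => i.succAbove (Fin.castLE hrs' j)
  have hι : Function.Injective ι :=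
    Fin.succAbove_right_injective.comp (Fin.castLE_injective hrs')
  refine ⟨fun j => g (X (ι j)), ?_⟩
  rw [algebraicIndependent_iff]
  intro ψ hψ
  have h1 : g (rename ι ψ) ∈ S := by
    rw [← Ideal.Quotient.eq_zero_iff_mem, ← hψ]
    have : ((Ideal.Quotient.mkₐ K S).comp (g.comp (rename ι))) =
        aeval (fun j => Ideal.Quotient.mk S (g (X (ι j)))) := by
      apply MvPolynomial.algHom_ext
      intro j
      simp
    exact congrArg (fun f : MvPolynomial (Fin r) K →ₐ[K] B ⧸ S => f ψ) this
  have h2 : rename ι ψ = 0 := by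
    apply hi _ h1
    by_contra hd
    have hv : i ∈ (rename ι ψ).vars := by
      rwa [mem_vars_iff_degreeOf_ne_zero]
    obtain ⟨j, -, hj⟩ := mem_vars_rename ι ψ hv
    exact Fin.succAbove_ne i _ hj
  exact rename_injective ι hι (by simpa using h2)

/-- T4: a minimal prime over a prime and one element loses at most one independent element -/
theorem cut_one {K A : Type*} [Field K] [CommRing A] [Algebra K A] [Algebra.FiniteType K A]
    (W S : Ideal A) [W.IsPrime] (φ : A) (hS : S ∈ (W ⊔ Ideal.span {φ}).minimalPrimes) (r : ℕ)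
    (h : ∃ u : Fin (r + 1) → A, AlgebraicIndependent K (fun i => Ideal.Quotient.mk W (u i))) :
    ∃ u : Fin r → A, AlgebraicIndependent K (fun i => Ideal.Quotient.mk S (u i)) := by
  obtain ⟨u, hu⟩ := h
  haveI : IsNoetherianRing A := Algebra.FiniteType.isNoetherianRing K A
  haveI : S.IsPrime := hS.isPrime
  have hWS : W ≤ S := le_sup_left.trans hS.le
  haveI : (S.map (Ideal.Quotient.mk W)).IsPrime :=
    Ideal.map_isPrime_of_surjective Ideal.Quotient.mk_surjective (W.mk_ker.trans_le hWS)
  obtain ⟨v, hv⟩ := dom_cut (K := K) (S.map (Ideal.Quotient.mk W))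
    (Ideal.map_height_le_one_of_mem_minimalPrimes hS) r _ hu
  choose w hw using fun j => Ideal.Quotient.mk_surjective (v j)
  refine ⟨w, ?_⟩
  rw [algebraicIndependent_iff] at hv ⊢
  intro ψ hψ
  apply hv
  have e1 : ∀ (I : Ideal A), aeval (fun j => Ideal.Quotient.mk I (w j)) ψ =
      Ideal.Quotient.mk I (aeval w ψ) := by
    intro I
    have : (Ideal.Quotient.mkₐ K I).comp (aeval w) =
        aeval (fun j => Ideal.Quotient.mk I (w j)) := by
      apply MvPolynomial.algHom_ext
      intro j
      simp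
    exact (congrArg (fun f : MvPolynomial (Fin r) K →ₐ[K] A ⧸ I => f ψ) this).symm
  have e2 : aeval (fun j => Ideal.Quotient.mk (S.map (Ideal.Quotient.mk W)) (v j)) ψ =
      Ideal.Quotient.mk (S.map (Ideal.Quotient.mk W)) (aeval v ψ) := by
    have : (Ideal.Quotient.mkₐ K (S.map (Ideal.Quotient.mk W))).comp (aeval v) =
        aeval (fun j => Ideal.Quotient.mk (S.map (Ideal.Quotient.mk W)) (v j)) := by
      apply MvPolynomial.algHom_ext
      intro j
      simp
    exact (congrArg (fun f : MvPolynomial (Fin r) K →ₐ[K] _ => f ψ) this).symm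
  rw [e2, Ideal.Quotient.eq_zero_iff_mem]
  rw [e1, Ideal.Quotient.eq_zero_iff_mem] at hψ
  have e3 : v = fun j => Ideal.Quotient.mk W (w j) := funext fun j => (hw j).symm
  rw [e3, e1]
  exact Ideal.mem_map_of_mem _ hψ

end Pool.Agent.MP_a460e0_co.GkCut
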