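import Mathlib

/-! Endgame, part A: restriction of a form to a line, calculus along the line. -/

namespace Pool.Agent.Lib.MP_a460e0_co.GkEnd

open MvPolynomial Finset

variable {K : Type} [Field K]

/-- restriction of a polynomial to the affine line `A + t B` -/
noncomputable def res (A B : Fin 4 → K) (G : MvPolynomial (Fin 4) K) : Polynomial K :=
  aeval (fun i => Polynomial.C (A i) + Polynomial.C (B i) * Polynomial.X) G

theorem res_C (A B : Fin 4 → K) (a : K) : res A B (C a) = Polynomial.C a := by simp [res]

theorem res_add (A B : Fin 4 → K) (p q : MvPolynomial (Fin 4) K) :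
    res A B (p + q) = res A B p + res A B q := map_add _ _ _

theorem res_mul (A B : Fin 4 → K) (p q : MvPolynomial (Fin 4) K) :
    res A B (p * q) = res A B p * res A B q := map_mul _ _ _

theorem res_X (A B : Fin 4 → K) (i : Fin 4) :
    res A B (X i) = Polynomial.C (A i) + Polynomial.C (B i) * Polynomial.X := aeval_X _ _

theorem res_eval (A B : Fin 4 → K) (G : MvPolynomial (Fin 4) K) (t : K) :
    (res A B G).eval t = eval (A + t • B) G := by
  induction G using MvPolynomial.induction_on with
  | C a => simp [res_C]
  | add p q hp hq => rw [res_add, Polynomial.eval_add, hp, hq, map_add]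
  | mul_X p i hp =>
    rw [res_mul, res_X, Polynomial.eval_mul, hp, map_mul, eval_X, Polynomial.eval_add,
      Polynomial.eval_mul, Polynomial.eval_C, Polynomial.eval_C, Polynomial.eval_X, Pi.add_apply,
      Pi.smul_apply, smul_eq_mul, mul_comm t]

theorem res_deriv (A B : Fin 4 → K) (G : MvPolynomial (Fin 4) K) :
    Polynomial.derivative (res A B G) = ∑ k, Polynomial.C (B k) * res A B (pderiv k G) := by
  induction G using MvPolynomial.induction_on with
  | C a => simp [res]
  | add p q hp hq =>
    simp only [res_add, map_add, mul_add, Finset.sum_add_distrib, hp, hq]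
  | mul_X p i hp =>
    have h1 : ∑ k, Polynomial.C (B k) * (res A B p * res A B (pderiv k (X i))) =
        Polynomial.C (B i) * res A B p := by
      rw [Finset.sum_eq_single i]
      · simp [res]
      · intro k _ hk
        rw [pderiv_X_of_ne (Ne.symm hk)]; simp [res]
      · simp
    have h2 : Polynomial.derivative (res A B (X i)) = Polynomial.C (B i) := by
      rw [res_X]; simp
    simp only [res_mul, res_add, Polynomial.derivative_mul, pderiv_mul, hp, h2, mul_add,
      Finset.sum_add_distrib, h1, Finset.sum_mul, mul_assoc]
    ring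

theorem res_natDegree_le (A B : Fin 4 → K) {G : MvPolynomial (Fin 4) K} {d : ℕ}
    (hG : G.IsHomogeneous d) : (res A B G).natDegree ≤ d := by
  have h := MvPolynomial.aeval_natDegree_le (m := d) (n := 1) G hG.totalDegree_le
    (fun i => Polynomial.C (A i) + Polynomial.C (B i) * Polynomial.X) (fun i => by
      compute_degree)
  simpa [res] using h

theorem eval_smul_hom {G : MvPolynomial (Fin 4) K} {d : ℕ} (hG : G.IsHomogeneous d)
    (s : K) (y : Fin 4 → K) : eval (s • y) G = s ^ d * eval y G := by
  rw [eval_eq', eval_eq', Finset.mul_sum]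
  refine Finset.sum_congr rfl fun m hm => ?_
  have h1 : ∑ i, m i = d := by
    have := hG (mem_support_iff.1 hm)
    rw [← this, Finsupp.weight_apply, Finsupp.sum_fintype _ _ (by simp)]
    simp
  simp only [Pi.smul_apply, smul_eq_mul, mul_pow, Finset.prod_mul_distrib,
    Finset.prod_pow_eq_pow_sum, h1]
  ring

theorem pderiv_comm (i j : Fin 4) (G : MvPolynomial (Fin 4) K) :
    pderiv i (pderiv j G) = pderiv j (pderiv i G) := by
  by_cases h : i = j
  · rw [h]
  ext m
  simp only [coeff_pderiv, Finsupp.add_apply, Finsupp.single_apply, if_neg h, if_neg (Ne.symm h),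
    add_zero]
  rw [add_right_comm]
  ring

theorem euler {G : MvPolynomial (Fin 4) K} {d : ℕ} (hG : G.IsHomogeneous d) (x : Fin 4 → K) :
    ∑ k, x k * eval x (pderiv k G) = d * eval x G := by
  have := congrArg (eval x) hG.sum_X_mul_pderiv
  simpa [map_sum] using this

theorem exists_pderiv_ne_zero {p : ℕ} [CharP K p] {G : MvPolynomial (Fin 4) K} {d : ℕ}
    (hG : G.IsHomogeneous d) (h0 : G ≠ 0) (hd : 0 < d) (hp : d < p) :
    ∃ i, pderiv i G ≠ 0 := by
  by_contra h
  push Not at h
  have e := hG.sum_X_mul_pderiv
  simp only [h, mul_zero, Finset.sum_const_zero] at e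
  have hd0 : (d : K) ≠ 0 := fun h' =>
    absurd (Nat.le_of_dvd hd ((CharP.cast_eq_zero_iff K p d).1 h')) (not_le.2 hp)
  rw [← Nat.cast_smul_eq_nsmul K] at e
  exact h0 ((smul_eq_zero.1 e.symm).resolve_left hd0)

theorem natDegree_eq_of_wronski {p : ℕ} [CharP K p] {f g : Polynomial K} (hf : f ≠ 0)
    (hg : g ≠ 0) (hfp : f.natDegree < p) (hgp : g.natDegree < p)
    (h : f * Polynomial.derivative g = g * Polynomial.derivative f) :
    f.natDegree = g.natDegree := by
  have key : ∀ u : Polynomial K, (Polynomial.X * Polynomial.derivative u).natDegree ≤ u.natDegree ∧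
      (Polynomial.X * Polynomial.derivative u).coeff u.natDegree = u.natDegree * u.leadingCoeff := by
    intro u
    rcases Nat.eq_zero_or_pos u.natDegree with h0 | h0
    · have : Polynomial.derivative u = 0 := Polynomial.derivative_of_natDegree_zero h0
      simp [this, h0]
    · constructor
      · refine Polynomial.natDegree_mul_le.trans ?_
        have := Polynomial.natDegree_derivative_le u
        have h2 := Polynomial.natDegree_X_le (R := K)
        omega
      · obtain ⟨n, hn⟩ : ∃ n, u.natDegree = n + 1 := ⟨u.natDegree - 1, by omega⟩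
        rw [Polynomial.leadingCoeff, hn, Polynomial.coeff_X_mul, Polynomial.coeff_derivative]
        push_cast; ring
  have h2 : f * (Polynomial.X * Polynomial.derivative g) =
      g * (Polynomial.X * Polynomial.derivative f) := by linear_combination Polynomial.X * h
  have h3 : (f * (Polynomial.X * Polynomial.derivative g)).coeff (f.natDegree + g.natDegree) =
      (g * (Polynomial.X * Polynomial.derivative f)).coeff (f.natDegree + g.natDegree) := by
    rw [h2]
  rw [Polynomial.coeff_mul_add_eq_of_natDegree_le le_rfl (key g).1, add_comm,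
    Polynomial.coeff_mul_add_eq_of_natDegree_le le_rfl (key f).1, (key g).2, (key f).2] at h3
  have hlf : f.leadingCoeff ≠ 0 := Polynomial.leadingCoeff_ne_zero.2 hf
  have hlg : g.leadingCoeff ≠ 0 := Polynomial.leadingCoeff_ne_zero.2 hg
  have h4 : (f.natDegree : K) = g.natDegree := by
    have : ((f.natDegree : K) - g.natDegree) * (f.leadingCoeff * g.leadingCoeff) = 0 := by
      simp only [Polynomial.leadingCoeff] at *
      linear_combination -h3
    exact sub_eq_zero.1 ((mul_eq_zero.1 this).resolve_right (mul_ne_zero hlf hlg))
  exact CharP.natCast_injOn_Iio K p hfp hgp h4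

theorem wronski {p : ℕ} [CharP K p] {f g : Polynomial K}
    (hfp : f.natDegree < p) (hgp : g.natDegree < p)
    (h : f * Polynomial.derivative g = g * Polynomial.derivative f) (t t' : K) :
    f.eval t * g.eval t' = g.eval t * f.eval t' := by
  by_cases hf : f = 0
  · simp [hf]
  by_cases hg : g = 0
  · simp [hg]
  have hd := natDegree_eq_of_wronski hf hg hfp hgp h
  have hlf : f.leadingCoeff ≠ 0 := Polynomial.leadingCoeff_ne_zero.2 hf
  set c := g.leadingCoeff / f.leadingCoeff with hc
  have hc0 : c ≠ 0 := div_ne_zero (Polynomial.leadingCoeff_ne_zero.2 hg) hlf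
  have h1 : g - Polynomial.C c * f = 0 := by
    by_contra h1
    have hlt : (g - Polynomial.C c * f).degree < g.degree := by
      refine Polynomial.degree_sub_lt_left ?_ hg ?_
      · rw [Polynomial.degree_C_mul hc0, Polynomial.degree_eq_natDegree hf,
          Polynomial.degree_eq_natDegree hg, hd]
      · rw [Polynomial.leadingCoeff_mul, Polynomial.leadingCoeff_C, hc, div_mul_cancel₀ _ hlf]
    have hlt' := Polynomial.natDegree_lt_natDegree h1 hlt
    have := natDegree_eq_of_wronski (p := p) hf h1 hfp (by omega) (by
      simp only [Polynomial.derivative_sub, Polynomial.derivative_mul, Polynomial.derivative_C]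
      linear_combination h)
    omega
  rw [sub_eq_zero.1 h1]
  simp only [Polynomial.eval_mul, Polynomial.eval_C]
  ring

end Pool.Agent.Lib.MP_a460e0_co.GkEnd
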