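import Pool.Agent.Lib.MP_a460e0_co.GkEndA

/-! Endgame, part B: flat points and flat lines. -/

namespace Pool.Agent.Lib.MP_a460e0_co.GkEnd

open MvPolynomial Finset

variable {K : Type} [Field K]

/-- `x` is on the affine part of the projective line spanned by `A, B` -/
def On (A B x : Fin 4 → K) : Prop := ∃ s t : K, s ≠ 0 ∧ x = s • (A + t • B)

/-- the gradient at `x` paired with `w` -/
noncomputable def gr (F : MvPolynomial (Fin 4) K) (x w : Fin 4 → K) : K :=
  ∑ i, w i * eval x (pderiv i F)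

/-- the Hessian form at `x` -/
noncomputable def hs (F : MvPolynomial (Fin 4) K) (x w w' : Fin 4 → K) : K :=
  ∑ m, w' m * gr (pderiv m F) x w

/-- the Hessian form vanishes on the tangent hyperplane -/
def Flat (F : MvPolynomial (Fin 4) K) (x : Fin 4 → K) : Prop :=
  ∀ w w', gr F x w = 0 → gr F x w' = 0 → hs F x w w' = 0

theorem gr_add (F : MvPolynomial (Fin 4) K) (x u v : Fin 4 → K) :
    gr F x (u + v) = gr F x u + gr F x v := by
  simp only [gr, Pi.add_apply, add_mul, Finset.sum_add_distrib]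

theorem gr_smul (F : MvPolynomial (Fin 4) K) (x u : Fin 4 → K) (c : K) :
    gr F x (c • u) = c * gr F x u := by
  simp only [gr, Pi.smul_apply, smul_eq_mul, Finset.mul_sum, mul_assoc]

theorem hs_symm (F : MvPolynomial (Fin 4) K) (x u v : Fin 4 → K) : hs F x u v = hs F x v u := by
  simp only [hs, gr, Finset.mul_sum]
  rw [Finset.sum_comm]
  refine Finset.sum_congr rfl fun i _ => Finset.sum_congr rfl fun j _ => ?_
  rw [pderiv_comm i j]; ring

theorem hs_add (F : MvPolynomial (Fin 4) K) (x u v w : Fin 4 → K) :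
    hs F x (u + v) w = hs F x u w + hs F x v w := by
  simp only [hs, gr_add, mul_add, Finset.sum_add_distrib]

theorem hs_smul (F : MvPolynomial (Fin 4) K) (x u w : Fin 4 → K) (c : K) :
    hs F x (c • u) w = c * hs F x u w := by
  simp only [hs, gr_smul, Finset.mul_sum]
  exact Finset.sum_congr rfl fun i _ => by ring

theorem hs_add' (F : MvPolynomial (Fin 4) K) (x u v w : Fin 4 → K) :
    hs F x w (u + v) = hs F x w u + hs F x w v := by
  rw [hs_symm, hs_add, hs_symm F x u, hs_symm F x v]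

theorem hs_smul' (F : MvPolynomial (Fin 4) K) (x u w : Fin 4 → K) (c : K) :
    hs F x w (c • u) = c * hs F x w u := by
  rw [hs_symm, hs_smul, hs_symm F x u]

variable {F : MvPolynomial (Fin 4) K} {d : ℕ}

theorem gr_self (hF : F.IsHomogeneous d) (x : Fin 4 → K) : gr F x x = d * eval x F :=
  euler hF x

theorem hs_self (hF : F.IsHomogeneous d) (x w : Fin 4 → K) :
    hs F x x w = ((d - 1 : ℕ) : K) * gr F x w := by
  simp only [hs, gr_self hF.pderiv]
  rw [gr, Finset.mul_sum]
  exact Finset.sum_congr rfl fun i _ => by ring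

theorem gr_scale (hF : F.IsHomogeneous d) (s : K) (y w : Fin 4 → K) :
    gr F (s • y) w = s ^ (d - 1) * gr F y w := by
  simp only [gr, eval_smul_hom hF.pderiv, Finset.mul_sum]
  exact Finset.sum_congr rfl fun i _ => by ring

theorem hs_scale (hF : F.IsHomogeneous d) (s : K) (y w w' : Fin 4 → K) :
    hs F (s • y) w w' = s ^ (d - 1 - 1) * hs F y w w' := by
  simp only [hs, gr_scale hF.pderiv, Finset.mul_sum]
  exact Finset.sum_congr rfl fun i _ => by ring

theorem deriv_eval (A B : Fin 4 → K) (G : MvPolynomial (Fin 4) K) (t : K) :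
    (Polynomial.derivative (res A B G)).eval t = gr G (A + t • B) B := by
  rw [res_deriv, Polynomial.eval_finsetSum, gr]
  simp only [Polynomial.eval_mul, Polynomial.eval_C, res_eval]

theorem On.eval_zero (hF : F.IsHomogeneous d) {A B x : Fin 4 → K} (h : On A B x)
    (hr : res A B F = 0) : eval x F = 0 := by
  obtain ⟨s, t, -, rfl⟩ := h
  rw [eval_smul_hom hF, ← res_eval, hr]; simp

theorem On.gr_dir (hF : F.IsHomogeneous d) {A B x : Fin 4 → K} (h : On A B x)
    (hr : res A B F = 0) : gr F x B = 0 := by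
  obtain ⟨s, t, -, rfl⟩ := h
  rw [gr_scale hF, ← deriv_eval, hr]; simp

theorem On.gr_base (hF : F.IsHomogeneous d) {A B x : Fin 4 → K} (h : On A B x)
    (hr : res A B F = 0) : gr F x A = 0 := by
  have h1 := gr_self hF x
  rw [h.eval_zero hF hr, mul_zero] at h1
  have h2 := h.gr_dir hF hr
  obtain ⟨s, t, hs, hx⟩ := h
  have h3 : gr F x (s • (A + t • B)) = 0 := by rw [← hx]; exact h1
  rw [gr_smul, gr_add, gr_smul, h2, mul_zero, add_zero] at h3
  exact (mul_eq_zero.1 h3).resolve_left hs

theorem On.hs_dir (hF : F.IsHomogeneous d) {A B x : Fin 4 → K} (h : On A B x)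
    (hr : res A B F = 0) : hs F x B B = 0 := by
  obtain ⟨s, t, -, rfl⟩ := h
  have h1 := res_deriv A B F
  rw [hr, Polynomial.derivative_zero] at h1
  have h2 := congrArg (fun u => (Polynomial.derivative u).eval t) h1
  simp only [Polynomial.derivative_zero, Polynomial.eval_zero, Polynomial.derivative_sum,
    Polynomial.derivative_mul, Polynomial.derivative_C, zero_mul, zero_add,
    Polynomial.eval_finsetSum, Polynomial.eval_mul, Polynomial.eval_C, deriv_eval] at h2
  rw [hs_scale hF, hs, ← h2, mul_zero]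

/-- three independent vectors of the tangent hyperplane span it -/
theorem span_tangent {x u v : Fin 4 → K} (hns : ∃ i, eval x (pderiv i F) ≠ 0)
    (hind : ∀ a b c : K, a • x + b • u + c • v = 0 → a = 0 ∧ b = 0 ∧ c = 0)
    (hx : gr F x x = 0) (hu : gr F x u = 0) (hv : gr F x v = 0) {w : Fin 4 → K}
    (hw : gr F x w = 0) : ∃ a b c : K, w = a • x + b • u + c • v := by
  let φ : Module.Dual K (Fin 4 → K) :=
    { toFun := gr F x, map_add' := gr_add F x, map_smul' := fun c y => gr_smul F x y c }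
  have hφ : φ ≠ 0 := by
    obtain ⟨i, hi⟩ := hns
    intro h0
    have : φ (Pi.single i 1) = 0 := by rw [h0]; rfl
    change gr F x (Pi.single i 1) = 0 at this
    rw [gr, Finset.sum_eq_single i (fun j _ hj => by simp [Pi.single_eq_of_ne hj]) (by simp)]
      at this
    simp only [Pi.single_eq_same, one_mul] at this
    exact hi this
  have h3 : Module.finrank K (LinearMap.ker φ) = 3 := by
    have := Module.Dual.finrank_ker_add_one_of_ne_zero hφ
    rw [Module.finrank_fin_fun] at this
    omega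
  have hli : LinearIndependent K ![x, u, v] := by
    rw [Fintype.linearIndependent_iff]
    intro g hg
    rw [Fin.sum_univ_three] at hg
    obtain ⟨h0, h1, h2⟩ := hind _ _ _ hg
    intro i
    fin_cases i
    · exact h0
    · exact h1
    · exact h2
  have hle : Submodule.span K (Set.range ![x, u, v]) ≤ LinearMap.ker φ := by
    rw [Submodule.span_le]
    rintro _ ⟨i, rfl⟩
    fin_cases i
    · exact hx
    · exact hu
    · exact hv
  have heq := Submodule.eq_of_le_of_finrank_eq hle (by
    rw [finrank_span_eq_card hli, h3]; simp)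
  have hw' : w ∈ Submodule.span K (Set.range ![x, u, v]) := by rw [heq]; exact hw
  obtain ⟨c, hc⟩ := (Submodule.mem_span_range_iff_exists_fun K).1 hw'
  rw [Fin.sum_univ_three] at hc
  exact ⟨c 0, c 1, c 2, hc.symm⟩

/-- `A', B'` lie in the span of `A, B` -/
def Sub (A B A' B' : Fin 4 → K) : Prop :=
  (∃ s t : K, A' = s • A + t • B) ∧ ∃ s t : K, B' = s • A + t • B

theorem sub_of_dir {A B A' B' x : Fin 4 → K} (h : On A B x) (h' : On A' B' x) {a b : K}
    (e : B' = a • x + b • B) : Sub A B A' B' := by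
  obtain ⟨s, t, -, hx⟩ := h
  obtain ⟨s', t', hs', hx'⟩ := h'
  have e1 : B' = (a * s) • A + (a * s * t + b) • B := by rw [e, hx]; module
  refine ⟨⟨s / s' - t' * (a * s), s * t / s' - t' * (a * s * t + b), ?_⟩, _, _, e1⟩
  have e2 : A' = s'⁻¹ • x - t' • B' := by
    rw [hx', smul_smul, inv_mul_cancel₀ hs', one_smul]; module
  rw [e2, e1, hx, div_eq_mul_inv, div_eq_mul_inv]; module

theorem sub_of_two {A B A' B' x y : Fin 4 → K} (h : On A B x) (h' : On A' B' x)
    (g : On A B y) (g' : On A' B' y) (hxy : ∀ c : K, x ≠ c • y) : Sub A B A' B' := by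
  obtain ⟨s, t, hs, hx⟩ := h
  obtain ⟨s2, t2, -, hy⟩ := g
  obtain ⟨s', t', hs', hx'⟩ := h'
  obtain ⟨s2', t2', hs2', hy'⟩ := g'
  have ht : t' - t2' ≠ 0 := by
    intro h0
    refine hxy (s' / s2') ?_
    rw [hx', hy', smul_smul, div_mul_cancel₀ _ hs2', sub_eq_zero.1 h0]
  have e1 : (t' - t2') • B' = s'⁻¹ • x - s2'⁻¹ • y := by
    rw [hx', hy', smul_smul, smul_smul, inv_mul_cancel₀ hs', inv_mul_cancel₀ hs2']; module
  have e2 : B' = (t' - t2')⁻¹ • (s'⁻¹ • x - s2'⁻¹ • y) := by
    rw [← e1, smul_smul, inv_mul_cancel₀ ht, one_smul]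
  have e3 : y = (s2 * s⁻¹) • x + (s2 * (t2 - t)) • B := by
    rw [hx, smul_smul, mul_assoc, inv_mul_cancel₀ hs, hy]; module
  refine sub_of_dir ⟨s, t, hs, hx⟩ ⟨s', t', hs', hx'⟩
    (a := (t' - t2')⁻¹ * (s'⁻¹ - s2'⁻¹ * (s2 * s⁻¹)))
    (b := -((t' - t2')⁻¹ * (s2'⁻¹ * (s2 * (t2 - t))))) ?_
  rw [e2, e3]; module

theorem flat_of_three (h2 : (2 : K) ≠ 0) (hF : F.IsHomogeneous d) {x A1 B1 A2 B2 A3 B3 : Fin 4 → K}
    (hns : ∃ i, eval x (pderiv i F) ≠ 0)
    (o1 : On A1 B1 x) (o2 : On A2 B2 x) (o3 : On A3 B3 x)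
    (r1 : res A1 B1 F = 0) (r2 : res A2 B2 F = 0) (r3 : res A3 B3 F = 0)
    (i1 : ∀ s t : K, s • A1 + t • B1 = 0 → s = 0 ∧ t = 0)
    (n12 : ¬ Sub A1 B1 A2 B2) (n13 : ¬ Sub A1 B1 A3 B3) (n23 : ¬ Sub A2 B2 A3 B3) :
    Flat F x := by
  have hx : gr F x x = 0 := by rw [gr_self hF, o1.eval_zero hF r1, mul_zero]
  have g1 := o1.gr_dir hF r1
  have g2 := o2.gr_dir hF r2
  have g3 := o3.gr_dir hF r3
  have q1 := o1.hs_dir hF r1
  have q2 := o2.hs_dir hF r2
  have q3 := o3.hs_dir hF r3
  have hind : ∀ a b c : K, a • x + b • B1 + c • B2 = 0 → a = 0 ∧ b = 0 ∧ c = 0 := by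
    intro a b c h
    have hc : c = 0 := by
      by_contra hc
      refine n12 (sub_of_dir o1 o2 (a := -(c⁻¹ * a)) (b := -(c⁻¹ * b)) ?_)
      have : B2 = c⁻¹ • (c • B2) := by rw [smul_smul, inv_mul_cancel₀ hc, one_smul]
      rw [this, eq_neg_of_add_eq_zero_right h]; module
    obtain ⟨s, t, hs, hx⟩ := o1
    rw [hc, zero_smul, add_zero, hx] at h
    obtain ⟨e1, e2⟩ := i1 (a * s) (a * s * t + b) (by rw [← h]; module)
    have ha : a = 0 := (mul_eq_zero.1 e1).resolve_right hs
    exact ⟨ha, by simpa [ha] using e2, hc⟩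
  have x0 : ∀ w, gr F x w = 0 → hs F x x w = 0 := fun w hw => by rw [hs_self hF, hw, mul_zero]
  have xx := x0 _ hx
  have x1 := x0 _ g1
  have x2 := x0 _ g2
  have x1' : hs F x B1 x = 0 := by rw [hs_symm]; exact x1
  have x2' : hs F x B2 x = 0 := by rw [hs_symm]; exact x2
  obtain ⟨a, b, c, e⟩ := span_tangent hns hind hx g1 g2 g3
  have hb : b ≠ 0 := fun hb => n23 (sub_of_dir o2 o3 (a := a) (b := c) (by rw [e, hb]; module))
  have hc : c ≠ 0 := fun hc => n13 (sub_of_dir o1 o3 (a := a) (b := b) (by rw [e, hc]; module))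
  have q12 : hs F x B1 B2 = 0 := by
    rw [e] at q3
    simp only [hs_add, hs_add', hs_smul, hs_smul', xx, x1, x2, x1', x2', q1, q2,
      hs_symm F x B2 B1] at q3
    have : 2 * b * c * hs F x B1 B2 = 0 := by linear_combination q3
    exact (mul_eq_zero.1 this).resolve_left (mul_ne_zero (mul_ne_zero h2 hb) hc)
  intro w w' hw hw'
  obtain ⟨a1, b1, c1, e1⟩ := span_tangent hns hind hx g1 g2 hw
  obtain ⟨a2, b2, c2, e2⟩ := span_tangent hns hind hx g1 g2 hw'
  rw [e1, e2]
  simp only [hs_add, hs_add', hs_smul, hs_smul', xx, x1, x2, x1', x2', q1, q2,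
    hs_symm F x B2 B1, q12, mul_zero, add_zero]

/-- the minors of the gradient and its derivative along a line -/
noncomputable def minor (F : MvPolynomial (Fin 4) K) (A B : Fin 4 → K) (i j : Fin 4) :
    Polynomial K :=
  res A B (pderiv i F) * Polynomial.derivative (res A B (pderiv j F)) -
    res A B (pderiv j F) * Polynomial.derivative (res A B (pderiv i F))

theorem minor_natDegree_le (hF : F.IsHomogeneous d) (A B : Fin 4 → K) (i j : Fin 4) :
    (minor F A B i j).natDegree ≤ 2 * (d - 1) := by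
  have h : ∀ i, (res A B (pderiv i F)).natDegree ≤ d - 1 := fun i => res_natDegree_le A B hF.pderiv
  have h' : ∀ i, (Polynomial.derivative (res A B (pderiv i F))).natDegree ≤ d - 1 := fun i =>
    (Polynomial.natDegree_derivative_le _).trans ((Nat.sub_le _ _).trans (h i))
  refine (Polynomial.natDegree_sub_le _ _).trans (max_le ?_ ?_)
  · exact Polynomial.natDegree_mul_le.trans (by have := h i; have := h' j; omega)
  · exact Polynomial.natDegree_mul_le.trans (by have := h j; have := h' i; omega)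

theorem minor_eval (hF : F.IsHomogeneous d) {A B : Fin 4 → K} {s t : K} (hs0 : s ≠ 0)
    (hfl : Flat F (s • (A + t • B))) (hr : res A B F = 0) (i j : Fin 4) :
    (minor F A B i j).eval t = 0 := by
  set y := A + t • B with hy
  have hB : gr F (s • y) B = 0 := On.gr_dir hF ⟨s, t, hs0, rfl⟩ hr
  have single : ∀ (f : Fin 4 → K) (k : Fin 4), ∑ m, (Pi.single k 1 : Fin 4 → K) m * f m = f k := by
    intro f k
    rw [Finset.sum_eq_single k (fun j _ hj => by simp [Pi.single_eq_of_ne hj]) (by simp)]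
    simp
  have g1 : ∀ k, gr F y (Pi.single k 1) = eval y (pderiv k F) := fun k => single _ k
  have g2 : ∀ k, hs F y B (Pi.single k 1) = gr (pderiv k F) y B := fun k => single _ k
  have h := hfl B (eval y (pderiv i F) • Pi.single j 1 + (-eval y (pderiv j F)) • Pi.single i 1) hB
    (by rw [gr_scale hF, gr_add, gr_smul, gr_smul, g1, g1]; ring)
  rw [hs_scale hF, hs_add', hs_smul', hs_smul', g2, g2] at h
  have h' := (mul_eq_zero.1 h).resolve_left (pow_ne_zero _ hs0)
  rw [minor, Polynomial.eval_sub, Polynomial.eval_mul, Polynomial.eval_mul, deriv_eval, deriv_eval,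
    res_eval, res_eval]
  linear_combination h'

/-- along a flat line the tangent hyperplane is constant -/
theorem flat_line {p : ℕ} [CharP K p] (hF : F.IsHomogeneous d) (hd : d - 1 < p)
    {A B x y : Fin 4 → K} (hm : ∀ i j, minor F A B i j = 0) (hx : On A B x) (hy : On A B y)
    (hns : ∃ i, eval x (pderiv i F) ≠ 0) {w : Fin 4 → K} (hw : gr F x w = 0) : gr F y w = 0 := by
  obtain ⟨s, t, hs0, rfl⟩ := hx
  obtain ⟨s', t', -, rfl⟩ := hy
  obtain ⟨i, hi⟩ := hns
  rw [eval_smul_hom hF.pderiv] at hi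
  have hi' := right_ne_zero_of_mul hi
  rw [gr_scale hF] at hw ⊢
  have hw' := (mul_eq_zero.1 hw).resolve_left (pow_ne_zero _ hs0)
  have h : ∀ i, (res A B (pderiv i F)).natDegree < p := fun i =>
    (res_natDegree_le A B hF.pderiv).trans_lt hd
  have key : ∀ j, eval (A + t • B) (pderiv i F) * eval (A + t' • B) (pderiv j F) =
      eval (A + t' • B) (pderiv i F) * eval (A + t • B) (pderiv j F) := by
    intro j
    have := wronski (h i) (h j) (sub_eq_zero.1 (hm i j)) t t'
    simp only [res_eval] at this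
    rw [this, mul_comm]
  have : eval (A + t • B) (pderiv i F) * gr F (A + t' • B) w =
      eval (A + t' • B) (pderiv i F) * gr F (A + t • B) w := by
    simp only [gr, Finset.mul_sum]
    exact Finset.sum_congr rfl fun j _ => by linear_combination w j * key j
  rw [hw', mul_zero] at this
  rw [(mul_eq_zero.1 this).resolve_left hi', mul_zero]

end Pool.Agent.Lib.MP_a460e0_co.GkEnd
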