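import Mathlib

/-! Rotations of the sphere as Moebius maps: the algebra. -/

namespace Pool.Agent.Lib.MP_a460e0_co.Gk.Rot

open Finset

variable {K : Type*} [Field K]

/-- `g` sends `a` to `a'` as a Moebius map (without division). -/
def Mo (g : Fin 4 → K) (a a' : K) : Prop := g 0 * a + g 1 = a' * (g 2 * a + g 3)

theorem Mo.smul {g : Fin 4 → K} {a a' : K} (h : Mo g a a') (c : K) : Mo (c • g) a a' := by
  unfold Mo at *
  simp only [Pi.smul_apply, smul_eq_mul]
  linear_combination c * h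

/-- The Moebius map through three points, when the cross ratios agree. -/
theorem moebius {a b c d a' b' c' d' : K} (hab : a ≠ b) (hac : a ≠ c) (had : a ≠ d)
    (hbc : b ≠ c) (hbd : b ≠ d) (hab' : a' ≠ b') (hcd' : c' ≠ d')
    (h : (a - c) * (b - d) * ((a' - b') * (c' - d')) =
      (a' - c') * (b' - d') * ((a - b) * (c - d))) :
    ∃ g : Fin 4 → K, g 0 * g 3 - g 1 * g 2 ≠ 0 ∧ Mo g a a' ∧ Mo g b b' ∧ Mo g c c' ∧ Mo g d d' := by
  have h1 : a' - c' ≠ 0 := fun e => by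
    rw [e, zero_mul, zero_mul] at h
    exact mul_ne_zero (mul_ne_zero (sub_ne_zero.2 hac) (sub_ne_zero.2 hbd))
      (mul_ne_zero (sub_ne_zero.2 hab') (sub_ne_zero.2 hcd')) h
  have h2 : b' - c' ≠ 0 := fun e => by
    have : (a - d) * (b - c) * ((a' - b') * (c' - d')) =
        (a' - d') * (b' - c') * ((a - b) * (c - d)) := by linear_combination h
    rw [e, mul_zero, zero_mul] at this
    exact mul_ne_zero (mul_ne_zero (sub_ne_zero.2 had) (sub_ne_zero.2 hbc))
      (mul_ne_zero (sub_ne_zero.2 hab') (sub_ne_zero.2 hcd')) this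
  set s := (c - a) * (b' - c') with hs
  set t := -((c - b) * (a' - c')) with ht
  have s0 : s ≠ 0 := mul_ne_zero (sub_ne_zero.2 hac.symm) h2
  have t0 : t ≠ 0 := neg_ne_zero.2 (mul_ne_zero (sub_ne_zero.2 hbc.symm) h1)
  refine ⟨![s * a' + t * b', -(s * a' * b) - t * b' * a, s + t, -(s * b) - t * a], ?_, ?_, ?_, ?_,
    ?_⟩
  · have : (s * a' + t * b') * (-(s * b) - t * a) - (-(s * a' * b) - t * b' * a) * (s + t) =
        -(s * t * ((a - b) * (a' - b'))) := by ring
    simp only [Matrix.cons_val_zero, Matrix.cons_val_one, Matrix.cons_val]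
    rw [this]
    exact neg_ne_zero.2 (mul_ne_zero (mul_ne_zero s0 t0)
      (mul_ne_zero (sub_ne_zero.2 hab) (sub_ne_zero.2 hab')))
  all_goals simp only [Mo, Matrix.cons_val_zero, Matrix.cons_val_one, Matrix.cons_val]
  · ring
  · ring
  · rw [hs, ht]; ring
  · rw [hs, ht]; linear_combination -h

/-- A Moebius map is determined up to a scalar by three points. -/
theorem unique {g g' : Fin 4 → K} {a b c a' b' c' : K} (hg : g 0 * g 3 - g 1 * g 2 ≠ 0)
    (hab : a ≠ b) (hac : a ≠ c) (hbc : b ≠ c) (hab' : a' ≠ b')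
    (ha : Mo g a a') (hb : Mo g b b') (hc : Mo g c c')
    (ka : Mo g' a a') (kb : Mo g' b b') (kc : Mo g' c c') : ∃ κ : K, g' = κ • g := by
  unfold Mo at *
  have w : a - b ≠ 0 := sub_ne_zero.2 hab
  have hd : (g 0 * g 3 - g 1 * g 2) * (a - b) =
      (a' - b') * ((g 2 * a + g 3) * (g 2 * b + g 3)) := by
    linear_combination (g 2 * b + g 3) * ha - (g 2 * a + g 3) * hb
  have l12 : (g 2 * a + g 3) * (g 2 * b + g 3) ≠ 0 := fun e => by
    rw [e, mul_zero] at hd
    exact mul_ne_zero hg w hd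
  have l1 := left_ne_zero_of_mul l12
  have l2 := right_ne_zero_of_mul l12
  have e : (g 2 * a + g 3) * ((c - b) * (a' - c')) = (g 2 * b + g 3) * ((c - a) * (b' - c')) := by
    linear_combination -(c - b) * ha + (c - a) * hb + (a - b) * hc
  have e' : (g' 2 * a + g' 3) * ((c - b) * (a' - c')) =
      (g' 2 * b + g' 3) * ((c - a) * (b' - c')) := by
    linear_combination -(c - b) * ka + (c - a) * kb + (a - b) * kc
  have y0 : (c - a) * (b' - c') ≠ 0 := fun h => by
    have h1 : b' - c' = 0 := (mul_eq_zero.1 h).resolve_left (sub_ne_zero.2 hac.symm)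
    rw [h, mul_zero] at e
    have h2 : a' - c' = 0 := (mul_eq_zero.1 ((mul_eq_zero.1 e).resolve_left l1)).resolve_left
      (sub_ne_zero.2 hbc.symm)
    exact hab' (by linear_combination h2 - h1)
  have q : (g 2 * a + g 3) * (g' 2 * b + g' 3) = (g' 2 * a + g' 3) * (g 2 * b + g 3) :=
    mul_right_cancel₀ y0 (by linear_combination (g' 2 * a + g' 3) * e - (g 2 * a + g 3) * e')
  obtain ⟨κ, k1⟩ : ∃ κ, g' 2 * a + g' 3 = κ * (g 2 * a + g 3) :=
    ⟨(g' 2 * a + g' 3) / (g 2 * a + g 3), (div_mul_cancel₀ _ l1).symm⟩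
  have k2 : g' 2 * b + g' 3 = κ * (g 2 * b + g 3) :=
    mul_left_cancel₀ l1 (by rw [q, k1]; ring)
  have r0 : g' 0 = κ * g 0 := mul_right_cancel₀ w (by
    linear_combination ka - kb - κ * ha + κ * hb + a' * k1 - b' * k2)
  have r2 : g' 2 = κ * g 2 := mul_right_cancel₀ w (by linear_combination k1 - k2)
  refine ⟨κ, funext fun k => ?_⟩
  fin_cases k
  · simpa using r0
  · have : g' 1 = κ * g 1 := by linear_combination ka - κ * ha + a' * k1 - a * r0
    simpa using this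
  · simpa using r2
  · have : g' 3 = κ * g 3 := by linear_combination k1 - a * r2
    simpa using this

/-- The matrix of a quaternion. -/
def quat (i : K) (a : Fin 4 → K) : Fin 4 → K :=
  ![a 0 + i * a 3, i * a 1 + a 2, i * a 1 - a 2, a 0 - i * a 3]

theorem quat_smul (i c : K) (a : Fin 4 → K) : quat i (c • a) = c • quat i a := by
  funext k
  fin_cases k <;> simp [quat] <;> ring

theorem quat_inj {i : K} (hi : i ^ 2 = -1) (h2 : (2 : K) ≠ 0) {a b : Fin 4 → K}
    (h : quat i a = quat i b) : a = b := by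
  have h0 : a 0 + i * a 3 = b 0 + i * b 3 := congrFun h 0
  have h1 : i * a 1 + a 2 = i * b 1 + b 2 := congrFun h 1
  have h3 : i * a 1 - a 2 = i * b 1 - b 2 := congrFun h 2
  have h4 : a 0 - i * a 3 = b 0 - i * b 3 := congrFun h 3
  funext k
  fin_cases k
  · exact mul_left_cancel₀ h2 (by simpa using (by linear_combination h0 + h4 : 2 * a 0 = 2 * b 0))
  · exact mul_left_cancel₀ h2 (by
      simpa using (by linear_combination -i * (h1 + h3) + 2 * (a 1 - b 1) * hi :
        2 * a 1 = 2 * b 1))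
  · exact mul_left_cancel₀ h2 (by simpa using (by linear_combination h1 - h3 : 2 * a 2 = 2 * b 2))
  · exact mul_left_cancel₀ h2 (by
      simpa using (by linear_combination -i * (h0 - h4) + 2 * (a 3 - b 3) * hi :
        2 * a 3 = 2 * b 3))

theorem quat_surj {i : K} (hi : i ^ 2 = -1) (h2 : (2 : K) ≠ 0) (g : Fin 4 → K) :
    ∃ a, quat i a = g := by
  refine ⟨![(g 0 + g 3) / 2, -i * (g 1 + g 2) / 2, (g 1 - g 2) / 2, -i * (g 0 - g 3) / 2], ?_⟩
  funext k
  fin_cases k <;> simp [quat] <;> field_simp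
  · linear_combination -(g 0 - g 3) * hi
  · linear_combination -(g 1 + g 2) * hi
  · linear_combination -(g 1 + g 2) * hi
  · linear_combination (g 0 - g 3) * hi

/-- The quaternion `a` conjugates `x` to `y`. -/
def Sys (x y : Fin 3 → K) (a : Fin 4 → K) : Prop :=
  a 1 * (x 0 - y 0) + a 2 * (x 1 - y 1) + a 3 * (x 2 - y 2) = 0 ∧
  a 0 * (x 0 - y 0) = a 2 * (x 2 + y 2) - a 3 * (x 1 + y 1) ∧
  a 0 * (x 1 - y 1) = a 3 * (x 0 + y 0) - a 1 * (x 2 + y 2) ∧
  a 0 * (x 2 - y 2) = a 1 * (x 1 + y 1) - a 2 * (x 0 + y 0)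

/-- `p, q` are the two isotropic coordinates of the point `x` of the sphere of radius `r`. -/
structure Pt (i r : K) (x : Fin 3 → K) (p q : K) : Prop where
  sph : x 0 ^ 2 + x 1 ^ 2 + x 2 ^ 2 = r ^ 2
  den : x 0 + i * x 1 ≠ 0
  al : p * (x 0 + i * x 1) = x 2 + r
  be : q * (x 0 + i * x 1) = x 2 - r

theorem Pt.al' {i r p q : K} {x : Fin 3 → K} (hi : i ^ 2 = -1) (h : Pt i r x p q) :
    x 2 * p + (x 0 - i * x 1) = r * p :=
  mul_right_cancel₀ h.den (by linear_combination (x 2 - r) * h.al + h.sph - x 1 ^ 2 * hi)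

theorem Pt.be' {i r p q : K} {x : Fin 3 → K} (hi : i ^ 2 = -1) (h : Pt i r x p q) :
    x 2 * q + (x 0 - i * x 1) = -r * q :=
  mul_right_cancel₀ h.den (by linear_combination (x 2 + r) * h.be + h.sph - x 1 ^ 2 * hi)

theorem Pt.ne {i r p q : K} {x : Fin 3 → K} (h2 : (2 : K) ≠ 0) (hr : r ≠ 0) (h : Pt i r x p q) :
    p ≠ q := fun e => mul_ne_zero h2 hr (by rw [e] at h; linear_combination h.be - h.al)

theorem Pt.dist {i r p q p' q' : K} {x y : Fin 3 → K} (hi : i ^ 2 = -1) (h : Pt i r x p q)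
    (k : Pt i r y p' q') :
    ((x 0 - y 0) ^ 2 + (x 1 - y 1) ^ 2 + (x 2 - y 2) ^ 2) * ((p - q) * (p' - q')) =
      4 * r ^ 2 * ((p - p') * (q - q')) := by
  have e1 : (p - q) * (p' - q') * ((x 0 + i * x 1) * (y 0 + i * y 1)) = 4 * r ^ 2 := by
    linear_combination (p' - q') * (y 0 + i * y 1) * (h.al - h.be) + 2 * r * (k.al - k.be)
  have e2 : (p - p') * (q - q') * ((x 0 + i * x 1) * (y 0 + i * y 1)) =
      (x 0 - y 0) ^ 2 + (x 1 - y 1) ^ 2 + (x 2 - y 2) ^ 2 := by
    have a1 := h.al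
    have a2 := h.be
    have a3 := k.al
    have a4 := k.be
    have b2 := h.be' hi
    have b4 := k.be' hi
    linear_combination (q * (y 0 + i * y 1)) * a1 + (y 0 + i * y 1) * b2
      + (q' * (x 0 + i * x 1)) * a3 + (x 0 + i * x 1) * b4
      - (q' * (y 0 + i * y 1)) * a1 - (x 2 + r) * a4
      - (q * (x 0 + i * x 1)) * a3 - (y 2 + r) * a2 - h.sph - k.sph + 2 * x 1 * y 1 * hi
  rw [← e1, ← e2]
  ring

theorem mo_of_sys {i r p q p' q' : K} {x y : Fin 3 → K} {a : Fin 4 → K} (hi : i ^ 2 = -1)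
    (h : Pt i r x p q) (k : Pt i r y p' q') (s : Sys x y a) :
    Mo (quat i a) p p' ∧ Mo (quat i a) q q' := by
  obtain ⟨s0, s1, s2, s3⟩ := s
  have m0 : (i * a 1 - a 2) * x 2 + (a 0 - i * a 3) * (x 0 + i * x 1) =
      (y 0 + i * y 1) * (a 0 + i * a 3) - y 2 * (i * a 1 - a 2) := by
    linear_combination s1 + i * s2 - a 3 * (x 1 + y 1) * hi
  have m1 : (i * a 1 - a 2) * (x 0 - i * x 1) - (a 0 - i * a 3) * x 2 =
      (y 0 + i * y 1) * (i * a 1 + a 2) - y 2 * (a 0 - i * a 3) := by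
    linear_combination i * s0 - s3 - a 1 * (x 1 + y 1) * hi
  constructor
  · refine mul_right_cancel₀ k.den ?_
    show ((a 0 + i * a 3) * p + (i * a 1 + a 2)) * _ =
      p' * ((i * a 1 - a 2) * p + (a 0 - i * a 3)) * _
    linear_combination -p * m0 - m1 + (i * a 1 - a 2) * h.al' hi + (a 0 - i * a 3) * h.al
      - ((i * a 1 - a 2) * p + (a 0 - i * a 3)) * k.al
  · refine mul_right_cancel₀ k.den ?_
    show ((a 0 + i * a 3) * q + (i * a 1 + a 2)) * _ =
      q' * ((i * a 1 - a 2) * q + (a 0 - i * a 3)) * _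
    linear_combination -q * m0 - m1 + (i * a 1 - a 2) * h.be' hi + (a 0 - i * a 3) * h.be
      - ((i * a 1 - a 2) * q + (a 0 - i * a 3)) * k.be

theorem sys_of_mo {i r p q p' q' : K} {x y : Fin 3 → K} {a : Fin 4 → K} (hi : i ^ 2 = -1)
    (h2 : (2 : K) ≠ 0) (hr : r ≠ 0) (h : Pt i r x p q) (k : Pt i r y p' q')
    (hp : Mo (quat i a) p p') (hq : Mo (quat i a) q q') : Sys x y a := by
  have w : p - q ≠ 0 := sub_ne_zero.2 (h.ne h2 hr)
  set g0 := a 0 + i * a 3 with e0
  set g1 := i * a 1 + a 2 with e1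
  set g2 := i * a 1 - a 2 with e2
  set g3 := a 0 - i * a 3 with e3
  have hp : g0 * p + g1 = p' * (g2 * p + g3) := hp
  have hq : g0 * q + g1 = q' * (g2 * q + g3) := hq
  set u := x 0 + i * x 1 with hu
  set v := x 0 - i * x 1 with hv
  set u' := y 0 + i * y 1 with hu'
  set v' := y 0 - i * y 1 with hv'
  have a1 : p * u = x 2 + r := h.al
  have a2 : q * u = x 2 - r := h.be
  have a3 : p' * u' = y 2 + r := k.al
  have a4 : q' * u' = y 2 - r := k.be
  have b1 : x 2 * p + v = r * p := h.al' hi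
  have b2 : x 2 * q + v = -r * q := h.be' hi
  have b3 : y 2 * p' + v' = r * p' := k.al' hi
  have b4 : y 2 * q' + v' = -r * q' := k.be' hi
  have p0 : (g0 * x 2 + g1 * u - (y 2 * g0 + v' * g2)) * p +
      (g0 * v - g1 * x 2 - (y 2 * g1 + v' * g3)) = 0 := by
    linear_combination g0 * b1 + g1 * a1 + (r - y 2) * hp - (g2 * p + g3) * b3
  have q0 : (g0 * x 2 + g1 * u - (y 2 * g0 + v' * g2)) * q +
      (g0 * v - g1 * x 2 - (y 2 * g1 + v' * g3)) = 0 := by
    linear_combination g0 * b2 + g1 * a2 + (-r - y 2) * hq - (g2 * q + g3) * b4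
  have p1 : (g2 * x 2 + g3 * u - (u' * g0 - y 2 * g2)) * p +
      (g2 * v - g3 * x 2 - (u' * g1 - y 2 * g3)) = 0 := by
    linear_combination g2 * b1 + g3 * a1 - u' * hp - (g2 * p + g3) * a3
  have q1 : (g2 * x 2 + g3 * u - (u' * g0 - y 2 * g2)) * q +
      (g2 * v - g3 * x 2 - (u' * g1 - y 2 * g3)) = 0 := by
    linear_combination g2 * b2 + g3 * a2 - u' * hq - (g2 * q + g3) * a4
  have m00 : g0 * x 2 + g1 * u - (y 2 * g0 + v' * g2) = 0 :=
    (mul_eq_zero.1 (by linear_combination p0 - q0)).resolve_right w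
  have m10 : g2 * x 2 + g3 * u - (u' * g0 - y 2 * g2) = 0 :=
    (mul_eq_zero.1 (by linear_combination p1 - q1)).resolve_right w
  rw [m00, zero_mul, zero_add] at p0
  rw [m10, zero_mul, zero_add] at p1
  simp only [e0, e1, e2, e3, hu, hv, hu', hv'] at m00 m10 p0 p1
  refine ⟨mul_left_cancel₀ h2 ?_, mul_left_cancel₀ h2 ?_, mul_left_cancel₀ h2 ?_,
    mul_left_cancel₀ h2 ?_⟩
  · linear_combination -i * (m00 + p1) +
      2 * (a 1 * (x 0 - y 0) + a 2 * (x 1 - y 1) + a 3 * (x 2 - y 2)) * hi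
  · linear_combination p0 + m10 + 2 * a 3 * (x 1 + y 1) * hi
  · linear_combination i * (p0 - m10) +
      2 * (a 0 * (x 1 - y 1) - a 3 * (x 0 + y 0) + a 1 * (x 2 + y 2)) * hi
  · linear_combination m00 - p1 - 2 * a 1 * (x 1 + y 1) * hi

end Pool.Agent.Lib.MP_a460e0_co.Gk.Rot
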