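import Pool.Agent.Lib.MP_a460e0_co.BrA
import Pool.Agent.Lib.MP_a460e0_co.Main

/-! Counting in a finite quadratic space. -/

namespace Pool.Agent.Lib.MP_a460e0_co.Sl

open Finset ComplexConjugate Br

variable {F : Type} [Field F] [Fintype F] [DecidableEq F]
  {V : Type} [AddCommGroup V] [Module F V] [Fintype V] [DecidableEq V]

/-- symmetric and nondegenerate -/
structure Nd (B : V →ₗ[F] V →ₗ[F] F) : Prop where
  symm : ∀ x y, B x y = B y x
  nd : ∀ v, (∀ u, B v u = 0) → v = 0

variable {B : V →ₗ[F] V →ₗ[F] F}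

omit [Fintype F] [DecidableEq F] [Fintype V] [DecidableEq V] in
theorem Nd.dual (h : Nd B) {v : V} (hv : v ≠ 0) : ∃ u, B v u = 1 := by
  obtain ⟨u, hu⟩ := not_forall.1 fun h' => hv (h.nd v h')
  exact ⟨(B v u)⁻¹ • u, by rw [map_smul, smul_eq_mul, inv_mul_cancel₀ hu]⟩

theorem Nd.orth (h : Nd B) (v : V) :
    ∑ u, ps F (B v u) = if v = 0 then (Fintype.card V : ℂ) else 0 := by
  split_ifs with hv
  · simp [hv]
  obtain ⟨u, hu⟩ := h.dual hv
  have e : ∀ t : F, ∑ y, ps F (B v y) = ps F (t * 1) * ∑ y, ps F (B v y) := fun t => by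
    rw [mul_sum, ← Equiv.sum_comp (Equiv.addLeft (t • u))]
    refine sum_congr rfl fun y _ => ?_
    rw [Equiv.coe_addLeft, map_add, map_smul, hu, ps_add, smul_eq_mul]
  have := sum_congr (rfl : (univ : Finset F) = univ) fun t _ => e t
  rw [← sum_mul, ps_sum, if_neg one_ne_zero, zero_mul, sum_const, card_univ, nsmul_eq_mul] at this
  exact (mul_eq_zero.1 this).resolve_left (Nat.cast_ne_zero.2 Fintype.card_ne_zero)

theorem Nd.gauss (h : Nd B) (h2 : (2 : F) ≠ 0) {s : F} (hs : s ≠ 0) (x : V) :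
    ‖∑ w, ps F (s * B w w + B w x)‖ = √(Fintype.card V) := by
  rw [← Real.sqrt_sq (norm_nonneg _)]
  congr 1
  apply Complex.ofReal_injective
  rw [Complex.ofReal_pow, ← Complex.mul_conj', map_sum, mul_sum]
  have e : ∀ w', (∑ w, ps F (s * B w w + B w x)) * conj (ps F (s * B w' w' + B w' x)) =
      ∑ v, ps F (s * B v v + B v x) * ps F (B ((2 * s) • v) w') := fun w' => by
    rw [sum_mul, ← Equiv.sum_comp (Equiv.addRight w')]
    refine sum_congr rfl fun v _ => ?_
    rw [ps_conj, ← ps_add, ← ps_add]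
    congr 1
    simp only [Equiv.coe_addRight, map_add, LinearMap.add_apply, map_smul, LinearMap.smul_apply,
      smul_eq_mul, h.symm w' v]
    ring
  simp only [e]
  rw [sum_comm]
  simp only [← mul_sum, h.orth, smul_eq_zero, mul_eq_zero, h2, hs, false_or]
  rw [sum_eq_single 0 (fun v _ hv => by simp [hv]) (by simp)]
  simp

omit [AddCommGroup V] [Module F V] [DecidableEq V] in
theorem count1 (f : V → F) :
    (Fintype.card F * #{y | f y = 0} : ℂ) = ∑ s, ∑ y, ps F (s * f y) := by
  rw [sum_comm]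
  simp only [ps_sum]
  rw [← sum_filter, sum_const, nsmul_eq_mul, mul_comm]

omit [AddCommGroup V] [Module F V] [DecidableEq V] in
theorem count2 (f g : V → F) : (Fintype.card F ^ 2 * #{y | f y = 0 ∧ g y = 0} : ℂ) =
    ∑ s, ∑ t, ∑ y, ps F (s * f y + t * g y) := by
  have e : ∀ y, ∑ s, ∑ t, ps F (s * f y + t * g y) =
      if f y = 0 ∧ g y = 0 then (Fintype.card F ^ 2 : ℂ) else 0 := fun y => by
    simp only [ps_add, ← mul_sum, ← sum_mul, ps_sum]
    by_cases a : f y = 0 <;> by_cases b : g y = 0 <;> simp [a, b, sq]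
  rw [sum_congr rfl fun s _ => sum_comm, sum_comm]
  simp only [e]
  rw [← sum_filter, sum_const, nsmul_eq_mul, mul_comm]

theorem Nd.lin1 (h : Nd B) {x : V} (hx : x ≠ 0) (a : F) :
    Fintype.card F * #{y | B x y = a} = Fintype.card V := by
  have e := count1 fun y => B x y - a
  have e2 : ∀ s : F, ∑ y, ps F (s * (B x y - a)) =
      ps F (-(s * a)) * if s • x = 0 then (Fintype.card V : ℂ) else 0 := fun s => by
    rw [← h.orth, mul_sum]
    refine sum_congr rfl fun y _ => ?_
    rw [← ps_add]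
    congr 1
    simp only [map_smul, LinearMap.smul_apply, smul_eq_mul]
    ring
  simp only [e2, sub_eq_zero] at e
  rw [sum_eq_single 0 (fun s _ hs => by simp [hs, hx]) (by simp)] at e
  simp only [zero_mul, neg_zero, ps_zero, zero_smul, if_true, one_mul] at e
  exact_mod_cast e

theorem Nd.lin2 (h : Nd B) {x x' : V} (hx : ∀ s t : F, s • x + t • x' = 0 → s = 0 ∧ t = 0)
    (a b : F) : Fintype.card F ^ 2 * #{y | B x y = a ∧ B x' y = b} = Fintype.card V := by
  have e := count2 (fun y => B x y - a) fun y => B x' y - b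
  have e2 : ∀ s t : F, ∑ y, ps F (s * (B x y - a) + t * (B x' y - b)) =
      ps F (-(s * a + t * b)) * if s • x + t • x' = 0 then (Fintype.card V : ℂ) else 0 :=
    fun s t => by
    rw [← h.orth, mul_sum]
    refine sum_congr rfl fun y _ => ?_
    rw [← ps_add]
    congr 1
    simp only [map_add, LinearMap.add_apply, map_smul, LinearMap.smul_apply, smul_eq_mul]
    ring
  simp only [e2, sub_eq_zero] at e
  rw [sum_eq_single 0 (fun s _ hs => sum_eq_zero fun t _ => by
      rw [if_neg fun c => hs (hx s t c).1, mul_zero]) (by simp),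
    sum_eq_single 0 (fun t _ ht => by rw [if_neg fun c => ht (hx 0 t c).2, mul_zero])
      (by simp)] at e
  simp only [zero_mul, add_zero, neg_zero, ps_zero, zero_smul, if_true, one_mul] at e
  exact_mod_cast e

omit [Field F] in
theorem near [Zero F] {c Q M : ℝ} {g : F → ℂ} (e : (c : ℂ) = ∑ s, g s) (h0 : g 0 = Q) (M0 : 0 ≤ M)
    (h : ∀ s ≠ 0, ‖g s‖ ≤ M) : |c - Q| ≤ Fintype.card F * M := by
  rw [← add_sum_erase _ _ (mem_univ 0), h0, ← sub_eq_iff_eq_add'] at e
  rw [← Real.norm_eq_abs, ← Complex.norm_real, Complex.ofReal_sub, e]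
  refine (norm_sum_le _ _).trans ((sum_le_card_nsmul _ _ M fun s hs => h s (ne_of_mem_erase hs)).trans ?_)
  rw [nsmul_eq_mul]
  gcongr
  exact_mod_cast card_le_univ _

theorem Nd.iso_le (h : Nd B) (h2 : (2 : F) ≠ 0) : (Fintype.card F * #{w | B w w = 0} : ℝ) ≤
    Fintype.card V + Fintype.card F * √(Fintype.card V) := by
  have := near (c := Fintype.card F * #{w | B w w = 0}) (Q := Fintype.card V)
    (by push_cast; exact count1 fun w => B w w) (by simp) (Real.sqrt_nonneg _)
    fun s hs => by simpa using (h.gauss h2 hs 0).le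
  linarith [(abs_le.1 this).2]

theorem Nd.iso_perp (h : Nd B) (h2 : (2 : F) ≠ 0) {x : V} (hx : x ≠ 0) :
    (Fintype.card V - Fintype.card F * (Fintype.card F * √(Fintype.card V)) : ℝ) ≤
      Fintype.card F ^ 2 * #{w | B w w = 0 ∧ B x w = 0} := by
  have := near (c := Fintype.card F ^ 2 * #{w | B w w = 0 ∧ B x w = 0}) (Q := Fintype.card V)
    (M := Fintype.card F * √(Fintype.card V))
    (by push_cast; exact count2 (fun w => B w w) fun w => B x w) (by
      have e : ∀ t : F, ∑ y, ps F (0 * B y y + t * B x y) =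
          if t • x = 0 then (Fintype.card V : ℂ) else 0 := fun t => by
        rw [← h.orth]
        simp
      simp only [e]
      rw [sum_eq_single 0 (fun s _ hs => by simp [hs, hx]) (by simp)]
      simp) (by positivity) fun s hs => by
      refine (norm_sum_le _ _).trans ((sum_le_card_nsmul _ _ _ fun t _ => ?_).trans_eq
        (by rw [nsmul_eq_mul, card_univ]))
      refine le_of_eq ((congrArg norm (sum_congr rfl fun w _ => ?_)).trans (h.gauss h2 hs (t • x)))
      rw [map_smul, smul_eq_mul, h.symm x w]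
  linarith [(abs_le.1 this).1]

/-- the number of pairs at distance zero -/
theorem Nd.zero_pairs (h : Nd B) (h2 : (2 : F) ≠ 0) {j : F} (hj : j ≠ 0) {E : Finset V}
    (hE : ∀ x ∈ E, B x x = j) {P : ℝ} (P0 : 0 ≤ P)
    (hP : (Fintype.card V : ℝ) = Fintype.card F * P ^ 2) :
    (∑ y ∈ E, #{x ∈ E | B x y = j} : ℕ) ≤ #E ^ 2 / (Fintype.card F : ℝ) + #E * P := by
  have q0 : (0 : ℝ) < Fintype.card F := by exact_mod_cast Fintype.card_pos
  have x0 : ∀ x ∈ E, x ≠ 0 := fun x hx c => hj (by rw [← hE x hx, c, map_zero])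
  have c1 : ∀ x ∈ E, (#{y | B x y = j} : ℝ) = P ^ 2 := fun x hx =>
    mul_left_cancel₀ q0.ne' (by rw [← hP]; exact_mod_cast h.lin1 (x0 x hx) j)
  have c2 : ∀ x ∈ E, ∀ x' ∈ E, (#{y | B x y = j ∧ B x' y = j} : ℝ) ≤
      (if x = x' then P ^ 2 else 0) + P ^ 2 / Fintype.card F := fun x hx x' hx' => by
    split_ifs with e
    · simp only [← e, and_self, c1 x hx, le_add_iff_nonneg_right]
      positivity
    by_cases e' : x' = -x
    · rw [filter_eq_empty_iff.2, card_empty, Nat.cast_zero]
      · positivity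
      · rintro y - ⟨a, b⟩
        rw [e', map_neg, LinearMap.neg_apply, a] at b
        exact hj ((mul_eq_zero.1 (show 2 * j = 0 by linear_combination -b)).resolve_left h2)
    have := h.lin2 (x := x) (x' := x') (fun s t c => by
      have c' : s • x = -(t • x') := eq_neg_of_add_eq_zero_left c
      have d : (s - t) * (s + t) * j = 0 := by
        have := congrArg₂ (fun a b => B a b) c' c'
        simp only [map_smul, LinearMap.smul_apply, smul_eq_mul, map_neg, LinearMap.neg_apply,
          hE x hx, hE x' hx'] at this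
        linear_combination this
      have ht : t = 0 := by
        by_contra ht
        rcases mul_eq_zero.1 ((mul_eq_zero.1 d).resolve_right hj) with d | d
        · rw [sub_eq_zero.1 d, ← smul_add, smul_eq_zero] at c
          exact e' (eq_neg_of_add_eq_zero_right (c.resolve_left ht))
        · rw [eq_neg_of_add_eq_zero_left d, neg_smul, neg_add_eq_sub, ← smul_sub, smul_eq_zero] at c
          exact e (sub_eq_zero.1 (c.resolve_left ht)).symm
      rw [ht, zero_smul, add_zero, smul_eq_zero] at c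
      exact ⟨c.resolve_right (x0 x hx), ht⟩) j j
    have : (Fintype.card F : ℝ) ^ 2 * #{y | B x y = j ∧ B x' y = j} = Fintype.card V := by
      exact_mod_cast this
    rw [zero_add, le_div_iff₀ q0]
    refine le_of_eq (mul_left_cancel₀ q0.ne' ?_)
    rw [← hP, ← this]
    ring
  have v := sum_var (univ : Finset V) (fun y => #{x ∈ E | B x y = j}) (#E / Fintype.card F)
  rw [sum_card_sq, sum_card_rel, card_univ, hP] at v
  push_cast at v
  rw [sum_congr rfl c1, sum_const, nsmul_eq_mul] at v
  have v2 := sum_le_sum fun x hx => sum_le_sum (c2 x hx)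
  simp only [sum_add_distrib, sum_ite_eq, sum_const, nsmul_eq_mul] at v2
  rw [sum_congr rfl fun x hx => if_pos hx, sum_const, nsmul_eq_mul] at v2
  have v3 : ∑ y ∈ E, ((#{x ∈ E | B x y = j} : ℝ) - #E / Fintype.card F) ^ 2 ≤ #E * P ^ 2 := by
    refine (sum_le_sum_of_subset_of_nonneg (subset_univ _) fun _ _ _ => sq_nonneg _).trans ?_
    rw [v]
    refine (add_le_add_left (sub_le_sub_right v2 _) _).trans_eq ?_
    field_simp
    ring
  have v4 := (sq_sum_le_card_mul_sum_sq.trans (mul_le_mul_of_nonneg_left v3 (Nat.cast_nonneg _))).trans_eq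
    (show _ = ((#E : ℝ) * P) ^ 2 by ring)
  have v5 := (abs_le_of_sq_le_sq' v4 (by positivity)).2
  rw [sum_sub_distrib, sum_const, nsmul_eq_mul] at v5
  push_cast
  rw [sq, mul_div_assoc]
  linarith

end Pool.Agent.Lib.MP_a460e0_co.Sl
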