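import Pool.Agent.Lib.MP_a460e0_co.SlA

/-! Isotropic slicing: a set on a sphere in odd dimension contains a large isometric copy of a
set on a sphere in dimension three. -/

namespace Pool.Agent.Lib.MP_a460e0_co.Sl

open Finset

variable {F : Type} [Field F] [Fintype F] [DecidableEq F]
  {V : Type} [AddCommGroup V] [Module F V] [Fintype V] [DecidableEq V] {B : V →ₗ[F] V →ₗ[F] F}

theorem cs_image {α β : Type} [DecidableEq β] (S : Finset α) (g : α → β) :
    (#S : ℝ) ^ 2 ≤ #(S.image g) * (∑ a ∈ S, #{b ∈ S | g b = g a} : ℕ) := by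
  have h : ∀ a ∈ S, g a ∈ S.image g := fun a ha => mem_image_of_mem _ ha
  have h1 : (#S : ℝ) = ∑ t ∈ S.image g, (#{a ∈ S | g a = t} : ℝ) := by
    exact_mod_cast card_eq_sum_card_fiberwise h
  rw [h1]
  refine sq_sum_le_card_mul_sum_sq.trans (le_of_eq ?_)
  congr 1
  rw [← sum_fiberwise_of_maps_to h]
  push_cast
  refine sum_congr rfl fun t _ => ?_
  rw [sum_congr rfl (g := fun _ => (#{a ∈ S | g a = t} : ℝ)) fun a ha => by
    rw [(mem_filter.1 ha).2], sum_const, nsmul_eq_mul, sq]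

theorem alg {N K q T m : ℝ} (K1 : 1 ≤ K) (q0 : 0 < q) (N0 : 0 ≤ N) (m0 : 0 ≤ m)
    (h1 : N * K * q ^ 3 * (K - 1 / 5) ≤ T)
    (h2 : T ^ 2 ≤ K * q ^ 4 * (K + 1 / 10) * m * (T + 2 * (N * K * q ^ 3))) :
    N * K ≤ q * (K + 4) * m := by
  rcases N0.eq_or_lt with rfl | N0
  · rw [zero_mul]; positivity
  have k0 : 0 < K - 1 / 5 := by linarith
  set a := N * K * q ^ 3 with ha
  have a0 : 0 < a := by positivity
  set c := K * q ^ 4 * (K + 1 / 10) * m with hc
  have c0 : 0 ≤ c := by positivity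
  have t0 := mul_pos a0 k0
  have h3 : (a * (K - 1 / 5)) ^ 2 ≤ c * (a * (K - 1 / 5) + 2 * a) := by
    generalize a * (K - 1 / 5) = S at *
    refine le_of_mul_le_mul_right ?_ (show 0 < T + 2 * a by linarith)
    have := mul_le_mul_of_nonneg_right h2 (show 0 ≤ S + 2 * a by linarith)
    nlinarith [mul_nonneg (sub_nonneg.2 h1) (show 0 ≤ S * T + 2 * a * (S + T) by
      have : 0 < T := by linarith
      positivity)]
  have h4 : N * (K - 1 / 5) ^ 2 ≤ q * ((K + 1 / 10) * (K + 9 / 5)) * m := by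
    refine le_of_mul_le_mul_left ?_ (show 0 < a * (K * q ^ 3) by positivity)
    exact (le_of_eq (by rw [ha]; ring)).trans (h3.trans_eq (by rw [hc]; ring))
  refine le_of_mul_le_mul_right ?_ (pow_pos k0 2)
  have h5 : K * ((K + 1 / 10) * (K + 9 / 5)) ≤ (K + 4) * (K - 1 / 5) ^ 2 := by nlinarith
  have := mul_le_mul_of_nonneg_left h5 (mul_nonneg q0.le m0)
  nlinarith [mul_le_mul_of_nonneg_left h4 (show 0 ≤ K by linarith)]

omit [Fintype V] in
theorem coll {j : F} {E : Finset V} (hE : ∀ x ∈ E, B x x = j) (w u : V) :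
    ∑ y ∈ E with B y w = 0, #{x ∈ {x ∈ E | B x w = 0} | x - B x u • w = y - B y u • w} ≤
      #{x ∈ E | B x w = 0} +
        ∑ y ∈ E, #{x ∈ {x ∈ E | B x y = j} | ∃ t : F, t • (x - y) = w} := by
  rw [card_eq_sum_ones]
  refine le_trans (sum_le_sum fun y hy => ?_) ((sum_add_distrib ..).trans_le (add_le_add_right
    (sum_le_sum_of_subset (filter_subset _ _)) _))
  rw [add_comm]
  refine (card_le_card fun x hx => ?_).trans (card_insert_le y _)
  rw [mem_insert, or_iff_not_imp_left]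
  intro c
  rw [mem_filter, mem_filter] at hx ⊢
  have e : x - y = (B x u - B y u) • w := by
    rw [sub_smul, sub_eq_sub_iff_sub_eq_sub, hx.2]
  have e0 : B x u - B y u ≠ 0 := fun c' => c (by rwa [c', zero_smul, sub_eq_zero] at e)
  refine ⟨⟨hx.1.1, ?_⟩, _, by rw [e, smul_smul, inv_mul_cancel₀ e0, one_smul]⟩
  have := congrArg (B x) e
  rw [map_sub, map_smul, hx.1.2, smul_zero, hE x hx.1.1, sub_eq_zero] at this
  exact this.symm

theorem Nd.step (h : Nd B) (h2 : (2 : F) ≠ 0) {k : ℕ}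
    (hQ : Fintype.card V = Fintype.card F ^ (2 * k + 5)) (hq : 100 ≤ Fintype.card F) {j : F}
    (hj : j ≠ 0) {E : Finset V} (hE : ∀ x ∈ E, B x x = j) (E0 : E.Nonempty)
    (hN : #E ≤ Fintype.card F ^ (k + 3)) :
    ∃ w u : V, B w w = 0 ∧ B w u = 1 ∧ (#E * Fintype.card F ^ k : ℝ) ≤ Fintype.card F *
      (Fintype.card F ^ k + 4) * #({x ∈ E | B x w = 0}.image fun x => x - B x u • w) := by
  have q1 : (100 : ℝ) ≤ Fintype.card F := by exact_mod_cast hq
  have hQ' : (Fintype.card V : ℝ) = Fintype.card F ^ (2 * k + 5) := by exact_mod_cast hQ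
  have hN' : (#E : ℝ) ≤ Fintype.card F ^ (k + 3) := by exact_mod_cast hN
  have z := h.zero_pairs h2 hj hE (P := Fintype.card F ^ k * Fintype.card F ^ 2) (by positivity)
    (by rw [hQ']; ring)
  have i1 := h.iso_le h2
  have i2 := fun x (hx : x ∈ E) => h.iso_perp h2 (x := x) fun c => hj (by rw [← hE x hx, c, map_zero])
  have cq : ∀ v : V, (#{w | ∃ t : F, t • v = w} : ℝ) ≤ Fintype.card F := fun v => by
    exact_mod_cast (card_le_card fun w hw => by simpa using hw).trans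
      (card_image_le (s := univ) (f := fun t : F => t • v))
  generalize (Fintype.card F : ℝ) = q at *
  have q0 : 0 < q := by linarith
  have K1 : 1 ≤ q ^ k := one_le_pow₀ (by linarith)
  rw [pow_add] at hN'
  rw [show q ^ (2 * k + 5) = (q ^ k) ^ 2 * q ^ 5 by ring] at hQ'
  generalize q ^ k = K at *
  have r : √(Fintype.card V) ≤ K * q ^ 3 / 10 := Real.sqrt_le_iff.2 ⟨by positivity, by
    rw [hQ']
    nlinarith [mul_le_mul_of_nonneg_left q1 (show 0 ≤ K ^ 2 * q ^ 5 by positivity)]⟩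
  have r1 : 10 ≤ K * q ^ 3 := by nlinarith [pow_le_pow_left₀ (by norm_num) q1 3]
  generalize √(Fintype.card V : ℝ) = R at *
  set W : Finset V := {w | B w w = 0 ∧ w ≠ 0} with hW
  have w1 : (#W : ℝ) ≤ K * q ^ 4 * (K + 1 / 10) := by
    have : (#W : ℝ) ≤ #{w | B w w = 0} := by
      exact_mod_cast card_le_card fun w hw => by simpa using (mem_filter.1 hw).2.1
    refine this.trans (le_of_mul_le_mul_left (i1.trans ?_) q0)
    rw [hQ']
    nlinarith [mul_le_mul_of_nonneg_left r q0.le,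
      mul_le_mul_of_nonneg_left q1 (show 0 ≤ K * q ^ 4 by positivity), mul_pos q0 (pow_pos q0 3)]
  have w2 : ∀ x ∈ E, K * q ^ 3 * (K - 1 / 5) ≤ #{w ∈ W | B x w = 0} := fun x hx => by
    have a : (#{w | B w w = 0 ∧ B x w = 0} : ℝ) ≤ #{w ∈ W | B x w = 0} + 1 := by
      exact_mod_cast (card_le_card fun w hw => by
        rw [mem_insert, or_iff_not_imp_left]
        exact fun c => by simpa [hW, c] using hw).trans (card_insert_le 0 _)
    have b : K * q ^ 3 * (K - 1 / 10) ≤ #{w | B w w = 0 ∧ B x w = 0} := by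
      refine le_of_mul_le_mul_left (le_trans ?_ (i2 x hx)) (pow_pos q0 2)
      rw [hQ']
      nlinarith [mul_le_mul_of_nonneg_left r (pow_pos q0 2).le]
    linarith
  have ne : W.Nonempty := by
    obtain ⟨x, hx⟩ := E0
    have : (0 : ℝ) < #{w ∈ W | B x w = 0} := lt_of_lt_of_le (mul_pos (by linarith) (by linarith))
      (w2 x hx)
    exact (card_pos.1 (by exact_mod_cast this)).mono (filter_subset _ _)
  choose! u hu using fun w (hw : w ∈ W) => h.dual (mem_filter.1 hw).2.2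
  obtain ⟨w0, hw0, hm⟩ := exists_max_image W
    (fun w => #({x ∈ E | B x w = 0}.image fun x => x - B x (u w) • w)) ne
  refine ⟨w0, u w0, (mem_filter.1 hw0).2.1, hu w0 hw0, ?_⟩
  set m := #({x ∈ E | B x w0 = 0}.image fun x => x - B x (u w0) • w0)
  have t1 : #E * K * q ^ 3 * (K - 1 / 5) ≤ ∑ w ∈ W, (#{x ∈ E | B x w = 0} : ℝ) := by
    rw [← Nat.cast_sum, sum_card_rel, Nat.cast_sum]
    refine le_trans (le_of_eq ?_) (card_nsmul_le_sum _ _ _ w2)
    rw [nsmul_eq_mul]; ring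
  refine alg K1 q0 (Nat.cast_nonneg _) (Nat.cast_nonneg _) t1 ?_
  have t2 : ∀ w ∈ W, (#{x ∈ E | B x w = 0} : ℝ) ^ 2 ≤ m * (#{x ∈ E | B x w = 0} +
      (∑ y ∈ E, #{x ∈ {x ∈ E | B x y = j} | ∃ t : F, t • (x - y) = w} : ℕ)) := fun w hw => by
    refine (cs_image _ fun x => x - B x (u w) • w).trans (mul_le_mul ?_ ?_ (Nat.cast_nonneg _)
      (Nat.cast_nonneg _))
    · exact_mod_cast hm w hw
    · exact_mod_cast coll hE w (u w)
  have t3 : (∑ w ∈ W, ∑ y ∈ E, #{x ∈ {x ∈ E | B x y = j} | ∃ t : F, t • (x - y) = w} : ℕ) ≤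
      2 * (#E * K * q ^ 3) := by
    rw [sum_comm]
    simp only [sum_card_rel W]
    have : ∀ y ∈ E, ∑ x ∈ E with B x y = j, (#{w ∈ W | ∃ t : F, t • (x - y) = w} : ℝ) ≤
        #{x ∈ E | B x y = j} * q := fun y _ => by
      refine (sum_le_card_nsmul _ _ q fun x _ => le_trans ?_ (cq (x - y))).trans_eq
        (nsmul_eq_mul _ _)
      exact_mod_cast card_le_card (filter_subset_filter _ (subset_univ _))
    push_cast at z ⊢
    refine (sum_le_sum this).trans ?_
    rw [← sum_mul]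
    refine (mul_le_mul_of_nonneg_right z q0.le).trans ?_
    rw [add_mul, div_mul_cancel₀ _ q0.ne']
    nlinarith [mul_le_mul_of_nonneg_left hN' (Nat.cast_nonneg #E)]
  refine sq_sum_le_card_mul_sum_sq.trans ?_
  rw [mul_assoc _ (m : ℝ)]
  refine mul_le_mul w1 ((sum_le_sum t2).trans ?_) (sum_nonneg fun _ _ => sq_nonneg _)
    (by positivity)
  rw [← mul_sum, sum_add_distrib, ← Nat.cast_sum W (fun w => ∑ y ∈ E, _)]
  gcongr

end Pool.Agent.Lib.MP_a460e0_co.Sl
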