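import Mathlib

/-! A multiplicity count for a separable two variable polynomial over a domain. -/

namespace Pool.Agent.Lib.MP_a460e0_co.St

open Polynomial Finset

variable {S : Type*} [CommRing S]

/-- Outer degree `< α` and inner degree `< ε`. -/
def Bx (α ε : ℕ) (H : S[X][X]) : Prop := ∀ i j, α ≤ i ∨ ε ≤ j → (H.coeff i).coeff j = 0

theorem Bx.mono {α ε α' ε' : ℕ} {H : S[X][X]} (h : Bx α ε H) (h1 : α ≤ α') (h2 : ε ≤ ε') :
    Bx α' ε' H := fun i j hij => h i j (by omega)

theorem Bx.add {α ε : ℕ} {H G : S[X][X]} (h : Bx α ε H) (g : Bx α ε G) : Bx α ε (H + G) :=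
  fun i j hij => by simp [h i j hij, g i j hij]

theorem Bx.smul {α ε : ℕ} {H : S[X][X]} (h : Bx α ε H) (c : S) : Bx α ε (c • H) :=
  fun i j hij => by simp [h i j hij]

theorem Bx.sum {ι : Type*} {α ε : ℕ} (s : Finset ι) {f : ι → S[X][X]}
    (h : ∀ i ∈ s, Bx α ε (f i)) : Bx α ε (∑ i ∈ s, f i) := fun i j hij => by
  rw [finsetSum_coeff, finsetSum_coeff]
  exact sum_eq_zero fun k hk => h k hk i j hij

theorem Bx.mul {α ε α' ε' : ℕ} {H G : S[X][X]} (h : Bx α ε H) (g : Bx (α' + 1) (ε' + 1) G) :
    Bx (α + α') (ε + ε') (H * G) := fun i j hij => by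
  rw [coeff_mul, finsetSum_coeff]
  refine sum_eq_zero fun p hp => ?_
  rw [coeff_mul]
  refine sum_eq_zero fun q hq => ?_
  have e1 := mem_antidiagonal.1 hp
  have e2 := mem_antidiagonal.1 hq
  by_cases hc : α ≤ p.1 ∨ ε ≤ q.1
  · rw [h _ _ hc, zero_mul]
  · rw [g _ _ (by omega), mul_zero]

theorem Bx.derivative {α ε : ℕ} {H : S[X][X]} (h : Bx α ε H) : Bx α ε (derivative H) :=
  fun i j hij => by
  rw [coeff_derivative, ← Nat.cast_succ, ← C_eq_natCast, coeff_mul_C, h _ _ (by omega), zero_mul]

theorem bx_mono (i j : ℕ) : Bx (i + 1) (j + 1) (monomial i (monomial j (1 : S))) :=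
  fun k l hkl => by
  rw [coeff_monomial]
  split_ifs with h
  · rw [coeff_monomial, if_neg (by omega)]
  · simp

theorem bx_lin (x : S) : Bx 2 1 (X - C (C x) : S[X][X]) := fun k l hkl => by
  rw [coeff_sub, coeff_sub, coeff_X, coeff_C]
  rcases k with _ | _ | k
  · simp [coeff_C, show l ≠ 0 by omega]
  · simp [coeff_one, show l ≠ 0 by omega]
  · simp

theorem bx_pow (x : S) (n : ℕ) : Bx (n + 1) 1 ((X - C (C x) : S[X][X]) ^ n) := by
  induction n with
  | zero => simpa using bx_mono (S := S) 0 0
  | succ n ih => rw [pow_succ]; exact ih.mul (bx_lin x)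

theorem bx_C {ε : ℕ} {q : S[X]} (h : q.natDegree < ε) : Bx 1 ε (C q) := fun k l hkl => by
  rw [coeff_C]
  split_ifs with hk
  · exact coeff_eq_zero_of_natDegree_lt (by omega)
  · simp

/-- The polynomial with a given box of coefficients. -/
noncomputable def toP (α ε : ℕ) : (Fin α × Fin ε → S) →ₗ[S] S[X][X] :=
  Fintype.linearCombination S fun ij => monomial ij.1.1 (monomial ij.2.1 (1 : S))

theorem bx_toP (α ε : ℕ) (c : Fin α × Fin ε → S) : Bx α ε (toP α ε c) := by
  rw [toP, Fintype.linearCombination_apply]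
  exact Bx.sum _ fun ij _ => ((bx_mono _ _).mono ij.1.2 ij.2.2).smul _

theorem toP_eq_zero {α ε : ℕ} {c : Fin α × Fin ε → S} (h : toP α ε c = 0) : c = 0 := by
  funext ij
  have := congrArg (fun H : S[X][X] => (H.coeff ij.1.1).coeff ij.2.1) h
  simp only [toP, Fintype.linearCombination_apply, finsetSum_coeff, coeff_smul, coeff_zero] at this
  rw [sum_eq_single ij] at this
  · simpa using this
  · intro kl _ hkl
    rw [coeff_monomial]
    split_ifs with h1
    · rw [coeff_monomial, if_neg, smul_zero]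
      intro h2
      exact hkl (Prod.ext (Fin.ext h1) (Fin.ext h2))
    · simp
  · simp

/-- The box of coefficients of a polynomial. -/
noncomputable def co (α ε : ℕ) : S[X][X] →ₗ[S] (Fin α × Fin ε → S) :=
  LinearMap.pi fun ij => (lcoeff S ij.2.1).comp ((lcoeff S[X] ij.1.1).restrictScalars S)

theorem co_eq_zero {α ε : ℕ} {H : S[X][X]} (h : Bx α ε H) (h0 : co α ε H = 0) : H = 0 := by
  ext i j
  by_cases hc : α ≤ i ∨ ε ≤ j
  · simpa using h i j hc
  · simpa [co] using congrFun h0 (⟨i, by omega⟩, ⟨j, by omega⟩)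

/-- If `G` is coprime to its derivative in the weak sense `hsep` and has a root of order `μ` on
each of the fibres `u P`, then the number of fibres is small. -/
theorem core [IsDomain S] {ι : Type*} (Λ : Finset ι) (x u : ι → S) (hu : Set.InjOn u Λ)
    (G : S[X][X]) (a μ : ℕ) (hG : G ≠ 0) (ha : ∀ i j, a < j → (G.coeff i).coeff j = 0)
    (hsep : ∀ A B : S[X][X], B.degree < G.degree → A * G + B * derivative G = 0 → B = 0)
    (hdiv : ∀ P ∈ Λ, (X - C (x P)) ^ μ ∣ G.map (evalRingHom (u P))) :
    Λ.card * (μ - 1) ≤ (μ + 2 * G.natDegree) * a := by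
  classical
  set d := G.natDegree with hd
  set ε := Λ.card with hε
  have bG : Bx (d + 1) (a + 1) G := fun i j hij => by
    rcases hij with h | h
    · rw [coeff_eq_zero_of_natDegree_lt (show G.natDegree < i by omega), coeff_zero]
    · exact ha i j h
  let e : ι → S[X] := fun P => ∏ Q ∈ Λ.erase P, (X - C (u Q))
  have he : ∀ P ∈ Λ, (e P).natDegree < ε := fun P hP => by
    rw [natDegree_prod_of_monic _ _ fun Q _ => monic_X_sub_C _]
    simp only [natDegree_X_sub_C, sum_const, smul_eq_mul, mul_one]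
    exact card_erase_lt_of_mem hP
  let w : Λ × Fin (μ - 1) → S[X][X] := fun Pi => C (e Pi.1) * (X - C (C (x Pi.1))) ^ Pi.2.1
  let Φ : ((Fin (μ + d) × Fin ε → S) × (Fin d × Fin ε → S) × (Λ × Fin (μ - 1) → S)) →ₗ[S]
      S[X][X] :=
    (((LinearMap.mulRight S G).comp (toP _ _)).coprod
      ((((LinearMap.mulRight S (derivative G)).comp (toP _ _))).coprod
        (Fintype.linearCombination S w)))
  have hΦ : ∀ v, Φ v = toP _ _ v.1 * G + (toP _ _ v.2.1 * derivative G
      + ∑ Pi, v.2.2 Pi • w Pi) := fun v => by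
    simp [Φ, Fintype.linearCombination_apply]
  have hb : ∀ v, Bx (μ + 2 * d) (ε + a) (Φ v) := fun v => by
    rw [hΦ]
    refine (((bx_toP _ _ _).mul bG).mono (by omega) le_rfl).add
      ((((bx_toP _ _ _).mul bG.derivative).mono (by omega) le_rfl).add
        (Bx.sum _ fun Pi _ => Bx.smul ?_ _))
    have := Pi.2.2
    exact ((bx_C (he _ Pi.1.2)).mul (bx_pow _ _)).mono (by omega) (by omega)
  have hinj : Function.Injective ((co (μ + 2 * d) (ε + a)).comp Φ) := by
    rw [injective_iff_map_eq_zero]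
    intro v hv
    have h0 := co_eq_zero (hb v) hv
    rw [hΦ] at h0
    have hc : v.2.2 = 0 := by
      funext ⟨P, i⟩
      have h1 := congrArg (Polynomial.map (evalRingHom (u P))) h0
      simp only [Polynomial.map_add, Polynomial.map_mul, Polynomial.map_zero,
        ← derivative_map] at h1
      have d1 := hdiv P P.2
      have d2 : (X - C (x P)) ^ (μ - 1) ∣
          (∑ Pi, v.2.2 Pi • w Pi).map (evalRingHom (u P)) := by
        rw [← add_assoc, add_eq_zero_iff_neg_eq] at h1
        rw [← h1, dvd_neg]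
        exact dvd_add (((pow_dvd_pow _ (Nat.sub_le _ _)).trans d1).mul_left _)
          ((pow_sub_one_dvd_derivative_of_pow_dvd d1).mul_left _)
      have hz : ∀ Q : Λ, Q ≠ P → (e Q).eval (u P) = 0 := fun Q hQ => by
        rw [eval_prod]
        exact prod_eq_zero (mem_erase.2 ⟨fun h => hQ (Subtype.ext h.symm), P.2⟩) (by simp)
      have hn : (e P).eval (u P) ≠ 0 := by
        rw [eval_prod]
        refine prod_ne_zero_iff.2 fun Q hQ => ?_
        simp only [eval_sub, eval_X, eval_C, sub_ne_zero]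
        exact fun h => (mem_erase.1 hQ).1 (hu (mem_erase.1 hQ).2 P.2 h.symm)
      have e3 : (∑ Pi, v.2.2 Pi • w Pi).map (evalRingHom (u P)) =
          ∑ j : Fin (μ - 1), C (v.2.2 (P, j) * (e P).eval (u P)) * (X - C (x P)) ^ j.1 := by
        rw [Polynomial.map_sum, Fintype.sum_prod_type, sum_eq_single P]
        · refine sum_congr rfl fun j _ => ?_
          simp [w, Algebra.smul_def, mul_assoc]
        · intro Q _ hQ
          refine sum_eq_zero fun j _ => ?_
          simp [w, Algebra.smul_def, hz Q hQ]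
        · simp
      rw [e3, X_sub_C_pow_dvd_iff, X_pow_dvd_iff] at d2
      have h4 := d2 i.1 i.2
      simp only [Polynomial.sum_comp, mul_comp, C_comp, pow_comp, sub_comp, X_comp, add_sub_cancel_right,
        finsetSum_coeff, coeff_C_mul, coeff_X_pow] at h4
      rw [sum_eq_single i] at h4
      · simpa [hn] using h4
      · intro j _ hj
        rw [if_neg (fun h => hj (Fin.ext h.symm)), mul_zero]
      · simp
    simp only [hc, Pi.zero_apply, zero_smul, sum_const_zero, add_zero] at h0
    have hB : toP d ε v.2.1 = 0 := by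
      refine hsep _ _ ?_ h0
      rw [degree_eq_natDegree hG, degree_lt_iff_coeff_zero]
      intro m hm
      ext j
      exact bx_toP _ _ _ m j (Or.inl hm)
    rw [hB, zero_mul, add_zero, mul_eq_zero, or_iff_left hG] at h0
    exact Prod.ext (toP_eq_zero h0) (Prod.ext (toP_eq_zero hB) hc)
  have := LinearMap.finrank_le_finrank_of_injective hinj
  simp only [Module.finrank_prod, Module.finrank_fintype_fun_eq_card, Fintype.card_prod,
    Fintype.card_fin, Fintype.card_coe] at this
  nlinarith

end Pool.Agent.Lib.MP_a460e0_co.St
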